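import Mathlib
import Pool.Agent.Lib.MP_695920_nt.Od.Defs

/-!
Definitions for the results about the `l`-torsion, `l` an odd prime.
-/

set_option autoImplicit false

open NumberField Module

namespace Pool.Agent.Lib.MP_695920_nt.Gl

/-- `E` contains `z + z⁻¹` for a primitive `l`-th root of unity `z` -/
def RC (l : ℕ) (E : Type) [Field E] : Prop :=
  ∃ (z : AlgebraicClosure E) (y : E), IsPrimitiveRoot z l ∧
    algebraMap E (AlgebraicClosure E) y = z + z⁻¹

/-- `E` contains no primitive `l`-th root of unity -/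
def NC (l : ℕ) (E : Type) [Field E] : Prop := ∀ x : E, ¬ IsPrimitiveRoot x l

/-- some prime of `E` above `p` has norm `-1` modulo `l` -/
def NormNeg (l : ℕ) (E : Type) [Field E] [NumberField E] (p : ℕ) : Prop :=
  ∃ q : Ideal (𝓞 E), q.IsPrime ∧ (p : 𝓞 E) ∈ q ∧ Ideal.absNorm q % l = l - 1

/-- the number of classes killed by `l` -/
noncomputable def tl (l : ℕ) (K : Type) [Field K] [NumberField K] : ℕ :=
  Nat.card {x : ClassGroup (𝓞 K) // x ^ l = 1}

/-- `1 + σ + ... + σ ^ (l - 1)` -/
def NL (l : ℕ) {M : Type*} [AddCommGroup M] (σ : M →+ M) : M →+ M where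
  toFun x := ∑ i ∈ Finset.range l, σ^[i] x
  map_zero' := Finset.sum_eq_zero fun i _ => iterate_map_zero σ i
  map_add' x y := by
    rw [← Finset.sum_add_distrib]
    exact Finset.sum_congr rfl fun i _ => iterate_map_add σ i x y

lemma NL_apply (l : ℕ) {M : Type*} [AddCommGroup M] (σ : M →+ M) (x : M) :
    NL l σ x = ∑ i ∈ Finset.range l, σ^[i] x := rfl

end Pool.Agent.Lib.MP_695920_nt.Gl
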