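import Mathlib
import Pool.Agent.Lib.MP_695920_nt.Gl.Defs

/-!
Adjunction of the `l`-th roots of unity.
-/

set_option autoImplicit false

open Finset NumberField Module
open scoped IntermediateField

namespace Pool.Agent.Lib.MP_695920_nt.Gl

theorem exists_adjoin_l {l : ℕ} (hl : l.Prime) (hl2 : l ≠ 2) (E : Type) [Field E] [NumberField E]
    (hR : RC l E) (hN : NC l E) :
    ∃ (K' : Type) (_ : Field K') (_ : NumberField K') (_ : Algebra E K') (z : 𝓞 K'),
      finrank E K' = 2 ∧ IsPrimitiveRoot z l ∧ E⟮(z : K')⟯ = ⊤ := by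
  obtain ⟨z, y, hz, hy⟩ := hR
  have hz0 : z ≠ 0 := hz.ne_zero hl.ne_zero
  let f : Polynomial E := Polynomial.X ^ 2 - Polynomial.C y * Polynomial.X + Polynomial.C 1
  have hdeg : f.natDegree = 2 := by
    simp only [f]
    compute_degree!
  have hf0 : f ≠ 0 := by
    intro h
    rw [h] at hdeg
    simp at hdeg
  have hmap : ∀ {x : E}, IsPrimitiveRoot (algebraMap E (AlgebraicClosure E) x) l → False := by
    intro x hx
    exact hN x (IsPrimitiveRoot.of_map_of_injective (f := algebraMap E (AlgebraicClosure E)) hx
      (algebraMap E (AlgebraicClosure E)).injective)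
  have hirr : Irreducible f := by
    rw [Polynomial.irreducible_iff_roots_eq_zero_of_degree_le_three (by omega) (by omega)]
    by_contra h
    obtain ⟨x, hx⟩ := Multiset.exists_mem_of_ne_zero h
    rw [Polynomial.mem_roots hf0] at hx
    have h1 : f.eval x = 0 := hx
    simp only [f, Polynomial.eval_add, Polynomial.eval_sub, Polynomial.eval_mul,
      Polynomial.eval_pow, Polynomial.eval_X, Polynomial.eval_C] at h1
    have h2 := congrArg (algebraMap E (AlgebraicClosure E)) h1
    rw [map_add, map_sub, map_mul, map_pow, hy, map_one, map_zero] at h2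
    have h3 : (algebraMap E (AlgebraicClosure E) x - z) *
        (algebraMap E (AlgebraicClosure E) x - z⁻¹) = 0 := by
      have h4 : z * z⁻¹ = 1 := mul_inv_cancel₀ hz0
      linear_combination h2 + h4
    rcases mul_eq_zero.mp h3 with h4 | h4
    · apply hmap (x := x)
      rw [sub_eq_zero.mp h4]
      exact hz
    · apply hmap (x := x)
      rw [sub_eq_zero.mp h4]
      exact hz.inv
  have hfact : Fact (Irreducible f) := ⟨hirr⟩
  have hfin : finrank E (AdjoinRoot f) = 2 := by
    rw [← hdeg]
    exact (AdjoinRoot.powerBasis hf0).finrank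
  have hfd : Module.Finite E (AdjoinRoot f) := Module.finite_of_finrank_pos (by omega)
  have hcz : CharZero (AdjoinRoot f) :=
    charZero_of_injective_algebraMap (algebraMap E (AdjoinRoot f)).injective
  have hfd2 : Module.Finite ℚ (AdjoinRoot f) := Module.Finite.trans E (AdjoinRoot f)
  have hnf : NumberField (AdjoinRoot f) := ⟨⟩
  have hroot : f.eval₂ (algebraMap E (AlgebraicClosure E)) z = 0 := by
    simp only [f, Polynomial.eval₂_add, Polynomial.eval₂_sub, Polynomial.eval₂_mul,
      Polynomial.eval₂_pow, Polynomial.eval₂_X, Polynomial.eval₂_C]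
    rw [hy, map_one]
    have h4 : z * z⁻¹ = 1 := mul_inv_cancel₀ hz0
    linear_combination -h4
  have hprim : IsPrimitiveRoot (AdjoinRoot.root f) l := by
    let φ : AdjoinRoot f →+* AlgebraicClosure E :=
      AdjoinRoot.lift (algebraMap E (AlgebraicClosure E)) z hroot
    apply IsPrimitiveRoot.of_map_of_injective (f := φ) _ φ.injective
    rw [AdjoinRoot.lift_root]
    exact hz
  have hnz : NeZero l := ⟨hl.ne_zero⟩
  refine ⟨AdjoinRoot f, inferInstance, hnf, inferInstance, hprim.toInteger, hfin,
    hprim.toInteger_isPrimitiveRoot, ?_⟩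
  exact IntermediateField.adjoin_root_eq_top f

end Pool.Agent.Lib.MP_695920_nt.Gl
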