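import Mathlib
import Pool.Agent.Lib.MP_695920_nt.Gl.Defs

set_option autoImplicit false

open Finset NumberField Module IsDedekindDomain
open scoped nonZeroDivisors Pointwise IntermediateField ENNReal NNReal

namespace Pool.Agent.Lib.MP_695920_nt.Gl

open MeasureTheory mixedEmbedding

section box

variable {K : Type} [Field K] [NumberField K]

/-- the lattice of a fractional ideal -/
abbrev Lt (J : (FractionalIdeal (𝓞 K)⁰ K)ˣ) : Submodule ℤ (mixedSpace K) :=
  Submodule.span ℤ (Set.range (fractionalIdealLatticeBasis K J))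

/-- the number of lattice points `g` with `x ∈ g + T` -/
noncomputable def cnt (J : (FractionalIdeal (𝓞 K)⁰ K)ˣ) (T : Set (mixedSpace K))
    (x : mixedSpace K) : ℝ≥0∞ := (({g : Lt J | x - (g : mixedSpace K) ∈ T} : Set (Lt J)).encard : ℝ≥0∞)

open scoped Classical in
theorem volume_eq_cnt (J : (FractionalIdeal (𝓞 K)⁰ K)ˣ) {T : Set (mixedSpace K)}
    (hT : MeasurableSet T) :
    volume T = ∫⁻ x in ZSpan.fundamentalDomain (fractionalIdealLatticeBasis K J), cnt J T x := by
  have h_fund := ZSpan.isAddFundamentalDomain (fractionalIdealLatticeBasis K J)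
    (volume : Measure (mixedSpace K))
  have : Countable (Lt J) := inferInstance
  have : VAddInvariantMeasure (Lt J) (mixedSpace K) volume :=
    inferInstanceAs (VAddInvariantMeasure (Lt J).toAddSubgroup (mixedSpace K) volume)
  have h1 := h_fund.lintegral_eq_tsum' (T.indicator 1)
  rw [lintegral_indicator_one hT] at h1
  rw [h1, ← lintegral_tsum]
  · apply lintegral_congr
    intro x
    unfold cnt
    rw [← ENNReal.tsum_set_one]
    refine Eq.trans ?_ (_root_.tsum_subtype {g : Lt J | x - (g : mixedSpace K) ∈ T}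
      (fun _ => (1 : ℝ≥0∞))).symm
    apply tsum_congr
    intro g
    have h2 : -g +ᵥ x = x - (g : mixedSpace K) := by
      show ((-g : Lt J) : mixedSpace K) + x = _
      push_cast
      abel
    rw [h2]
    rfl
  · intro g
    have h3 : (fun x : mixedSpace K => T.indicator (1 : mixedSpace K → ℝ≥0∞) (-g +ᵥ x)) =
        (T.indicator 1) ∘ fun x : mixedSpace K => ((-g : Lt J) : mixedSpace K) + x := rfl
    rw [h3]
    refine Measurable.aemeasurable ?_
    exact (measurable_one.indicator hT).comp (measurable_const_add _)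

open scoped Classical in
theorem volume_le_of_cnt (J : (FractionalIdeal (𝓞 K)⁰ K)ˣ) {T : Set (mixedSpace K)}
    (hT : MeasurableSet T) (M : ℝ≥0∞) (hM : ∀ x, cnt J T x ≤ M) :
    volume T ≤ M * volume (ZSpan.fundamentalDomain (fractionalIdealLatticeBasis K J)) := by
  rw [volume_eq_cnt J hT, ← setLIntegral_const]
  exact lintegral_mono fun x => hM x

open scoped Classical in
theorem le_volume_of_cnt (J : (FractionalIdeal (𝓞 K)⁰ K)ˣ) {T : Set (mixedSpace K)}
    (hT : MeasurableSet T) (M : ℝ≥0∞) (hM : ∀ x, M ≤ cnt J T x) :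
    M * volume (ZSpan.fundamentalDomain (fractionalIdealLatticeBasis K J)) ≤ volume T := by
  rw [volume_eq_cnt J hT, ← setLIntegral_const]
  exact lintegral_mono fun x => hM x

open scoped Classical in
theorem measurable_box (f : InfinitePlace K → ℝ≥0) : MeasurableSet (convexBodyLT K f) :=
  (MeasurableSet.univ_pi fun _ => measurableSet_ball).prod
    (MeasurableSet.univ_pi fun _ => measurableSet_ball)

omit [NumberField K] in
theorem box_sub {f g h : InfinitePlace K → ℝ≥0} (hfg : ∀ w, f w + g w ≤ h w) {x y : mixedSpace K}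
    (hx : x ∈ convexBodyLT K f) (hy : y ∈ convexBodyLT K g) : x - y ∈ convexBodyLT K h := by
  simp only [Set.mem_prod, Set.mem_pi, Set.mem_univ, mem_ball_zero_iff, forall_true_left,
    Prod.fst_sub, Prod.snd_sub, Pi.sub_apply] at hx hy ⊢
  constructor
  · intro w
    have h1 : ((f w.1 + g w.1 : ℝ≥0) : ℝ) ≤ h w.1 := by exact_mod_cast hfg w.1
    push_cast at h1
    have h2 := norm_sub_le (x.1 w) (y.1 w)
    have h3 := hx.1 w
    have h4 := hy.1 w
    linarith
  · intro w
    have h1 : ((f w.1 + g w.1 : ℝ≥0) : ℝ) ≤ h w.1 := by exact_mod_cast hfg w.1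
    push_cast at h1
    have h2 := norm_sub_le (x.2 w) (y.2 w)
    have h3 := hx.2 w
    have h4 := hy.2 w
    linarith

theorem finite_box (B : ℝ) (p : 𝓞 K → Prop) (hp : ∀ a, p a → ∀ w : InfinitePlace K, w (a : K) ≤ B) :
    {a : 𝓞 K | p a}.Finite := by
  have h1 := Embeddings.finite_of_norm_le K ℂ B
  refine (h1.preimage (f := fun a : 𝓞 K => (a : K))
    (RingOfIntegers.coe_injective).injOn).subset ?_
  intro a ha
  refine ⟨a.isIntegral_coe, fun φ => ?_⟩
  have := hp a ha (InfinitePlace.mk φ)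
  rwa [InfinitePlace.apply] at this

end box

/-! R1: BoxMany.lean -/
theorem many_in_box (K : Type) [Field K] [NumberField K] {I : Ideal (𝓞 K)} (hI : I ≠ ⊥)
    (f : InfinitePlace K → ℝ) (hf : ∀ w, 0 < f w) :
    ∏ w, f w ^ w.mult ≤ Real.sqrt |(discr K : ℝ)| * Ideal.absNorm I *
      Nat.card {a : 𝓞 K // a ∈ I ∧ ∀ w : InfinitePlace K, w (a : K) < f w} := by
  classical
  set J : (FractionalIdeal (𝓞 K)⁰ K)ˣ :=
    Units.mk0 (I : FractionalIdeal (𝓞 K)⁰ K) (by simpa using hI) with hJ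
  set S : Set (𝓞 K) := {a : 𝓞 K | a ∈ I ∧ ∀ w : InfinitePlace K, w (a : K) < f w} with hS
  set F : InfinitePlace K → ℝ≥0 := fun w => ⟨f w / 2, (half_pos (hf w)).le⟩ with hF
  set F2 : InfinitePlace K → ℝ≥0 := fun w => ⟨f w, (hf w).le⟩ with hF2
  obtain ⟨B, hB⟩ : ∃ B, ∀ w, f w ≤ B := by
    obtain ⟨B, hB⟩ := (Set.finite_range f).bddAbove
    exact ⟨B, fun w => hB ⟨w, rfl⟩⟩
  have hSf : S.Finite := finite_box B (fun a => a ∈ I ∧ ∀ w : InfinitePlace K, w (a : K) < f w)
    fun a ha w => (ha.2 w).le.trans (hB w)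
  have hlat : ∀ g : Lt J, ∃ a : 𝓞 K, a ∈ I ∧ mixedEmbedding K (a : K) = g := by
    intro g
    obtain ⟨a, ha, hag⟩ := (mem_span_fractionalIdealLatticeBasis K J).mp g.2
    have ha' : a ∈ (I : FractionalIdeal (𝓞 K)⁰ K) := ha
    obtain ⟨b, hb, rfl⟩ := (FractionalIdeal.mem_coeIdeal _).mp ha'
    exact ⟨b, hb, hag⟩
  choose α hα hαg using hlat
  have hcnt : ∀ x, cnt J (convexBodyLT K F) x ≤ ((S.ncard : ℕ) : ℝ≥0∞) := by
    intro x
    unfold cnt
    have hS2 : ((S.ncard : ℕ) : ℝ≥0∞) = ((S.encard : ℕ∞) : ℝ≥0∞) := by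
      rw [← hSf.cast_ncard_eq]
      rfl
    rw [hS2]
    apply ENat.toENNReal_le.mpr
    rcases Set.eq_empty_or_nonempty {g : Lt J | x - (g : mixedSpace K) ∈ convexBodyLT K F} with
      he | ⟨g0, hg0⟩
    · rw [he]
      simp
    · refine Set.encard_le_encard_of_injOn (f := fun g => α g0 - α g) ?_ ?_
      · intro g hg
        refine ⟨Ideal.sub_mem _ (hα g0) (hα g), ?_⟩
        have h1 : mixedEmbedding K ((α g0 - α g : 𝓞 K) : K) ∈ convexBodyLT K F2 := by
          have h2 : mixedEmbedding K ((α g0 - α g : 𝓞 K) : K) =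
              (x - (g : mixedSpace K)) - (x - (g0 : mixedSpace K)) := by
            rw [← hαg g0, ← hαg g]
            push_cast
            rw [map_sub]
            abel
          rw [h2]
          refine box_sub ?_ hg hg0
          intro w
          apply le_of_eq
          apply NNReal.coe_injective
          push_cast
          exact add_halves (f w)
        exact (convexBodyLT_mem K F2).mp h1
      · intro g _ g' _ hgg
        have h1 : α g = α g' := by simpa using hgg
        apply Subtype.ext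
        rw [← hαg g, ← hαg g', h1]
  have hvol := volume_le_of_cnt J (measurable_box F) _ hcnt
  rw [convexBodyLT_volume, volume_fundamentalDomain_fractionalIdealLatticeBasis,
    volume_fundamentalDomain_latticeBasis] at hvol
  have hJn : (FractionalIdeal.absNorm (J : FractionalIdeal (𝓞 K)⁰ K) : ℚ) = Ideal.absNorm I := by
    rw [hJ, Units.val_mk0, FractionalIdeal.coeIdeal_absNorm]
  rw [hJn] at hvol
  have hfin : ((S.ncard : ℕ) : ℝ≥0∞) * (ENNReal.ofReal (((Ideal.absNorm I : ℕ) : ℚ) : ℝ) *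
      ((2 : ℝ≥0∞)⁻¹ ^ InfinitePlace.nrComplexPlaces K * (NNReal.sqrt ‖discr K‖₊ : ℝ≥0∞))) ≠ ⊤ := by
    refine ENNReal.mul_ne_top (ENNReal.natCast_ne_top _) (ENNReal.mul_ne_top ENNReal.ofReal_ne_top
      (ENNReal.mul_ne_top (ENNReal.pow_ne_top ?_) ENNReal.coe_ne_top))
    simp
  have hvol2 := ENNReal.toReal_mono hfin hvol
  simp only [ENNReal.toReal_mul, ENNReal.toReal_natCast, ENNReal.toReal_pow, ENNReal.toReal_inv,
    ENNReal.coe_toReal, ENNReal.toReal_ofNat] at hvol2
  rw [ENNReal.toReal_ofReal (by positivity)] at hvol2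
  have hcard : (Nat.card {a : 𝓞 K // a ∈ I ∧ ∀ w : InfinitePlace K, w (a : K) < f w} : ℝ) =
      S.ncard := by
    rw [← Nat.card_coe_set_eq]
    rfl
  rw [hcard]
  push_cast at hvol2
  rw [Int.norm_eq_abs] at hvol2
  have hprod : ∏ w : InfinitePlace K, ((F w : ℝ≥0) : ℝ) ^ w.mult =
      (∏ w, f w ^ w.mult) / 2 ^ (InfinitePlace.nrRealPlaces K + 2 * InfinitePlace.nrComplexPlaces K) := by
    rw [InfinitePlace.card_add_two_mul_card_eq_rank, ← InfinitePlace.sum_mult_eq,
      ← Finset.prod_pow_eq_pow_sum, ← Finset.prod_div_distrib]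
    refine Finset.prod_congr rfl fun w _ => ?_
    rw [← div_pow]
    rfl
  rw [hprod] at hvol2
  set P := ∏ w, f w ^ w.mult with hP
  have hP0 : 0 ≤ P := Finset.prod_nonneg fun w _ => pow_nonneg (hf w).le _
  set r1 := InfinitePlace.nrRealPlaces K
  set r2 := InfinitePlace.nrComplexPlaces K
  set D := Real.sqrt |(discr K : ℝ)|
  have hpi : (1 : ℝ) ≤ (Real.pi / 2) ^ r2 := by
    apply one_le_pow₀
    have := Real.pi_gt_three
    linarith
  have e1 : (2 : ℝ) ^ r2 * (2 ^ r1 * ((NNReal.pi : ℝ≥0) : ℝ) ^ r2 * (P / 2 ^ (r1 + 2 * r2))) =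
      (Real.pi / 2) ^ r2 * P := by
    rw [NNReal.coe_real_pi, div_pow, pow_add, pow_mul]
    have h4 : ((2 : ℝ) ^ 2) ^ r2 = 2 ^ r2 * 2 ^ r2 := by
      rw [← pow_mul, two_mul, pow_add]
    rw [h4]
    field_simp
  have e2 : (2 : ℝ) ^ r2 * ((S.ncard : ℝ) * ((Ideal.absNorm I : ℝ) * (2⁻¹ ^ r2 * D))) =
      D * (Ideal.absNorm I : ℝ) * S.ncard := by
    rw [inv_pow]
    field_simp
  have h5 := mul_le_mul_of_nonneg_left hvol2 (by positivity : (0 : ℝ) ≤ 2 ^ r2)
  rw [e1, e2] at h5
  exact (le_mul_of_one_le_left hP0 hpi).trans h5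

end Pool.Agent.Lib.MP_695920_nt.Gl
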