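import Mathlib
import Pool.Agent.Lib.MP_695920_nt.Gl.BoxMany
import Pool.Agent.Lib.MP_695920_nt.Od.Cover

set_option autoImplicit false

open Finset NumberField Module IsDedekindDomain
open scoped nonZeroDivisors Pointwise IntermediateField ENNReal NNReal

namespace Pool.Agent.Lib.MP_695920_nt.Gl

open MeasureTheory mixedEmbedding

theorem isOpen_box {K : Type} [Field K] [NumberField K] (f : InfinitePlace K → ℝ≥0) :
    IsOpen (convexBodyLT K f) :=
  (isOpen_set_pi Set.finite_univ fun _ _ => Metric.isOpen_ball).prod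
    (isOpen_set_pi Set.finite_univ fun _ _ => Metric.isOpen_ball)

theorem exists_near (E : Type) [Field E] [NumberField E] (x : mixedSpace E) :
    ∃ y : E, x - mixedEmbedding E y ∈ convexBodyLT E fun _ => 1 := by
  classical
  set B := mixedEmbedding.latticeBasis E with hB
  have hd : DenseRange (Pi.map (fun _ : Free.ChooseBasisIndex ℤ (𝓞 E) => ((↑) : ℚ → ℝ))) :=
    DenseRange.piMap fun _ => Rat.denseRange_cast
  have hc : Continuous fun c : Free.ChooseBasisIndex ℤ (𝓞 E) → ℝ => x - ∑ i, c i • B i := by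
    fun_prop
  have ho : IsOpen ((fun c : Free.ChooseBasisIndex ℤ (𝓞 E) → ℝ => x - ∑ i, c i • B i) ⁻¹'
      (convexBodyLT E fun _ => 1)) := (isOpen_box _).preimage hc
  obtain ⟨r, hr⟩ := hd.exists_mem_open ho ⟨fun i => B.repr x i, by
    show x - ∑ i, B.repr x i • B i ∈ (convexBodyLT E fun _ => 1)
    rw [B.sum_repr, sub_self]
    simp⟩
  refine ⟨∑ i, ((r i : ℚ) : E) * integralBasis E i, ?_⟩
  have h1 : mixedEmbedding E (∑ i, ((r i : ℚ) : E) * integralBasis E i) =
      ∑ i, (r i : ℝ) • B i := by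
    rw [map_sum]
    refine Finset.sum_congr rfl fun i _ => ?_
    rw [hB, latticeBasis_apply, map_mul]
    have h2 : mixedEmbedding E ((r i : ℚ) : E) = ((r i : ℝ) : ℝ) • (1 : mixedSpace E) := by
      refine Prod.ext (funext fun w => ?_) (funext fun w => ?_)
      · rw [mixedEmbedding_apply_isReal, map_ratCast]
        simp
      · rw [mixedEmbedding_apply_isComplex, map_ratCast]
        simp
    rw [h2, smul_mul_assoc, one_mul]
  rw [h1]
  exact hr

/-! R2: BoxFew.lean -/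
theorem few_in_box (n : ℕ) : ∃ (C : ℝ) (A : ℕ), 0 < C ∧
    ∀ (E : Type) [Field E] [NumberField E], finrank ℚ E = n →
      ∀ Z : ℝ, 2 ≤ Z → |(discr E : ℝ)| ^ A ≤ Z →
        Real.sqrt |(discr E : ℝ)| *
          Nat.card {b : 𝓞 E // ∀ v : InfinitePlace E, v (b : E) ≤ Z} ≤ C * Z ^ n := by
  obtain ⟨C, hC⟩ := Od.cover n
  refine ⟨(2 * Real.pi * (2 ^ C + 4)) ^ n, C, by positivity, ?_⟩
  intro E _ _ hE Z hZ hD
  classical
  set J : (FractionalIdeal (𝓞 E)⁰ E)ˣ := 1 with hJ
  set S : Set (𝓞 E) := {b : 𝓞 E | ∀ v : InfinitePlace E, v (b : E) ≤ Z} with hS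
  have hZ0 : (0 : ℝ) ≤ Z := by linarith
  set R : InfinitePlace E → ℝ≥0 := fun _ => ⟨(2 ^ C + 4) * Z, by positivity⟩ with hR
  set R1 : InfinitePlace E → ℝ≥0 := fun _ => ⟨2 ^ C * Z + 2, by positivity⟩ with hR1
  set R2 : InfinitePlace E → ℝ≥0 := fun _ => ⟨2 ^ C * Z + 1, by positivity⟩ with hR2
  set R3 : InfinitePlace E → ℝ≥0 := fun _ => ⟨Z + 1, by positivity⟩ with hR3
  have hcov : ∀ x : mixedSpace E, ∃ β : 𝓞 E,
      x - mixedEmbedding E (β : E) ∈ convexBodyLT E R1 := by
    intro x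
    obtain ⟨y, hy⟩ := exists_near E x
    have hd1 : 1 ≤ (discr E).natAbs := Nat.one_le_iff_ne_zero.mpr
      (Int.natAbs_ne_zero.mpr (discr_ne_zero E))
    have hcast : (((discr E).natAbs : ℕ) : ℝ) = |(discr E : ℝ)| := by
      rw [Nat.cast_natAbs, Int.cast_abs]
    obtain ⟨β, hβ⟩ := hC E hE (2 * (discr E).natAbs) (by omega) (by
      push_cast
      rw [hcast]
      have := abs_nonneg (discr E : ℝ)
      linarith) y
    refine ⟨β, ?_⟩
    have h1 : mixedEmbedding E ((β : E) - y) ∈ convexBodyLT E R2 := by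
      rw [convexBodyLT_mem]
      intro w
      have h2 := hβ w.embedding
      push_cast at h2
      rw [hcast, mul_pow, InfinitePlace.norm_embedding_eq] at h2
      have h3 : w ((β : E) - y) = w (y - (β : E)) := by
        rw [← InfinitePlace.norm_embedding_eq, ← InfinitePlace.norm_embedding_eq, map_sub, map_sub,
          norm_sub_rev]
      rw [h3]
      have h4 : (2 : ℝ) ^ C * |(discr E : ℝ)| ^ C ≤ 2 ^ C * Z :=
        mul_le_mul_of_nonneg_left hD (by positivity)
      show w (y - (β : E)) < 2 ^ C * Z + 1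
      linarith
    have h5 : x - mixedEmbedding E (β : E) = (x - mixedEmbedding E y) -
        mixedEmbedding E ((β : E) - y) := by
      rw [map_sub]
      abel
    rw [h5]
    refine box_sub (f := fun _ => 1) (g := R2) ?_ hy h1
    intro w
    apply NNReal.coe_le_coe.mp
    push_cast
    show (1 : ℝ) + (2 ^ C * Z + 1) ≤ 2 ^ C * Z + 2
    linarith
  have hSf : S.Finite := finite_box Z (fun b => ∀ v : InfinitePlace E, v (b : E) ≤ Z)
    fun a ha w => ha w
  have hcnt : ∀ x, ((S.ncard : ℕ) : ℝ≥0∞) ≤ cnt J (convexBodyLT E R) x := by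
    intro x
    unfold cnt
    have hS2 : ((S.ncard : ℕ) : ℝ≥0∞) = ((S.encard : ℕ∞) : ℝ≥0∞) := by
      rw [← hSf.cast_ncard_eq]
      rfl
    rw [hS2]
    apply ENat.toENNReal_le.mpr
    obtain ⟨β, hβ⟩ := hcov x
    have hmem : ∀ b : 𝓞 E, mixedEmbedding E (b : E) ∈ Lt J := by
      intro b
      rw [mem_span_fractionalIdealLatticeBasis]
      refine ⟨(b : E), ?_, rfl⟩
      rw [hJ, Units.val_one]
      exact (FractionalIdeal.mem_one_iff _).mpr ⟨b, rfl⟩
    refine Set.encard_le_encard_of_injOn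
      (f := fun b => (⟨mixedEmbedding E ((β + b : 𝓞 E) : E), hmem (β + b)⟩ : Lt J)) ?_ ?_
    · intro b hb
      show x - mixedEmbedding E ((β + b : 𝓞 E) : E) ∈ convexBodyLT E R
      have h5 : x - mixedEmbedding E ((β + b : 𝓞 E) : E) =
          (x - mixedEmbedding E (β : E)) - mixedEmbedding E (b : E) := by
        push_cast
        rw [map_add]
        abel
      rw [h5]
      refine box_sub (f := R1) (g := R3) ?_ hβ ?_
      · intro w
        apply NNReal.coe_le_coe.mp
        push_cast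
        show (2 ^ C * Z + 2 : ℝ) + (Z + 1) ≤ (2 ^ C + 4) * Z
        nlinarith
      · rw [convexBodyLT_mem]
        intro w
        have h6 := hb w
        show w (b : E) < Z + 1
        linarith
    · intro b _ b' _ hbb
      have h7 := mixedEmbedding_injective E (congrArg Subtype.val hbb)
      have h8 := RingOfIntegers.coe_injective h7
      exact add_left_cancel h8
  have hvol := le_volume_of_cnt J (measurable_box R) _ hcnt
  rw [convexBodyLT_volume, volume_fundamentalDomain_fractionalIdealLatticeBasis,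
    volume_fundamentalDomain_latticeBasis] at hvol
  have hJn : (FractionalIdeal.absNorm (J : FractionalIdeal (𝓞 E)⁰ E) : ℚ) = 1 := by
    rw [hJ, Units.val_one, map_one]
  rw [hJn] at hvol
  have hfin : (((convexBodyLTFactor E : ℝ≥0) : ℝ≥0∞) *
      ((∏ w, R w ^ w.mult : ℝ≥0) : ℝ≥0∞)) ≠ ⊤ :=
    ENNReal.mul_ne_top ENNReal.coe_ne_top ENNReal.coe_ne_top
  have hvol2 := ENNReal.toReal_mono hfin hvol
  simp only [ENNReal.toReal_mul, ENNReal.toReal_natCast, ENNReal.toReal_pow, ENNReal.toReal_inv,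
    ENNReal.coe_toReal, ENNReal.toReal_ofNat] at hvol2
  rw [ENNReal.toReal_ofReal (by positivity)] at hvol2
  have hcard : (Nat.card {b : 𝓞 E // ∀ v : InfinitePlace E, v (b : E) ≤ Z} : ℝ) =
      S.ncard := by
    rw [← Nat.card_coe_set_eq]
    rfl
  rw [hcard]
  push_cast at hvol2
  rw [Int.norm_eq_abs] at hvol2
  have hprod : ∏ w : InfinitePlace E, ((R w : ℝ≥0) : ℝ) ^ w.mult = ((2 ^ C + 4) * Z) ^ n := by
    rw [← hE, ← InfinitePlace.sum_mult_eq, ← Finset.prod_pow_eq_pow_sum]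
    rfl
  rw [hprod, NNReal.coe_real_pi] at hvol2
  have hrn := InfinitePlace.card_add_two_mul_card_eq_rank E
  rw [hE] at hrn
  set r1 := InfinitePlace.nrRealPlaces E
  set r2 := InfinitePlace.nrComplexPlaces E
  set D := Real.sqrt |(discr E : ℝ)|
  have h5 := mul_le_mul_of_nonneg_left hvol2 (by positivity : (0 : ℝ) ≤ 2 ^ r2)
  have e1 : (2 : ℝ) ^ r2 * ((S.ncard : ℝ) * (1 * (2⁻¹ ^ r2 * D))) = D * S.ncard := by
    rw [inv_pow]
    field_simp
  rw [e1] at h5
  refine h5.trans ?_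
  have hpi1 : (1 : ℝ) ≤ Real.pi := by
    have := Real.pi_gt_three
    linarith
  have h6 : (2 : ℝ) ^ r2 * 2 ^ r1 ≤ 2 ^ n := by
    rw [← pow_add]
    exact pow_le_pow_right₀ (by norm_num) (by omega)
  have h7 : Real.pi ^ r2 ≤ Real.pi ^ n := pow_le_pow_right₀ hpi1 (by omega)
  have h8 : (2 : ℝ) ^ r2 * 2 ^ r1 * Real.pi ^ r2 ≤ 2 ^ n * Real.pi ^ n :=
    mul_le_mul h6 h7 (by positivity) (by positivity)
  calc (2 : ℝ) ^ r2 * (2 ^ r1 * Real.pi ^ r2 * ((2 ^ C + 4) * Z) ^ n) =
      (2 ^ r2 * 2 ^ r1 * Real.pi ^ r2) * ((2 ^ C + 4) * Z) ^ n := by ring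
    _ ≤ (2 ^ n * Real.pi ^ n) * ((2 ^ C + 4) * Z) ^ n :=
      mul_le_mul_of_nonneg_right h8 (by positivity)
    _ = _ := by
      rw [mul_pow (2 ^ C + 4 : ℝ) Z, mul_pow, mul_pow]
      ring

end Pool.Agent.Lib.MP_695920_nt.Gl
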