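import Mathlib
import Pool.Agent.Lib.MP_695920_nt.Gl.Defs
import Pool.Agent.Lib.MP_695920_nt.IdealSums
import Pool.Agent.Lib.MP_695920_nt.Smooth

/-!
The number of ideals of given norm, uniformly in the field.
-/

set_option autoImplicit false

open Finset NumberField Module IsDedekindDomain
open scoped nonZeroDivisors Pointwise IntermediateField

namespace Pool.Agent.Lib.MP_695920_nt.Gl

lemma in_euler {K : Type} [Field K] [NumberField K] {ε : ℝ} (hε : 0 < ε)
    (PP : Finset (Ideal (𝓞 K))) :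
    (∀ P ∈ PP, P ≠ ⊥ ∧ P.IsPrime) → ∀ (S : Finset (Ideal (𝓞 K))),
    (∀ I ∈ S, I ≠ ⊥ ∧ ∀ P : Ideal (𝓞 K), P.IsPrime → P ∣ I → P ∈ PP) →
    ∑ I ∈ S, (Ideal.absNorm I : ℝ) ^ (-ε) ≤ ((1 - (2 : ℝ) ^ (-ε))⁻¹) ^ PP.card := by
  classical
  have hr0 : (0 : ℝ) ≤ (2 : ℝ) ^ (-ε) := by positivity
  have hr1 : (2 : ℝ) ^ (-ε) < 1 :=
    Real.rpow_lt_one_of_one_lt_of_neg (by norm_num) (by linarith)
  have hA0 : 0 ≤ (1 - (2 : ℝ) ^ (-ε))⁻¹ := inv_nonneg.mpr (by linarith)
  induction PP using Finset.induction_on with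
  | empty =>
    intro _ S hS
    have hsub : S ⊆ {⊤} := by
      intro I hI
      rw [Finset.mem_singleton]
      by_contra hne
      obtain ⟨M, hM, hIM⟩ := Ideal.exists_le_maximal I hne
      have := (hS I hI).2 M hM.isPrime (Ideal.dvd_iff_le.mpr hIM)
      simp at this
    calc ∑ I ∈ S, (Ideal.absNorm I : ℝ) ^ (-ε)
        ≤ ∑ I ∈ ({⊤} : Finset (Ideal (𝓞 K))), (Ideal.absNorm I : ℝ) ^ (-ε) :=
          Finset.sum_le_sum_of_subset_of_nonneg hsub (fun _ _ _ => by positivity)
      _ = 1 := by simp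
      _ ≤ _ := by simp
  | insert Q PP hQ ih =>
    intro hPP S hS
    have hQ0 : Q ≠ ⊥ := (hPP Q (Finset.mem_insert_self _ _)).1
    have hQp : Q.IsPrime := (hPP Q (Finset.mem_insert_self _ _)).2
    have hQprime : Prime Q := Ideal.prime_of_isPrime hQ0 hQp
    have hN2 := two_le_absNorm_of_prime hQ0 hQp
    have hN2' : (2 : ℝ) ≤ Ideal.absNorm Q := by exact_mod_cast hN2
    have hdec : ∀ I : Ideal (𝓞 K), ∃ (x : ℕ × Ideal (𝓞 K)), I ≠ ⊥ → I = Q ^ x.1 * x.2 ∧ ¬ Q ∣ x.2 := by
      intro I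
      by_cases hI : I = ⊥
      · exact ⟨(0, ⊥), fun h => absurd hI h⟩
      · obtain ⟨c, hc1, hc2⟩ := (FiniteMultiplicity.of_prime_left hQprime hI).exists_eq_pow_mul_and_not_dvd
        exact ⟨(_, c), fun _ => ⟨hc1, hc2⟩⟩
    choose φ hφ using hdec
    set V := S.sup (fun I => (φ I).1) with hV
    have hmaps : ∀ I ∈ S, (φ I).1 ∈ Finset.range (V + 1) := by
      intro I hI
      rw [Finset.mem_range]
      exact Nat.lt_succ_of_le (Finset.le_sup (f := fun I => (φ I).1) hI)
    rw [← Finset.sum_fiberwise_of_maps_to hmaps]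
    have hinner : ∀ k ∈ Finset.range (V + 1),
        ∑ I ∈ S.filter (fun I => (φ I).1 = k), (Ideal.absNorm I : ℝ) ^ (-ε) ≤
        ((2 : ℝ) ^ (-ε)) ^ k * ((1 - (2 : ℝ) ^ (-ε))⁻¹) ^ PP.card := by
      intro k _
      have heq : ∀ I ∈ S.filter (fun I => (φ I).1 = k), I = Q ^ k * (φ I).2 := by
        intro I hI
        rw [Finset.mem_filter] at hI
        have := (hφ I (hS I hI.1).1).1
        rw [hI.2] at this
        exact this
      have h1 : ∑ I ∈ S.filter (fun I => (φ I).1 = k), (Ideal.absNorm I : ℝ) ^ (-ε) =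
          ((Ideal.absNorm Q : ℝ) ^ (-ε)) ^ k *
          ∑ J ∈ (S.filter (fun I => (φ I).1 = k)).image (fun I => (φ I).2),
            (Ideal.absNorm J : ℝ) ^ (-ε) := by
        rw [Finset.sum_image, Finset.mul_sum]
        · refine Finset.sum_congr rfl fun I hI => ?_
          conv_lhs => rw [heq I hI]
          rw [map_mul, map_pow]
          push_cast
          rw [Real.mul_rpow (by positivity) (by positivity), ← Real.rpow_natCast,
            ← Real.rpow_mul (by positivity), mul_comm (k : ℝ), Real.rpow_mul (by positivity),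
            Real.rpow_natCast]
        · intro I hI I' hI' h
          simp only at h
          rw [Finset.mem_coe] at hI hI'
          rw [heq I hI, heq I' hI', h]
      rw [h1]
      apply mul_le_mul _ _ (Finset.sum_nonneg fun _ _ => by positivity) (by positivity)
      · apply pow_le_pow_left₀ (by positivity)
        exact Real.rpow_le_rpow_of_nonpos (by norm_num) hN2' (by linarith)
      apply ih (fun P hP => hPP P (Finset.mem_insert_of_mem hP))
      intro J hJ
      rw [Finset.mem_image] at hJ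
      obtain ⟨I, hI, rfl⟩ := hJ
      have hI' := Finset.mem_filter.mp hI
      have hI0 := (hS I hI'.1).1
      refine ⟨?_, ?_⟩
      · intro h0
        apply hI0
        rw [heq I hI, h0, Ideal.mul_bot]
      · intro P hP hPd
        have h2 : P ∣ I := by
          rw [heq I hI]
          exact dvd_mul_of_dvd_right hPd _
        have h3 := (hS I hI'.1).2 P hP h2
        rw [Finset.mem_insert] at h3
        rcases h3 with h3 | h3
        · exfalso
          subst h3
          exact (hφ I hI0).2 hPd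
        · exact h3
    refine (Finset.sum_le_sum hinner).trans ?_
    rw [← Finset.sum_mul, Finset.card_insert_of_notMem hQ, pow_succ, mul_comm]
    apply mul_le_mul_of_nonneg_left _ (by positivity)
    rw [← tsum_geometric_of_lt_one hr0 hr1]
    exact (summable_geometric_of_lt_one hr0 hr1).sum_le_tsum _ (fun i _ => by positivity)

theorem ideals_of_norm (n : ℕ) (ε : ℝ) (hε : 0 < ε) : ∃ C : ℝ, 0 < C ∧
    ∀ (K : Type) [Field K] [NumberField K], finrank ℚ K = n → ∀ N : ℕ, 1 ≤ N →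
      (Nat.card {B : Ideal (𝓞 K) // Ideal.absNorm B = N} : ℝ) ≤ C * (N : ℝ) ^ ε := by
  classical
  have hr1 : (2 : ℝ) ^ (-(ε / 2)) < 1 :=
    Real.rpow_lt_one_of_one_lt_of_neg (by norm_num) (by linarith)
  have hr0 : (0 : ℝ) ≤ (2 : ℝ) ^ (-(ε / 2)) := by positivity
  set A : ℝ := (1 - (2 : ℝ) ^ (-(ε / 2)))⁻¹ with hA
  have hA1 : 1 ≤ A := by
    rw [hA]
    apply (one_le_inv₀ (by linarith)).mpr
    linarith
  obtain ⟨C, hC0, hC⟩ := pow_omega_le (A ^ n) (one_le_pow₀ hA1) (ε / 2) (by linarith)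
  refine ⟨C, hC0, ?_⟩
  intro K _ _ hn N hN
  have hN0 : (0 : ℝ) < N := by exact_mod_cast hN
  set S : Finset (Ideal (𝓞 K)) := (idl K N).filter (fun I => Ideal.absNorm I = N) with hS
  have hcard : Nat.card {B : Ideal (𝓞 K) // Ideal.absNorm B = N} = S.card := by
    apply Nat.subtype_card
    intro I
    rw [hS, Finset.mem_filter, mem_idl]
    constructor
    · rintro ⟨_, h⟩
      exact h
    · intro h
      refine ⟨⟨?_, h.le⟩, h⟩
      rintro rfl
      rw [Ideal.absNorm_bot] at h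
      omega
  rw [hcard]
  set PP : Finset (Ideal (𝓞 K)) :=
    (prm K N).filter (fun P => ∃ p ∈ N.primeFactors, (p : 𝓞 K) ∈ P) with hPP
  have h1 : ∑ I ∈ S, (Ideal.absNorm I : ℝ) ^ (-(ε / 2)) ≤ A ^ PP.card := by
    apply in_euler (by linarith)
    · intro P hP
      have := mem_prm.mp (Finset.mem_filter.mp hP).1
      exact ⟨this.1.1, this.2⟩
    · intro I hI
      obtain ⟨hI1, hI2⟩ := Finset.mem_filter.mp hI
      have hI0 := (mem_idl.mp hI1).1
      refine ⟨hI0, fun P hP hPI => ?_⟩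
      have hP0 : P ≠ ⊥ := by
        rintro rfl
        exact hI0 (le_bot_iff.mp (Ideal.le_of_dvd hPI))
      have hdvd : Ideal.absNorm P ∣ N := by
        rw [← hI2]
        exact Ideal.absNorm_dvd_absNorm_of_le (Ideal.le_of_dvd hPI)
      rw [hPP, Finset.mem_filter, mem_prm]
      refine ⟨⟨⟨hP0, Nat.le_of_dvd hN hdvd⟩, hP⟩, ?_⟩
      obtain ⟨p, f, hp, hf, -, hmem, hpf⟩ := exists_prime_absNorm hP0 hP
      refine ⟨p, ?_, hmem⟩
      rw [Nat.mem_primeFactors]
      refine ⟨hp, ?_, by omega⟩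
      rw [hpf] at hdvd
      exact (dvd_pow_self p hf.ne').trans hdvd
  have h2 : PP.card ≤ n * N.primeFactors.card := by
    have hsub : PP ⊆ N.primeFactors.biUnion
        (fun p => (prm K N).filter (fun P => (p : 𝓞 K) ∈ P)) := by
      intro P hP
      obtain ⟨h3, p, hp, hpP⟩ := Finset.mem_filter.mp hP
      rw [Finset.mem_biUnion]
      exact ⟨p, hp, Finset.mem_filter.mpr ⟨h3, hpP⟩⟩
    refine (Finset.card_le_card hsub).trans ?_
    rw [mul_comm]
    apply Finset.card_biUnion_le_card_mul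
    intro p hp
    rw [← hn]
    apply card_primes_above_le (Nat.prime_of_mem_primeFactors hp)
    intro P hP
    obtain ⟨h3, h4⟩ := Finset.mem_filter.mp hP
    exact ⟨(mem_prm.mp h3).2, h4⟩
  calc (S.card : ℝ) = ∑ I ∈ S, (1 : ℝ) := by simp
    _ = ∑ I ∈ S, (N : ℝ) ^ (ε / 2) * (Ideal.absNorm I : ℝ) ^ (-(ε / 2)) := by
        refine Finset.sum_congr rfl fun I hI => ?_
        rw [(Finset.mem_filter.mp hI).2, ← Real.rpow_add hN0, add_neg_cancel, Real.rpow_zero]
    _ = (N : ℝ) ^ (ε / 2) * ∑ I ∈ S, (Ideal.absNorm I : ℝ) ^ (-(ε / 2)) := by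
        rw [Finset.mul_sum]
    _ ≤ (N : ℝ) ^ (ε / 2) * A ^ (n * N.primeFactors.card) := by
        apply mul_le_mul_of_nonneg_left _ (by positivity)
        exact h1.trans (pow_le_pow_right₀ hA1 h2)
    _ ≤ (N : ℝ) ^ (ε / 2) * (C * (N : ℝ) ^ (ε / 2)) := by
        apply mul_le_mul_of_nonneg_left _ (by positivity)
        rw [pow_mul]
        exact hC N (by omega)
    _ = C * ((N : ℝ) ^ (ε / 2) * (N : ℝ) ^ (ε / 2)) := by ring
    _ = C * (N : ℝ) ^ ε := by
        rw [← Real.rpow_add hN0, add_halves]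

end Pool.Agent.Lib.MP_695920_nt.Gl
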