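import Mathlib
import Pool.Agent.Lib.MP_695920_nt.ClassMaps
import Pool.Agent.Lib.MP_695920_nt.Gl.Defs

/-!
The boxes used for the relative class group bound.
-/

set_option autoImplicit false

open Finset NumberField Module IsDedekindDomain
open scoped nonZeroDivisors Pointwise

namespace Pool.Agent.Lib.MP_695920_nt.Gl

section box

variable {K E : Type} [Field K] [NumberField K] [Field E] [NumberField E] [Algebra E K]

/-- the side lengths -/
noncomputable def bx (K : Type) [Field K] [NumberField K] {E : Type} [Field E] [NumberField E]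
    [Algebra E K] (Z : ℝ) (γ : 𝓞 E) (w : InfinitePlace K) : ℝ :=
  (w (algebraMap E K (γ : E)) * Z) ^ ((finrank E K : ℝ)⁻¹)

lemma bx_pos {Z : ℝ} (hZ : 0 < Z) {γ : 𝓞 E} (hγ : γ ≠ 0) (w : InfinitePlace K) :
    0 < bx K Z γ w := by
  apply Real.rpow_pos_of_pos
  apply mul_pos _ hZ
  rw [InfinitePlace.pos_iff, Ne, map_eq_zero]
  exact RingOfIntegers.coe_ne_zero_iff.mpr hγ

lemma finrank_pos_rel : 0 < finrank E K := by
  have h : FiniteDimensional E K := Module.Finite.of_restrictScalars_finite ℚ E K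
  exact finrank_pos

lemma absNorm_of_relNorm {J : Ideal (𝓞 K)} {γ : 𝓞 E}
    (h : Ideal.relNorm (𝓞 E) J = Ideal.span {γ}) :
    Ideal.absNorm J = (Algebra.norm ℤ γ).natAbs := by
  rw [← Ideal.absNorm_relNorm (𝓞 E) (𝓞 K) J, h, Ideal.absNorm_span_singleton]

lemma prod_bx {Z : ℝ} (hZ : 0 < Z) {J : Ideal (𝓞 K)} {γ : 𝓞 E} (hγ : γ ≠ 0)
    (h : Ideal.relNorm (𝓞 E) J = Ideal.span {γ}) :
    ∏ w : InfinitePlace K, bx K Z γ w ^ w.mult = Ideal.absNorm J * Z ^ finrank ℚ E := by
  have hm : 0 < finrank E K := finrank_pos_rel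
  have hmr : (finrank E K : ℝ) ≠ 0 := by exact_mod_cast hm.ne'
  have hpos : ∀ w : InfinitePlace K, 0 < w (algebraMap E K (γ : E)) := by
    intro w
    rw [InfinitePlace.pos_iff, Ne, map_eq_zero]
    exact RingOfIntegers.coe_ne_zero_iff.mpr hγ
  have h1 : ∏ w : InfinitePlace K, bx K Z γ w ^ w.mult =
      (∏ w : InfinitePlace K, (w (algebraMap E K (γ : E)) * Z) ^ w.mult) ^
        ((finrank E K : ℝ)⁻¹) := by
    rw [← Real.finsetProd_rpow _ _ (fun w _ => by have := hpos w; positivity)]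
    apply Finset.prod_congr rfl
    intro w _
    have hx : 0 ≤ w (algebraMap E K (γ : E)) * Z := by have := hpos w; positivity
    unfold bx
    rw [← Real.rpow_natCast, ← Real.rpow_natCast, ← Real.rpow_mul hx, ← Real.rpow_mul hx,
      mul_comm ((finrank E K : ℝ)⁻¹) ((w.mult : ℕ) : ℝ)]
  have h2 : ∏ w : InfinitePlace K, (w (algebraMap E K (γ : E)) * Z) ^ w.mult =
      (Ideal.absNorm J * Z ^ finrank ℚ E) ^ (finrank E K : ℝ) := by
    simp_rw [mul_pow]
    rw [Finset.prod_mul_distrib, InfinitePlace.prod_eq_abs_norm, Finset.prod_pow_eq_pow_sum,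
      InfinitePlace.sum_mult_eq, Real.rpow_natCast, mul_pow, ← pow_mul,
      finrank_mul_finrank ℚ E K, absNorm_of_relNorm h]
    congr 1
    have h3 : Algebra.norm ℚ (algebraMap E K (γ : E)) =
        (Algebra.norm ℚ (γ : E)) ^ finrank E K := by
      rw [← Algebra.norm_norm (S := E), Algebra.norm_algebraMap, map_pow]
    have h4 : Algebra.norm ℚ (γ : E) = ((Algebra.norm ℤ γ : ℤ) : ℚ) :=
      (Algebra.coe_norm_int γ).symm
    rw [h3, h4, abs_pow]
    push_cast
    rw [Nat.cast_natAbs]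
    push_cast
    rfl
  rw [h1, h2, ← Real.rpow_mul (by positivity), mul_inv_cancel₀ hmr, Real.rpow_one]

end box

end Pool.Agent.Lib.MP_695920_nt.Gl
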