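import Mathlib
import Pool.Agent.Lib.MP_695920_nt.Gl.RelBoxA

/-!
The relative norm of an element of a box.
-/

set_option autoImplicit false

open Finset NumberField Module IsDedekindDomain
open scoped nonZeroDivisors Pointwise

namespace Pool.Agent.Lib.MP_695920_nt.Gl

section box

variable {K E : Type} [Field K] [NumberField K] [Field E] [NumberField E] [Algebra E K]

lemma exists_quot {J B : Ideal (𝓞 K)} {γ : 𝓞 E} (hγ : γ ≠ 0)
    (h : Ideal.relNorm (𝓞 E) J = Ideal.span {γ}) {a : 𝓞 K} (ha : a ≠ 0)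
    (hB : Ideal.span {a} = J * B) :
    ∃ β : 𝓞 E, β ≠ 0 ∧ Algebra.intNorm (𝓞 E) (𝓞 K) a = γ * β ∧
      Ideal.relNorm (𝓞 E) B = Ideal.span {β} := by
  have h1 : Ideal.span {Algebra.intNorm (𝓞 E) (𝓞 K) a} =
      Ideal.span {γ} * Ideal.relNorm (𝓞 E) B := by
    have h0 := Ideal.relNorm_singleton (𝓞 E) a
    rw [← h0, hB, map_mul, h]
  have h2 : Ideal.span {γ} ∣ Ideal.span {Algebra.intNorm (𝓞 E) (𝓞 K) a} :=
    Dvd.intro _ h1.symm
  rw [Ideal.dvd_span_singleton, Ideal.mem_span_singleton] at h2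
  obtain ⟨β, hβ⟩ := h2
  have hNa : Algebra.intNorm (𝓞 E) (𝓞 K) a ≠ 0 := by
    intro h3
    exact ha (Algebra.intNorm_eq_zero.mp h3)
  have hβ0 : β ≠ 0 := by
    rintro rfl
    rw [mul_zero] at hβ
    exact hNa hβ
  refine ⟨β, hβ0, hβ, ?_⟩
  have h4 : Ideal.span {γ} * Ideal.relNorm (𝓞 E) B = Ideal.span {γ} * Ideal.span {β} := by
    rw [← h1, hβ, Ideal.span_singleton_mul_span_singleton]
  have hγ' : Ideal.span {γ} ≠ (0 : Ideal (𝓞 E)) := by
    rw [Ideal.zero_eq_bot, Ne, Ideal.span_singleton_eq_bot]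
    exact hγ
  exact mul_left_cancel₀ hγ' h4

lemma beta_le {Z : ℝ} (hZ : 0 < Z) {γ β : 𝓞 E} (hγ : γ ≠ 0) {a : 𝓞 K}
    (hβ : Algebra.intNorm (𝓞 E) (𝓞 K) a = γ * β)
    (hw : ∀ w : InfinitePlace K, w (a : K) < bx K Z γ w) (v : InfinitePlace E) :
    v (β : E) ≤ Z := by
  have hfd : FiniteDimensional E K := Module.Finite.of_restrictScalars_finite ℚ E K
  have hm : 0 < finrank E K := finrank_pos_rel
  have hmr : (finrank E K : ℝ) ≠ 0 := by exact_mod_cast hm.ne'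
  have h12 : 0 < v (γ : E) := by
    rw [InfinitePlace.pos_iff]
    exact RingOfIntegers.coe_ne_zero_iff.mpr hγ
  have hx : 0 ≤ v (γ : E) * Z := by positivity
  let φ : E →+* ℂ := v.embedding
  let _ : Algebra E ℂ := φ.toAlgebra
  have hφ : ∀ x : E, ‖φ x‖ = v x := fun x => InfinitePlace.norm_embedding_eq v x
  have h6 : (γ : E) * (β : E) = Algebra.norm E (a : K) := by
    have h7 := congrArg (algebraMap (𝓞 E) E) hβ
    rw [map_mul, Algebra.algebraMap_intNorm (A := 𝓞 E) (K := E) (L := K)] at h7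
    exact h7.symm
  have h5 : φ ((γ : E) * (β : E)) = ∏ σ : K →ₐ[E] ℂ, σ (a : K) := by
    rw [h6]
    exact Algebra.norm_eq_prod_embeddings E ℂ (a : K)
  have h8 : ∀ σ : K →ₐ[E] ℂ, ‖σ (a : K)‖ ≤ (v (γ : E) * Z) ^ ((finrank E K : ℝ)⁻¹) := by
    intro σ
    have h9 := (hw (InfinitePlace.mk σ.toRingHom)).le
    unfold bx at h9
    rw [InfinitePlace.apply, InfinitePlace.apply] at h9
    have h10 : σ.toRingHom (algebraMap E K (γ : E)) = φ (γ : E) := σ.commutes (γ : E)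
    rw [h10, hφ] at h9
    exact h9
  have h11 : v (γ : E) * v (β : E) ≤ v (γ : E) * Z := by
    rw [← map_mul, ← hφ, h5, norm_prod]
    calc ∏ σ : K →ₐ[E] ℂ, ‖σ (a : K)‖
        ≤ ∏ _σ : K →ₐ[E] ℂ, (v (γ : E) * Z) ^ ((finrank E K : ℝ)⁻¹) :=
          Finset.prod_le_prod (fun _ _ => norm_nonneg _) (fun σ _ => h8 σ)
      _ = v (γ : E) * Z := by
          rw [Finset.prod_const, Finset.card_univ, AlgHom.card, ← Real.rpow_natCast,
            ← Real.rpow_mul hx, inv_mul_cancel₀ hmr, Real.rpow_one]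
  exact le_of_mul_le_mul_left h11 h12

end box

end Pool.Agent.Lib.MP_695920_nt.Gl
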