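import Mathlib
import Pool.Agent.Lib.MP_695920_nt.Gl.RelBoxA

/-!
A lower bound for the entries of an element of a box.
-/

set_option autoImplicit false

open Finset NumberField Module IsDedekindDomain
open scoped nonZeroDivisors Pointwise

namespace Pool.Agent.Lib.MP_695920_nt.Gl

section box

variable {K E : Type} [Field K] [NumberField K] [Field E] [NumberField E] [Algebra E K]

lemma bx_le {Z : ℝ} (hZ : 1 ≤ Z) {J : Ideal (𝓞 K)} (hJ : J ≠ ⊥) {γ : 𝓞 E} (hγ : γ ≠ 0)
    (h : Ideal.relNorm (𝓞 E) J = Ideal.span {γ}) {a : 𝓞 K} (haJ : a ∈ J) (ha : a ≠ 0)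
    (hw : ∀ w : InfinitePlace K, w (a : K) < bx K Z γ w) (w : InfinitePlace K) :
    bx K Z γ w ≤ w (a : K) * Z ^ finrank ℚ E := by
  classical
  have hZ0 : 0 < Z := by linarith
  have hb := bx_pos (K := K) hZ0 hγ
  have haK : (a : K) ≠ 0 := RingOfIntegers.coe_ne_zero_iff.mpr ha
  have hwa : ∀ w : InfinitePlace K, 0 < w (a : K) := fun w => (InfinitePlace.pos_iff).mpr haK
  have hprod := prod_bx (K := K) hZ0 hγ h
  have hJpos : 0 < Ideal.absNorm J := by
    rw [Nat.pos_iff_ne_zero, Ne, Ideal.absNorm_eq_zero_iff]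
    exact hJ
  -- lower bound for the norm
  have h1 : (Ideal.absNorm J : ℝ) ≤ ∏ w : InfinitePlace K, w (a : K) ^ w.mult := by
    rw [InfinitePlace.prod_eq_abs_norm]
    have h2 : Ideal.absNorm J ∣ Ideal.absNorm (Ideal.span {a}) :=
      map_dvd Ideal.absNorm (Ideal.dvd_span_singleton.mpr haJ)
    rw [Ideal.absNorm_span_singleton] at h2
    have h3 : 0 < (Algebra.norm ℤ a).natAbs := by
      rw [Int.natAbs_pos, Ne, Algebra.norm_eq_zero_iff]
      exact ha
    have h4 := Nat.le_of_dvd h3 h2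
    have h5 : |((Algebra.norm ℚ (a : K) : ℚ) : ℝ)| = ((Algebra.norm ℤ a).natAbs : ℝ) := by
      rw [← Algebra.coe_norm_int a, Nat.cast_natAbs]
      push_cast
      rfl
    have h6 : ((|Algebra.norm ℚ (a : K)| : ℚ) : ℝ) = ((Algebra.norm ℤ a).natAbs : ℝ) := by
      rw [← h5]; push_cast; rfl
    rw [h6]
    exact_mod_cast h4
  -- compare
  set x : ℝ := w (a : K) / bx K Z γ w with hx
  have hx0 : 0 < x := div_pos (hwa w) (hb w)
  have hx1 : x ≤ 1 := (div_le_one (hb w)).mpr (hw w).le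
  have h7 : ∏ w' : InfinitePlace K, w' (a : K) ^ w'.mult ≤
      x ^ w.mult * ∏ w' : InfinitePlace K, bx K Z γ w' ^ w'.mult := by
    rw [← Finset.mul_prod_erase Finset.univ _ (Finset.mem_univ w),
      ← Finset.mul_prod_erase Finset.univ (fun w' : InfinitePlace K => bx K Z γ w' ^ w'.mult)
        (Finset.mem_univ w), ← mul_assoc]
    have h8 : x ^ w.mult * bx K Z γ w ^ w.mult = w (a : K) ^ w.mult := by
      rw [← mul_pow, hx, div_mul_cancel₀ _ (hb w).ne']
    rw [h8]
    apply mul_le_mul_of_nonneg_left _ (by have := hwa w; positivity)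
    exact Finset.prod_le_prod (fun w' _ => by have := hwa w'; positivity)
      (fun w' _ => pow_le_pow_left₀ (hwa w').le (hw w').le _)
  rw [hprod] at h7
  have h9 : 1 ≤ x ^ w.mult * Z ^ finrank ℚ E := by
    have hJr : (0 : ℝ) < Ideal.absNorm J := by exact_mod_cast hJpos
    have h10 : (Ideal.absNorm J : ℝ) * 1 ≤ Ideal.absNorm J * (x ^ w.mult * Z ^ finrank ℚ E) := by
      rw [mul_one]
      refine (h1.trans h7).trans (le_of_eq ?_)
      ring
    exact le_of_mul_le_mul_left h10 hJr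
  have hZp : 0 < Z ^ finrank ℚ E := by positivity
  have h11 : x ^ w.mult ≤ x := by
    calc x ^ w.mult ≤ x ^ 1 := pow_le_pow_of_le_one hx0.le hx1 (InfinitePlace.mult_pos)
      _ = x := pow_one x
  have h12 : 1 ≤ x * Z ^ finrank ℚ E :=
    h9.trans (mul_le_mul_of_nonneg_right h11 hZp.le)
  calc bx K Z γ w = bx K Z γ w * 1 := (mul_one _).symm
    _ ≤ bx K Z γ w * (x * Z ^ finrank ℚ E) := mul_le_mul_of_nonneg_left h12 (hb w).le
    _ = w (a : K) * Z ^ finrank ℚ E := by
        rw [hx]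
        have := (hb w).ne'
        field_simp

end box

end Pool.Agent.Lib.MP_695920_nt.Gl
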