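import Mathlib
import Pool.Agent.Lib.MP_695920_nt.Gl.Defs

set_option autoImplicit false

open Finset NumberField Module IsDedekindDomain
open scoped nonZeroDivisors Pointwise IntermediateField

namespace Pool.Agent.Lib.MP_695920_nt.Gl

/-- the polynomial with given coefficients -/
noncomputable def ubPoly (n C : ℕ) (c : Fin (n + 1) → Finset.Icc (-(C : ℤ)) C) : Polynomial ℤ :=
  ∑ i : Fin (n + 1), Polynomial.C (c i : ℤ) * Polynomial.X ^ (i : ℕ)

lemma ubPoly_natDegree (n C : ℕ) (c : Fin (n + 1) → Finset.Icc (-(C : ℤ)) C) :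
    (ubPoly n C c).natDegree ≤ n := by
  unfold ubPoly
  refine Polynomial.natDegree_sum_le_of_forall_le _ _ fun i _ => ?_
  refine (Polynomial.natDegree_C_mul_X_pow_le _ _).trans ?_
  have := i.2
  omega

lemma ubPoly_eq (n C : ℕ) (p : Polynomial ℤ) (hp : p.natDegree ≤ n)
    (hc : ∀ i, p.coeff i ∈ Finset.Icc (-(C : ℤ)) C) :
    ubPoly n C (fun i => ⟨p.coeff i, hc i⟩) = p := by
  unfold ubPoly
  have h1 := p.as_sum_range_C_mul_X_pow' (n := n + 1) (by omega)
  conv_rhs => rw [h1]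
  rw [Finset.sum_range]

/-- the number of integers with all absolute values at most 2 is bounded in terms of the degree -/
lemma ub_small (n : ℕ) : ∃ N : ℕ, ∀ (K : Type) [Field K] [NumberField K], finrank ℚ K = n →
    Finite {x : 𝓞 K // ∀ w : InfinitePlace K, w (x : K) ≤ 2} ∧
      Nat.card {x : 𝓞 K // ∀ w : InfinitePlace K, w (x : K) ≤ 2} ≤ N := by
  classical
  set C : ℕ := Nat.ceil (max (2 : ℝ) 1 ^ n * (n.choose (n / 2))) with hC
  refine ⟨Fintype.card (Fin (n + 1) → Finset.Icc (-(C : ℤ)) C) * n, ?_⟩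
  intro K _ _ hK
  set F : Finset K := (Finset.univ : Finset (Fin (n + 1) → Finset.Icc (-(C : ℤ)) C)).biUnion
    (fun c => ((ubPoly n C c).aroots K).toFinset) with hF
  have hFc : F.card ≤ Fintype.card (Fin (n + 1) → Finset.Icc (-(C : ℤ)) C) * n := by
    refine (Finset.card_biUnion_le).trans ?_
    have h1 : ∀ c ∈ (Finset.univ : Finset (Fin (n + 1) → Finset.Icc (-(C : ℤ)) C)),
        (((ubPoly n C c).aroots K).toFinset).card ≤ n := by
      intro c _
      refine (Multiset.toFinset_card_le _).trans ((Polynomial.card_roots' _).trans ?_)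
      exact (Polynomial.natDegree_map_le).trans (ubPoly_natDegree n C c)
    refine (Finset.sum_le_card_nsmul _ _ n h1).trans ?_
    rw [Finset.card_univ, smul_eq_mul]
  have hmem : ∀ x : 𝓞 K, (∀ w : InfinitePlace K, w (x : K) ≤ 2) → (x : K) ∈ F := by
    intro x hx
    have hxi : IsIntegral ℤ (x : K) := x.isIntegral_coe
    have hφ : ∀ φ : K →+* ℂ, ‖φ (x : K)‖ ≤ 2 := by
      intro φ
      have := hx (InfinitePlace.mk φ)
      rwa [InfinitePlace.apply] at this
    have h_map := minpoly.isIntegrallyClosed_eq_field_fractions' ℚ hxi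
    have hdeg : (minpoly ℤ (x : K)).natDegree ≤ n := by
      rw [← (minpoly.monic hxi).natDegree_map (algebraMap ℤ ℚ), ← h_map, ← hK]
      exact minpoly.natDegree_le _
    have hco : ∀ i, (minpoly ℤ (x : K)).coeff i ∈ Finset.Icc (-(C : ℤ)) C := by
      intro i
      rw [Finset.mem_Icc, ← abs_le, ← @Int.cast_le ℝ]
      have h1 := Embeddings.coeff_bdd_of_norm_le hφ i
      rw [hK] at h1
      refine (Eq.trans_le ?_ h1).trans (Nat.le_ceil _)
      rw [h_map, Polynomial.coeff_map, eq_intCast, Int.norm_cast_rat, Int.norm_eq_abs, Int.cast_abs]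
    rw [hF, Finset.mem_biUnion]
    refine ⟨fun i => ⟨(minpoly ℤ (x : K)).coeff i, hco i⟩, Finset.mem_univ _, ?_⟩
    rw [ubPoly_eq n C _ hdeg hco, Multiset.mem_toFinset, Polynomial.mem_aroots]
    exact ⟨minpoly.ne_zero hxi, minpoly.aeval ℤ _⟩
  have hinj : Function.Injective (fun x : {x : 𝓞 K // ∀ w : InfinitePlace K, w (x : K) ≤ 2} =>
      (⟨((x : 𝓞 K) : K), hmem x x.2⟩ : F)) := by
    intro x y hxy
    have h1 : (((x : 𝓞 K) : K)) = ((y : 𝓞 K) : K) := congrArg (fun z : F => (z : K)) hxy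
    exact Subtype.ext (RingOfIntegers.ext h1)
  refine ⟨Finite.of_injective _ hinj, ?_⟩
  refine (Nat.card_le_card_of_injective _ hinj).trans ?_
  rw [Nat.card_eq_fintype_card, Fintype.card_coe]
  exact hFc

/-- the logarithms of a unit in a box -/
lemma ub_log (K : Type) [Field K] [NumberField K] (A : ℝ) (hA : 1 ≤ A) (u : (𝓞 K)ˣ)
    (hu : ∀ w : InfinitePlace K, w ((u : 𝓞 K) : K) ≤ A) (w : InfinitePlace K) :
    Real.log (w ((u : 𝓞 K) : K)) ≤ Real.log A ∧
      -(finrank ℚ K * Real.log A) ≤ Real.log (w ((u : 𝓞 K) : K)) := by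
  classical
  have hL : 0 ≤ Real.log A := Real.log_nonneg hA
  have hpos : ∀ w : InfinitePlace K, 0 < w ((u : 𝓞 K) : K) := fun w => by
    rw [InfinitePlace.pos_iff]
    exact Units.coe_ne_zero u
  have hle : ∀ w : InfinitePlace K, Real.log (w ((u : 𝓞 K) : K)) ≤ Real.log A := fun w =>
    Real.log_le_log (hpos w) (hu w)
  refine ⟨hle w, ?_⟩
  have h1 := Units.sum_mult_mul_log u
  rw [← Finset.add_sum_erase _ _ (Finset.mem_univ w)] at h1
  have h2 : ∑ x ∈ Finset.univ.erase w, (x.mult : ℝ) * Real.log (x ((u : 𝓞 K) : K)) ≤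
      ∑ x ∈ Finset.univ.erase w, (x.mult : ℝ) * Real.log A :=
    Finset.sum_le_sum fun x _ => mul_le_mul_of_nonneg_left (hle x) (Nat.cast_nonneg _)
  have h3 : ∑ x ∈ Finset.univ.erase w, (x.mult : ℝ) * Real.log A ≤
      finrank ℚ K * Real.log A := by
    rw [← Finset.sum_mul]
    refine mul_le_mul_of_nonneg_right ?_ hL
    have h4 : ∑ x : InfinitePlace K, (x.mult : ℝ) = (finrank ℚ K : ℝ) := by
      exact_mod_cast InfinitePlace.sum_mult_eq (K := K)
    rw [← h4]
    exact Finset.sum_le_sum_of_subset_of_nonneg (Finset.erase_subset _ _)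
      fun x _ _ => Nat.cast_nonneg _
  have h5 : (1 : ℝ) ≤ w.mult := by
    have := InfinitePlace.mult_pos (w := w)
    exact_mod_cast this
  have h6 : -(finrank ℚ K * Real.log A) ≤ (w.mult : ℝ) * Real.log (w ((u : 𝓞 K) : K)) := by
    linarith
  rcases le_or_gt 0 (Real.log (w ((u : 𝓞 K) : K))) with h | h
  · have : 0 ≤ (finrank ℚ K : ℝ) * Real.log A := by positivity
    linarith
  · nlinarith

/-- R3: the number of units in a box -/
theorem units_in_box (n : ℕ) (ε : ℝ) (hε : 0 < ε) : ∃ C : ℝ, 0 < C ∧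
    ∀ (K : Type) [Field K] [NumberField K], finrank ℚ K = n → ∀ A : ℝ, 1 ≤ A →
      (Nat.card {u : (𝓞 K)ˣ // ∀ w : InfinitePlace K, w ((u : 𝓞 K) : K) ≤ A} : ℝ) ≤
        C * A ^ ε := by
  classical
  obtain ⟨N, hN⟩ := ub_small n
  set δ : ℝ := ε / (n + 1) with hδ
  have hδ0 : 0 < δ := by positivity
  have hlog2 : 0 < Real.log 2 := Real.log_pos (by norm_num)
  set D : ℝ := 2 * n / (δ * Real.log 2) + 7 with hD
  have hD0 : 0 < D := by positivity
  have hD1 : 1 ≤ D := by
    have : 0 ≤ 2 * n / (δ * Real.log 2) := by positivity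
    linarith
  refine ⟨D ^ n * (N + 1), by positivity, ?_⟩
  intro K _ _ hK A hA
  obtain ⟨hfin, hcard⟩ := hN K hK
  have hL : 0 ≤ Real.log A := Real.log_nonneg hA
  set M : ℕ := ⌈n * (Real.log A / Real.log 2)⌉₊ + 1 with hM
  have hn1 : 1 ≤ n := by rw [← hK]; exact finrank_pos
  have hn1' : (1 : ℝ) ≤ n := by exact_mod_cast hn1
  set X := {u : (𝓞 K)ˣ // ∀ w : InfinitePlace K, w ((u : 𝓞 K) : K) ≤ A} with hX
  -- the cell of a unit
  have hcell : ∀ (u : X) (w : InfinitePlace K),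
      ⌊Real.log (w (((u : (𝓞 K)ˣ) : 𝓞 K) : K)) / Real.log 2⌋ ∈ Finset.Icc (-(M : ℤ)) M := by
    intro u w
    obtain ⟨h1, h2⟩ := ub_log K A hA u u.2 w
    rw [hK] at h2
    have h3 : (n : ℝ) * (Real.log A / Real.log 2) ≤ (M : ℝ) - 1 := by
      rw [hM]; push_cast
      have := Nat.le_ceil ((n : ℝ) * (Real.log A / Real.log 2))
      linarith
    rw [Finset.mem_Icc]
    constructor
    · rw [Int.le_floor]
      push_cast
      have h4 : -((n : ℝ) * (Real.log A / Real.log 2)) ≤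
          Real.log (w (((u : (𝓞 K)ˣ) : 𝓞 K) : K)) / Real.log 2 := by
        rw [le_div_iff₀ hlog2]
        have : -((n : ℝ) * (Real.log A / Real.log 2)) * Real.log 2 = -(n * Real.log A) := by
          field_simp
        rw [this]; exact h2
      linarith
    · have h4 : Real.log (w (((u : (𝓞 K)ˣ) : 𝓞 K) : K)) / Real.log 2 ≤ M := by
        rw [div_le_iff₀ hlog2]
        have h5 : Real.log A ≤ n * (Real.log A / Real.log 2) * Real.log 2 := by
          have : n * (Real.log A / Real.log 2) * Real.log 2 = n * Real.log A := by field_simp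
          rw [this]
          nlinarith
        have h6 : n * (Real.log A / Real.log 2) * Real.log 2 ≤ (M : ℝ) * Real.log 2 :=
          mul_le_mul_of_nonneg_right (by linarith) hlog2.le
        linarith
      have h5 := (Int.floor_le (Real.log (w (((u : (𝓞 K)ˣ) : 𝓞 K) : K)) / Real.log 2)).trans h4
      exact_mod_cast h5
  set Cell := (InfinitePlace K → Finset.Icc (-(M : ℤ)) M) with hCell
  set cell : X → Cell := fun u w => ⟨_, hcell u w⟩ with hcelldef
  -- representatives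
  set rep : Cell → (𝓞 K)ˣ := fun c => if h : ∃ u : X, cell u = c then (h.choose : (𝓞 K)ˣ) else 1
    with hrep
  have hrep' : ∀ u : X, ∃ v : X, cell v = cell u ∧ rep (cell u) = v := by
    intro u
    have h : ∃ v : X, cell v = cell u := ⟨u, rfl⟩
    refine ⟨h.choose, h.choose_spec, ?_⟩
    rw [hrep]
    exact dif_pos h
  have hsmall : ∀ (u : X) (w : InfinitePlace K),
      w ((((u : (𝓞 K)ˣ) * (rep (cell u))⁻¹ : (𝓞 K)ˣ) : 𝓞 K) : K) ≤ 2 := by
    intro u w
    obtain ⟨v, hv, hrv⟩ := hrep' u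
    rw [hrv]
    have hposu : 0 < w (((u : (𝓞 K)ˣ) : 𝓞 K) : K) := by
      rw [InfinitePlace.pos_iff]; exact Units.coe_ne_zero _
    have hposv : 0 < w (((v : (𝓞 K)ˣ) : 𝓞 K) : K) := by
      rw [InfinitePlace.pos_iff]; exact Units.coe_ne_zero _
    have h1 : w ((((u : (𝓞 K)ˣ) * (v : (𝓞 K)ˣ)⁻¹ : (𝓞 K)ˣ) : 𝓞 K) : K) =
        w (((u : (𝓞 K)ˣ) : 𝓞 K) : K) / w (((v : (𝓞 K)ˣ) : 𝓞 K) : K) := by
      rw [eq_div_iff hposv.ne', ← map_mul]
      congr 1
      rw [← map_mul, ← Units.val_mul, inv_mul_cancel_right]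
    rw [h1, div_le_iff₀ hposv]
    have h2 : ⌊Real.log (w (((v : (𝓞 K)ˣ) : 𝓞 K) : K)) / Real.log 2⌋ =
        ⌊Real.log (w (((u : (𝓞 K)ˣ) : 𝓞 K) : K)) / Real.log 2⌋ :=
      congrArg Subtype.val (congrFun hv w)
    have h3 := Int.floor_le (Real.log (w (((v : (𝓞 K)ˣ) : 𝓞 K) : K)) / Real.log 2)
    have h4 := Int.lt_floor_add_one (Real.log (w (((u : (𝓞 K)ˣ) : 𝓞 K) : K)) / Real.log 2)
    rw [← h2] at h4
    have h5 : Real.log (w (((u : (𝓞 K)ˣ) : 𝓞 K) : K)) / Real.log 2 ≤
        1 + Real.log (w (((v : (𝓞 K)ˣ) : 𝓞 K) : K)) / Real.log 2 := by linarith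
    have h6 : Real.log (w (((u : (𝓞 K)ˣ) : 𝓞 K) : K)) ≤
        Real.log 2 + Real.log (w (((v : (𝓞 K)ˣ) : 𝓞 K) : K)) := by
      have h7 := mul_le_mul_of_nonneg_right h5 hlog2.le
      rw [div_mul_cancel₀ _ hlog2.ne', add_mul, one_mul, div_mul_cancel₀ _ hlog2.ne'] at h7
      exact h7
    rw [← Real.log_mul (by norm_num) hposv.ne'] at h6
    exact (Real.log_le_log_iff hposu (by positivity)).1 h6
  set S := {x : 𝓞 K // ∀ w : InfinitePlace K, w (x : K) ≤ 2} with hS
  set G : X → Cell × S := fun u =>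
    (cell u, ⟨((u : (𝓞 K)ˣ) * (rep (cell u))⁻¹ : (𝓞 K)ˣ), hsmall u⟩) with hG
  have hGinj : Function.Injective G := by
    intro u v huv
    have h1 : cell u = cell v := congrArg Prod.fst huv
    have h2 : (((u : (𝓞 K)ˣ) * (rep (cell u))⁻¹ : (𝓞 K)ˣ) : 𝓞 K) =
        (((v : (𝓞 K)ˣ) * (rep (cell v))⁻¹ : (𝓞 K)ˣ) : 𝓞 K) :=
      congrArg Subtype.val (congrArg Prod.snd huv)
    rw [h1] at h2
    exact Subtype.ext (mul_right_cancel (Units.ext h2))
  have hbound : Nat.card X ≤ (2 * M + 1) ^ n * N := by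
    refine (Nat.card_le_card_of_injective G hGinj).trans ?_
    rw [Nat.card_prod]
    refine Nat.mul_le_mul ?_ hcard
    rw [Nat.card_eq_fintype_card, Fintype.card_fun, Fintype.card_coe, Int.card_Icc]
    have h1 : ((M : ℤ) + 1 - -(M : ℤ)).toNat = 2 * M + 1 := by omega
    rw [h1]
    refine Nat.pow_le_pow_right (by omega) ?_
    rw [← hK, ← InfinitePlace.sum_mult_eq (K := K), ← Finset.card_univ, Finset.card_eq_sum_ones]
    exact Finset.sum_le_sum fun w _ => InfinitePlace.mult_pos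
  have hApos : 0 < A := by linarith
  have hMle : ((2 * M + 1 : ℕ) : ℝ) ≤ D * A ^ δ := by
    have h1 : (M : ℝ) ≤ n * (Real.log A / Real.log 2) + 2 := by
      rw [hM]; push_cast
      have := Nat.ceil_lt_add_one (a := (n : ℝ) * (Real.log A / Real.log 2)) (by positivity)
      linarith
    have h2 : Real.log A ≤ A ^ δ / δ := Real.log_le_rpow_div hApos.le hδ0
    have h3 : (1 : ℝ) ≤ A ^ δ := Real.one_le_rpow hA hδ0.le
    have h4 : (n : ℝ) * (Real.log A / Real.log 2) ≤ n / (δ * Real.log 2) * A ^ δ := by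
      have h5 : (n : ℝ) * (Real.log A / Real.log 2) = n / Real.log 2 * Real.log A := by ring
      have h6 : n / (δ * Real.log 2) * A ^ δ = n / Real.log 2 * (A ^ δ / δ) := by
        field_simp
      rw [h5, h6]
      exact mul_le_mul_of_nonneg_left h2 (by positivity)
    have h5 : D * A ^ δ = 2 * (n / (δ * Real.log 2) * A ^ δ) + 7 * A ^ δ := by
      rw [hD]; ring
    rw [h5]
    push_cast
    linarith
  calc (Nat.card X : ℝ) ≤ (((2 * M + 1) ^ n * N : ℕ) : ℝ) := by exact_mod_cast hbound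
    _ = ((2 * M + 1 : ℕ) : ℝ) ^ n * N := by push_cast; ring
    _ ≤ (D * A ^ δ) ^ n * (N + 1) := by
        refine mul_le_mul (pow_le_pow_left₀ (Nat.cast_nonneg _) hMle n) (by linarith)
          (Nat.cast_nonneg _) (by positivity)
    _ = D ^ n * (N + 1) * (A ^ δ) ^ n := by rw [mul_pow]; ring
    _ ≤ D ^ n * (N + 1) * A ^ ε := by
        refine mul_le_mul_of_nonneg_left ?_ (by positivity)
        rw [← Real.rpow_natCast, ← Real.rpow_mul hApos.le]
        refine Real.rpow_le_rpow_of_exponent_le hA ?_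
        rw [hδ, div_mul_eq_mul_div, div_le_iff₀ (by positivity)]
        nlinarith

end Pool.Agent.Lib.MP_695920_nt.Gl
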