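import Mathlib
import Pool.Agent.Lib.MP_695920_nt.Gl.RelBoxB
import Pool.Agent.Lib.MP_695920_nt.Gl.RelBoxC
import Pool.Agent.Lib.MP_695920_nt.Gl.BoxMany
import Pool.Agent.Lib.MP_695920_nt.Gl.BoxFew
import Pool.Agent.Lib.MP_695920_nt.Gl.UnitBox
import Pool.Agent.Lib.MP_695920_nt.Gl.IdealNorm

/-!
Counting the ideal classes with trivial relative norm.
-/

set_option autoImplicit false

open Finset NumberField Module IsDedekindDomain
open scoped nonZeroDivisors Pointwise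

namespace Pool.Agent.Lib.MP_695920_nt.Gl

lemma count_fib {P Q : Type*} [Finite P] [Finite Q] (F : P → Q) (m : ℝ)
    (h : ∀ q, (Nat.card {p // F p = q} : ℝ) ≤ m) : (Nat.card P : ℝ) ≤ Nat.card Q * m := by
  classical
  cases nonempty_fintype Q
  rw [← Nat.card_congr (Equiv.sigmaFiberEquiv F), Nat.card_sigma]
  push_cast
  calc ∑ q, (Nat.card {p // F p = q} : ℝ) ≤ ∑ _q : Q, m := Finset.sum_le_sum fun q _ => h q
    _ = Nat.card Q * m := by
        rw [Finset.sum_const, Finset.card_univ, nsmul_eq_mul, Nat.card_eq_fintype_card]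

section count

variable {K E : Type} [Field K] [NumberField K] [Field E] [NumberField E] [Algebra E K]

/-- the classes with trivial norm -/
abbrev KN (K E : Type) [Field K] [NumberField K] [Field E] [NumberField E] [Algebra E K] : Type :=
  {c : ClassGroup (𝓞 K) // (idMap_relNorm (K := E) (L := K)).cl c = 1}

lemma exists_gen (c : KN K E) : ∃ γ : 𝓞 E, γ ≠ 0 ∧
    Ideal.relNorm (𝓞 E) (rep c.1 : Ideal (𝓞 K)) = Ideal.span {γ} := by
  have h1 := c.2
  rw [← mk0_rep c.1, IdMap.cl_mk0] at h1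
  have h2 : ((idMap_relNorm (K := E) (L := K)).nz (rep c.1) : Ideal (𝓞 E)).IsPrincipal :=
    (ClassGroup.mk0_eq_one_iff ((idMap_relNorm (K := E) (L := K)).nz (rep c.1)).2).mp h1
  obtain ⟨γ, hγ⟩ := h2
  have h3 : Ideal.relNorm (𝓞 E) (rep c.1 : Ideal (𝓞 K)) = Ideal.span {γ} := by
    rw [← Ideal.submodule_span_eq, ← hγ]
    rfl
  refine ⟨γ, ?_, h3⟩
  rintro rfl
  have h4 : Ideal.relNorm (𝓞 E) (rep c.1 : Ideal (𝓞 K)) = ⊥ := by
    rw [h3, Ideal.span_singleton_eq_bot]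
  rw [Ideal.relNorm_eq_bot_iff] at h4
  exact mem_nonZeroDivisors_iff_ne_zero.mp (rep c.1).2 h4

/-- a generator of the norm -/
noncomputable def gen (c : KN K E) : 𝓞 E := (exists_gen c).choose

lemma gen_ne (c : KN K E) : gen c ≠ 0 := (exists_gen c).choose_spec.1

lemma gen_spec (c : KN K E) :
    Ideal.relNorm (𝓞 E) (rep c.1 : Ideal (𝓞 K)) = Ideal.span {gen c} :=
  (exists_gen c).choose_spec.2

/-- the pairs -/
abbrev PR (K E : Type) [Field K] [NumberField K] [Field E] [NumberField E] [Algebra E K]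
    (Z : ℝ) : Type :=
  {x : KN K E × 𝓞 K // (x.2 ∈ (rep x.1.1 : Ideal (𝓞 K)) ∧
    ∀ w : InfinitePlace K, w (x.2 : K) < bx K Z (gen x.1) w) ∧ x.2 ≠ 0}

/-- the integers in a box -/
abbrev BX (E : Type) [Field E] [NumberField E] (Z : ℝ) : Type :=
  {b : 𝓞 E // ∀ v : InfinitePlace E, v (b : E) ≤ Z}

instance fin_bx (E : Type) [Field E] [NumberField E] (Z : ℝ) : Finite (BX E Z) := by
  have h1 := Embeddings.finite_of_norm_le E ℂ Z
  have h2 : (Set.range fun b : BX E Z => ((b.1 : 𝓞 E) : E)).Finite := by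
    apply h1.subset
    rintro _ ⟨b, rfl⟩
    refine ⟨RingOfIntegers.isIntegral_coe b.1, ?_⟩
    intro φ
    exact b.2 (InfinitePlace.mk φ)
  have h3 : Function.Injective fun b : BX E Z => ((b.1 : 𝓞 E) : E) := by
    intro a b hab
    exact Subtype.ext (RingOfIntegers.ext hab)
  exact Set.finite_range_iff h3 |>.mp h2

/-- the units in a box -/
abbrev UB (K : Type) [Field K] [NumberField K] (A : ℝ) : Type :=
  {u : (𝓞 K)ˣ // ∀ w : InfinitePlace K, w ((u : 𝓞 K) : K) ≤ A}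

instance fin_ub (K : Type) [Field K] [NumberField K] (A : ℝ) : Finite (UB K A) := by
  apply Finite.of_injective (fun u : UB K A => (⟨(u.1 : 𝓞 K), u.2⟩ : BX K A))
  intro u v huv
  apply Subtype.ext
  apply Units.ext
  exact congrArg Subtype.val huv

/-- the targets -/
abbrev QR (K E : Type) [Field K] [NumberField K] [Field E] [NumberField E]
    (Z : ℝ) : Type :=
  Σ β : {b : BX E Z // b.1 ≠ 0},
    {B : Ideal (𝓞 K) // Ideal.absNorm B = (Algebra.norm ℤ (β.1.1 : 𝓞 E)).natAbs}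

lemma norm_natAbs_ne {b : 𝓞 E} (hb : b ≠ 0) : (Algebra.norm ℤ b).natAbs ≠ 0 := by
  rw [Ne, Int.natAbs_eq_zero, Algebra.norm_eq_zero_iff]
  exact hb

instance fin_ideals {Z : ℝ} (b : {b : BX E Z // b.1 ≠ 0}) :
    Finite {B : Ideal (𝓞 K) // Ideal.absNorm B = (Algebra.norm ℤ (b.1.1 : 𝓞 E)).natAbs} := by
  have h := Ideal.finite_setOfPred_absNorm_eq (S := 𝓞 K) (Algebra.norm ℤ (b.1.1 : 𝓞 E)).natAbs
  exact h

/-- the map from the pairs to the targets -/
lemma exists_target {Z : ℝ} (hZ : 0 < Z) (x : PR K E Z) : ∃ q : QR K E Z,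
    (rep x.1.1.1 : Ideal (𝓞 K)) * q.2.1 = Ideal.span {x.1.2} := by
  obtain ⟨B, hB⟩ := Ideal.dvd_span_singleton.mpr x.2.1.1
  obtain ⟨β, hβ0, hβ, hrB⟩ := exists_quot (gen_ne x.1.1) (gen_spec x.1.1) x.2.2 hB
  exact ⟨⟨⟨⟨β, beta_le hZ (gen_ne x.1.1) hβ x.2.1.2⟩, hβ0⟩, ⟨B, absNorm_of_relNorm hrB⟩⟩,
    hB.symm⟩

/-- the map from the pairs to the targets -/
noncomputable def tgt {Z : ℝ} (hZ : 0 < Z) (x : PR K E Z) : QR K E Z :=
  (exists_target hZ x).choose

lemma tgt_spec {Z : ℝ} (hZ : 0 < Z) (x : PR K E Z) :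
    (rep x.1.1.1 : Ideal (𝓞 K)) * (tgt hZ x).2.1 = Ideal.span {x.1.2} :=
  (exists_target hZ x).choose_spec

lemma fib_same {Z : ℝ} (hZ : 1 ≤ Z) {x y : PR K E Z} {B : Ideal (𝓞 K)}
    (hx : (rep x.1.1.1 : Ideal (𝓞 K)) * B = Ideal.span {x.1.2})
    (hy : (rep y.1.1.1 : Ideal (𝓞 K)) * B = Ideal.span {y.1.2}) :
    x.1.1 = y.1.1 ∧ ∃ u : (𝓞 K)ˣ, x.1.2 * u = y.1.2 ∧
      ∀ w : InfinitePlace K, w ((u : 𝓞 K) : K) ≤ Z ^ finrank ℚ E := by
  have hZ0 : 0 < Z := by linarith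
  have hB0 : B ≠ ⊥ := by
    rintro rfl
    rw [Ideal.mul_bot, eq_comm, Ideal.span_singleton_eq_bot] at hx
    exact x.2.2 hx
  let B' : (Ideal (𝓞 K))⁰ := ⟨B, mem_nonZeroDivisors_iff_ne_zero.mpr hB0⟩
  have key : ∀ z : PR K E Z, (rep z.1.1.1 : Ideal (𝓞 K)) * B = Ideal.span {z.1.2} →
      z.1.1.1 * ClassGroup.mk0 B' = 1 := by
    intro z hz
    have h1 : ClassGroup.mk0 (rep z.1.1.1 * B') = 1 := by
      have h2 := (ClassGroup.mk0_eq_one_iff (rep z.1.1.1 * B').2).mpr (by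
        change ((rep z.1.1.1 : Ideal (𝓞 K)) * B).IsPrincipal
        rw [hz]
        exact ⟨z.1.2, rfl⟩)
      exact h2
    rw [map_mul, mk0_rep] at h1
    exact h1
  have hc : x.1.1 = y.1.1 := by
    apply Subtype.ext
    exact mul_right_cancel ((key x hx).trans (key y hy).symm)
  refine ⟨hc, ?_⟩
  rw [hc, hy] at hx
  obtain ⟨u, hu⟩ := (Ideal.span_singleton_eq_span_singleton.mp hx).symm
  refine ⟨u, hu, ?_⟩
  intro w
  have h1 : w (y.1.2 : K) = w (x.1.2 : K) * w ((u : 𝓞 K) : K) := by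
    rw [← map_mul, ← hu]
    rfl
  have h2 := bx_le hZ (mem_nonZeroDivisors_iff_ne_zero.mp (rep x.1.1.1).2) (gen_ne x.1.1)
    (gen_spec x.1.1) x.2.1.1 x.2.2 x.2.1.2 w
  have h3 := (y.2.1.2 w).le
  rw [← hc] at h3
  have h4 : 0 < w (x.1.2 : K) :=
    InfinitePlace.pos_iff.mpr (RingOfIntegers.coe_ne_zero_iff.mpr x.2.2)
  rw [h1] at h3
  exact le_of_mul_le_mul_left (h3.trans h2) h4

lemma card_fib {Z : ℝ} (hZ : 1 ≤ Z) (hZ0 : 0 < Z) (q : QR K E Z) :
    Nat.card {x : PR K E Z // tgt hZ0 x = q} ≤ Nat.card (UB K (Z ^ finrank ℚ E)) := by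
  classical
  rcases isEmpty_or_nonempty {x : PR K E Z // tgt hZ0 x = q} with h | ⟨⟨x, hx⟩⟩
  · rw [Nat.card_of_isEmpty]
    exact Nat.zero_le _
  · have h1 : ∀ y : {x : PR K E Z // tgt hZ0 x = q}, x.1.1 = y.1.1.1 ∧
        ∃ u : UB K (Z ^ finrank ℚ E), x.1.2 * (u.1 : 𝓞 K) = y.1.1.2 := by
      rintro ⟨y, hy⟩
      have hx' := tgt_spec hZ0 x
      have hy' := tgt_spec hZ0 y
      rw [hx] at hx'
      rw [hy] at hy'
      obtain ⟨h2, u, hu, hw⟩ := fib_same hZ hx' hy'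
      exact ⟨h2, ⟨u, hw⟩, hu⟩
    choose h2 u hu using h1
    apply Nat.card_le_card_of_injective u
    intro y z hyz
    apply Subtype.ext
    apply Subtype.ext
    apply Prod.ext
    · rw [← h2 y, ← h2 z]
    · rw [← hu y, ← hu z, hyz]

instance fin_kn : Finite (KN K E) := by
  have : Finite (ClassGroup (𝓞 K)) := inferInstance
  exact Subtype.finite

lemma prod_pos' {Z : ℝ} (hZ : 0 < Z) (c : KN K E) :
    Z ^ finrank ℚ E ≤ Real.sqrt |(discr K : ℝ)| *
      Nat.card {a : 𝓞 K // a ∈ (rep c.1 : Ideal (𝓞 K)) ∧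
        ∀ w : InfinitePlace K, w (a : K) < bx K Z (gen c) w} := by
  have hJ : (rep c.1 : Ideal (𝓞 K)) ≠ ⊥ := mem_nonZeroDivisors_iff_ne_zero.mp (rep c.1).2
  have h1 := many_in_box K hJ (bx K Z (gen c)) (fun w => bx_pos hZ (gen_ne c) w)
  rw [prod_bx hZ (gen_ne c) (gen_spec c)] at h1
  have h2 : (0 : ℝ) < Ideal.absNorm (rep c.1 : Ideal (𝓞 K)) := by
    have h3 : Ideal.absNorm (rep c.1 : Ideal (𝓞 K)) ≠ 0 := by
      rw [Ne, Ideal.absNorm_eq_zero_iff]
      exact hJ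
    exact_mod_cast Nat.pos_of_ne_zero h3
  refine le_of_mul_le_mul_left (h1.trans (le_of_eq ?_)) h2
  ring

lemma card_sub {α : Type*} (p : α → Prop) (a0 : α) (m : ℝ) (hm : 2 ≤ m)
    (h : m ≤ (Nat.card {a : α // p a} : ℝ)) :
    Finite {a : α // p a ∧ a ≠ a0} ∧ m / 2 ≤ (Nat.card {a : α // p a ∧ a ≠ a0} : ℝ) := by
  classical
  have hpos : 0 < Nat.card {a : α // p a} := by
    have : (0 : ℝ) < Nat.card {a : α // p a} := by linarith
    exact_mod_cast this
  have hfin : Finite {a : α // p a} := (Nat.card_pos_iff.mp hpos).2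
  have hfin2 : Finite {a : α // p a ∧ a ≠ a0} :=
    Finite.of_injective (fun x : {a : α // p a ∧ a ≠ a0} => (⟨x.1, x.2.1⟩ : {a : α // p a}))
      (by
        intro x y hxy
        have h := congrArg Subtype.val hxy
        exact Subtype.ext h)
  refine ⟨hfin2, ?_⟩
  have h1 : Nat.card {a : α // p a} ≤ Nat.card (Option {a : α // p a ∧ a ≠ a0}) := by
    apply Nat.card_le_card_of_injective
      (fun x : {a : α // p a} => if hx : x.1 ≠ a0 then some (⟨x.1, x.2, hx⟩ :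
        {a : α // p a ∧ a ≠ a0}) else none)
    intro x y hxy
    dsimp only at hxy
    by_cases hx : x.1 ≠ a0
    · by_cases hy : y.1 ≠ a0
      · rw [dif_pos hx, dif_pos hy] at hxy
        have := congrArg (fun z : {a : α // p a ∧ a ≠ a0} => z.1) (Option.some.inj hxy)
        exact Subtype.ext this
      · rw [dif_pos hx, dif_neg hy] at hxy
        exact absurd hxy (Option.some_ne_none _)
    · by_cases hy : y.1 ≠ a0
      · rw [dif_neg hx, dif_pos hy] at hxy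
        exact absurd hxy.symm (Option.some_ne_none _)
      · push Not at hx hy
        exact Subtype.ext (hx.trans hy.symm)
  rw [Finite.card_option] at h1
  have h2 : (Nat.card {a : α // p a} : ℝ) ≤ Nat.card {a : α // p a ∧ a ≠ a0} + 1 := by
    exact_mod_cast h1
  linarith

lemma card_pr_ge {Z : ℝ} (hZ : 0 < Z) (hZ2 : 2 * Real.sqrt |(discr K : ℝ)| ≤ Z ^ finrank ℚ E) :
    Finite (PR K E Z) ∧ (Nat.card (KN K E) : ℝ) * Z ^ finrank ℚ E ≤
      2 * Real.sqrt |(discr K : ℝ)| * Nat.card (PR K E Z) := by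
  classical
  have hs : 0 < Real.sqrt |(discr K : ℝ)| := by
    apply Real.sqrt_pos.mpr
    rw [abs_pos]
    exact_mod_cast NumberField.discr_ne_zero K
  have h1 : ∀ c : KN K E, Finite {a : 𝓞 K // (a ∈ (rep c.1 : Ideal (𝓞 K)) ∧
        ∀ w : InfinitePlace K, w (a : K) < bx K Z (gen c) w) ∧ a ≠ 0} ∧
      Z ^ finrank ℚ E / (2 * Real.sqrt |(discr K : ℝ)|) ≤
        (Nat.card {a : 𝓞 K // (a ∈ (rep c.1 : Ideal (𝓞 K)) ∧
        ∀ w : InfinitePlace K, w (a : K) < bx K Z (gen c) w) ∧ a ≠ 0} : ℝ) := by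
    intro c
    have h2 := prod_pos' hZ c
    have h3 := card_sub (fun a : 𝓞 K => a ∈ (rep c.1 : Ideal (𝓞 K)) ∧
        ∀ w : InfinitePlace K, w (a : K) < bx K Z (gen c) w) 0
        (Z ^ finrank ℚ E / Real.sqrt |(discr K : ℝ)|) (by
          rw [le_div_iff₀ hs]
          exact hZ2) (by
          rw [div_le_iff₀ hs, mul_comm]
          exact h2)
    refine ⟨h3.1, ?_⟩
    have h4 : Z ^ finrank ℚ E / (2 * Real.sqrt |(discr K : ℝ)|) =
        Z ^ finrank ℚ E / Real.sqrt |(discr K : ℝ)| / 2 := by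
      rw [div_div, mul_comm]
    rw [h4]
    exact h3.2
  have hfin := fun c => (h1 c).1
  have e := Equiv.subtypeProdEquivSigmaSubtype (fun (c : KN K E) (a : 𝓞 K) =>
    (a ∈ (rep c.1 : Ideal (𝓞 K)) ∧ ∀ w : InfinitePlace K, w (a : K) < bx K Z (gen c) w) ∧ a ≠ 0)
  refine ⟨Finite.of_equiv _ e.symm, ?_⟩
  cases nonempty_fintype (KN K E)
  have h5 : Nat.card (PR K E Z) = ∑ c : KN K E,
      Nat.card {a : 𝓞 K // (a ∈ (rep c.1 : Ideal (𝓞 K)) ∧
        ∀ w : InfinitePlace K, w (a : K) < bx K Z (gen c) w) ∧ a ≠ 0} := by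
    rw [Nat.card_congr e, Nat.card_sigma]
  rw [h5]
  push_cast
  have h6 : (Nat.card (KN K E) : ℝ) * (Z ^ finrank ℚ E / (2 * Real.sqrt |(discr K : ℝ)|)) ≤
      ∑ c : KN K E, (Nat.card {a : 𝓞 K // (a ∈ (rep c.1 : Ideal (𝓞 K)) ∧
        ∀ w : InfinitePlace K, w (a : K) < bx K Z (gen c) w) ∧ a ≠ 0} : ℝ) := by
    calc (Nat.card (KN K E) : ℝ) * (Z ^ finrank ℚ E / (2 * Real.sqrt |(discr K : ℝ)|)) =
        ∑ _c : KN K E, Z ^ finrank ℚ E / (2 * Real.sqrt |(discr K : ℝ)|) := by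
          rw [Finset.sum_const, Finset.card_univ, nsmul_eq_mul, Nat.card_eq_fintype_card]
      _ ≤ _ := Finset.sum_le_sum fun c _ => (h1 c).2
  have h7 : 0 < 2 * Real.sqrt |(discr K : ℝ)| := by positivity
  calc (Nat.card (KN K E) : ℝ) * Z ^ finrank ℚ E =
      2 * Real.sqrt |(discr K : ℝ)| * ((Nat.card (KN K E) : ℝ) *
        (Z ^ finrank ℚ E / (2 * Real.sqrt |(discr K : ℝ)|))) := by
        field_simp
    _ ≤ _ := mul_le_mul_of_nonneg_left h6 h7.le

lemma natAbs_norm_le {Z : ℝ} (hZ : 0 < Z) (b : BX E Z) :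
    ((Algebra.norm ℤ (b.1 : 𝓞 E)).natAbs : ℝ) ≤ Z ^ finrank ℚ E := by
  have h1 : ((Algebra.norm ℤ (b.1 : 𝓞 E)).natAbs : ℝ) =
      ∏ v : InfinitePlace E, v (b.1 : E) ^ v.mult := by
    rw [InfinitePlace.prod_eq_abs_norm, ← Algebra.coe_norm_int (b.1), Nat.cast_natAbs]
    push_cast
    rfl
  rw [h1, ← InfinitePlace.sum_mult_eq (K := E), ← Finset.prod_pow_eq_pow_sum]
  exact Finset.prod_le_prod (fun v _ => by positivity)
    (fun v _ => pow_le_pow_left₀ (by positivity) (b.2 v) _)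

lemma card_qr_le {Z : ℝ} (hZ : 0 < Z) (C ε : ℝ) (hε : 0 < ε)
    (hC : ∀ N : ℕ, 1 ≤ N →
      (Nat.card {B : Ideal (𝓞 K) // Ideal.absNorm B = N} : ℝ) ≤ C * (N : ℝ) ^ ε) (hC0 : 0 < C) :
    (Nat.card (QR K E Z) : ℝ) ≤ Nat.card (BX E Z) * (C * (Z ^ finrank ℚ E) ^ ε) := by
  classical
  cases nonempty_fintype {b : BX E Z // b.1 ≠ 0}
  rw [Nat.card_sigma]
  push_cast
  have h0 : 0 ≤ C * (Z ^ finrank ℚ E) ^ ε := by positivity
  calc ∑ β : {b : BX E Z // b.1 ≠ 0}, (Nat.card {B : Ideal (𝓞 K) //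
        Ideal.absNorm B = (Algebra.norm ℤ (β.1.1 : 𝓞 E)).natAbs} : ℝ)
      ≤ ∑ _β : {b : BX E Z // b.1 ≠ 0}, C * (Z ^ finrank ℚ E) ^ ε := by
        apply Finset.sum_le_sum
        intro β _
        refine (hC _ (Nat.one_le_iff_ne_zero.mpr (norm_natAbs_ne β.2))).trans ?_
        apply mul_le_mul_of_nonneg_left _ hC0.le
        exact Real.rpow_le_rpow (Nat.cast_nonneg _) (natAbs_norm_le hZ β.1) hε.le
    _ = Nat.card {b : BX E Z // b.1 ≠ 0} * (C * (Z ^ finrank ℚ E) ^ ε) := by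
        rw [Finset.sum_const, Finset.card_univ, nsmul_eq_mul, Nat.card_eq_fintype_card]
    _ ≤ _ := by
        apply mul_le_mul_of_nonneg_right _ h0
        exact_mod_cast Nat.card_le_card_of_injective (fun b : {b : BX E Z // b.1 ≠ 0} => b.1)
          Subtype.val_injective

end count

theorem card_ker_norm (n : ℕ) (ε : ℝ) (hε : 0 < ε) : ∃ C : ℝ, 0 < C ∧
    ∀ (K E : Type) [Field K] [NumberField K] [Field E] [NumberField E] [Algebra E K],
      finrank ℚ K = n →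
      (Nat.card {c : ClassGroup (𝓞 K) // (idMap_relNorm (K := E) (L := K)).cl c = 1} : ℝ) *
        Real.sqrt |(discr E : ℝ)| ≤
        C * |(discr K : ℝ)| ^ ε * Real.sqrt |(discr K : ℝ)| := by
  classical
  choose C1 A1 hC1 hfew using few_in_box
  set A : ℕ := ∑ e ∈ range (n + 1), A1 e with hA
  set ε' : ℝ := ε / (2 * (n + 1) * (A + 1)) with hε'
  have hε'0 : 0 < ε' := by positivity
  obtain ⟨C3, hC3, hunits⟩ := units_in_box n ε' hε'0
  obtain ⟨C4, hC4, hideals⟩ := ideals_of_norm n ε' hε'0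
  set C0 : ℝ := ∑ e ∈ range (n + 1), C1 e with hC0
  have hC00 : 0 < C0 := Finset.sum_pos (fun e _ => hC1 e) ⟨0, by simp⟩
  refine ⟨2 * C0 * C3 * C4 * 2 ^ ε, by positivity, ?_⟩
  intro K E _ _ _ _ _ hn
  have hfd : FiniteDimensional E K := Module.Finite.of_restrictScalars_finite ℚ E K
  set e := finrank ℚ E with he
  have he0 : 0 < e := finrank_pos
  have hen : e ∈ range (n + 1) := by
    rw [Finset.mem_range, ← hn, ← finrank_mul_finrank ℚ E K, ← he]
    have hm : 0 < finrank E K := finrank_pos_rel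
    have := Nat.le_mul_of_pos_right e hm
    omega
  have hAe : A1 e ≤ A := Finset.single_le_sum (f := A1) (fun _ _ => Nat.zero_le _) hen
  have hCe : C1 e ≤ C0 := Finset.single_le_sum (f := C1) (fun e _ => (hC1 e).le) hen
  have hnR : (e : ℝ) ≤ n + 1 := by
    have := Finset.mem_range.mp hen
    exact_mod_cast this.le
  -- the discriminants
  set D : ℝ := |(discr K : ℝ)| with hD
  set DE : ℝ := |(discr E : ℝ)| with hDE
  have hD1 : 1 ≤ D := by
    rw [hD, ← Int.cast_abs]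
    exact_mod_cast Int.one_le_abs (NumberField.discr_ne_zero K)
  have hDE1 : 1 ≤ DE := by
    rw [hDE, ← Int.cast_abs]
    exact_mod_cast Int.one_le_abs (NumberField.discr_ne_zero E)
  have hDED : DE ≤ D := by
    have h1 : discr E ∣ discr K := NumberField.discr_dvd_discr E K
    have h2 : |discr E| ≤ |discr K| := by
      have h3 : |discr E| ∣ |discr K| := (abs_dvd_abs _ _).mpr h1
      exact Int.le_of_dvd (abs_pos.mpr (NumberField.discr_ne_zero K)) h3
    rw [hD, hDE, ← Int.cast_abs, ← Int.cast_abs]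
    exact_mod_cast h2
  set Z : ℝ := (2 * D) ^ (A + 1) with hZdef
  have h2D : 1 ≤ 2 * D := by linarith
  have hZ2D : 2 * D ≤ Z := by
    calc 2 * D = (2 * D) ^ 1 := (pow_one _).symm
      _ ≤ Z := pow_le_pow_right₀ h2D (by omega)
  have hZ2 : 2 ≤ Z := by linarith
  have hZ1 : 1 ≤ Z := by linarith
  have hZ0 : 0 < Z := by linarith
  have hDEZ : DE ^ A1 e ≤ Z := by
    calc DE ^ A1 e ≤ DE ^ (A + 1) := pow_le_pow_right₀ hDE1 (by omega)
      _ ≤ Z := pow_le_pow_left₀ (by linarith) (by linarith) _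
  have hZe : Z ≤ Z ^ e := by
    calc Z = Z ^ 1 := (pow_one _).symm
      _ ≤ Z ^ e := pow_le_pow_right₀ hZ1 he0
  have hsD : Real.sqrt D ≤ D := by
    rw [Real.sqrt_le_left (by linarith)]
    nlinarith
  have hsD0 : 0 < Real.sqrt D := Real.sqrt_pos.mpr (by linarith)
  have hsDE0 : 0 < Real.sqrt DE := Real.sqrt_pos.mpr (by linarith)
  obtain ⟨hfin, hge⟩ := card_pr_ge (K := K) (E := E) hZ0 (by
    rw [← he, ← hD]
    linarith)
  rw [← he, ← hD] at hge
  have hfinQ : Finite (QR K E Z) := inferInstance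
  have hZe1 : 1 ≤ Z ^ e := hZ1.trans hZe
  have hcount := count_fib (tgt (K := K) (E := E) hZ0) (C3 * (Z ^ e) ^ ε') (by
    intro q
    have h1 := card_fib (K := K) (E := E) hZ1 hZ0 q
    have h2 := hunits K hn (Z ^ e) hZe1
    have h3 : (Nat.card {x : PR K E Z // tgt hZ0 x = q} : ℝ) ≤ Nat.card (UB K (Z ^ e)) := by
      exact_mod_cast h1
    exact h3.trans h2)
  have hq := card_qr_le (K := K) (E := E) hZ0 C4 ε' hε'0 (fun N hN => hideals K hn N hN) hC4
  rw [← he] at hq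
  have hb := hfew e E rfl Z hZ2 hDEZ
  rw [← hDE] at hb
  set X : ℝ := (Z ^ e) ^ ε' with hX
  have hX0 : 0 < X := by positivity
  have hXX : X * X ≤ 2 ^ ε * D ^ ε := by
    have h1 : X * X = (2 * D) ^ ((A + 1 : ℝ) * e * (2 * ε')) := by
      rw [hX, hZdef, ← pow_mul, ← Real.rpow_natCast, ← Real.rpow_mul (by linarith),
        ← Real.rpow_add (by linarith)]
      congr 1
      push_cast
      ring
    rw [h1, ← Real.mul_rpow (by norm_num) (by linarith)]
    apply Real.rpow_le_rpow_of_exponent_le h2D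
    have h2 : (A + 1 : ℝ) * (n + 1) * (2 * ε') = ε := by
      rw [hε']
      field_simp
    calc (A + 1 : ℝ) * e * (2 * ε') ≤ (A + 1 : ℝ) * (n + 1) * (2 * ε') := by
          apply mul_le_mul_of_nonneg_right _ (by positivity)
          exact mul_le_mul_of_nonneg_left hnR (by positivity)
      _ = ε := h2
  set cK : ℝ := (Nat.card (KN K E) : ℝ) with hcK
  set cP : ℝ := (Nat.card (PR K E Z) : ℝ) with hcP
  set cQ : ℝ := (Nat.card (QR K E Z) : ℝ) with hcQ
  set cB : ℝ := (Nat.card (BX E Z) : ℝ) with hcB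
  have hcB0 : 0 ≤ cB := Nat.cast_nonneg _
  have hZe0 : 0 < Z ^ e := by positivity
  have e1 : cK * Z ^ e ≤ 2 * Real.sqrt D * (cB * (C4 * X) * (C3 * X)) := by
    refine hge.trans ?_
    apply mul_le_mul_of_nonneg_left _ (by positivity)
    exact hcount.trans (mul_le_mul_of_nonneg_right hq (by positivity))
  have e2 : (cK * Real.sqrt DE) * Z ^ e ≤
      (2 * C1 e * C3 * C4 * (X * X) * Real.sqrt D) * Z ^ e := by
    calc (cK * Real.sqrt DE) * Z ^ e = (cK * Z ^ e) * Real.sqrt DE := by ring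
      _ ≤ (2 * Real.sqrt D * (cB * (C4 * X) * (C3 * X))) * Real.sqrt DE :=
          mul_le_mul_of_nonneg_right e1 hsDE0.le
      _ = (2 * Real.sqrt D * (C4 * X) * (C3 * X)) * (Real.sqrt DE * cB) := by ring
      _ ≤ (2 * Real.sqrt D * (C4 * X) * (C3 * X)) * (C1 e * Z ^ e) :=
          mul_le_mul_of_nonneg_left hb (by positivity)
      _ = _ := by ring
  have e3 := le_of_mul_le_mul_right e2 hZe0
  have hC1e := hC1 e
  calc cK * Real.sqrt DE ≤ 2 * C1 e * C3 * C4 * (X * X) * Real.sqrt D := e3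
    _ ≤ 2 * C0 * C3 * C4 * (2 ^ ε * D ^ ε) * Real.sqrt D := by
        apply mul_le_mul_of_nonneg_right _ hsD0.le
        apply mul_le_mul _ hXX (by positivity) (by positivity)
        apply mul_le_mul_of_nonneg_right _ hC4.le
        apply mul_le_mul_of_nonneg_right _ hC3.le
        linarith
    _ = 2 * C0 * C3 * C4 * 2 ^ ε * D ^ ε * Real.sqrt D := by ring

end Pool.Agent.Lib.MP_695920_nt.Gl
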