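import Mathlib
import Pool.Agent.Lib.MP_695920_nt.Gl.RelCount

/-!
The `l`-torsion of the class group of an extension, in terms of the one of the base field.
-/

set_option autoImplicit false

open Finset NumberField Module IsDedekindDomain
open scoped nonZeroDivisors Pointwise

namespace Pool.Agent.Lib.MP_695920_nt.Gl

lemma tl_le_mul_ker (l : ℕ) (K E : Type) [Field K] [NumberField K] [Field E] [NumberField E]
    [Algebra E K] : tl l K ≤ tl l E * Nat.card (KN K E) := by
  classical
  set φ := (idMap_relNorm (K := E) (L := K)).cl with hφ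
  have hfin1 : Finite {x : ClassGroup (𝓞 K) // x ^ l = 1} := Subtype.finite
  have hfin2 : Finite {x : ClassGroup (𝓞 E) // x ^ l = 1} := Subtype.finite
  let F : {x : ClassGroup (𝓞 K) // x ^ l = 1} → {x : ClassGroup (𝓞 E) // x ^ l = 1} :=
    fun x => ⟨φ x.1, by rw [← map_pow, x.2, map_one]⟩
  have h := count_fib F (Nat.card (KN K E)) (by
    intro q
    rcases isEmpty_or_nonempty {x // F x = q} with h | ⟨⟨x, hx⟩⟩
    · rw [Nat.card_of_isEmpty]
      exact_mod_cast Nat.zero_le _
    · have h1 : ∀ y : {x // F x = q}, φ (y.1.1 * x.1⁻¹) = 1 := by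
        rintro ⟨y, hy⟩
        have h2 : φ y.1 = φ x.1 := by
          have h3 := congrArg Subtype.val (hy.trans hx.symm)
          exact h3
        rw [map_mul, map_inv, h2, mul_inv_cancel]
      have h4 : Nat.card {x // F x = q} ≤ Nat.card (KN K E) := by
        apply Nat.card_le_card_of_injective
          (fun y : {x // F x = q} => (⟨y.1.1 * x.1⁻¹, h1 y⟩ : KN K E))
        intro y z hyz
        have h5 := congrArg Subtype.val hyz
        have h6 : y.1.1 = z.1.1 := mul_right_cancel h5
        exact Subtype.ext (Subtype.ext h6)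
      exact_mod_cast h4)
  exact_mod_cast h

/-- the relative trivial bound -/
theorem tl_rel_bound (l n : ℕ) (ε : ℝ) (hε : 0 < ε) : ∃ C : ℝ, 0 < C ∧
    ∀ (K E : Type) [Field K] [NumberField K] [Field E] [NumberField E] [Algebra E K],
      finrank ℚ K = n →
      (tl l K : ℝ) * Real.sqrt |(discr E : ℝ)| ≤
        C * tl l E * |(discr K : ℝ)| ^ ε * Real.sqrt |(discr K : ℝ)| := by
  obtain ⟨C, hC, h⟩ := card_ker_norm n ε hε
  refine ⟨C, hC, ?_⟩
  intro K E _ _ _ _ _ hn
  have h1 := h K E hn
  have h2 : (tl l K : ℝ) ≤ tl l E * Nat.card (KN K E) := by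
    exact_mod_cast tl_le_mul_ker l K E
  calc (tl l K : ℝ) * Real.sqrt |(discr E : ℝ)|
      ≤ (tl l E * Nat.card (KN K E)) * Real.sqrt |(discr E : ℝ)| :=
        mul_le_mul_of_nonneg_right h2 (Real.sqrt_nonneg _)
    _ = tl l E * (Nat.card (KN K E) * Real.sqrt |(discr E : ℝ)|) := by ring
    _ ≤ tl l E * (C * |(discr K : ℝ)| ^ ε * Real.sqrt |(discr K : ℝ)|) :=
        mul_le_mul_of_nonneg_left h1 (Nat.cast_nonneg _)
    _ = _ := by ring

end Pool.Agent.Lib.MP_695920_nt.Gl
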