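import Mathlib
import Pool.Agent.Lib.MP_695920_nt.Gl.RelCount

/-!
The class number is at most the square root of the discriminant, up to a small power.
-/

set_option autoImplicit false

open Finset NumberField Module IsDedekindDomain
open scoped nonZeroDivisors

namespace Pool.Agent.Lib.MP_695920_nt.Gl

lemma subsingleton_class_rat : Subsingleton (ClassGroup (𝓞 ℚ)) := by
  have hpir : IsPrincipalIdealRing (𝓞 ℚ) :=
    IsPrincipalIdealRing.of_surjective Rat.ringOfIntegersEquiv.symm
      Rat.ringOfIntegersEquiv.symm.surjective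
  constructor
  intro a b
  have h3 : ∀ c : ClassGroup (𝓞 ℚ), c = 1 := by
    intro c
    obtain ⟨I, rfl⟩ := ClassGroup.mk0_surjective c
    rw [ClassGroup.mk0_eq_one_iff]
    exact IsPrincipalIdealRing.principal _
  rw [h3 a, h3 b]

lemma tl_le_class (l : ℕ) (K : Type) [Field K] [NumberField K] :
    tl l K ≤ Nat.card (ClassGroup (𝓞 K)) :=
  Nat.card_le_card_of_injective (fun x : {c : ClassGroup (𝓞 K) // c ^ l = 1} => x.1)
    Subtype.val_injective

theorem class_number_le (n : ℕ) (ε : ℝ) (hε : 0 < ε) : ∃ C : ℝ, 0 < C ∧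
    ∀ (K : Type) [Field K] [NumberField K], finrank ℚ K = n →
      (Nat.card (ClassGroup (𝓞 K)) : ℝ) ≤ C * |(discr K : ℝ)| ^ (1 / 2 + ε) := by
  obtain ⟨C, hC, h⟩ := card_ker_norm n ε hε
  refine ⟨C, hC, ?_⟩
  intro K _ _ hn
  have hD : 0 < |(discr K : ℝ)| := by
    rw [abs_pos]
    exact_mod_cast NumberField.discr_ne_zero K
  have h1 := h K ℚ hn
  have hsub := subsingleton_class_rat
  have h2 : Nat.card {c : ClassGroup (𝓞 K) // (idMap_relNorm (K := ℚ) (L := K)).cl c = 1} =
      Nat.card (ClassGroup (𝓞 K)) :=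
    Nat.card_congr (Equiv.subtypeUnivEquiv fun c => Subsingleton.elim _ _)
  have h3 : Real.sqrt |(discr ℚ : ℝ)| = 1 := by
    rw [NumberField.discr_rat]
    simp
  rw [h2, h3, mul_one] at h1
  rw [Real.rpow_add hD, ← Real.sqrt_eq_rpow]
  linarith

end Pool.Agent.Lib.MP_695920_nt.Gl
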