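import Mathlib
import Pool.Agent.Lib.MP_695920_nt.Gl.Defs

/-!
Definitions for the final statements.
-/

set_option autoImplicit false

open NumberField Module
open scoped IntermediateField

namespace Pool.Agent.Lib.MP_695920_nt.Gl

/-- `r = z + z⁻¹` for a primitive `l`-th root of unity `z` -/
def RR (l : ℕ) {K : Type} [Field K] (r : K) : Prop :=
  ∃ z : AlgebraicClosure K, IsPrimitiveRoot z l ∧ algebraMap K (AlgebraicClosure K) r = z + z⁻¹

/-- the subfield `F` of `K` contains `z + z⁻¹` for a primitive `l`-th root of unity `z` -/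
def HasReal (l : ℕ) {K : Type} [Field K] [NumberField K] (F : IntermediateField ℚ K) : Prop :=
  ∃ r ∈ F, RR l r

/-- `[K : E]` is a power of `l` and the Galois closure of `K / E` is solvable -/
def PowerK (l : ℕ) {K : Type} [Field K] [NumberField K] (E : IntermediateField ℚ K) : Prop :=
  (∃ j : ℕ, finrank E K = l ^ j) ∧
    ∃ α : K, E ⊔ ℚ⟮α⟯ = ⊤ ∧ Group.IsSolvable (minpoly E α).Gal

/-- any two embeddings of `K` in `L` which agree on `F` differ by a power of `g` -/
def InertEl {K L : Type} [Field K] [NumberField K] [Field L] [NumberField L]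
    (F : IntermediateField ℚ K) (g : L ≃ₐ[ℚ] L) : Prop :=
  ∀ s t : K →ₐ[ℚ] L, (∀ x ∈ F, s x = t x) → ∃ i : ℤ, ∀ x : K, (g ^ i) (s x) = t x

/-- `g` fixes the conjugates of `F` -/
def FixesEl {K L : Type} [Field K] [NumberField K] [Field L] [NumberField L]
    (F : IntermediateField ℚ K) (g : L ≃ₐ[ℚ] L) : Prop :=
  ∀ s : K →ₐ[ℚ] L, ∀ x ∈ F, g (s x) = s x

/-- there are primes which are not inert in `K / F`, for reasons of group theory -/
def Mild {K : Type} [Field K] [NumberField K] (F : IntermediateField ℚ K) : Prop :=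
  ∀ (L : Type) [Field L] [NumberField L] [IsGalois ℚ L], Nonempty (K →ₐ[ℚ] L) →
    (∀ g : L ≃ₐ[ℚ] L, FixesEl F g → ¬ InertEl F g) ∨
    ∃ y : L, y ∉ Set.range (algebraMap ℚ L) ∧
      ∀ g : L ≃ₐ[ℚ] L, FixesEl F g ∨ InertEl F g → g y = y

/-- the subfield `E` of `K` may have small discriminant -/
def Fine (l : ℕ) {K : Type} [Field K] [NumberField K] (E : IntermediateField ℚ K) : Prop :=
  PowerK l E ∨ Mild E

/-- `[X : X ∩ E]` is even for some subfield `X` of `K` containing `r` -/
def EvenX {K : Type} [Field K] [NumberField K] (r : K) (E : IntermediateField ℚ K) : Prop :=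
  ∃ X : IntermediateField ℚ K, r ∈ X ∧
    2 * finrank ℚ (X ⊓ E : IntermediateField ℚ K) ∣ finrank ℚ X

/-- the subfield `E` of `K` may have small discriminant, or `K / E` is quadratic and `l = 3` -/
def Fine3 (l : ℕ) {K : Type} [Field K] [NumberField K] (E : IntermediateField ℚ K) : Prop :=
  Fine l E ∨ (l = 3 ∧ finrank E K = 2)

/-- the subfield `F` of `K` may have small discriminant -/
def Allowed (l : ℕ) {K : Type} [Field K] [NumberField K] (F : IntermediateField ℚ K) : Prop :=
  PowerK l F ∨ Mild F ∨ (l = 3 ∧ finrank F K = 2) ∨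
    ((∀ x : K, ¬ IsPrimitiveRoot x l) ∧ HasReal l (⊤ : IntermediateField ℚ K) ∧
      (HasReal l F → ∃ X : IntermediateField ℚ K, HasReal l X ∧
        2 * finrank ℚ (X ⊓ F : IntermediateField ℚ K) ∣ finrank ℚ X))

/-- the subfield `F` of `K` may have small discriminant, simple form -/
def AllowedS (l : ℕ) {K : Type} [Field K] [NumberField K] (F : IntermediateField ℚ K) : Prop :=
  PowerK l F ∨ Mild F ∨ (l = 3 ∧ finrank F K = 2) ∨
    ((∀ x : K, ¬ IsPrimitiveRoot x l) ∧ HasReal l (⊤ : IntermediateField ℚ K) ∧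
      (HasReal l F → Even (finrank F K)))

lemma AllowedS.allowed {l : ℕ} {K : Type} [Field K] [NumberField K] {F : IntermediateField ℚ K}
    (h : AllowedS l F) : Allowed l F := by
  rcases h with h | h | h | ⟨h1, h2, h3⟩
  · exact Or.inl h
  · exact Or.inr (Or.inl h)
  · exact Or.inr (Or.inr (Or.inl h))
  · refine Or.inr (Or.inr (Or.inr ⟨h1, h2, fun hF => ⟨⊤, h2, ?_⟩⟩))
    rw [top_inf_eq, IntermediateField.finrank_top', ← finrank_mul_finrank ℚ F K, mul_comm 2]
    exact Nat.mul_dvd_mul_left _ (h3 hF).two_dvd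

/-- `z ^ i + z⁻¹ ^ i` is a polynomial in `z + z⁻¹` -/
lemma pow_sum_mem {A : Type*} [Field A] (S : Subring A) {z : A} (hz0 : z ≠ 0)
    (h : z + z⁻¹ ∈ S) (i : ℕ) : z ^ i + (z ^ i)⁻¹ ∈ S := by
  induction i using Nat.strong_induction_on with
  | _ i ih =>
    match i with
    | 0 =>
      rw [pow_zero, inv_one]
      exact S.add_mem S.one_mem S.one_mem
    | 1 => rwa [pow_one]
    | (i + 2) =>
      have h1 := ih (i + 1) (by omega)
      have h2 := ih i (by omega)
      have h3 : z ^ (i + 2) + (z ^ (i + 2))⁻¹ =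
          (z + z⁻¹) * (z ^ (i + 1) + (z ^ (i + 1))⁻¹) - (z ^ i + (z ^ i)⁻¹) := by
        field_simp
        ring
      rw [h3]
      exact S.sub_mem (S.mul_mem h h1) h2

/-- the field generated by `z + z⁻¹` does not depend on the primitive root of unity `z` -/
lemma RR.mem {l : ℕ} (hl : l.Prime) {K : Type} [Field K] [NumberField K] {r r' : K}
    (h : RR l r) (h' : RR l r') {F : IntermediateField ℚ K} (hr : r ∈ F) : r' ∈ F := by
  have hne : NeZero l := ⟨hl.ne_zero⟩
  obtain ⟨z, hz, hzr⟩ := h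
  obtain ⟨z', hz', hzr'⟩ := h'
  obtain ⟨i, hi, hiz⟩ := hz.eq_pow_of_pow_eq_one hz'.pow_eq_one
  have hz0 : z ≠ 0 := hz.ne_zero hl.ne_zero
  have h1 := pow_sum_mem (F.toSubring.map (algebraMap K (AlgebraicClosure K))) hz0
    ⟨r, hr, hzr⟩ i
  rw [hiz, ← hzr'] at h1
  obtain ⟨y, hy, hyr⟩ := h1
  have h2 : y = r' := (algebraMap K (AlgebraicClosure K)).injective hyr
  rw [← h2]
  exact hy

end Pool.Agent.Lib.MP_695920_nt.Gl
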