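import Mathlib
import Pool.Agent.Lib.MP_695920_nt.Gl.Defs
import Pool.Agent.Lib.MP_695920_nt.Refl.TwoInert

/-!
Primes of norm `1` and `-1` modulo `l` and the extension by the `l`-th roots of unity.
-/

set_option autoImplicit false

open Finset NumberField Module IsDedekindDomain
open scoped nonZeroDivisors Pointwise

namespace Pool.Agent.Lib.MP_695920_nt.Gl

open Pool.Agent.Lib.MP_695920_nt.Solv Pool.Agent.Lib.MP_695920_nt.Tow
  Pool.Agent.Lib.MP_695920_nt.Refl Pool.Agent.Lib.MP_695920_nt.Tow.RelD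

/-- `1 - z` divides `l` -/
lemma root_mem {l : ℕ} (hl : l.Prime) {R : Type*} [CommRing R] [IsDomain R] {z : R}
    (hz : IsPrimitiveRoot z l) {P : Ideal R} (h : z - 1 ∈ P) : (l : R) ∈ P := by
  obtain ⟨n, rfl⟩ : ∃ n, l = n + 1 := ⟨l - 1, by have := hl.pos; omega⟩
  have h1 := hz.prod_one_sub_pow_eq_order
  have hn : 0 < n := by
    have := hl.two_le
    omega
  have h2 : (1 - z ^ (0 + 1)) ∣ ∏ k ∈ Finset.range n, (1 - z ^ (k + 1)) :=
    Finset.dvd_prod_of_mem (fun k => 1 - z ^ (k + 1)) (Finset.mem_range.mpr hn)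
  obtain ⟨c, hc⟩ := h2
  have h3 : ((n + 1 : ℕ) : R) = -(c * (z - 1)) := by
    push_cast
    rw [← h1, hc]
    ring
  rw [h3]
  exact P.neg_mem (P.mul_mem_left _ h)

lemma norm_mod_of_root {l : ℕ} (hl : l.Prime) {K : Type} [Field K] [NumberField K] {z : 𝓞 K}
    (hz : IsPrimitiveRoot z l) {P : Ideal (𝓞 K)} (hP : P.IsPrime) (hP0 : P ≠ ⊥)
    (hlP : (l : 𝓞 K) ∉ P) : Ideal.absNorm P % l = 1 := by
  classical
  have hfl : Fact l.Prime := ⟨hl⟩
  have hmax := hP.isMaximal hP0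
  let _ : Field (𝓞 K ⧸ P) := Ideal.Quotient.field P
  have hfin : Finite (𝓞 K ⧸ P) := Ring.HasFiniteQuotients.finiteQuotient hP0
  cases nonempty_fintype (𝓞 K ⧸ P)
  have hcard : Nat.card (𝓞 K ⧸ P)ˣ = Ideal.absNorm P - 1 := by
    rw [Nat.card_units]; rfl
  set g : 𝓞 K ⧸ P := Ideal.Quotient.mk P z with hg
  have hgl : g ^ l = 1 := by
    rw [hg, ← map_pow, hz.pow_eq_one, map_one]
  have hg0 : g ≠ 0 := by
    intro h
    rw [h, zero_pow hl.ne_zero] at hgl
    exact zero_ne_one hgl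
  have hg1 : g ≠ 1 := by
    intro h
    apply hlP
    apply root_mem hl hz
    rw [← Ideal.Quotient.eq_zero_iff_mem, map_sub, map_one, ← hg, h, sub_self]
  let u : (𝓞 K ⧸ P)ˣ := Units.mk0 g hg0
  have hul : u ^ l = 1 := by
    apply Units.ext
    rw [Units.val_pow_eq_pow_val, Units.val_one]
    exact hgl
  have hu1 : u ≠ 1 := by
    intro h
    exact hg1 (congrArg (fun z : (𝓞 K ⧸ P)ˣ => (z : 𝓞 K ⧸ P)) h)
  have hord : orderOf u = l := orderOf_eq_prime hul hu1
  have hdvd : l ∣ Nat.card (𝓞 K ⧸ P)ˣ := by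
    rw [← hord]; exact orderOf_dvd_natCard u
  rw [hcard] at hdvd
  have h1 := two_le_absNorm_of_prime hP0 hP
  obtain ⟨c, hc⟩ := hdvd
  have h2 : Ideal.absNorm P = 1 + l * c := by omega
  rw [h2, Nat.add_mul_mod_self_left, Nat.mod_eq_of_lt hl.one_lt]

lemma conj_root {l : ℕ} (hl : l.Prime) (hl2 : l ≠ 2) {K K' : Type} [Field K] [NumberField K]
    [Field K'] [NumberField K'] [Algebra K K'] (h2 : finrank K K' = 2) {z : 𝓞 K'}
    (hz : IsPrimitiveRoot z l) (hK : NC l K) :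
    ∃ (_ : IsGalois K K') (σ : Gal(K'/K)), (σ • z) * z = 1 := by
  classical
  have hnz : NeZero l := ⟨hl.ne_zero⟩
  have hquad : Algebra.IsQuadraticExtension K K' := ⟨h2⟩
  have hgal : IsGalois K K' := inferInstance
  refine ⟨hgal, ?_⟩
  have hzK' : IsPrimitiveRoot (z : K') l :=
    hz.map_of_injective (f := algebraMap (𝓞 K') K') RingOfIntegers.coe_injective
  -- an automorphism moving `z`
  have hσ : ∃ σ : Gal(K'/K), σ • z ≠ z := by
    by_contra hcon
    push Not at hcon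
    have h4 : (z : K') ∈ (⊥ : IntermediateField K K') := by
      rw [IsGalois.mem_bot_iff_fixed]
      intro σ
      exact congrArg (fun z : 𝓞 K' => (z : K')) (hcon σ)
    obtain ⟨x, hx⟩ := IntermediateField.mem_bot.mp h4
    apply hK x
    apply IsPrimitiveRoot.of_map_of_injective (f := algebraMap K K') _ (algebraMap K K').injective
    rw [hx]
    exact hzK'
  obtain ⟨σ, hσ⟩ := hσ
  refine ⟨σ, ?_⟩
  have hσl : (σ • z) ^ l = 1 := by
    rw [← smul_pow', hz.pow_eq_one, smul_one]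
  obtain ⟨j, hj, hjz⟩ := hz.eq_pow_of_pow_eq_one hσl
  have hσ2 : σ • (σ • z) = z := by
    rw [smul_smul, ← pow_two]
    have h5 : σ ^ 2 = 1 := by
      have h6 : Nat.card Gal(K'/K) = 2 := by
        rw [IsGalois.card_aut_eq_finrank, h2]
      rw [← h6]
      exact pow_card_eq_one'
    rw [h5, one_smul]
  have hz0 : z ≠ 0 := hz.ne_zero hl.ne_zero
  have hj0 : j ≠ 0 := by
    rintro rfl
    rw [pow_zero] at hjz
    rw [← hjz, smul_one] at hσ2
    exact hz.ne_one hl.one_lt hσ2.symm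
  have hj1 : j ≠ 1 := by
    rintro rfl
    rw [pow_one] at hjz
    exact hσ hjz.symm
  have h7 : z ^ (j * j - 1) = 1 := by
    have h8 : z ^ (j * j - 1) * z = 1 * z := by
      rw [← pow_succ, one_mul]
      have h9 : j * j - 1 + 1 = j * j := by
        have : 0 < j * j := Nat.mul_pos (Nat.pos_of_ne_zero hj0) (Nat.pos_of_ne_zero hj0)
        omega
      rw [h9]
      rw [← hjz, smul_pow', ← hjz, ← pow_mul] at hσ2
      exact hσ2
    exact mul_right_cancel₀ hz0 h8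
  have h8 : l ∣ j * j - 1 := hz.dvd_of_pow_eq_one _ h7
  have h9 : j * j - 1 = (j + 1) * (j - 1) := by
    obtain ⟨i, rfl⟩ : ∃ i, j = i + 1 := ⟨j - 1, by omega⟩
    have : (i + 1) * (i + 1) = (i + 1 + 1) * i + 1 := by ring
    rw [this]
    simp
  rw [h9] at h8
  rcases hl.dvd_mul.mp h8 with h10 | h10
  · rw [← hjz, ← pow_succ]
    exact (hz.pow_eq_one_iff_dvd _).mpr h10
  · exfalso
    have h11 := Nat.le_of_dvd (by omega) h10
    omega

/-- primes of norm `1` modulo `l` split in the extension by the `l`-th roots of unity -/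
lemma two_primes_l {l : ℕ} (hl : l.Prime) (hl2 : l ≠ 2) {K K' : Type} [Field K] [NumberField K]
    [Field K'] [NumberField K'] [Algebra K K'] (h2 : finrank K K' = 2) {z : 𝓞 K'}
    (hz : IsPrimitiveRoot z l) (hK : NC l K) {v : Ideal (𝓞 K)} (hv : v.IsPrime) (hv0 : v ≠ ⊥)
    (hlv : (l : 𝓞 K) ∉ v) (hN : Ideal.absNorm v % l = 1) :
    ∃ P Q : Ideal (𝓞 K'), P.IsPrime ∧ Q.IsPrime ∧ P ≠ ⊥ ∧ Q ≠ ⊥ ∧ P ≠ Q ∧
      P.under (𝓞 K) = v ∧ Q.under (𝓞 K) = v ∧ Ideal.absNorm P = Ideal.absNorm v ∧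
      Ideal.absNorm Q = Ideal.absNorm v := by
  classical
  have hfl : Fact l.Prime := ⟨hl⟩
  have hnz : NeZero l := ⟨hl.ne_zero⟩
  obtain ⟨hgal, σ, hσz⟩ := conj_root hl hl2 h2 hz hK
  have hmax := hv.isMaximal hv0
  -- a root of unity modulo `v`
  have hc : ∃ c : 𝓞 K, c ^ l - 1 ∈ v ∧ c - 1 ∉ v := by
    let _ : Field (𝓞 K ⧸ v) := Ideal.Quotient.field v
    have hfin : Finite (𝓞 K ⧸ v) := Ring.HasFiniteQuotients.finiteQuotient hv0
    cases nonempty_fintype (𝓞 K ⧸ v)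
    have hcard : Nat.card (𝓞 K ⧸ v)ˣ = Ideal.absNorm v - 1 := by
      rw [Nat.card_units]; rfl
    have h4 : l ∣ Nat.card (𝓞 K ⧸ v)ˣ := by
      rw [hcard, ← hN]
      exact Nat.dvd_sub_mod _
    obtain ⟨g, hg⟩ := exists_prime_orderOf_dvd_card' l h4
    have hg3 : (g : 𝓞 K ⧸ v) ^ l = 1 := by
      rw [← Units.val_pow_eq_pow_val]
      have h5 := pow_orderOf_eq_one g
      rw [hg] at h5
      rw [h5, Units.val_one]
    have hg1 : (g : 𝓞 K ⧸ v) ≠ 1 := by
      intro h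
      have : g = 1 := Units.ext h
      rw [this, orderOf_one] at hg
      exact hl.one_lt.ne hg
    obtain ⟨c, hc⟩ := Ideal.Quotient.mk_surjective (g : 𝓞 K ⧸ v)
    refine ⟨c, ?_, ?_⟩
    · rw [← Ideal.Quotient.eq_zero_iff_mem, map_sub, map_pow, hc, map_one, hg3, sub_self]
    · rw [← Ideal.Quotient.eq_zero_iff_mem, map_sub, hc, map_one]
      exact sub_ne_zero.mpr hg1
  obtain ⟨c, hc, hc1⟩ := hc
  obtain ⟨P, hP, hP0, hPv⟩ := exists_over (L := K') hv hv0
  set ι := algebraMap (𝓞 K) (𝓞 K') with hι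
  have hιmem : ∀ x : 𝓞 K, x ∈ v → ι x ∈ P := by
    intro x hx
    rw [← hPv] at hx
    exact hx
  have hιnot : ∀ x : 𝓞 K, x ∉ v → ι x ∉ P := by
    intro x hx h
    apply hx
    rw [← hPv]
    exact h
  have hlP : (l : 𝓞 K') ∉ P := by
    have := hιnot _ hlv
    rwa [map_natCast] at this
  have hPmax := hP.isMaximal hP0
  -- `z ≡ ι c` modulo `P`
  have hcz : ∃ c : 𝓞 K, z - ι c ∈ P := by
    let _ : Field (𝓞 K' ⧸ P) := Ideal.Quotient.field P
    set g : 𝓞 K' ⧸ P := Ideal.Quotient.mk P (ι c) with hg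
    have hgl : g ^ l = 1 := by
      have h5 := hιmem _ hc
      rw [← Ideal.Quotient.eq_zero_iff_mem, map_sub, map_pow, map_one, map_sub, map_pow,
        map_one] at h5
      exact sub_eq_zero.mp h5
    have hg1 : g ≠ 1 := by
      intro h
      apply hιnot _ hc1
      rw [← Ideal.Quotient.eq_zero_iff_mem, map_sub, map_one, map_sub, map_one, ← hg, h, sub_self]
    have hprim : IsPrimitiveRoot g l := by
      have h5 := orderOf_eq_prime hgl hg1
      rw [← h5]
      exact IsPrimitiveRoot.orderOf g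
    have hzl : (Ideal.Quotient.mk P z) ^ l = 1 := by
      rw [← map_pow, hz.pow_eq_one, map_one]
    obtain ⟨i, -, hi⟩ := hprim.eq_pow_of_pow_eq_one hzl
    refine ⟨c ^ i, ?_⟩
    rw [← Ideal.Quotient.eq_zero_iff_mem, map_sub, map_pow, map_pow, ← hg, hi, sub_self]
  obtain ⟨c, hcz⟩ := hcz
  have hmoved : σ • P ≠ P := by
    intro h
    have h5 : σ • (z - ι c) ∈ σ • P := Ideal.smul_mem_pointwise_smul σ _ P hcz
    rw [h, smul_sub, smul_alg] at h5
    have h6 : z - σ • z ∈ P := by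
      have h7 := P.sub_mem hcz h5
      have h8 : z - ι c - (σ • z - ι c) = z - σ • z := by ring
      rwa [h8] at h7
    have h7 : z ^ 2 - 1 ∈ P := by
      have h8 : z ^ 2 - 1 = z * (z - σ • z) := by
        rw [mul_sub, mul_comm z (σ • z), hσz]; ring
      rw [h8]
      exact P.mul_mem_left _ h6
    have hz2 : IsPrimitiveRoot (z ^ 2) l := by
      apply hz.pow_of_coprime
      rw [Nat.coprime_primes Nat.prime_two hl]
      exact hl2.symm
    exact hlP (root_mem hl hz2 h7)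
  have hprime2 : (finrank K K').Prime := by rw [h2]; exact Nat.prime_two
  have hQ : (σ • P).IsPrime := hP.smul σ
  have hQ0 : σ • P ≠ ⊥ := by
    intro h
    apply hP0
    have h5 : σ⁻¹ • (σ • P) = σ⁻¹ • (⊥ : Ideal (𝓞 K')) := by rw [h]
    rw [inv_smul_smul] at h5
    rw [h5]
    exact Ideal.smul_bot _
  have hQmoved : σ⁻¹ • (σ • P) ≠ σ • P := by
    rw [inv_smul_smul]
    exact fun h => hmoved h.symm
  have hQv : (σ • P).under (𝓞 K) = v := by
    rw [P.under_smul (𝓞 K) σ, hPv]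
  have hN1 : Ideal.absNorm P = Ideal.absNorm v := by
    have h5 := relNorm_of_moved hprime2 hP hP0 hmoved
    rw [hPv] at h5
    rw [← h5, Ideal.absNorm_relNorm]
  have hN2 : Ideal.absNorm (σ • P) = Ideal.absNorm v := by
    have h5 := relNorm_of_moved hprime2 hQ hQ0 hQmoved
    rw [hQv] at h5
    rw [← h5, Ideal.absNorm_relNorm]
  exact ⟨P, σ • P, hP, hQ, hP0, hQ0, fun h => hmoved h.symm, hPv, hQv, hN1, hN2⟩

/-- the norms of primes are `1` or `-1` modulo `l` -/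
lemma absNorm_mod_cases {l : ℕ} (hl : l.Prime) (hl2 : l ≠ 2) {K K' : Type} [Field K]
    [NumberField K] [Field K'] [NumberField K'] [Algebra K K'] (h2 : finrank K K' = 2) {z : 𝓞 K'}
    (hz : IsPrimitiveRoot z l) {v : Ideal (𝓞 K)} (hv : v.IsPrime)
    (hv0 : v ≠ ⊥) (hlv : (l : 𝓞 K) ∉ v) :
    Ideal.absNorm v % l = 1 ∨ Ideal.absNorm v % l = l - 1 := by
  classical
  have hfl : Fact l.Prime := ⟨hl⟩
  have hmax := hv.isMaximal hv0
  obtain ⟨P, hP, hP0, hPv⟩ := exists_over' (L := K') hv hv0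
  have hlP : (l : 𝓞 K') ∉ P := by
    intro h
    apply hlv
    rw [← hPv]
    change algebraMap (𝓞 K) (𝓞 K') (l : 𝓞 K) ∈ P
    rwa [map_natCast]
  have hov : P.LiesOver v := ⟨hPv.symm⟩
  have hPmax : P.IsMaximal := hP.isMaximal hP0
  have h4 := absNorm_pow_inertiaDeg v P
  have hsum := sum_ef_rel (F := K) (K := K') hv hv0
  rw [h2] at hsum
  have hm : P ∈ IsDedekindDomain.primesOverFinset v (𝓞 K') := (mem_pof hv hv0).mpr ⟨hP, hov⟩
  have h5 : P.ramificationIdx (𝓞 K) * P.inertiaDeg (𝓞 K) ≤ 2 := by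
    rw [← hsum]
    exact Finset.single_le_sum (f := fun R : Ideal (𝓞 K') =>
        R.ramificationIdx (𝓞 K) * R.inertiaDeg (𝓞 K)) (fun _ _ => Nat.zero_le _) hm
  have e1 : 0 < P.ramificationIdx (𝓞 K) := Ideal.ramificationIdx_pos P (𝓞 K)
  have e2 : 0 < P.inertiaDeg (𝓞 K) := Ideal.inertiaDeg_pos P (𝓞 K)
  have e3 : P.inertiaDeg (𝓞 K) ≤ 2 := by nlinarith
  have h6 := norm_mod_of_root hl hz hP hP0 hlP
  have h7 : Ideal.absNorm v % l < l := Nat.mod_lt _ hl.pos
  have hcase : P.inertiaDeg (𝓞 K) = 1 ∨ P.inertiaDeg (𝓞 K) = 2 := by omega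
  rcases hcase with h8 | h8
  · rw [h8, pow_one] at h4
    left
    rw [← h4]
    exact h6
  · rw [h8] at h4
    have h9 : ((Ideal.absNorm v : ℕ) : ZMod l) ^ 2 = 1 := by
      have h10 : (((Ideal.absNorm v) ^ 2 : ℕ) : ZMod l) = ((1 : ℕ) : ZMod l) := by
        rw [ZMod.natCast_eq_natCast_iff', ← h4, h6, Nat.mod_eq_of_lt hl.one_lt]
      push_cast at h10
      exact h10
    rcases sq_eq_one_iff.mp h9 with h10 | h10
    · left
      have h11 : ((Ideal.absNorm v : ℕ) : ZMod l) = ((1 : ℕ) : ZMod l) := by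
        rw [h10, Nat.cast_one]
      rw [ZMod.natCast_eq_natCast_iff', Nat.mod_eq_of_lt hl.one_lt] at h11
      exact h11
    · right
      have h11 : ((Ideal.absNorm v : ℕ) : ZMod l) = ((l - 1 : ℕ) : ZMod l) := by
        rw [h10, Nat.cast_sub hl.one_le, ZMod.natCast_self, Nat.cast_one, zero_sub]
      rw [ZMod.natCast_eq_natCast_iff', Nat.mod_eq_of_lt (show l - 1 < l by
        have := hl.pos
        omega)] at h11
      exact h11

end Pool.Agent.Lib.MP_695920_nt.Gl
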