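import Mathlib
import Pool.Agent.Lib.MP_695920_nt.Gl.Defs
import Pool.Agent.Lib.MP_695920_nt.Gl.Adjoin
import Pool.Agent.Lib.MP_695920_nt.Gl.GenA
import Pool.Agent.Lib.MP_695920_nt.Od.ManyAux

set_option autoImplicit false

open Finset NumberField Module IsDedekindDomain
open scoped nonZeroDivisors Pointwise

namespace Pool.Agent.Lib.MP_695920_nt.Gl

open Pool.Agent.Lib.MP_695920_nt.Od

lemma g15_multiset {l : ℕ} (hl : 2 ≤ l) (s : Multiset ℕ) (h : ∀ x ∈ s, x % l = 0 ∨ x % l = 1) :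
    s.prod % l = 0 ∨ s.prod % l = 1 := by
  have h1l : 1 % l = 1 := Nat.mod_eq_of_lt (by omega)
  induction s using Multiset.induction_on with
  | empty => right; simpa using h1l
  | cons a s ih =>
    rw [Multiset.prod_cons]
    have h1 := h a (Multiset.mem_cons_self a s)
    have h2 := ih (fun x hx => h x (Multiset.mem_cons_of_mem hx))
    rw [Nat.mul_mod]
    rcases h1 with h1 | h1 <;> rcases h2 with h2 | h2 <;> rw [h1, h2] <;> simp [h1l]

lemma g15_mod_zero {R : Type*} [CommRing R] {l : ℕ} (hl : l.Prime) {q : Ideal R} (hq : q.IsPrime)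
    (hlq : (l : R) ∈ q) {m : ℕ} (hm : (m : R) ∈ q) : m % l = 0 := by
  by_contra h
  have hcop : Nat.Coprime m l := by
    rw [Nat.coprime_comm, Nat.Prime.coprime_iff_not_dvd hl]
    intro hd
    exact h (Nat.mod_eq_zero_of_dvd hd)
  have h1 : IsCoprime (m : ℤ) (l : ℤ) := Nat.isCoprime_iff_coprime.2 hcop
  obtain ⟨a, b, hab⟩ := h1
  apply hq.ne_top
  rw [Ideal.eq_top_iff_one]
  have h2 : ((a : ℤ) : R) * (m : R) + ((b : ℤ) : R) * (l : R) = 1 := by
    have := congrArg (Int.cast : ℤ → R) hab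
    push_cast at this
    exact this
  rw [← h2]
  exact q.add_mem (q.mul_mem_left _ hm) (q.mul_mem_left _ hlq)

lemma exists_prime_neg {l : ℕ} (hl : l.Prime) (hl2 : l ≠ 2) {E : Type} [Field E] [NumberField E]
    (hR : RC l E) (hN : NC l E) {I : Ideal (𝓞 E)} (hI : Ideal.absNorm I % l = l - 1) :
    ∃ (p : ℕ) (q : Ideal (𝓞 E)), p.Prime ∧ q.IsPrime ∧ (p : 𝓞 E) ∈ q ∧ q ∣ I ∧
      Ideal.absNorm q % l = l - 1 ∧ p ≤ Ideal.absNorm I ∧ p ≠ l := by
  classical
  have hl3 : 3 ≤ l := by have := hl.two_le; omega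
  have hI0 : I ≠ ⊥ := by
    rintro rfl
    simp at hI
    omega
  obtain ⟨K', _, _, _, z, hfin, hz, -⟩ := exists_adjoin_l hl hl2 E hR hN
  have hex : ∃ q ∈ UniqueFactorizationMonoid.normalizedFactors I,
      Ideal.absNorm q % l = l - 1 := by
    by_contra hcon
    push Not at hcon
    have h1 : Ideal.absNorm I =
        ((UniqueFactorizationMonoid.normalizedFactors I).map Ideal.absNorm).prod := by
      conv_lhs => rw [← Ideal.prod_normalizedFactors_eq_self hI0]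
      rw [map_multiset_prod]
    have h2 := g15_multiset (l := l) (by omega)
      ((UniqueFactorizationMonoid.normalizedFactors I).map Ideal.absNorm) (by
        intro x hx
        obtain ⟨q, hq, rfl⟩ := Multiset.mem_map.mp hx
        have hq' := hq
        rw [Ideal.mem_normalizedFactors_iff hI0] at hq'
        obtain ⟨hqp, hqI⟩ := hq'
        have hq0 : q ≠ ⊥ := by
          rintro rfl
          exact hI0 (le_bot_iff.mp hqI)
        by_cases hlq : (l : 𝓞 E) ∈ q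
        · left
          exact g15_mod_zero hl hqp hlq (Ideal.absNorm_mem q)
        · rcases absNorm_mod_cases hl hl2 hfin hz hqp hq0 hlq with h | h
          · exact Or.inr h
          · exact absurd h (hcon q hq))
    rw [← h1, hI] at h2
    omega
  obtain ⟨q, hq, hqN⟩ := hex
  rw [Ideal.mem_normalizedFactors_iff hI0] at hq
  obtain ⟨hqp, hqI⟩ := hq
  have hqd : q ∣ I := Ideal.dvd_iff_le.mpr hqI
  have hNI : Ideal.absNorm I ≠ 0 := by
    intro h
    rw [h, Nat.zero_mod] at hI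
    omega
  have hNq : Ideal.absNorm q ≠ 0 := by
    intro h
    rw [h, Nat.zero_mod] at hqN
    omega
  obtain ⟨p, hp, hpN, hpq⟩ := p6_nat_mem hqp (Ideal.absNorm q) hNq (Ideal.absNorm_mem q)
  have hdvd : Ideal.absNorm q ∣ Ideal.absNorm I := Ideal.absNorm_dvd_absNorm_of_le hqI
  refine ⟨p, q, hp, hqp, hpq, hqd, hqN, Nat.le_of_dvd (Nat.pos_of_ne_zero hNI)
    (hpN.trans hdvd), ?_⟩
  rintro rfl
  have h3 := Nat.mod_eq_zero_of_dvd hpN
  omega

lemma omega_l {l : ℕ} (hl : l.Prime) (hl2 : l ≠ 2) {E : Type} [Field E] [NumberField E]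
    (hR : RC l E) (hN : NC l E) {n : ℕ} (hn : finrank ℚ E = n)
    (I : ℕ → Ideal (𝓞 E)) (X Y Q : ℕ) (z : ℕ)
    (hQ : ∀ p : ℕ, p.Prime → p ≠ l → p ≤ z → p ∣ Q)
    (hI : ∀ m : ℕ, m ≤ X → Ideal.absNorm (I m) % l = l - 1 ∧ Ideal.absNorm (I m) ≤ Y)
    (hI2 : ∀ m : ℕ, (∀ p : ℕ, p.Prime → p ∣ Q → ∀ q : Ideal (𝓞 E), q.IsPrime → (p : 𝓞 E) ∈ q →
        ¬ q ∣ I m) ∧
        ∀ m' p : ℕ, p.Prime → ∀ q : Ideal (𝓞 E), q.IsPrime → (p : 𝓞 E) ∈ q → q ∣ I m →
          q ∣ I m' → m ≡ m' [MOD p]) :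
    ∃ (S : Finset ℕ) (Ω : ℕ → Finset ℕ), (∀ p ∈ S, (p.Prime ∧ z < p ∧ p ≤ Y) ∧ NormNeg l E p) ∧
      (∀ p, (Ω p).card ≤ n) ∧ (∀ m ∈ Finset.Icc 1 X, ∃ p ∈ S, ∃ r ∈ Ω p, m ≡ r [MOD p]) := by
  classical
  let g : Ideal (𝓞 E) → ℕ := fun q => if h : ∃ m, q ∣ I m then h.choose else 0
  have hg : ∀ q, (∃ m, q ∣ I m) → q ∣ I (g q) := by
    intro q h
    have h1 : g q = h.choose := dif_pos h
    rw [h1]
    exact h.choose_spec
  refine ⟨(Finset.Icc (z + 1) Y).filter (fun p => p.Prime ∧ NormNeg l E p),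
    fun p => if p.Prime then
      (IsDedekindDomain.primesOverFinset (Ideal.span {(p : ℤ)}) (𝓞 E)).image g else ∅, ?_, ?_, ?_⟩
  · intro p hp
    rw [Finset.mem_filter, Finset.mem_Icc] at hp
    obtain ⟨⟨h1, h2⟩, h3, h4⟩ := hp
    exact ⟨⟨h3, by omega, h2⟩, h4⟩
  · intro p
    by_cases hp : p.Prime
    · simp only [hp, if_true]
      refine Finset.card_image_le.trans ?_
      rw [← hn]
      exact p6_card hp
    · simp only [hp, if_false, Finset.card_empty, Nat.zero_le]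
  · intro m hm
    rw [Finset.mem_Icc] at hm
    obtain ⟨hm2, hmY⟩ := hI m hm.2
    obtain ⟨p, q, hp, hq, hpq, hqI, hqN, hpI, hp3⟩ := exists_prime_neg hl hl2 hR hN hm2
    have hzp : z < p := by
      by_contra h
      push Not at h
      exact (hI2 m).1 p hp (hQ p hp hp3 h) q hq hpq hqI
    refine ⟨p, ?_, g q, ?_, ?_⟩
    · rw [Finset.mem_filter, Finset.mem_Icc]
      exact ⟨⟨hzp, hpI.trans hmY⟩, hp, q, hq, hpq, hqN⟩
    · simp only [hp, if_true]
      exact Finset.mem_image_of_mem _ (p6_mem_over hp hq hpq)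
    · exact (hI2 m).2 (g q) p hp q hq hpq hqI (hg q ⟨m, hqI⟩)

lemma exists_Q {l : ℕ} (hl : l.Prime) (z : ℕ) : ∃ Q : ℕ, 0 < Q ∧ ¬ l ∣ Q ∧ (Q : ℝ) ≤ 4 ^ z ∧
    ∀ p : ℕ, p.Prime → p ≠ l → p ≤ z → p ∣ Q := by
  classical
  set T := (Finset.range (z + 1)).filter (fun p => p.Prime ∧ p ≠ l) with hT
  have hTm : ∀ p, p ∈ T ↔ p ≤ z ∧ p.Prime ∧ p ≠ l := by
    intro p
    rw [hT, Finset.mem_filter, Finset.mem_range, Nat.lt_succ_iff]
  refine ⟨∏ p ∈ T, p, ?_, ?_, ?_, ?_⟩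
  · exact Finset.prod_pos (fun p hp => ((hTm p).mp hp).2.1.pos)
  · intro h
    rw [Prime.dvd_finsetProd_iff hl.prime] at h
    obtain ⟨p, hp, h3⟩ := h
    obtain ⟨-, hpp, hp3⟩ := (hTm p).mp hp
    exact hp3 ((Nat.prime_dvd_prime_iff_eq hl hpp).mp h3).symm
  · have h1 : ∏ p ∈ T, p ≤ primorial z := by
      unfold primorial
      apply Finset.prod_le_prod_of_subset_of_one_le'
      · intro p hp
        obtain ⟨h1, h2, h3⟩ := (hTm p).mp hp
        simp only [Finset.mem_filter, Finset.mem_range]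
        exact ⟨by omega, h2⟩
      · intro p hp _
        simp only [Finset.mem_filter, Finset.mem_range] at hp
        exact hp.2.one_lt.le
    have h2 : ∏ p ∈ T, p ≤ 4 ^ z := h1.trans (primorial_le_four_pow z)
    exact_mod_cast h2
  · intro p hp hp3 hpz
    exact Finset.dvd_prod_of_mem _ ((hTm p).mpr ⟨hpz, hp, hp3⟩)

end Pool.Agent.Lib.MP_695920_nt.Gl
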