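import Mathlib
import Pool.Agent.Lib.MP_695920_nt.Gl.Defs
import Pool.Agent.Lib.MP_695920_nt.Refl.Quad

/-!
A number field which contains `z + z⁻¹` but not `z`, `z` a primitive `l`-th root of unity, has a
prime of norm `-1` modulo `l`.
-/

set_option autoImplicit false

open Filter Topology NumberField IsDedekindDomain Module
open scoped nonZeroDivisors IntermediateField

namespace Pool.Agent.Lib.MP_695920_nt.Gl

open Pool.Agent.Lib.MP_695920_nt.Refl

/-- an inert prime which does not contain `l` -/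
lemma exists_inert_not_mem {l : ℕ} (hl : l ≠ 0) (K K' : Type) [Field K] [NumberField K] [Field K']
    [NumberField K'] [Algebra K K'] (h2 : finrank K K' = 2) :
    ∃ P : HeightOneSpectrum (𝓞 K), (P.asIdeal.map (algebraMap (𝓞 K) (𝓞 K'))).IsPrime ∧
      (l : 𝓞 K) ∉ P.asIdeal := by
  classical
  by_contra hcon
  push Not at hcon
  obtain ⟨C, hC⟩ := psum_inert K K' h2
  obtain ⟨C', hC'⟩ := psum_univ K
  set I : Set (HeightOneSpectrum (𝓞 K)) :=
    {P | (P.asIdeal.map (algebraMap (𝓞 K) (𝓞 K'))).IsPrime} with hI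
  have h3 : (Ideal.span {(l : 𝓞 K)}) ≠ 0 := by
    intro h
    rw [Ideal.zero_eq_bot, Ideal.span_singleton_eq_bot] at h
    have h4 : (l : 𝓞 K) ≠ 0 := by exact_mod_cast hl
    exact h4 h
  have hfin : I.Finite := by
    refine (Ideal.finite_factors h3).subset fun P hP => ?_
    have h4 := hcon P hP
    exact Ideal.dvd_iff_le.mpr ((Ideal.span_singleton_le_iff_mem _).2 h4)
  have hIle : ∀ s : ℝ, 1 < s → psum K I s ≤ hfin.toFinset.card := by
    intro s hs
    rw [psum, ← tsum_subtype]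
    have hf := hfin.fintype
    rw [tsum_fintype]
    have hone : ∀ P : I, (Ideal.absNorm P.1.asIdeal : ℝ) ^ (-s) ≤ 1 := by
      intro P
      have h3 : (1 : ℝ) ≤ Ideal.absNorm P.1.asIdeal := by
        have h4 : Ideal.absNorm P.1.asIdeal ≠ 0 := by
          rw [Ne, Ideal.absNorm_eq_zero_iff]
          exact P.1.ne_bot
        exact_mod_cast Nat.one_le_iff_ne_zero.mpr h4
      exact Real.rpow_le_one_of_one_le_of_nonpos h3 (by linarith)
    refine (Finset.sum_le_sum fun P _ => hone P).trans_eq ?_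
    rw [Finset.sum_const, nsmul_eq_mul, mul_one]
    congr 1
    rw [Finset.card_univ, Set.Finite.card_toFinset]
  have hlog : Tendsto (fun s : ℝ => Real.log (s - 1)) (𝓝[>] 1) atBot := by
    have h5 : Tendsto (fun s : ℝ => s - 1) (𝓝[>] 1) (𝓝[>] 0) := by
      refine tendsto_nhdsWithin_iff.2 ⟨?_, ?_⟩
      · have : Tendsto (fun s : ℝ => s - 1) (𝓝 1) (𝓝 (1 - 1)) :=
          (continuous_id.sub continuous_const).tendsto 1
        rw [sub_self] at this
        exact this.mono_left nhdsWithin_le_nhds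
      · filter_upwards [self_mem_nhdsWithin] with s hs
        have : (1 : ℝ) < s := hs
        simpa using this
    exact Real.tendsto_log_nhdsGT_zero.comp h5
  have h6 := hlog.eventually (eventually_lt_atBot (-(2 * (hfin.toFinset.card : ℝ) + C + C')))
  obtain ⟨s, h7, h8, h9, h10⟩ := (hC.and (hC'.and (h6.and self_mem_nhdsWithin))).exists
  have hs : 1 < s := h10
  have h11 := hIle s hs
  have h12 := (abs_le.1 h8).1
  linarith

/-- an inert prime avoiding `l` has norm `-1` modulo `l`, given the two cases for the norm and the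
splitting of the primes of norm `1` -/
theorem exists_neg_aux {l : ℕ} (hl : l.Prime) (E K' : Type) [Field E] [NumberField E] [Field K']
    [NumberField K'] [Algebra E K'] (h2 : finrank E K' = 2)
    (hcases : ∀ v : Ideal (𝓞 E), v.IsPrime → v ≠ ⊥ → (l : 𝓞 E) ∉ v →
      Ideal.absNorm v % l = 1 ∨ Ideal.absNorm v % l = l - 1)
    (htwo : ∀ v : Ideal (𝓞 E), v.IsPrime → v ≠ ⊥ → (l : 𝓞 E) ∉ v → Ideal.absNorm v % l = 1 →
      ∃ P Q : Ideal (𝓞 K'), P.IsPrime ∧ Q.IsPrime ∧ P ≠ Q ∧ P.under (𝓞 E) = v ∧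
        Q.under (𝓞 E) = v) :
    ∃ P : Ideal (𝓞 E), P.IsPrime ∧ P ≠ ⊥ ∧ Ideal.absNorm P % l = l - 1 := by
  obtain ⟨v, hvp, hlv⟩ := exists_inert_not_mem hl.ne_zero E K' h2
  refine ⟨v.asIdeal, v.isPrime, v.ne_bot, ?_⟩
  rcases hcases v.asIdeal v.isPrime v.ne_bot hlv with h1 | h1
  · exfalso
    obtain ⟨P, Q, hP, hQ, hne, hPv, hQv⟩ := htwo v.asIdeal v.isPrime v.ne_bot hlv h1
    apply hne
    set J := v.asIdeal.map (algebraMap (𝓞 E) (𝓞 K')) with hJ
    have hJ0 : J ≠ ⊥ := by
      rw [hJ, Ne, Ideal.map_eq_bot_iff_of_injective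
        (FaithfulSMul.algebraMap_injective (𝓞 E) (𝓞 K'))]
      exact v.ne_bot
    have hJmax : J.IsMaximal := hvp.isMaximal hJ0
    have h3 : J ≤ P := by
      rw [hJ, Ideal.map_le_iff_le_comap]
      exact hPv.ge
    have h4 : J ≤ Q := by
      rw [hJ, Ideal.map_le_iff_le_comap]
      exact hQv.ge
    rw [← hJmax.eq_of_le hP.ne_top h3, ← hJmax.eq_of_le hQ.ne_top h4]
  · exact h1

end Pool.Agent.Lib.MP_695920_nt.Gl
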