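import Mathlib
import Pool.Agent.Lib.MP_695920_nt.Gl.Defs
import Pool.Agent.Lib.MP_695920_nt.Od.SmallTwo
import Pool.Agent.Lib.MP_695920_nt.Gl.GenA
import Pool.Agent.Lib.MP_695920_nt.Gl.Adjoin
import Pool.Agent.Lib.MP_695920_nt.Gl.ExNegAux

set_option autoImplicit false

open Finset NumberField Module IsDedekindDomain
open scoped nonZeroDivisors Pointwise

namespace Pool.Agent.Lib.MP_695920_nt.Gl

open Pool.Agent.Lib.MP_695920_nt.Od

/-! ### residues -/

lemma sn_one_iff {l a : ℕ} (hl : 2 < l) : (a : ZMod l) = 1 ↔ a % l = 1 := by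
  have h := ZMod.natCast_eq_natCast_iff' a 1 l
  rw [Nat.cast_one, Nat.mod_eq_of_lt (by omega : 1 < l)] at h
  exact h

lemma sn_neg_iff {l a : ℕ} (hl : 2 < l) : (a : ZMod l) = -1 ↔ a % l = l - 1 := by
  have h := ZMod.natCast_eq_natCast_iff' a (l - 1) l
  rw [Nat.mod_eq_of_lt (by omega : l - 1 < l), Nat.cast_sub (by omega), Nat.cast_one,
    ZMod.natCast_self, zero_sub] at h
  exact h

lemma sn_pm_mul {l a b : ℕ} (hl : 2 < l) (ha : a % l = 1 ∨ a % l = l - 1)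
    (hb : b % l = 1 ∨ b % l = l - 1) : (a * b) % l = 1 ∨ (a * b) % l = l - 1 := by
  rw [← sn_one_iff hl, ← sn_neg_iff hl] at *
  push_cast
  rcases ha with ha | ha <;> rcases hb with hb | hb <;> rw [ha, hb]
  · left; ring
  · right; ring
  · right; ring
  · left; ring

lemma sn_two_lt {l : ℕ} (hl : l.Prime) (hl2 : l ≠ 2) : 2 < l :=
  lt_of_le_of_ne hl.two_le (Ne.symm hl2)

/-- the norm of an ideal prime to `l` is `1` or `-1` modulo `l` -/
lemma sn_pm {l : ℕ} (hl : l.Prime) (hl2 : l ≠ 2) {E : Type} [Field E] [NumberField E]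
    (hR : RC l E) (hN : NC l E) (c : Ideal (𝓞 E)) (hc0 : c ≠ ⊥)
    (hc : ∀ P : Ideal (𝓞 E), P.IsPrime → P ∣ c → (l : 𝓞 E) ∉ P) :
    Ideal.absNorm c % l = 1 ∨ Ideal.absNorm c % l = l - 1 := by
  have hl3 := sn_two_lt hl hl2
  obtain ⟨K', _, _, _, z, h2, hz, -⟩ := exists_adjoin_l hl hl2 E hR hN
  revert hc0 hc
  refine UniqueFactorizationMonoid.induction_on_prime c ?_ ?_ ?_
  · intro h
    exact absurd rfl h
  · intro x hx _ _
    left
    rw [Ideal.isUnit_iff.1 hx, Ideal.absNorm_top]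
    exact Nat.mod_eq_of_lt (by omega)
  · intro a p ha hp ih hpa hc
    have hpp : p.IsPrime := Ideal.isPrime_of_prime hp
    rw [map_mul]
    apply sn_pm_mul hl3
    · exact absNorm_mod_cases hl hl2 h2 hz hpp (by simpa using hp.ne_zero)
        (hc p hpp (dvd_mul_right p a))
    · exact ih (by simpa using ha) fun P hP hPa => hc P hP (dvd_mul_of_dvd_right hPa p)

lemma sn_exists_neg {l : ℕ} (hl : l.Prime) (hl2 : l ≠ 2) (E : Type) [Field E] [NumberField E]
    (hR : RC l E) (hN : NC l E) :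
    ∃ P : Ideal (𝓞 E), P.IsPrime ∧ P ≠ ⊥ ∧ Ideal.absNorm P % l = l - 1 := by
  obtain ⟨K', _, _, _, z, h2, hz, -⟩ := exists_adjoin_l hl hl2 E hR hN
  refine exists_neg_aux hl E K' h2
    (fun v hv hv0 hlv => absNorm_mod_cases hl hl2 h2 hz hv hv0 hlv) ?_
  intro v hv hv0 hlv hv1
  obtain ⟨P, Q, h1, h3, -, -, h4, h5, h6, -, -⟩ := two_primes_l hl hl2 h2 hz hN hv hv0 hlv hv1
  exact ⟨P, Q, h1, h3, h4, h5, h6⟩

/-! ### norms modulo `l` -/

lemma sn_norm_mod (l : ℕ) {E : Type} [Field E] [NumberField E] (g β : 𝓞 E) :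
    ((Algebra.norm ℤ (g - l * β) : ℤ) : ZMod l) = ((Algebra.norm ℤ g : ℤ) : ZMod l) := by
  classical
  set b := RingOfIntegers.basis E with hb
  rw [Algebra.norm_eq_matrix_det b, Algebra.norm_eq_matrix_det b]
  have key : ((Algebra.leftMulMatrix b (g - l * β)).map (Int.castRingHom (ZMod l))) =
      ((Algebra.leftMulMatrix b g).map (Int.castRingHom (ZMod l))) := by
    rw [map_sub, map_mul]
    have h3 : Algebra.leftMulMatrix b (l : 𝓞 E) = (l : ℤ) • 1 := by
      have : (l : 𝓞 E) = algebraMap ℤ (𝓞 E) l := by simp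
      rw [this, AlgHom.commutes, Algebra.algebraMap_eq_smul_one]
    rw [h3, smul_mul_assoc, one_mul]
    ext i j
    simp only [Matrix.map_apply, Matrix.sub_apply, Matrix.smul_apply, map_sub, smul_eq_mul, map_mul]
    have : (Int.castRingHom (ZMod l)) (l : ℤ) = 0 := by simp
    rw [this, zero_mul, sub_zero]
  have h1 := (Int.castRingHom (ZMod l)).map_det (Algebra.leftMulMatrix b (g - l * β))
  have h2 := (Int.castRingHom (ZMod l)).map_det (Algebra.leftMulMatrix b g)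
  rw [RingHom.mapMatrix_apply] at h1 h2
  rw [key, ← h2] at h1
  exact h1

/-! ### a real place -/

open InfinitePlace in
lemma sn_real {l : ℕ} (hl3 : 2 < l) {E : Type} [Field E] [NumberField E] (R : ℝ) (hR : 1 ≤ R)
    (hc : ∀ x : E, ∃ β : 𝓞 E, ∀ φ : E →+* ℂ, ‖φ (x - β)‖ ≤ R) (v0 : InfinitePlace E)
    (hv0 : IsReal v0) :
    ∃ A : Ideal (𝓞 E), Ideal.absNorm A % l = l - 1 ∧
      (Ideal.absNorm A : ℝ) ≤ (7 * l * R) ^ finrank ℚ E := by
  have hl3' : (2 : ℝ) < l := by exact_mod_cast hl3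
  set T : ℕ := ⌈R⌉₊ + 2 with hT
  have hT1 : R + 2 ≤ T := by
    rw [hT]; push_cast
    have := Nat.le_ceil R
    linarith
  have hT2 : (T : ℝ) ≤ R + 3 := by
    rw [hT]; push_cast
    have := (Nat.ceil_lt_add_one (by linarith : 0 ≤ R)).le
    linarith
  obtain ⟨x, hx1, hx2⟩ := p2_approx v0 T
  obtain ⟨β, hβ⟩ := hc x
  set γ : 𝓞 E := 1 - l * (-β) with hγ
  have hγφ : ∀ φ : E →+* ℂ, φ (γ : E) = 1 + (l : ℝ) * φ (β : E) := by
    intro φ
    have e4 : (γ : E) = 1 + l * (β : E) := by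
      rw [hγ]
      change algebraMap (𝓞 E) E (1 - l * (-β)) = 1 + l * algebraMap (𝓞 E) E β
      rw [map_sub, map_mul, map_neg, map_one, map_natCast]
      ring
    rw [e4, map_add, map_mul, map_one, map_natCast]
    simp
  have hbnd : ∀ φ : E →+* ℂ, ‖φ x‖ ≤ 1 + T := by
    intro φ
    by_cases h : InfinitePlace.mk φ = v0
    · have h1 : ‖φ (x + T)‖ < 1 := by rw [p2_norm_apply, h]; exact hx2
      have h2 : φ x = φ (x + T) - (T : ℂ) := by simp
      rw [h2]
      refine (norm_sub_le _ _).trans ?_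
      rw [Complex.norm_natCast]
      linarith
    · have h1 : ‖φ (x - T)‖ < 1 := by rw [p2_norm_apply]; exact hx1 _ h
      have h2 : φ x = φ (x - T) + (T : ℂ) := by simp
      rw [h2]
      refine (norm_add_le _ _).trans ?_
      rw [Complex.norm_natCast]
      linarith
  have hbnd2 : ∀ φ : E →+* ℂ, ‖φ (γ : E)‖ ≤ 7 * l * R := by
    intro φ
    rw [hγφ]
    have h1 := hβ φ
    have h2 : φ (β : E) = φ x - φ (x - β) := by simp
    have h3 : ‖φ (β : E)‖ ≤ 1 + T + R := by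
      rw [h2]
      refine (norm_sub_le _ _).trans ?_
      have := hbnd φ
      linarith
    refine (norm_add_le _ _).trans ?_
    rw [norm_mul, norm_one, Complex.norm_real, Real.norm_natCast]
    have h4 : ‖φ (β : E)‖ ≤ 6 * R := by linarith
    have h5 : (l : ℝ) * ‖φ (β : E)‖ ≤ l * (6 * R) := mul_le_mul_of_nonneg_left h4 (by linarith)
    nlinarith
  have hneg0 : (v0.embedding (γ : E)).re < 0 := by
    have h1 : ‖v0.embedding (x + T)‖ < 1 := by rw [norm_embedding_eq]; exact hx2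
    have h2 := (Complex.abs_re_le_norm _).trans h1.le
    have h3 := (Complex.abs_re_le_norm _).trans (hβ v0.embedding)
    rw [abs_le] at h2 h3
    rw [hγφ, Complex.add_re, Complex.re_ofReal_mul, Complex.one_re]
    simp only [map_add, map_natCast, map_sub, Complex.add_re, Complex.sub_re, Complex.natCast_re]
      at h2 h3
    have h4 : (v0.embedding (β : E)).re ≤ -1 := by linarith [h2.1, h2.2, h3.1, h3.2]
    nlinarith
  have hγ0 : γ ≠ 0 := by
    intro h
    rw [h] at hneg0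
    simp at hneg0
  have hneg : Algebra.norm ℤ γ < 0 := by
    refine p2_neg v0 hv0 γ hγ0 hneg0 fun w hw => ?_
    left
    have h1 : ‖w.embedding (x - T)‖ < 1 := by rw [norm_embedding_eq]; exact hx1 w hw
    have h2 := (Complex.abs_re_le_norm _).trans h1.le
    have h3 := (Complex.abs_re_le_norm _).trans (hβ w.embedding)
    rw [abs_le] at h2 h3
    rw [hγφ, Complex.add_re, Complex.re_ofReal_mul, Complex.one_re]
    simp only [map_natCast, map_sub, Complex.sub_re, Complex.natCast_re]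
      at h2 h3
    have h4 : 1 ≤ (w.embedding (β : E)).re := by linarith [h2.1, h2.2, h3.1, h3.2]
    nlinarith
  refine ⟨Ideal.span {γ}, ?_, ?_⟩
  · rw [Ideal.absNorm_span_singleton]
    rw [← sn_neg_iff hl3]
    have h1 := sn_norm_mod l (1 : 𝓞 E) (-β)
    rw [← hγ, map_one, Int.cast_one] at h1
    have h2 : ((Algebra.norm ℤ γ).natAbs : ℤ) = -Algebra.norm ℤ γ := by omega
    have h3 : (((Algebra.norm ℤ γ).natAbs : ℤ) : ZMod l) = -1 := by
      rw [h2, Int.cast_neg, h1]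
    rwa [Int.cast_natCast] at h3
  · rw [Ideal.absNorm_span_singleton]
    exact p2_norm_le γ _ hbnd2

/-! ### no real place -/

open InfinitePlace in
lemma sn_complex {l : ℕ} (hl : l.Prime) (hl2 : l ≠ 2) {E : Type} [Field E] [NumberField E]
    (hRC : RC l E) (hNC : NC l E) (R : ℝ) (hR : 1 ≤ R)
    (hc : ∀ x : E, ∃ β : 𝓞 E, ∀ φ : E →+* ℂ, ‖φ (x - β)‖ ≤ R)
    (hE : ∀ w : InfinitePlace E, IsComplex w) (P0 : Ideal (𝓞 E)) (hP0 : P0 ≠ ⊥)
    (hP2 : Ideal.absNorm P0 % l = l - 1) (w : ℕ) (hw : 2 ≤ w) (hd : |(discr E : ℝ)| ≤ w) :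
    ∃ A : Ideal (𝓞 E), Ideal.absNorm A % l = l - 1 ∧
      (Ideal.absNorm A : ℝ) ≤ (l * (2 ^ finrank ℚ E * w) * R) ^ finrank ℚ E := by
  classical
  have hl3 := sn_two_lt hl hl2
  have hl3' : (2 : ℝ) < l := by exact_mod_cast hl3
  have hw' : (2 : ℝ) ≤ w := by exact_mod_cast hw
  have hP0' : P0 ∈ (Ideal (𝓞 E))⁰ := mem_nonZeroDivisors_iff_ne_zero.2 hP0
  obtain ⟨B, hB1, hB2⟩ := exists_ideal_in_class_of_norm_le (ClassGroup.mk0 ⟨P0, hP0'⟩)
  set NB := Ideal.absNorm (B : Ideal (𝓞 E)) with hNB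
  have hB0 : (B : Ideal (𝓞 E)) ≠ ⊥ := nonZeroDivisors.coe_ne_zero B
  have hNB0 : NB ≠ 0 := by
    rw [hNB, Ne, Ideal.absNorm_eq_zero_iff]
    exact hB0
  have hNBle : (NB : ℝ) ≤ 2 ^ finrank ℚ E * w := by
    refine le_trans ?_ (p2_mink w hw hd)
    exact hB2.trans (le_of_eq rfl)
  set M : ℕ := l * NB with hM
  have hM0 : M ≠ 0 := mul_ne_zero hl.ne_zero hNB0
  have hM0' : ((M : ℕ) : 𝓞 E) ≠ 0 := by exact_mod_cast hM0
  have hMB : ((M : ℕ) : 𝓞 E) ∈ (B : Ideal (𝓞 E)) := by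
    rw [hM]
    push_cast
    exact Ideal.mul_mem_left _ _ (Ideal.absNorm_mem _)
  have hIB : Ideal.span {((M : ℕ) : 𝓞 E)} ≤ (B : Ideal (𝓞 E)) :=
    (Ideal.span_singleton_le_iff_mem _).2 hMB
  obtain ⟨d0, hd0⟩ := IsDedekindDomain.exists_sup_span_eq hIB (by
    rw [Ne, Ideal.zero_eq_bot, Ideal.span_singleton_eq_bot]
    exact hM0')
  obtain ⟨β, hβ⟩ := hc ((d0 : E) / (M : E))
  set δ : 𝓞 E := d0 - M * β with hδ
  have hME : (M : E) ≠ 0 := by exact_mod_cast hM0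
  have hδφ : ∀ φ : E →+* ℂ, ‖φ (δ : E)‖ ≤ M * R := by
    intro φ
    have e1 : (δ : E) = M * ((d0 : E) / (M : E) - β) := by
      rw [hδ]
      push_cast
      field_simp
    rw [e1, map_mul, norm_mul, map_natCast, Complex.norm_natCast]
    exact mul_le_mul_of_nonneg_left (hβ φ) (by positivity)
  have hsup : Ideal.span {((M : ℕ) : 𝓞 E)} ⊔ Ideal.span {δ} = (B : Ideal (𝓞 E)) := by
    rw [← hd0]
    apply le_antisymm
    · refine sup_le le_sup_left ?_
      rw [Ideal.span_singleton_le_iff_mem, hδ]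
      refine Ideal.sub_mem _ ?_ ?_
      · exact (le_sup_right : Ideal.span {d0} ≤ _) (Ideal.mem_span_singleton_self _)
      · exact (le_sup_left : Ideal.span {((M : ℕ) : 𝓞 E)} ≤ _)
          (Ideal.mul_mem_right _ _ (Ideal.mem_span_singleton_self _))
    · refine sup_le le_sup_left ?_
      rw [Ideal.span_singleton_le_iff_mem]
      have e1 : d0 = δ + M * β := by rw [hδ]; ring
      rw [e1]
      refine Ideal.add_mem _ ?_ ?_
      · exact (le_sup_right : Ideal.span {δ} ≤ _) (Ideal.mem_span_singleton_self _)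
      · exact (le_sup_left : Ideal.span {((M : ℕ) : 𝓞 E)} ≤ _)
          (Ideal.mul_mem_right _ _ (Ideal.mem_span_singleton_self _))
  have hdB : (B : Ideal (𝓞 E)) ∣ Ideal.span {δ} := by
    rw [Ideal.dvd_iff_le, ← hsup]
    exact le_sup_right
  obtain ⟨c, hcB⟩ := hdB
  have hNBB : (B : Ideal (𝓞 E)) ∣ Ideal.span {((NB : ℕ) : 𝓞 E)} := by
    rw [Ideal.dvd_iff_le, Ideal.span_singleton_le_iff_mem]
    exact Ideal.absNorm_mem _
  obtain ⟨B', hB'⟩ := hNBB
  have hMspan : Ideal.span {((M : ℕ) : 𝓞 E)} =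
      (B : Ideal (𝓞 E)) * (Ideal.span {(l : 𝓞 E)} * B') := by
    have e1 : ((M : ℕ) : 𝓞 E) = l * ((NB : ℕ) : 𝓞 E) := by rw [hM]; push_cast; ring
    rw [e1, ← Ideal.span_singleton_mul_span_singleton, hB']
    ring
  have hcop : c ⊔ Ideal.span {(l : 𝓞 E)} = ⊤ := by
    have e1 : (B : Ideal (𝓞 E)) * ((Ideal.span {(l : 𝓞 E)} * B') ⊔ c) =
        (B : Ideal (𝓞 E)) * ⊤ := by
      rw [Ideal.mul_sup, ← hMspan, ← hcB, hsup, Ideal.mul_top]
    have e2 := mul_left_cancel₀ (by rw [Ne, Ideal.zero_eq_bot]; exact hB0) e1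
    rw [eq_top_iff, ← e2]
    exact sup_le (Ideal.mul_le_left.trans le_sup_right) le_sup_left
  have h3unit : Ideal.span {(l : 𝓞 E)} ≠ ⊤ := by
    intro h
    have h1 := congrArg Ideal.absNorm h
    rw [Ideal.absNorm_span_singleton, Ideal.absNorm_top] at h1
    have h2 : (l : 𝓞 E) = algebraMap ℤ (𝓞 E) l := by simp
    rw [h2, Algebra.norm_algebraMap, Int.natAbs_pow, Int.natAbs_natCast] at h1
    have hn : 0 < finrank ℤ (𝓞 E) := by
      rw [RingOfIntegers.rank]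
      exact finrank_pos
    have : 1 < l ^ finrank ℤ (𝓞 E) := Nat.one_lt_pow hn.ne' (by omega)
    omega
  have hc0 : c ≠ ⊥ := by
    rintro rfl
    rw [bot_sup_eq] at hcop
    exact h3unit hcop
  have hpm := sn_pm hl hl2 hRC hNC c hc0 fun P hP hPc hlP => by
    apply hP.ne_top
    rw [eq_top_iff, ← hcop]
    exact sup_le (Ideal.dvd_iff_le.1 hPc) ((Ideal.span_singleton_le_iff_mem _).2 hlP)
  have hδ0 : δ ≠ 0 := by
    intro h
    rw [h, Ideal.span_singleton_eq_bot.2 rfl] at hcB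
    have := mul_eq_zero.1 hcB.symm
    rcases this with h | h
    · exact hB0 h
    · exact hc0 h
  have hcn : (Ideal.absNorm c : ℝ) ≤ (M * R) ^ finrank ℚ E := by
    have h1 := p2_norm_le δ (M * R) hδφ
    refine le_trans ?_ h1
    have h2 := congrArg Ideal.absNorm hcB
    rw [Ideal.absNorm_span_singleton, map_mul] at h2
    rw [h2]
    have h3 : 1 ≤ Ideal.absNorm (B : Ideal (𝓞 E)) := Nat.one_le_iff_ne_zero.2 hNB0
    exact_mod_cast Nat.le_mul_of_pos_left _ h3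
  have hMR : (M : ℝ) * R ≤ l * (2 ^ finrank ℚ E * w) * R := by
    refine mul_le_mul_of_nonneg_right ?_ (by linarith)
    rw [hM]
    push_cast
    exact mul_le_mul_of_nonneg_left hNBle (by linarith)
  rcases hpm with hc1 | hc2
  · have hc' : c ∈ (Ideal (𝓞 E))⁰ := mem_nonZeroDivisors_iff_ne_zero.2 hc0
    have hspan' : Ideal.span {δ} ∈ (Ideal (𝓞 E))⁰ := mem_nonZeroDivisors_iff_ne_zero.2 (by
      rw [Ne, Ideal.zero_eq_bot, Ideal.span_singleton_eq_bot]
      exact hδ0)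
    have hprin : (P0 * c).IsPrincipal := by
      have h1 : ClassGroup.mk0 (⟨P0, hP0'⟩ * ⟨c, hc'⟩ : (Ideal (𝓞 E))⁰) = 1 := by
        rw [map_mul, ← hB1, ← map_mul]
        rw [ClassGroup.mk0_eq_one_iff]
        have : ((B * ⟨c, hc'⟩ : (Ideal (𝓞 E))⁰) : Ideal (𝓞 E)) = Ideal.span {δ} := by
          rw [hcB]; rfl
        rw [this]
        exact ⟨δ, rfl⟩
      rw [ClassGroup.mk0_eq_one_iff] at h1
      exact h1
    obtain ⟨g, hg⟩ := hprin
    have hg' : P0 * c = Ideal.span {g} := hg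
    have hgn : (((Algebra.norm ℤ g).natAbs : ℕ) : ZMod l) = -1 := by
      rw [← Ideal.absNorm_span_singleton, ← hg', map_mul, Nat.cast_mul, (sn_neg_iff hl3).2 hP2,
        (sn_one_iff hl3).2 hc1, mul_one]
    have hg0 : g ≠ 0 := by
      rintro rfl
      rw [Algebra.norm_zero, Int.natAbs_zero, Nat.cast_zero] at hgn
      have h1 := (sn_neg_iff (l := l) (a := 0) hl3).1 (by rw [Nat.cast_zero]; exact hgn)
      rw [Nat.zero_mod] at h1
      omega
    have hgpos := p2_pos hE g hg0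
    have hgn' : ((Algebra.norm ℤ g : ℤ) : ZMod l) = -1 := by
      rw [← hgn, ← Int.cast_natCast, Int.natAbs_of_nonneg hgpos.le]
    obtain ⟨β', hβ'⟩ := hc ((g : E) / l)
    have hlE : (l : E) ≠ 0 := by exact_mod_cast hl.ne_zero
    set g' : 𝓞 E := g - l * β' with hg'def
    have hg'n : ((Algebra.norm ℤ g' : ℤ) : ZMod l) = -1 := by
      rw [hg'def, sn_norm_mod l g β']
      exact hgn'
    have hg'0 : g' ≠ 0 := by
      intro h
      rw [h, Algebra.norm_zero, Int.cast_zero] at hg'n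
      have h1 := (sn_neg_iff (l := l) (a := 0) hl3).1 (by rw [Nat.cast_zero]; exact hg'n)
      rw [Nat.zero_mod] at h1
      omega
    have hg'pos := p2_pos hE g' hg'0
    refine ⟨Ideal.span {g'}, ?_, ?_⟩
    · rw [Ideal.absNorm_span_singleton, ← sn_neg_iff hl3, ← hg'n, ← Int.cast_natCast,
        Int.natAbs_of_nonneg hg'pos.le]
    · rw [Ideal.absNorm_span_singleton]
      have h1 : ((Algebra.norm ℤ g').natAbs : ℝ) ≤ (l * R) ^ finrank ℚ E := by
        refine p2_norm_le g' _ fun φ => ?_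
        have e1 : (g' : E) = l * ((g : E) / l - β') := by
          rw [hg'def]
          change algebraMap (𝓞 E) E (g - l * β') = l * (algebraMap (𝓞 E) E g / l -
            algebraMap (𝓞 E) E β')
          rw [map_sub, map_mul, map_natCast]
          field_simp
        rw [e1, map_mul, norm_mul, map_natCast, Complex.norm_natCast]
        exact mul_le_mul_of_nonneg_left (hβ' φ) (by linarith)
      refine h1.trans (pow_le_pow_left₀ (by positivity) ?_ _)
      refine mul_le_mul_of_nonneg_right ?_ (by linarith)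
      have h5 : (1 : ℝ) ≤ 2 ^ finrank ℚ E := one_le_pow₀ (by norm_num)
      have h6 : (1 : ℝ) ≤ 2 ^ finrank ℚ E * w := by nlinarith
      nlinarith
  · refine ⟨c, hc2, hcn.trans ?_⟩
    exact pow_le_pow_left₀ (by positivity) hMR _

theorem small_neg {l : ℕ} (hl : l.Prime) (hl2 : l ≠ 2) (n : ℕ) : ∃ C : ℕ,
    ∀ (E : Type) [Field E] [NumberField E], finrank ℚ E = n → RC l E → NC l E →
    ∀ w : ℕ, 2 ≤ w → |(discr E : ℝ)| ≤ w →
      ∃ A : Ideal (𝓞 E), Ideal.absNorm A % l = l - 1 ∧ Ideal.absNorm A ≤ w ^ C := by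
  have hl3 := sn_two_lt hl hl2
  obtain ⟨C₁, hC₁⟩ := cover n
  refine ⟨(n + (l + 3) + C₁) * n, ?_⟩
  intro E _ _ hn hRC hNC w hw hd
  have hw' : (2 : ℝ) ≤ w := by exact_mod_cast hw
  have hc := hC₁ E hn w hw hd
  set R : ℝ := (w : ℝ) ^ C₁ with hRdef
  have hR : 1 ≤ R := one_le_pow₀ (by linarith)
  have hlw : (l : ℝ) ≤ (w : ℝ) ^ l := by
    calc (l : ℝ) ≤ 2 ^ l := by exact_mod_cast (Nat.lt_two_pow_self (n := l)).le
      _ ≤ (w : ℝ) ^ l := pow_le_pow_left₀ (by norm_num) hw' l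
  have key : ∃ A : Ideal (𝓞 E), Ideal.absNorm A % l = l - 1 ∧
      (Ideal.absNorm A : ℝ) ≤ ((w : ℝ) ^ (n + (l + 3) + C₁)) ^ finrank ℚ E := by
    by_cases hE : ∀ v : InfinitePlace E, InfinitePlace.IsComplex v
    · obtain ⟨P0, -, hP0, hP2⟩ := sn_exists_neg hl hl2 E hRC hNC
      obtain ⟨A, hA1, hA2⟩ := sn_complex hl hl2 hRC hNC R hR hc hE P0 hP0 hP2 w hw hd
      refine ⟨A, hA1, hA2.trans (pow_le_pow_left₀ (by positivity) ?_ _)⟩
      rw [hn]
      have h2 : (2 : ℝ) ^ n ≤ (w : ℝ) ^ n := pow_le_pow_left₀ (by norm_num) hw' n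
      calc (l : ℝ) * (2 ^ n * (w : ℝ)) * R ≤ (w : ℝ) ^ l * ((w : ℝ) ^ n * w) * R := by gcongr
        _ = (w : ℝ) ^ (n + (l + 1) + C₁) := by rw [hRdef]; ring
        _ ≤ (w : ℝ) ^ (n + (l + 3) + C₁) := pow_le_pow_right₀ (by linarith) (by omega)
    · push Not at hE
      obtain ⟨v0, hv0⟩ := hE
      obtain ⟨A, hA1, hA2⟩ := sn_real hl3 R hR hc v0 (InfinitePlace.not_isComplex_iff_isReal.1 hv0)
      refine ⟨A, hA1, hA2.trans (pow_le_pow_left₀ (by positivity) ?_ _)⟩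
      have h1 : (7 : ℝ) ≤ (w : ℝ) ^ 3 := by
        calc (7 : ℝ) ≤ 2 ^ 3 := by norm_num
          _ ≤ (w : ℝ) ^ 3 := pow_le_pow_left₀ (by norm_num) hw' 3
      calc 7 * (l : ℝ) * R ≤ (w : ℝ) ^ 3 * (w : ℝ) ^ l * R := by gcongr
        _ = (w : ℝ) ^ ((l + 3) + C₁) := by rw [hRdef]; ring
        _ ≤ (w : ℝ) ^ (n + (l + 3) + C₁) := pow_le_pow_right₀ (by linarith) (by omega)
  obtain ⟨A, hA1, hA2⟩ := key
  refine ⟨A, hA1, ?_⟩
  rw [hn, ← pow_mul] at hA2
  exact_mod_cast hA2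

end Pool.Agent.Lib.MP_695920_nt.Gl
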