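import Pool.Agent.Lib.MP_695920_nt.Gl.SeqAux
import Pool.Agent.Lib.MP_695920_nt.Gl.SmallNeg

set_option autoImplicit false

open Finset NumberField Module IsDedekindDomain
open scoped nonZeroDivisors Pointwise

namespace Pool.Agent.Lib.MP_695920_nt.Gl

theorem ideal_seq_l {l : ℕ} (hl : l.Prime) (hl2 : l ≠ 2) (n : ℕ) : ∃ C : ℕ,
    ∀ (E : Type) [Field E] [NumberField E], finrank ℚ E = n → RC l E → NC l E →
    ∀ w : ℕ, 2 ≤ w → |(discr E : ℝ)| ≤ w →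
      ∀ Q : ℕ, 0 < Q → ¬ l ∣ Q → ∃ I : ℕ → Ideal (𝓞 E), ∀ m : ℕ,
        Ideal.absNorm (I m) % l = l - 1 ∧ Ideal.absNorm (I m) ≤ (w ^ C * Q * (m + 1)) ^ n ∧
        (∀ p : ℕ, p.Prime → p ∣ Q → ∀ q : Ideal (𝓞 E), q.IsPrime → (p : 𝓞 E) ∈ q → ¬ q ∣ I m) ∧
        ∀ m' p : ℕ, p.Prime → ∀ q : Ideal (𝓞 E), q.IsPrime → (p : 𝓞 E) ∈ q → q ∣ I m →
          q ∣ I m' → m ≡ m' [MOD p] :=
  ideal_seq_l_aux hl hl2 n (small_neg hl hl2 n)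

end Pool.Agent.Lib.MP_695920_nt.Gl
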