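import Mathlib
import Pool.Agent.Lib.MP_695920_nt.Gl.Defs
import Pool.Agent.Lib.MP_695920_nt.Gl.Seq
import Pool.Agent.Lib.MP_695920_nt.Gl.ManyAux
import Pool.Agent.Lib.MP_695920_nt.Od.Sieve2

set_option autoImplicit false

open Finset NumberField Module IsDedekindDomain
open scoped nonZeroDivisors Pointwise

namespace Pool.Agent.Lib.MP_695920_nt.Gl

open Pool.Agent.Lib.MP_695920_nt.Od

/-- many products of primes with a factor of norm `-1` modulo `l` -/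
theorem many_neg {l : ℕ} (hl : l.Prime) (hl2 : l ≠ 2) (n : ℕ) : ∃ (c : ℝ) (B : ℕ), 0 < c ∧
    ∀ C' : ℝ, ∃ w₀ : ℕ, ∀ (E : Type) [Field E] [NumberField E], finrank ℚ E = n →
      RC l E → NC l E →
      ∀ (w : ℕ) (V : Finset ℕ), w₀ ≤ w → |(discr E : ℝ)| ≤ w →
        (V.card : ℝ) ≤ C' * Real.log w →
        (w : ℝ) ^ c ≤ (Od.prods (fun p => p ∉ V ∧ NormNeg l E p) (w ^ B)).card := by
  classical
  obtain ⟨C1, hseq⟩ := ideal_seq_l hl hl2 n
  obtain ⟨c, κ, z₁, hc, hκ, hsieve⟩ := union_sieve2 n (n * (C1 + 4))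
  refine ⟨c, n * (C1 + 4) * 2, hc, fun C' => ?_⟩
  have hev : ∀ᶠ w : ℕ in Filter.atTop, (z₁ : ℝ) ≤ Real.log w ∧ 1 ≤ Real.log w ∧
      (2 * Real.log w) ^ 2 ≤ w ∧ 2 ≤ w ∧ C' ≤ Real.log w ^ κ := by
    have h1 : Filter.Tendsto (fun w : ℕ => Real.log (w : ℝ)) Filter.atTop Filter.atTop :=
      Real.tendsto_log_atTop.comp tendsto_natCast_atTop_atTop
    have h2 : ∀ᶠ w : ℕ in Filter.atTop, ‖Real.log (w : ℝ) ^ (2 : ℝ)‖ ≤ (1 / 4) * ‖(w : ℝ)‖ := by
      have h4 : (fun x : ℝ => Real.log x ^ (2 : ℝ)) =o[Filter.atTop] fun x => x ^ (1 : ℝ) :=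
        isLittleO_log_rpow_rpow_atTop (2 : ℝ) (by norm_num)
      have h3 := h4.bound (c := 1 / 4) (by positivity)
      have h5 := tendsto_natCast_atTop_atTop.eventually h3
      simpa only [Real.rpow_one] using h5
    have h6 : Filter.Tendsto (fun w : ℕ => Real.log (w : ℝ) ^ κ) Filter.atTop Filter.atTop :=
      (tendsto_rpow_atTop hκ).comp h1
    filter_upwards [h1.eventually_ge_atTop (z₁ : ℝ), h1.eventually_ge_atTop 1, h2,
      Filter.eventually_ge_atTop 2, h6.eventually_ge_atTop C'] with w hw1 hw2 hw3 hw4 hw5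
    refine ⟨hw1, hw2, ?_, hw4, hw5⟩
    rw [Real.norm_of_nonneg (by positivity), Real.norm_of_nonneg (Nat.cast_nonneg w),
      show (2 : ℝ) = ((2 : ℕ) : ℝ) by norm_num, Real.rpow_natCast] at hw3
    nlinarith
  obtain ⟨w₀, hw₀⟩ := Filter.eventually_atTop.mp hev
  refine ⟨w₀, ?_⟩
  intro E _ _ hn hR hN w V hw hdisc hV
  obtain ⟨hz1, hL1, hKL, hw2, hCκ⟩ := hw₀ w hw
  set L := Real.log w with hL
  set z := ⌈L⌉₊ with hz
  have hz_ge : L ≤ z := Nat.le_ceil _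
  have hz_lt : (z : ℝ) < L + 1 := Nat.ceil_lt_add_one (by linarith)
  have hzw : z ^ 2 ≤ w := by
    have h1 : (z : ℝ) ^ 2 ≤ (2 * L) ^ 2 := pow_le_pow_left₀ (Nat.cast_nonneg z) (by linarith) 2
    exact_mod_cast h1.trans hKL
  have hz1z : z₁ ≤ z := by
    have h1 : (z₁ : ℝ) ≤ z := hz1.trans hz_ge
    exact_mod_cast h1
  have hL0 : 0 < L := by linarith
  have hVz : (V.card : ℝ) ≤ (z : ℝ) ^ (1 + κ) := by
    calc (V.card : ℝ) ≤ C' * L := hV
      _ ≤ L ^ κ * L := mul_le_mul_of_nonneg_right hCκ hL0.le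
      _ = L ^ (1 + κ) := by rw [Real.rpow_add hL0, Real.rpow_one, mul_comm]
      _ ≤ (z : ℝ) ^ (1 + κ) := Real.rpow_le_rpow hL0.le hz_ge (by linarith)
  obtain ⟨Q, hQ0, hQ3, hQ4, hQp⟩ := exists_Q hl z
  obtain ⟨I, hI⟩ := hseq E hn hR hN w hw2 hdisc Q hQ0 hQ3
  set Y := (w ^ C1 * Q * (w + 1)) ^ n with hY
  have hnpos : 0 < n := by rw [← hn]; exact finrank_pos
  have hw0 : 0 < w := by omega
  have hbase : w ≤ w ^ C1 * Q * (w + 1) := by
    have h1 : 1 ≤ w ^ C1 * Q := Nat.one_le_iff_ne_zero.mpr (by positivity)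
    nlinarith
  have hXY : w ≤ Y := hbase.trans (Nat.le_self_pow hnpos.ne' _)
  have hwR : (0 : ℝ) < w := by exact_mod_cast hw0
  have hlog4 : Real.log 4 ≤ 2 := by
    have h1 : Real.log 4 = 2 * Real.log 2 := by
      rw [show (4 : ℝ) = 2 ^ 2 by norm_num, Real.log_pow]
      norm_num
    have h2 := Real.log_two_lt_d9
    rw [h1]
    linarith
  have hQR : (0 : ℝ) < Q := by exact_mod_cast hQ0
  have hlogQ : Real.log Q ≤ 2 * z := by
    calc Real.log Q ≤ Real.log ((4 : ℝ) ^ z) := Real.log_le_log hQR hQ4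
      _ = z * Real.log 4 := Real.log_pow _ _
      _ ≤ z * 2 := mul_le_mul_of_nonneg_left hlog4 (Nat.cast_nonneg z)
      _ = 2 * z := by ring
  have hlogw1 : Real.log ((w : ℝ) + 1) ≤ 2 * L := by
    have hw2' : (2 : ℝ) ≤ w := by exact_mod_cast hw2
    calc Real.log ((w : ℝ) + 1) ≤ Real.log ((w : ℝ) ^ 2) := by
          apply Real.log_le_log (by positivity)
          nlinarith
      _ = 2 * L := by rw [Real.log_pow, ← hL]; norm_num
  have hlogY : Real.log Y ≤ ((n * (C1 + 4) : ℕ) : ℝ) * z := by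
    have h1 : Real.log (Y : ℝ) = n * (C1 * L + Real.log Q + Real.log ((w : ℝ) + 1)) := by
      rw [hY]
      push_cast
      rw [Real.log_pow, Real.log_mul (by positivity) (by positivity),
        Real.log_mul (by positivity) (by positivity), Real.log_pow]
    rw [h1]
    push_cast
    have h2 : (C1 : ℝ) * L ≤ C1 * z := mul_le_mul_of_nonneg_left hz_ge (Nat.cast_nonneg _)
    have h3 : (C1 : ℝ) * L + Real.log Q + Real.log ((w : ℝ) + 1) ≤ (C1 + 4) * z := by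
      linarith
    calc (n : ℝ) * (C1 * L + Real.log Q + Real.log ((w : ℝ) + 1)) ≤ n * ((C1 + 4) * z) :=
          mul_le_mul_of_nonneg_left h3 (Nat.cast_nonneg _)
      _ = n * (C1 + 4) * z := by ring
  obtain ⟨S, Ω, hS, hΩ, hcov⟩ := omega_l hl hl2 hR hN hn I w Y Q z hQp (by
    intro m hm
    obtain ⟨h1, h2, -, -⟩ := hI m
    refine ⟨h1, h2.trans ?_⟩
    rw [hY]
    apply Nat.pow_le_pow_left
    apply Nat.mul_le_mul_left
    omega) (fun m => (hI m).2.2)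
  have hmain := hsieve z w Y S V Ω hz1z hzw hXY hlogY (fun p hp => (hS p hp).1) hVz hΩ hcov
  refine hmain.trans ?_
  have hYw : Y ≤ w ^ (n * (C1 + 4) * 2) := by
    have hY0 : (0 : ℝ) < Y := by
      have : 0 < Y := lt_of_lt_of_le hw0 hXY
      exact_mod_cast this
    have h1 : Real.log Y ≤ Real.log ((w : ℝ) ^ (n * (C1 + 4) * 2)) := by
      rw [Real.log_pow]
      refine hlogY.trans ?_
      rw [Nat.cast_mul (n * (C1 + 4)) 2, mul_assoc]
      apply mul_le_mul_of_nonneg_left _ (Nat.cast_nonneg _)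
      push_cast
      linarith
    have h2 : (Y : ℝ) ≤ (w : ℝ) ^ (n * (C1 + 4) * 2) :=
      (Real.log_le_log_iff hY0 (by positivity)).mp h1
    exact_mod_cast h2
  have hsub : prods (fun p => p ∈ S ∧ p ∉ V) Y ⊆
      prods (fun p => p ∉ V ∧ NormNeg l E p) (w ^ (n * (C1 + 4) * 2)) := by
    intro s hs
    rw [mem_prods] at hs ⊢
    obtain ⟨⟨h1, h2⟩, h3, h4⟩ := hs
    refine ⟨⟨h1, h2.trans hYw⟩, h3, fun p hp hps => ?_⟩
    obtain ⟨h5, h6⟩ := h4 p hp hps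
    exact ⟨h6, (hS p h5).2⟩
  exact_mod_cast Finset.card_le_card hsub

end Pool.Agent.Lib.MP_695920_nt.Gl
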