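import Mathlib
import Pool.Agent.Lib.MP_695920_nt.Gl.Defs
import Pool.Agent.Lib.MP_695920_nt.Refl.ClsTools

set_option autoImplicit false

open Finset NumberField Module IsDedekindDomain
open scoped nonZeroDivisors Pointwise IntermediateField

namespace Pool.Agent.Lib.MP_695920_nt.Gl

open Pool.Agent.Lib.MP_695920_nt.Solv Pool.Agent.Lib.MP_695920_nt.Tow
  Pool.Agent.Lib.MP_695920_nt.Refl

lemma le_relIndex_l {l : ℕ} (hl : l.Prime) {A : Type*} [CommGroup A] [Finite A]
    {S T : Subgroup A} {x : A}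
    (hxl : x ^ l ∈ S) (hxT : x ∈ T) (hxS : x ∉ S) : l ≤ S.relIndex T := by
  have h0 : S.relIndex T ≠ 0 := by
    rw [Subgroup.relIndex]
    exact Subgroup.index_ne_zero_of_finite
  set y : T ⧸ S.subgroupOf T := ((⟨x, hxT⟩ : T) : T ⧸ S.subgroupOf T) with hy
  have hyl : y ^ l = 1 := by
    rw [hy, ← QuotientGroup.mk_pow, QuotientGroup.eq_one_iff, Subgroup.mem_subgroupOf]
    exact hxl
  have hy1 : y ≠ 1 := by
    intro h
    rw [hy, QuotientGroup.eq_one_iff, Subgroup.mem_subgroupOf] at h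
    exact hxS h
  have hord : orderOf y = l := by
    have : Fact l.Prime := ⟨hl⟩
    exact orderOf_eq_prime hyl hy1
  have hdvd : l ∣ S.relIndex T := by
    rw [← hord]
    exact orderOf_dvd_natCard y
  exact Nat.le_of_dvd (Nat.pos_of_ne_zero h0) hdvd

lemma card_tors_ge_l {l : ℕ} (hl : Odd l) {A B : Type*} [CommGroup A] [Finite A] [CommGroup B]
    [Finite B] (j : B →* A) (N : A →* B) (hN : ∀ x, N (j x) = x ^ 2) :
    Nat.card {x : B // x ^ l = 1} * (j.range ⊔ (powMonoidHom l : A →* A).range).index ≤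
      Nat.card {x : A // x ^ l = 1} := by
  set Cb := (powMonoidHom l : A →* A).range with hCb
  set Cb' := (powMonoidHom l : B →* B).range with hCb'
  have hA : Nat.card {x : A // x ^ l = 1} = Cb.index := by
    have h1 := card_ker_mul_range (powMonoidHom l : A →* A)
    have h2 := Subgroup.index_mul_card Cb
    have h3 : Nat.card {x : A // x ^ l = 1} = Nat.card (powMonoidHom l : A →* A).ker := by
      apply Nat.card_congr
      exact Equiv.subtypeEquivRight (fun x => by rw [MonoidHom.mem_ker]; rfl)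
    have h4 : 0 < Nat.card Cb := Nat.card_pos
    rw [h3]
    apply Nat.eq_of_mul_eq_mul_right h4
    rw [h1, h2]
  have hB : Nat.card {x : B // x ^ l = 1} = Cb'.index := by
    have h1 := card_ker_mul_range (powMonoidHom l : B →* B)
    have h2 := Subgroup.index_mul_card Cb'
    have h3 : Nat.card {x : B // x ^ l = 1} = Nat.card (powMonoidHom l : B →* B).ker := by
      apply Nat.card_congr
      exact Equiv.subtypeEquivRight (fun x => by rw [MonoidHom.mem_ker]; rfl)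
    have h4 : 0 < Nat.card Cb' := Nat.card_pos
    rw [h3]
    apply Nat.eq_of_mul_eq_mul_right h4
    rw [h1, h2]
  have h1 : Cb.relIndex (j.range ⊔ Cb) * (j.range ⊔ Cb).index = Cb.index :=
    Subgroup.relIndex_mul_index le_sup_right
  rw [Subgroup.relIndex_sup_right, ← Subgroup.index_comap] at h1
  rw [hA, hB, ← h1]
  apply Nat.mul_le_mul_right
  have hle : Cb.comap j ≤ Cb' := by
    intro x hx
    obtain ⟨y, hy⟩ := hx
    have h2 : y ^ l = j x := hy
    have h3 := congrArg N h2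
    rw [map_pow, hN] at h3
    obtain ⟨k, hk⟩ := hl
    refine ⟨x * ((N y) ^ k)⁻¹, ?_⟩
    change (x * ((N y) ^ k)⁻¹) ^ l = x
    rw [mul_pow, inv_pow, ← pow_mul, mul_comm k l, pow_mul, h3, ← pow_mul, hk, pow_succ,
      mul_comm (x ^ (2 * k)) x, mul_inv_cancel_right]
  exact Nat.le_of_dvd (Nat.pos_of_ne_zero Subgroup.index_ne_zero_of_finite)
    (Subgroup.index_dvd_of_le hle)

lemma select_primes_l_aux {l : ℕ} (hl : l.Prime) {E : Type} [Field E] [NumberField E] {m : 𝓞 E}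
    (hm : m ≠ 0) :
    ∀ (n : ℕ) (S : Subgroup (ClassGroup (𝓞 E))), S.index = n → (∀ x, x ^ l ∈ S) →
      ∃ F : Finset (Ideal (𝓞 E)), (∀ q ∈ F, q.IsPrime ∧ q ≠ ⊥ ∧ m ∉ q) ∧
        S ⊔ Subgroup.closure (cls '' (F : Set (Ideal (𝓞 E)))) = ⊤ ∧ l ^ F.card ≤ S.index := by
  classical
  intro n
  induction n using Nat.strong_induction_on with
  | _ n ih =>
  intro S hSn hS3
  by_cases hStop : S = ⊤
  · refine ⟨∅, by simp, ?_, ?_⟩
    · rw [hStop, top_sup_eq]
    · rw [Finset.card_empty, pow_zero]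
      exact Nat.pos_of_ne_zero Subgroup.index_ne_zero_of_finite
  obtain ⟨x, hx⟩ : ∃ x, x ∉ S := by
    by_contra hcon
    push Not at hcon
    exact hStop (eq_top_iff.mpr (fun y _ => hcon y))
  obtain ⟨J, hJ0, rfl, hJm⟩ := cls_surj_coprime x hm
  obtain ⟨q, hq, hq0, hJq, hqS⟩ : ∃ q : Ideal (𝓞 E), q.IsPrime ∧ q ≠ ⊥ ∧ J ≤ q ∧ cls q ∉ S := by
    by_contra hcon
    push Not at hcon
    exact hx (cls_mem_of_primes S J hJ0 (fun q h1 h2 h3 => hcon q h1 h2 h3))
  set S' := S ⊔ Subgroup.zpowers (cls q) with hS'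
  have hqS' : cls q ∈ S' := (le_sup_right : Subgroup.zpowers (cls q) ≤ S') (Subgroup.mem_zpowers _)
  have h3 : l ≤ S.relIndex S' := le_relIndex_l hl (hS3 (cls q)) hqS' hqS
  have hidx : S.relIndex S' * S'.index = S.index := Subgroup.relIndex_mul_index le_sup_left
  have hpos : 0 < S'.index := Nat.pos_of_ne_zero Subgroup.index_ne_zero_of_finite
  have hl2 := hl.two_le
  have hlt : S'.index < n := by
    rw [← hSn, ← hidx]
    nlinarith
  obtain ⟨F, hF1, hF2, hF3⟩ := ih _ hlt S' rfl (fun y => (le_sup_left : S ≤ S') (hS3 y))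
  refine ⟨insert q F, ?_, ?_, ?_⟩
  · intro r hr
    rcases Finset.mem_insert.mp hr with rfl | hr
    · exact ⟨hq, hq0, not_mem_of_coprime hJm hq hJq⟩
    · exact hF1 r hr
  · rw [eq_top_iff, ← hF2, hS']
    refine sup_le (sup_le le_sup_left ?_) ?_
    · refine le_trans ?_ le_sup_right
      rw [Subgroup.zpowers_le]
      apply Subgroup.subset_closure
      exact ⟨q, by simp, rfl⟩
    · refine le_trans ?_ le_sup_right
      apply Subgroup.closure_mono
      apply Set.image_mono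
      rw [Finset.coe_insert]
      exact Set.subset_insert _ _
  · calc l ^ (insert q F).card ≤ l ^ (F.card + 1) :=
        Nat.pow_le_pow_right hl.pos (Finset.card_insert_le _ _)
      _ = l * l ^ F.card := by rw [pow_succ, mul_comm]
      _ ≤ S.relIndex S' * S'.index := Nat.mul_le_mul h3 hF3
      _ = S.index := hidx

lemma select_primes_l {l : ℕ} (hl : l.Prime) {E : Type} [Field E] [NumberField E] {m : 𝓞 E}
    (hm : m ≠ 0) (S : Subgroup (ClassGroup (𝓞 E))) (hS : ∀ x, x ^ l ∈ S) :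
      ∃ F : Finset (Ideal (𝓞 E)), (∀ q ∈ F, q.IsPrime ∧ q ≠ ⊥ ∧ m ∉ q) ∧
        S ⊔ Subgroup.closure (cls '' (F : Set (Ideal (𝓞 E)))) = ⊤ ∧ l ^ F.card ≤ S.index :=
  select_primes_l_aux hl hm _ S rfl hS

lemma power_classes {l : ℕ} (hl : 0 < l) {R : Type} [CommRing R] {q : Ideal R} (hq : q.IsMaximal)
    [Finite (R ⧸ q)] :
    ∃ (Q : Type) (_ : Finite Q) (χ : R → Q), Nat.card Q ≤ l ∧
      ∀ a b : R, a ∉ q → b ∉ q → χ a = χ b → ∃ u : R, a - b * u ^ l ∈ q := by
  classical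
  have : NeZero l := ⟨hl.ne'⟩
  let _ : Field (R ⧸ q) := Ideal.Quotient.field q
  let Q := (R ⧸ q)ˣ ⧸ (powMonoidHom l : (R ⧸ q)ˣ →* (R ⧸ q)ˣ).range
  have hfin : Finite Q := inferInstance
  let χ : R → Q := fun a => if h : a ∉ q then
    QuotientGroup.mk (Units.mk0 (Ideal.Quotient.mk q a) (by
      rwa [Ne, Ideal.Quotient.eq_zero_iff_mem])) else 1
  refine ⟨Q, hfin, χ, ?_, ?_⟩
  · have h1 := card_ker_mul_range (powMonoidHom l : (R ⧸ q)ˣ →* (R ⧸ q)ˣ)
    have h2 := Subgroup.index_mul_card (powMonoidHom l : (R ⧸ q)ˣ →* (R ⧸ q)ˣ).range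
    have h3 : Nat.card Q = Nat.card (powMonoidHom l : (R ⧸ q)ˣ →* (R ⧸ q)ˣ).ker := by
      have h4 : 0 < Nat.card (powMonoidHom l : (R ⧸ q)ˣ →* (R ⧸ q)ˣ).range := Nat.card_pos
      apply Nat.eq_of_mul_eq_mul_right h4
      rw [h1]
      exact h2
    rw [h3]
    have h5 : (powMonoidHom l : (R ⧸ q)ˣ →* (R ⧸ q)ˣ).ker = rootsOfUnity l (R ⧸ q) := by
      ext u
      rw [MonoidHom.mem_ker, mem_rootsOfUnity]
      rfl
    rw [h5]
    exact card_rootsOfUnity (R ⧸ q) l
  · intro a b ha hb hab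
    simp only [χ] at hab
    rw [dif_pos ha, dif_pos hb, eq_comm, QuotientGroup.eq] at hab
    obtain ⟨v, hv⟩ := hab
    obtain ⟨u, hu⟩ := Ideal.Quotient.mk_surjective (v : R ⧸ q)
    refine ⟨u, ?_⟩
    rw [← Ideal.Quotient.eq_zero_iff_mem, map_sub, map_mul, map_pow, hu, sub_eq_zero]
    have h1 : (powMonoidHom l : (R ⧸ q)ˣ →* (R ⧸ q)ˣ) v = v ^ l := rfl
    rw [h1] at hv
    have h2 := congrArg (fun z : (R ⧸ q)ˣ => (z : R ⧸ q)) hv
    simp only [Units.val_pow_eq_pow_val, Units.val_mul, Units.val_inv_eq_inv_val,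
      Units.val_mk0] at h2
    rw [h2, mul_inv_cancel_left₀]
    rwa [Ne, Ideal.Quotient.eq_zero_iff_mem]

end Pool.Agent.Lib.MP_695920_nt.Gl
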