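import Mathlib
import Pool.Agent.Lib.MP_695920_nt.Refl.GenB
import Pool.Agent.Lib.MP_695920_nt.Gl.Defs
import Pool.Agent.Lib.MP_695920_nt.Gl.GenA

set_option autoImplicit false

open Finset NumberField Module IsDedekindDomain
open scoped nonZeroDivisors Pointwise

namespace Pool.Agent.Lib.MP_695920_nt.Gl

open Pool.Agent.Lib.MP_695920_nt.Solv Pool.Agent.Lib.MP_695920_nt.Tow
open Pool.Agent.Lib.MP_695920_nt.Refl

open Classical in
lemma w_bound_l {l : ℕ} (hl : l.Prime) (hl2 : l ≠ 2) {K K' : Type} [Field K] [NumberField K]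
    [Field K'] [NumberField K'] [Algebra K K'] (h2 : finrank K K' = 2) {z : 𝓞 K'}
    (hz : IsPrimitiveRoot z l) (hK : NC l K) {s : ℝ} (hs : 1 < s)
    (hsum : Summable (fun I => nz K' s hs I)) (S : Finset (HeightOneSpectrum (𝓞 K)))
    (hS : ∀ v ∈ S, (l : 𝓞 K) ∉ v.asIdeal ∧ Ideal.absNorm v.asIdeal % l = 1) :
    (∏ v ∈ S, (1 - nz K s hs v.asIdeal)⁻¹) ^ 2 ≤ ∑' I, nz K' s hs I := by
  have hex : ∀ v : S, ∃ P Q : HeightOneSpectrum (𝓞 K'), P ≠ Q ∧
      P.asIdeal.under (𝓞 K) = v.1.asIdeal ∧ Q.asIdeal.under (𝓞 K) = v.1.asIdeal ∧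
      Ideal.absNorm P.asIdeal = Ideal.absNorm v.1.asIdeal ∧
      Ideal.absNorm Q.asIdeal = Ideal.absNorm v.1.asIdeal := by
    intro v
    obtain ⟨h3, hN⟩ := hS v.1 v.2
    obtain ⟨P, Q, hP, hQ, hP0, hQ0, hPQ, h4, h5, h6, h7⟩ :=
      two_primes_l hl hl2 h2 hz hK v.1.isPrime v.1.ne_bot h3 hN
    refine ⟨⟨P, hP, hP0⟩, ⟨Q, hQ, hQ0⟩, ?_, h4, h5, h6, h7⟩
    intro h
    exact hPQ (congrArg HeightOneSpectrum.asIdeal h)
  choose P Q hPQ hPv hQv hPN hQN using hex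
  have hPinj : Function.Injective P := by
    intro a b hab
    apply Subtype.ext
    apply HeightOneSpectrum.ext
    rw [← hPv, ← hPv, hab]
  have hQinj : Function.Injective Q := by
    intro a b hab
    apply Subtype.ext
    apply HeightOneSpectrum.ext
    rw [← hQv, ← hQv, hab]
  set TP := Finset.univ.image P with hTP
  set TQ := Finset.univ.image Q with hTQ
  have hdisj : Disjoint TP TQ := by
    rw [Finset.disjoint_left]
    intro x hx hy
    rw [hTP, Finset.mem_image] at hx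
    rw [hTQ, Finset.mem_image] at hy
    obtain ⟨a, -, rfl⟩ := hx
    obtain ⟨b, -, hb⟩ := hy
    have hab : a = b := by
      apply Subtype.ext
      apply HeightOneSpectrum.ext
      rw [← hPv, ← hQv, hb]
    subst hab
    exact hPQ a hb.symm
  have h1 := euler_fin (nz K' s hs) (nz_norm_summable hs hsum) (TP ∪ TQ)
  rw [Finset.prod_union hdisj, Finset.prod_image (fun _ _ _ _ h => hPinj h),
    Finset.prod_image (fun _ _ _ _ h => hQinj h)] at h1
  have h3 : ∏ v : S, (1 - nz K' s hs (P v).asIdeal)⁻¹ = ∏ v ∈ S, (1 - nz K s hs v.asIdeal)⁻¹ := by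
    rw [← Finset.prod_coe_sort S]
    apply Finset.prod_congr rfl
    intro v _
    rw [nz_apply, nz_apply, hPN]
  have h4 : ∏ v : S, (1 - nz K' s hs (Q v).asIdeal)⁻¹ = ∏ v ∈ S, (1 - nz K s hs v.asIdeal)⁻¹ := by
    rw [← Finset.prod_coe_sort S]
    apply Finset.prod_congr rfl
    intro v _
    rw [nz_apply, nz_apply, hQN]
  rw [h3, h4, ← sq] at h1
  rw [← h1]
  have hle : ∀ I, (MS (TP ∪ TQ)).indicator (nz K' s hs) I ≤ nz K' s hs I := by
    intro I
    apply Set.indicator_le_self' (fun I _ => nz_nonneg K' s hs I)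
  exact Summable.tsum_le_tsum hle (hsum.indicator _) hsum

lemma local_ineq_l {l : ℕ} (hl : l.Prime) {t : ℂ} (ht : t ^ l = 1) (ht1 : t ≠ 1) {x : ℝ}
    (hx0 : 0 ≤ x) (hx1 : x < 1) :
    1 ≤ (1 - x)⁻¹ * ∏ j ∈ Finset.Ico 1 l, ‖(1 - t ^ j * x)⁻¹‖ := by
  have hprim : IsPrimitiveRoot t l := by
    have : Fact l.Prime := ⟨hl⟩
    have h1 : orderOf t = l := orderOf_eq_prime ht ht1
    rw [← h1]
    exact IsPrimitiveRoot.orderOf t
  have h1 := X_pow_sub_C_eq_prod hprim hl.pos (rfl : (x : ℂ) ^ l = (x : ℂ) ^ l)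
  have h2 := congrArg (Polynomial.eval 1) h1
  rw [Polynomial.eval_prod] at h2
  simp only [Polynomial.eval_sub, Polynomial.eval_pow, Polynomial.eval_X, Polynomial.eval_C,
    one_pow] at h2
  have h3 : Finset.range l = insert 0 (Finset.Ico 1 l) := by
    ext j
    have := hl.pos
    simp only [Finset.mem_range, Finset.mem_insert, Finset.mem_Ico]
    omega
  rw [h3, Finset.prod_insert (by simp), pow_zero, one_mul] at h2
  have h4 := congrArg (fun w : ℂ => ‖w‖) h2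
  simp only [norm_mul, norm_prod] at h4
  have h5 : ‖(1 : ℂ) - (x : ℂ)‖ = 1 - x := by
    rw [show (1 : ℂ) - (x : ℂ) = ((1 - x : ℝ) : ℂ) by push_cast; ring, Complex.norm_real,
      Real.norm_of_nonneg (by linarith)]
  have h6 : ‖(1 : ℂ) - (x : ℂ) ^ l‖ = 1 - x ^ l := by
    rw [show (1 : ℂ) - (x : ℂ) ^ l = ((1 - x ^ l : ℝ) : ℂ) by push_cast; ring, Complex.norm_real,
      Real.norm_of_nonneg]
    have : x ^ l ≤ 1 := pow_le_one₀ hx0 hx1.le
    linarith
  rw [h5, h6] at h4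
  have h7 : x ^ l < 1 := pow_lt_one₀ hx0 hx1 hl.pos.ne'
  have h8 : 0 ≤ x ^ l := pow_nonneg hx0 l
  have h9 : (1 - x)⁻¹ * ∏ j ∈ Finset.Ico 1 l, ‖(1 - t ^ j * x)⁻¹‖ = (1 - x ^ l)⁻¹ := by
    rw [h4, mul_inv]
    congr 1
    rw [← Finset.prod_inv_distrib]
    apply Finset.prod_congr rfl
    intro j _
    rw [norm_inv]
  rw [h9]
  exact (one_le_inv₀ (by linarith)).mpr (by linarith)

end Pool.Agent.Lib.MP_695920_nt.Gl
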