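import Mathlib
import Pool.Agent.Lib.MP_695920_nt.Refl.GenB
import Pool.Agent.Lib.MP_695920_nt.Gl.Defs
import Pool.Agent.Lib.MP_695920_nt.Gl.GenA
import Pool.Agent.Lib.MP_695920_nt.Gl.GenB

set_option autoImplicit false

open Finset NumberField Module IsDedekindDomain Filter Topology
open scoped nonZeroDivisors Pointwise IntermediateField

namespace Pool.Agent.Lib.MP_695920_nt.Gl

open Pool.Agent.Lib.MP_695920_nt.Solv Pool.Agent.Lib.MP_695920_nt.Tow
  Pool.Agent.Lib.MP_695920_nt.Refl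

open Classical in
/-- `gen_neg` with the inputs from the files `GenA` and `GenB` as hypotheses -/
theorem gen_neg_aux {l : ℕ} (hl : l.Prime) (hl2 : l ≠ 2) (K K' : Type) [Field K] [NumberField K]
    [Field K'] [NumberField K']
    (hcases : ∀ v : Ideal (𝓞 K), v.IsPrime → v ≠ ⊥ → (l : 𝓞 K) ∉ v →
      Ideal.absNorm v % l = 1 ∨ Ideal.absNorm v % l = l - 1)
    (w_bound_l : ∀ (s : ℝ) (hs : 1 < s), Summable (fun I => nz K' s hs I) →
      ∀ S : Finset (HeightOneSpectrum (𝓞 K)),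
      (∀ v ∈ S, (l : 𝓞 K) ∉ v.asIdeal ∧ Ideal.absNorm v.asIdeal % l = 1) →
      (∏ v ∈ S, (1 - nz K s hs v.asIdeal)⁻¹) ^ 2 ≤ ∑' I, nz K' s hs I)
    (local_ineq_l : ∀ t : ℂ, t ^ l = 1 → t ≠ 1 → ∀ x : ℝ, 0 ≤ x → x < 1 →
      1 ≤ (1 - x)⁻¹ * ∏ j ∈ Finset.Ico 1 l, ‖(1 - t ^ j * x)⁻¹‖)
    {m : 𝓞 K} (hm : m ≠ 0)
    (H : Subgroup (ClassGroup (𝓞 K))) (hHl : ∀ x, x ^ l ∈ H)
    (hH : ∀ P : Ideal (𝓞 K), P.IsPrime → P ≠ ⊥ → Ideal.absNorm P % l = l - 1 → m ∉ P → cls P ∈ H) :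
    H = ⊤ := by
  have hl3 : 3 ≤ l := by
    have := hl.two_le
    omega
  by_contra hne
  -- a character
  obtain ⟨a, ha⟩ : ∃ a, a ∉ H := by
    by_contra hcon
    push Not at hcon
    exact hne (eq_top_iff.mpr (fun x _ => hcon x))
  have ha' : (QuotientGroup.mk a : ClassGroup (𝓞 K) ⧸ H) ≠ 1 := by
    rw [Ne, QuotientGroup.eq_one_iff]
    exact ha
  obtain ⟨φ, hφ⟩ := CommGroup.exists_apply_ne_one_of_hasEnoughRootsOfUnity
    (ClassGroup (𝓞 K) ⧸ H) ℂ ha'
  set ψ : ClassGroup (𝓞 K) →* ℂˣ := φ.comp (QuotientGroup.mk' H) with hψ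
  have hψH : ∀ x ∈ H, ψ x = 1 := by
    intro x hx
    rw [hψ, MonoidHom.comp_apply, QuotientGroup.mk'_apply, (QuotientGroup.eq_one_iff x).mpr hx,
      map_one]
  have hψ1 : ψ ≠ 1 := by
    intro h
    apply hφ
    have := congrArg (fun f : ClassGroup (𝓞 K) →* ℂˣ => f a) h
    exact this
  obtain ⟨x0, hx0⟩ : ∃ x, ψ x ≠ 1 := by
    by_contra hcon
    push Not at hcon
    exact hψ1 (MonoidHom.ext hcon)
  have hψl' : ∀ x, ((ψ x : ℂ)) ^ l = 1 := by
    intro x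
    rw [← Units.val_pow_eq_pow_val, ← map_pow, hψH _ (hHl x), Units.val_one]
  have hψj : ∀ j ∈ Finset.Ico 1 l, ψ ^ j ≠ 1 := by
    intro j hj h
    obtain ⟨hj1, hj2⟩ := Finset.mem_Ico.mp hj
    have ho : orderOf (ψ x0) = l := by
      have hd : orderOf (ψ x0) ∣ l := by
        apply orderOf_dvd_of_pow_eq_one
        rw [← map_pow, hψH _ (hHl x0)]
      rcases (Nat.dvd_prime hl).mp hd with h1 | h1
      · exact absurd (orderOf_eq_one_iff.mp h1) hx0
      · exact h1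
    have h2 : (ψ x0) ^ j = 1 := by
      have := congrArg (fun f : ClassGroup (𝓞 K) →* ℂˣ => f x0) h
      exact this
    have := orderOf_dvd_of_pow_eq_one h2
    rw [ho] at this
    have := Nat.le_of_dvd (by omega) this
    omega
  -- the exceptional primes
  have hlm : ((l : 𝓞 K) * m : 𝓞 K) ≠ 0 := mul_ne_zero (by exact_mod_cast hl.ne_zero) hm
  have hlm' : Ideal.span {((l : 𝓞 K) * m : 𝓞 K)} ≠ 0 := by
    rw [Ne, Ideal.zero_eq_bot, Ideal.span_singleton_eq_bot]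
    exact hlm
  have hfin : {v : HeightOneSpectrum (𝓞 K) |
      v.asIdeal ∣ Ideal.span {((l : 𝓞 K) * m : 𝓞 K)}}.Finite :=
    Ideal.finite_factors hlm'
  set D := hfin.toFinset with hD
  have hDmem : ∀ v : HeightOneSpectrum (𝓞 K), v ∉ D → (l : 𝓞 K) ∉ v.asIdeal ∧ m ∉ v.asIdeal := by
    intro v hv
    rw [hD, Set.Finite.mem_toFinset] at hv
    constructor
    · intro h
      apply hv
      change v.asIdeal ∣ _
      rw [Ideal.dvd_span_singleton]
      exact Ideal.mul_mem_right _ _ h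
    · intro h
      apply hv
      change v.asIdeal ∣ _
      rw [Ideal.dvd_span_singleton]
      exact Ideal.mul_mem_left _ _ h
  have hpw : ∀ (s : ℝ) (hs : 1 < s) (j : ℕ) (v : Ideal (𝓞 K)),
      tw (ψ ^ j) s hs v = (ψ (cls v) : ℂ) ^ j * ((nz K s hs v : ℝ) : ℂ) := by
    intro s hs j v
    rw [tw_apply, MonoidHom.pow_apply, Units.val_pow_eq_pow_val]
  -- the main inequality
  have hmain : ∀ (s : ℝ) (hs : 1 < s), Summable (fun I => nz K s hs I) →
      Summable (fun I => nz K' s hs I) →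
      (∑' I, nz K s hs I) ^ (2 * (l - 1)) ≤
        (∏ j ∈ Finset.Ico 1 l, ‖∑' I, tw (ψ ^ j) s hs I‖ ^ 2) *
        (4 ^ D.card * ∑' I, nz K' s hs I) ^ l := by
    intro s hs hsum hsum'
    have hZ' : 0 ≤ ∑' I, nz K' s hs I := tsum_nonneg (fun I => nz_nonneg K' s hs I)
    -- local factors
    let b : HeightOneSpectrum (𝓞 K) → ℝ := fun v =>
      if v ∈ D then 2 else if Ideal.absNorm v.asIdeal % l = 1 then (1 - nz K s hs v.asIdeal)⁻¹ else 1
    have hx0 : ∀ v : HeightOneSpectrum (𝓞 K), 0 ≤ nz K s hs v.asIdeal := fun v => nz_nonneg K s hs _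
    have hx1 : ∀ v : HeightOneSpectrum (𝓞 K), nz K s hs v.asIdeal ≤ 1 / 2 := fun v => nz_lt_one hs v
    have hb0 : ∀ v, 0 ≤ b v := by
      intro v
      have := hx1 v
      simp only [b]
      split_ifs
      · norm_num
      · apply inv_nonneg.mpr; linarith
      · norm_num
    have hloc : ∀ v : HeightOneSpectrum (𝓞 K), ((1 - nz K s hs v.asIdeal)⁻¹) ^ (l - 1) ≤
        (∏ j ∈ Finset.Ico 1 l, ‖(1 - tw (ψ ^ j) s hs v.asIdeal)⁻¹‖) * b v ^ l := by
      intro v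
      have hx0v := hx0 v
      have hx1v := hx1 v
      set x := nz K s hs v.asIdeal with hx
      have hpos : 0 < 1 - x := by linarith
      have hprod : (∏ j ∈ Finset.Ico 1 l, ‖(1 - tw (ψ ^ j) s hs v.asIdeal)⁻¹‖) =
          ∏ j ∈ Finset.Ico 1 l, ‖(1 - (ψ (cls v.asIdeal) : ℂ) ^ j * (x : ℂ))⁻¹‖ := by
        refine Finset.prod_congr rfl fun j _ => ?_
        rw [hpw]
      rw [hprod]
      have hone : ψ (cls v.asIdeal) = 1 →
          ∏ j ∈ Finset.Ico 1 l, ‖(1 - (ψ (cls v.asIdeal) : ℂ) ^ j * (x : ℂ))⁻¹‖ =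
            ((1 - x)⁻¹) ^ (l - 1) := by
        intro h
        rw [Finset.prod_congr rfl (g := fun _ => (1 - x)⁻¹)]
        · rw [Finset.prod_const, Nat.card_Ico]
        · intro j _
          rw [h, Units.val_one, one_pow, one_mul, ← Complex.ofReal_one,
            ← Complex.ofReal_sub, ← Complex.ofReal_inv, Complex.norm_real,
            Real.norm_of_nonneg (inv_nonneg.mpr hpos.le)]
      have hbig : (1 - x)⁻¹ ≤ b v → ((1 - x)⁻¹) ^ (l - 1) ≤
          (∏ j ∈ Finset.Ico 1 l, ‖(1 - (ψ (cls v.asIdeal) : ℂ) ^ j * (x : ℂ))⁻¹‖) * b v ^ l := by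
        intro hb
        have hinv1 : 1 ≤ (1 - x)⁻¹ := by
          rw [one_le_inv₀ hpos]; linarith
        by_cases ht : (ψ (cls v.asIdeal) : ℂ) = 1
        · rw [hone (Units.ext ht)]
          have : 1 ≤ b v ^ l := one_le_pow₀ (hinv1.trans hb)
          nlinarith [pow_nonneg (inv_nonneg.mpr hpos.le) (l - 1)]
        · have h1 := local_ineq_l _ (hψl' (cls v.asIdeal)) ht x hx0v (by linarith)
          set p := ∏ j ∈ Finset.Ico 1 l, ‖(1 - (ψ (cls v.asIdeal) : ℂ) ^ j * (x : ℂ))⁻¹‖ with hp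
          have hp0 : 0 ≤ p := Finset.prod_nonneg fun _ _ => norm_nonneg _
          have h2 : ((1 - x)⁻¹) ^ l ≤ b v ^ l :=
            pow_le_pow_left₀ (inv_nonneg.mpr hpos.le) hb l
          have h3 : ((1 - x)⁻¹) ^ l = ((1 - x)⁻¹) ^ (l - 1) * (1 - x)⁻¹ := by
            rw [← pow_succ]; congr 1; omega
          calc ((1 - x)⁻¹) ^ (l - 1) = ((1 - x)⁻¹) ^ (l - 1) * 1 := (mul_one _).symm
            _ ≤ ((1 - x)⁻¹) ^ (l - 1) * ((1 - x)⁻¹ * p) := by
                apply mul_le_mul_of_nonneg_left h1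
                exact pow_nonneg (inv_nonneg.mpr hpos.le) _
            _ = p * ((1 - x)⁻¹) ^ l := by rw [h3]; ring
            _ ≤ p * b v ^ l := mul_le_mul_of_nonneg_left h2 hp0
      by_cases hvD : v ∈ D
      · apply hbig
        simp only [b, if_pos hvD]
        rw [inv_le_comm₀ hpos (by norm_num)]
        linarith
      · obtain ⟨h3v, hmv⟩ := hDmem v hvD
        by_cases hv1 : Ideal.absNorm v.asIdeal % l = 1
        · apply hbig
          simp only [b, if_neg hvD, if_pos hv1]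
          exact le_rfl
        · have hv2 : Ideal.absNorm v.asIdeal % l = l - 1 :=
            (hcases v.asIdeal v.isPrime v.ne_bot h3v).resolve_left hv1
          have h5 : ψ (cls v.asIdeal) = 1 := hψH _ (hH v.asIdeal v.isPrime v.ne_bot hv2 hmv)
          have h6 : b v = 1 := by
            simp only [b, if_neg hvD, if_neg hv1]
          rw [h6, one_pow, mul_one, hone h5]
    have hfinS : ∀ S : Finset (HeightOneSpectrum (𝓞 K)),
        (∏ v ∈ S, (1 - nz K s hs v.asIdeal)⁻¹) ^ (2 * (l - 1)) ≤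
          (∏ j ∈ Finset.Ico 1 l, ‖∏ v ∈ S, (1 - tw (ψ ^ j) s hs v.asIdeal)⁻¹‖ ^ 2) *
            (4 ^ D.card * ∑' I, nz K' s hs I) ^ l := by
      intro S
      have h1 : (∏ v ∈ S, (1 - nz K s hs v.asIdeal)⁻¹) ^ (l - 1) ≤
          (∏ j ∈ Finset.Ico 1 l, ‖∏ v ∈ S, (1 - tw (ψ ^ j) s hs v.asIdeal)⁻¹‖) *
            (∏ v ∈ S, b v) ^ l := by
        have hsw : (∏ j ∈ Finset.Ico 1 l, ‖∏ v ∈ S, (1 - tw (ψ ^ j) s hs v.asIdeal)⁻¹‖) =
            ∏ v ∈ S, ∏ j ∈ Finset.Ico 1 l, ‖(1 - tw (ψ ^ j) s hs v.asIdeal)⁻¹‖ := by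
          rw [Finset.prod_comm]
          refine Finset.prod_congr rfl fun j _ => ?_
          rw [norm_prod]
        rw [hsw, ← Finset.prod_pow, ← Finset.prod_pow, ← Finset.prod_mul_distrib]
        refine Finset.prod_le_prod (fun v _ => ?_) (fun v _ => hloc v)
        exact pow_nonneg (inv_nonneg.mpr (by linarith [hx1 v])) _
      set S' := S.filter (fun v => v ∉ D ∧ Ideal.absNorm v.asIdeal % l = 1) with hS'
      have h2' : ∏ v ∈ S, b v ≤ 2 ^ D.card * ∏ v ∈ S', (1 - nz K s hs v.asIdeal)⁻¹ := by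
        have h5 : ∏ v ∈ S, b v = (∏ v ∈ S, if v ∈ D then (2 : ℝ) else 1) *
            ∏ v ∈ S, if v ∉ D ∧ Ideal.absNorm v.asIdeal % l = 1 then
              (1 - nz K s hs v.asIdeal)⁻¹ else 1 := by
          rw [← Finset.prod_mul_distrib]
          apply Finset.prod_congr rfl
          intro v _
          simp only [b]
          by_cases hvD : v ∈ D
          · simp [hvD]
          · simp [hvD]
        rw [h5, ← Finset.prod_filter, ← Finset.prod_filter, ← hS', Finset.prod_const]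
        apply mul_le_mul_of_nonneg_right
        · apply pow_le_pow_right₀ (by norm_num)
          apply Finset.card_le_card
          intro v hv
          exact (Finset.mem_filter.mp hv).2
        · exact Finset.prod_nonneg (fun v _ => inv_nonneg.mpr (by linarith [hx1 v]))
      have h3' : (∏ v ∈ S', (1 - nz K s hs v.asIdeal)⁻¹) ^ 2 ≤ ∑' I, nz K' s hs I := by
        apply w_bound_l s hs hsum'
        intro v hv
        have h5 := (Finset.mem_filter.mp hv).2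
        exact ⟨(hDmem v h5.1).1, h5.2⟩
      have h4' : (∏ v ∈ S, b v) ^ 2 ≤ 4 ^ D.card * ∑' I, nz K' s hs I := by
        calc (∏ v ∈ S, b v) ^ 2 ≤ (2 ^ D.card * ∏ v ∈ S', (1 - nz K s hs v.asIdeal)⁻¹) ^ 2 :=
              pow_le_pow_left₀ (Finset.prod_nonneg (fun v _ => hb0 v)) h2' 2
          _ = 4 ^ D.card * (∏ v ∈ S', (1 - nz K s hs v.asIdeal)⁻¹) ^ 2 := by
              rw [mul_pow, ← pow_mul, mul_comm D.card 2, pow_mul]; norm_num
          _ ≤ _ := mul_le_mul_of_nonneg_left h3' (by positivity)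
      have hprod0 : 0 ≤ ∏ v ∈ S, (1 - nz K s hs v.asIdeal)⁻¹ :=
        Finset.prod_nonneg (fun v _ => inv_nonneg.mpr (by linarith [hx1 v]))
      calc (∏ v ∈ S, (1 - nz K s hs v.asIdeal)⁻¹) ^ (2 * (l - 1))
          = ((∏ v ∈ S, (1 - nz K s hs v.asIdeal)⁻¹) ^ (l - 1)) ^ 2 := by
            rw [mul_comm, pow_mul]
        _ ≤ ((∏ j ∈ Finset.Ico 1 l, ‖∏ v ∈ S, (1 - tw (ψ ^ j) s hs v.asIdeal)⁻¹‖) *
            (∏ v ∈ S, b v) ^ l) ^ 2 :=
            pow_le_pow_left₀ (pow_nonneg hprod0 _) h1 2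
        _ = (∏ j ∈ Finset.Ico 1 l, ‖∏ v ∈ S, (1 - tw (ψ ^ j) s hs v.asIdeal)⁻¹‖ ^ 2) *
            ((∏ v ∈ S, b v) ^ 2) ^ l := by
            rw [mul_pow, Finset.prod_pow, ← pow_mul, ← pow_mul, mul_comm l 2]
        _ ≤ _ := by
            apply mul_le_mul_of_nonneg_left
            · exact pow_le_pow_left₀ (by positivity) h4' l
            · exact Finset.prod_nonneg fun _ _ => by positivity
    have hlim1 := (euler_tendsto (nz K s hs) (nz_norm_summable hs hsum)).pow (2 * (l - 1))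
    have hlim2 : Tendsto (fun S : Finset (HeightOneSpectrum (𝓞 K)) =>
        (∏ j ∈ Finset.Ico 1 l, ‖∏ v ∈ S, (1 - tw (ψ ^ j) s hs v.asIdeal)⁻¹‖ ^ 2) *
          (4 ^ D.card * ∑' I, nz K' s hs I) ^ l) atTop
        (𝓝 ((∏ j ∈ Finset.Ico 1 l, ‖∑' I, tw (ψ ^ j) s hs I‖ ^ 2) *
          (4 ^ D.card * ∑' I, nz K' s hs I) ^ l)) := by
      refine Tendsto.mul_const _ (tendsto_finsetProd _ fun j _ => ?_)
      have hsumt : Summable (fun I => ‖tw (ψ ^ j) s hs I‖) := by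
        simp only [tw_norm]; exact hsum
      exact (euler_tendsto (tw (ψ ^ j) s hs) hsumt).norm.pow 2
    exact le_of_tendsto_of_tendsto' hlim1 hlim2 hfinS
  -- conclusion
  obtain ⟨C, hC⟩ := l_bound K
  obtain ⟨κ, κa, hκ, -, hzK⟩ := zeta_asymp K
  obtain ⟨κb, κ', -, hκ', hzK'⟩ := zeta_asymp K'
  have hCpos : 0 ≤ C := by
    have h2mem : ∀ᶠ s in 𝓝[>] (1 : ℝ), s ≤ 2 := by
      filter_upwards [Ioo_mem_nhdsGT (show (1 : ℝ) < 2 by norm_num)] with s hs
      exact hs.2.le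
    obtain ⟨s, ⟨hs1, hs2⟩, hs3⟩ := ((hzK.and h2mem).and self_mem_nhdsWithin).exists
    exact (norm_nonneg _).trans (hC s hs3 hs2 (hs1 hs3).1 ψ hψ1)
  set C2 : ℝ := (C ^ 2) ^ (l - 1) * (4 ^ D.card * κ') ^ l with hC2
  have hC20 : 0 ≤ C2 := by positivity
  set κ0 : ℝ := κ ^ (2 * (l - 1)) with hκ0
  have hκ00 : 0 < κ0 := by positivity
  have hlast : ∀ᶠ s in 𝓝[>] (1 : ℝ), s ∈ Set.Ioo (1 : ℝ) (min 2 (1 + κ0 / (C2 + 1))) :=
    Ioo_mem_nhdsGT (by
      rw [lt_min_iff]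
      constructor
      · norm_num
      · have : 0 < κ0 / (C2 + 1) := by positivity
        linarith)
  obtain ⟨s, ⟨hs1, hs2⟩, hs3⟩ := ((hzK.and hzK').and hlast).exists
  have hs : 1 < s := hs3.1
  have hs2' : s ≤ 2 := hs3.2.le.trans (min_le_left _ _)
  have hsκ : s < 1 + κ0 / (C2 + 1) := hs3.2.trans_le (min_le_right _ _)
  obtain ⟨hsum, hlow, -⟩ := hs1 hs
  obtain ⟨hsum', -, hup⟩ := hs2 hs
  have h1 := hmain s hs hsum hsum'
  have hd : 0 < s - 1 := by linarith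
  have hd1 : s - 1 ≤ 1 := by linarith
  have hprodC : (∏ j ∈ Finset.Ico 1 l, ‖∑' I, tw (ψ ^ j) s hs I‖ ^ 2) ≤ (C ^ 2) ^ (l - 1) := by
    calc (∏ j ∈ Finset.Ico 1 l, ‖∑' I, tw (ψ ^ j) s hs I‖ ^ 2)
        ≤ ∏ j ∈ Finset.Ico 1 l, C ^ 2 := by
          refine Finset.prod_le_prod (fun _ _ => by positivity) fun j hj => ?_
          exact pow_le_pow_left₀ (norm_nonneg _) (hC s hs hs2' hsum _ (hψj j hj)) 2
      _ = (C ^ 2) ^ (l - 1) := by rw [Finset.prod_const, Nat.card_Ico]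
  have hZ'0 : 0 ≤ ∑' I, nz K' s hs I := tsum_nonneg (fun I => nz_nonneg K' s hs I)
  have h6 : (κ / (s - 1)) ^ (2 * (l - 1)) ≤
      (C ^ 2) ^ (l - 1) * (4 ^ D.card * (κ' / (s - 1))) ^ l := by
    calc (κ / (s - 1)) ^ (2 * (l - 1)) ≤ (∑' I, nz K s hs I) ^ (2 * (l - 1)) :=
          pow_le_pow_left₀ (by positivity) hlow _
      _ ≤ _ := h1
      _ ≤ (C ^ 2) ^ (l - 1) * (4 ^ D.card * (κ' / (s - 1))) ^ l := by
          apply mul_le_mul hprodC _ (by positivity) (by positivity)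
          apply pow_le_pow_left₀ (by positivity)
          exact mul_le_mul_of_nonneg_left hup (by positivity)
  have h7 : (C ^ 2) ^ (l - 1) * (4 ^ D.card * (κ' / (s - 1))) ^ l = C2 / (s - 1) ^ l := by
    rw [hC2, ← mul_div_assoc, div_pow, mul_div_assoc]
  rw [h7, div_pow, div_le_div_iff₀ (by positivity) (by positivity)] at h6
  have h8 : κ0 ≤ C2 * (s - 1) := by
    have h9 : κ0 * (s - 1) ^ l ≤ (C2 * (s - 1)) * (s - 1) ^ l := by
      calc κ0 * (s - 1) ^ l ≤ C2 * (s - 1) ^ (2 * (l - 1)) := h6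
        _ = C2 * ((s - 1) ^ (l - 2) * (s - 1) ^ l) := by
            rw [← pow_add]; congr 2; omega
        _ ≤ C2 * ((s - 1) * (s - 1) ^ l) := by
            apply mul_le_mul_of_nonneg_left _ hC20
            apply mul_le_mul_of_nonneg_right _ (by positivity)
            calc (s - 1) ^ (l - 2) ≤ (s - 1) ^ 1 :=
                  pow_le_pow_of_le_one hd.le hd1 (by omega)
              _ = s - 1 := pow_one _
        _ = _ := by ring
    exact le_of_mul_le_mul_right h9 (by positivity)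
  have h10 : s - 1 < κ0 / (C2 + 1) := by linarith
  rw [lt_div_iff₀ (by positivity)] at h10
  nlinarith

/-- the class group is generated, modulo `l`-th powers, by the primes of norm `-1` modulo `l` -/
theorem gen_neg {l : ℕ} (hl : l.Prime) (hl2 : l ≠ 2) (K K' : Type) [Field K] [NumberField K]
    [Field K'] [NumberField K'] [Algebra K K'] (h2 : finrank K K' = 2) {z : 𝓞 K'}
    (hz : IsPrimitiveRoot z l) (hK : NC l K) {m : 𝓞 K} (hm : m ≠ 0)
    (H : Subgroup (ClassGroup (𝓞 K))) (hHl : ∀ x, x ^ l ∈ H)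
    (hH : ∀ P : Ideal (𝓞 K), P.IsPrime → P ≠ ⊥ → Ideal.absNorm P % l = l - 1 → m ∉ P → cls P ∈ H) :
    H = ⊤ := by
  classical
  refine gen_neg_aux hl hl2 K K' ?_ ?_ ?_ hm H hHl hH
  · intro v hv hv0 hlv
    exact absNorm_mod_cases hl hl2 h2 hz hv hv0 hlv
  · intro s hs hsum S hS
    exact w_bound_l hl hl2 h2 hz hK hs hsum S hS
  · intro t ht ht1 x hx0 hx1
    exact local_ineq_l hl ht ht1 hx0 hx1

end Pool.Agent.Lib.MP_695920_nt.Gl
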