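import Mathlib
import Pool.Agent.Lib.MP_695920_nt.Refl.Kummer

/-!
Unramified Kummer extensions of prime degree `l`, and the primes which split in them.
-/

set_option autoImplicit false

open Finset NumberField Module IsDedekindDomain
open scoped nonZeroDivisors Pointwise IntermediateField

namespace Pool.Agent.Lib.MP_695920_nt.Gl

open Pool.Agent.Lib.MP_695920_nt.Solv Pool.Agent.Lib.MP_695920_nt.Tow
  Pool.Agent.Lib.MP_695920_nt.Refl

/-- `l` is divisible by `(z - 1) ^ (l - 1)` -/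
lemma order_eq {R : Type*} [CommRing R] [IsDomain R] {l : ℕ} (hl : l.Prime) {z : R}
    (hz : IsPrimitiveRoot z l) : ∃ u : R, (l : R) = u * (z - 1) ^ (l - 1) := by
  obtain ⟨u, -, hu⟩ := hz.self_sub_one_pow_dvd_order (k := l - 1) (Nat.sub_lt hl.pos one_pos)
  exact ⟨u, hu⟩

lemma l_mem {R : Type*} [CommRing R] [IsDomain R] {l : ℕ} (hl : l.Prime) {z : R}
    (hz : IsPrimitiveRoot z l) {P : Ideal R} (h : z - 1 ∈ P) : (l : R) ∈ P := by
  obtain ⟨u, hu⟩ := order_eq hl hz
  rw [hu]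
  exact Ideal.mul_mem_left _ _ (Ideal.pow_mem_of_mem P h _ (Nat.sub_pos_of_lt hl.one_lt))

/-- the quotient `(θ - c) / (z - 1)` is integral if `θ ^ l` is `c ^ l` modulo `l ^ 2` -/
lemma quot_integral {R K : Type*} [CommRing R] [IsDomain R] [Field K] [Algebra R K]
    [FaithfulSMul R K] {l : ℕ} (hl : l.Prime) {z : R} (hz : IsPrimitiveRoot z l) {y θ : K}
    {c e : R} (hy : algebraMap R K (z - 1) * y = θ - algebraMap R K c)
    (hθ : θ ^ l = algebraMap R K (c ^ l + (l : R) ^ 2 * e)) : IsIntegral R y := by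
  classical
  obtain ⟨u, hu⟩ := order_eq hl hz
  set lam : R := z - 1 with hlam
  have hlam0 : lam ≠ 0 := by
    rw [hlam, sub_ne_zero]
    exact hz.ne_one hl.one_lt
  set f := algebraMap R K with hf
  have hfinj : Function.Injective f := FaithfulSMul.algebraMap_injective R K
  have hflam0 : f lam ≠ 0 := by
    intro h0
    exact hlam0 (hfinj (by rw [h0, map_zero]))
  have hl2 : 2 ≤ l := hl.two_le
  -- the binomial coefficients
  have hb : ∀ k : ℕ, ∃ b : ℕ, (1 ≤ k → k < l → l.choose k = l * b) := by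
    intro k
    by_cases hk : 1 ≤ k ∧ k < l
    · obtain ⟨b, hb⟩ := hl.dvd_choose_self (by omega) hk.2
      exact ⟨b, fun _ _ => hb⟩
    · exact ⟨0, fun h1 h2 => absurd ⟨h1, h2⟩ hk⟩
  choose b hb using hb
  -- coefficients
  set a : Fin l → R := fun i => if (i : ℕ) = 0 then -(lam ^ (l - 2) * u ^ 2 * e) else
    lam ^ ((i : ℕ) - 1) * u * (b i : R) * c ^ (l - (i : ℕ)) with ha
  have hpoly : y ^ l + ∑ i : Fin l, f (a i) * y ^ (i : ℕ) = 0 := by
    have hθ' : θ = f lam * y + f c := by rw [hy]; ring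
    have h1 : (f lam * y + f c) ^ l = f c ^ l + (l : K) ^ 2 * f e := by
      rw [← hθ', hθ, map_add, map_pow, map_mul, map_pow, map_natCast]
    rw [add_pow] at h1
    rw [Finset.sum_range_succ, Nat.choose_self, Nat.sub_self, pow_zero, mul_one, Nat.cast_one,
      mul_one] at h1
    obtain ⟨n, rfl⟩ : ∃ n, l = n + 1 := ⟨l - 1, by omega⟩
    rw [Finset.sum_range_succ'] at h1
    simp only [pow_zero, one_mul, Nat.sub_zero, Nat.choose_zero_right, Nat.cast_one, mul_one] at h1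
    have hlK : ((n + 1 : ℕ) : K) = f u * f lam ^ n := by
      rw [← map_natCast f, hu, map_mul, map_pow, Nat.add_sub_cancel]
    have e5 : f lam ^ (n + 1) ≠ 0 := pow_ne_zero _ hflam0
    apply mul_left_cancel₀ e5
    rw [mul_zero, Fin.sum_univ_succ]
    have h2 : ∀ i ∈ Finset.range n, (f lam * y) ^ (i + 1) * f c ^ (n + 1 - (i + 1)) *
        ((n + 1).choose (i + 1) : K) =
        f lam ^ (n + 1) * (f (lam ^ i * u * (b (i + 1) : R) * c ^ (n + 1 - (i + 1))) *
          y ^ (i + 1)) := by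
      intro i hi
      rw [Finset.mem_range] at hi
      rw [hb (i + 1) (by omega) (by omega), Nat.cast_mul, hlK]
      simp only [map_mul, map_pow, map_natCast]
      ring
    rw [Finset.sum_congr rfl h2, ← Finset.mul_sum] at h1
    have h3 : (∑ i : Fin n, f (a i.succ) * y ^ ((i.succ : Fin (n + 1)) : ℕ)) =
        ∑ i ∈ Finset.range n, (f (lam ^ i * u * (b (i + 1) : R) * c ^ (n + 1 - (i + 1))) *
          y ^ (i + 1)) := by
      rw [Finset.sum_range]
      apply Finset.sum_congr rfl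
      intro i _
      simp only [ha, Fin.val_succ, Nat.succ_ne_zero, if_false, Nat.add_sub_cancel]
    rw [h3]
    have h4 : a 0 = -(lam ^ (n + 1 - 2) * u ^ 2 * e) := by
      simp only [ha, Fin.val_zero, if_true]
    rw [h4]
    have h5 : ((n + 1 : ℕ) : K) ^ 2 = f lam ^ (n + 1) * (f lam ^ (n + 1 - 2) * f u ^ 2) := by
      rw [hlK]
      have : n + (n : ℕ) = (n + 1) + (n + 1 - 2) := by omega
      calc (f u * f lam ^ n) ^ 2 = f lam ^ (n + n) * f u ^ 2 := by ring
        _ = _ := by rw [this, pow_add]; ring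
    rw [h5] at h1
    simp only [map_neg, map_mul, map_pow, Fin.val_zero, pow_zero, mul_one] at h1 ⊢
    linear_combination h1
  refine ⟨Polynomial.X ^ l + ∑ i : Fin l, Polynomial.C (a i) * Polynomial.X ^ (i : ℕ), ?_, ?_⟩
  · exact Polynomial.monic_X_pow_add (Polynomial.degree_sum_fin_lt a)
  · rw [Polynomial.eval₂_add, Polynomial.eval₂_pow, Polynomial.eval₂_X,
      Polynomial.eval₂_finsetSum]
    simp only [Polynomial.eval₂_mul, Polynomial.eval₂_pow, Polynomial.eval₂_X, Polynomial.eval₂_C]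
    exact hpoly

theorem kummer_unram_l {l : ℕ} (hl : l.Prime) {E L : Type} [Field E] [NumberField E] [Field L]
    [NumberField L] [Algebra E L] [IsGalois E L] (hfin : finrank E L = l) {σ : Gal(L/E)}
    {z γ c0 : 𝓞 E} {θ : 𝓞 L}
    (hz : IsPrimitiveRoot z l) (hγ : γ ≠ 0) (hθ : θ ^ l = algebraMap (𝓞 E) (𝓞 L) γ)
    (hσ : σ • θ = algebraMap (𝓞 E) (𝓞 L) z * θ) {b : Ideal (𝓞 E)}
    (hb : Ideal.span {γ} = b ^ l)
    (hγl : ∀ Q : Ideal (𝓞 E), Q.IsPrime → (l : 𝓞 E) ∈ Q → γ ∉ Q)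
    (hc : γ - c0 ^ l ∈ Ideal.span {((l : 𝓞 E)) ^ 2}) :
    ∀ P : Ideal (𝓞 L), P.IsPrime → P ≠ ⊥ →
      ¬ P ^ 2 ∣ (P.under (𝓞 E)).map (algebraMap (𝓞 E) (𝓞 L)) := by
  intro P hP hP0 hram
  have hl0 : l ≠ 0 := hl.ne_zero
  have hin := ram_inertia (by rw [hfin]; exact hl) hP hP0 hram σ
  set ι := algebraMap (𝓞 E) (𝓞 L) with hι
  have hιinj : Function.Injective ι := FaithfulSMul.algebraMap_injective (𝓞 E) (𝓞 L)
  have hz' : IsPrimitiveRoot (ι z) l := hz.map_of_injective hιinj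
  have hunder : ∀ x : 𝓞 E, ι x ∈ P → x ∈ P.under (𝓞 E) := fun x hx => by
    rw [Ideal.under, Ideal.mem_comap]; exact hx
  have hθP : ι γ ∉ P → θ ∉ P := by
    intro h1 h2
    apply h1
    rw [← hθ]
    exact Ideal.pow_mem_of_mem P h2 l hl.pos
  by_cases hPl : (l : 𝓞 L) ∈ P
  · -- primes above l
    obtain ⟨e, he⟩ := Ideal.mem_span_singleton.mp hc
    set lam : 𝓞 L := ι z - 1 with hlam
    have hlam0 : lam ≠ 0 := by
      rw [hlam, sub_ne_zero]
      exact hz'.ne_one hl.one_lt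
    have hlamL : (lam : L) ≠ 0 := by simpa using hlam0
    obtain ⟨y, hyl⟩ : ∃ y : L, (lam : L) * y = (θ : L) - (ι c0 : L) :=
      ⟨((θ : L) - (ι c0 : L)) / (lam : L), by field_simp⟩
    have hyint : IsIntegral (𝓞 L) y := by
      refine quot_integral (R := 𝓞 L) (K := L) hl hz' (θ := (θ : L)) (c := ι c0) (e := ι e) hyl ?_
      have h1 : θ ^ l = (ι c0) ^ l + (l : 𝓞 L) ^ 2 * ι e := by
        rw [hθ]
        have h2 : γ = c0 ^ l + (l : 𝓞 E) ^ 2 * e := by linear_combination he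
        rw [h2, map_add, map_pow, map_mul, map_pow, map_natCast]
      exact congrArg (algebraMap (𝓞 L) L) h1
    obtain ⟨y', rfl⟩ : ∃ y' : 𝓞 L, (y' : L) = y :=
      IsIntegrallyClosed.isIntegral_iff.mp hyint
    have hyl' : lam * y' = θ - ι c0 := by
      apply FaithfulSMul.algebraMap_injective (𝓞 L) L
      rw [map_mul, hyl, map_sub]
    -- `σ y - y = θ`
    have h5 := hin y'
    have h6 : σ • y' - y' = θ := by
      apply mul_left_cancel₀ hlam0
      have h7 := congrArg (fun z : 𝓞 L => σ • z) hyl'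
      have h9 : σ • lam = lam := by
        rw [hlam, smul_sub, hι, smul_alg, smul_one]
      simp only [smul_mul', smul_sub] at h7
      rw [h9, hι, smul_alg, hσ, ← hι] at h7
      rw [mul_sub, h7, hyl', hlam]
      ring
    rw [h6] at h5
    have hγP : ι γ ∉ P := by
      intro h7
      refine hγl (P.under (𝓞 E)) inferInstance (hunder l ?_) (hunder γ h7)
      rw [map_natCast]
      exact hPl
    exact hθP hγP h5
  · -- primes not above l
    have hb0 : b ≠ ⊥ := by
      rintro rfl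
      rw [← Ideal.zero_eq_bot, zero_pow hl0, Ideal.zero_eq_bot,
        Ideal.span_singleton_eq_bot] at hb
      exact hγ hb
    obtain ⟨a, m, c, ha, hm, hcq, hac⟩ := exists_rep_not_le hb0
      (inferInstance : (P.under (𝓞 E)).IsPrime)
    have h4 : Ideal.span {a ^ l * γ} = Ideal.span {m ^ l} * c ^ l := by
      rw [← Ideal.span_singleton_mul_span_singleton, ← Ideal.span_singleton_pow,
        ← Ideal.span_singleton_pow, hb, ← mul_pow, hac, mul_pow]
    have h5 : m ^ l ∣ a ^ l * γ := by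
      rw [← Ideal.mem_span_singleton]
      have : a ^ l * γ ∈ Ideal.span {a ^ l * γ} := Ideal.mem_span_singleton_self _
      rw [h4] at this
      exact (Ideal.mul_le_left : Ideal.span {m ^ l} * c ^ l ≤ Ideal.span {m ^ l}) this
    obtain ⟨g, hg⟩ := h5
    have hm3 : m ^ l ≠ 0 := pow_ne_zero _ hm
    have h6 : Ideal.span {g} = c ^ l := by
      rw [hg, ← Ideal.span_singleton_mul_span_singleton] at h4
      exact mul_left_cancel₀ (by simpa using hm3) h4
    have hgP : ι g ∉ P := by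
      intro h7
      have h8 : c ^ l ≤ P.under (𝓞 E) := by
        rw [← h6, Ideal.span_singleton_le_iff_mem]
        exact hunder g h7
      exact hcq ((Ideal.IsPrime.pow_le_iff hl0).mp h8)
    have h7 : (ι m) ^ l ∣ (ι a * θ) ^ l := by
      refine ⟨ι g, ?_⟩
      rw [mul_pow, hθ, ← map_pow, ← map_mul, hg, map_mul, map_pow]
    rw [IsIntegrallyClosed.pow_dvd_pow_iff hl0] at h7
    obtain ⟨x, hx⟩ := h7
    have hιm : ι m ≠ 0 := by
      intro h0
      exact hm (hιinj (by rw [h0, map_zero]))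
    have hx3 : x ^ l = ι g := by
      apply mul_left_cancel₀ (pow_ne_zero l hιm)
      rw [← mul_pow, ← hx, mul_pow, hθ, ← map_pow, ← map_pow, ← map_mul, hg, map_mul]
    have hxP : x ∉ P := by
      intro h8
      apply hgP
      rw [← hx3]
      exact Ideal.pow_mem_of_mem P h8 l hl.pos
    have hσx : σ • x = ι z * x := by
      apply mul_left_cancel₀ hιm
      have h8 := congrArg (fun z : 𝓞 L => σ • z) hx
      simp only [smul_mul'] at h8
      rw [hι, smul_alg, smul_alg, hσ, ← hι] at h8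
      rw [← h8, mul_left_comm, hx, mul_left_comm]
    have h8 := hin x
    rw [hσx] at h8
    have h9 : (ι z - 1) * x ∈ P := by
      rw [sub_mul, one_mul]; exact h8
    rcases hP.mem_or_mem h9 with h10 | h10
    · exact hPl (l_mem hl hz' h10)
    · exact hxP h10

theorem kummer_split_l {l : ℕ} (hl : l.Prime) {E L : Type} [Field E] [NumberField E] [Field L]
    [NumberField L] [Algebra E L] [IsGalois E L] (hfin : finrank E L = l) {σ : Gal(L/E)}
    {z γ : 𝓞 E} {θ : 𝓞 L}
    (hz : IsPrimitiveRoot z l) (hθ : θ ^ l = algebraMap (𝓞 E) (𝓞 L) γ)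
    (hσ : σ • θ = algebraMap (𝓞 E) (𝓞 L) z * θ) {q : Ideal (𝓞 E)} (hq : q.IsPrime) (hq0 : q ≠ ⊥)
    (hlq : (l : 𝓞 E) ∉ q) (hγq : γ ∉ q) {y : 𝓞 E} (hy : γ - y ^ l ∈ q) :
    ∃ P : Ideal (𝓞 L), P ≠ ⊥ ∧ Ideal.relNorm (𝓞 E) P = q := by
  obtain ⟨P, hP, hP0, hPq⟩ := exists_over (L := L) hq hq0
  set ι := algebraMap (𝓞 E) (𝓞 L) with hι
  have hιinj : Function.Injective ι := FaithfulSMul.algebraMap_injective (𝓞 E) (𝓞 L)
  have hz' : IsPrimitiveRoot (ι z) l := hz.map_of_injective hιinj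
  have hunder : ∀ x : 𝓞 E, ι x ∈ P ↔ x ∈ q := fun x => by
    rw [← hPq, Ideal.under, Ideal.mem_comap]
  have hlP : (l : 𝓞 L) ∉ P := by
    rw [← map_natCast ι l, hunder]
    exact hlq
  have hθP : θ ∉ P := by
    intro h
    apply hγq
    rw [← hunder, ← hθ]
    exact Ideal.pow_mem_of_mem P h l hl.pos
  refine ⟨P, hP0, ?_⟩
  rw [← hPq]
  apply relNorm_of_moved (by rw [hfin]; exact hl) hP hP0 (σ := σ)
  intro hσP
  have hstab : ∀ x ∈ P, σ • x ∈ P := by
    intro x hx
    have := Ideal.smul_mem_pointwise_smul σ x P hx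
    rwa [hσP] at this
  have key : ∀ w : 𝓞 E, θ - ι w ∈ P → False := by
    intro w hw
    have h1 := hstab _ hw
    rw [smul_sub, hι, smul_alg, hσ, ← hι] at h1
    have h2 : (ι z - 1) * θ ∈ P := by
      have := Ideal.sub_mem P h1 hw
      have e : ι z * θ - ι w - (θ - ι w) = (ι z - 1) * θ := by ring
      rwa [e] at this
    rcases hP.mem_or_mem h2 with h4 | h4
    · exact hlP (l_mem hl hz' h4)
    · exact hθP h4
  have h5 : ∏ ζ ∈ Polynomial.nthRootsFinset l (1 : 𝓞 L), (θ - ζ * ι y) ∈ P := by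
    rw [← hz'.pow_sub_pow_eq_prod_sub_mul θ (ι y) hl.pos, hθ, ← map_pow, ← map_sub, hunder]
    exact hy
  obtain ⟨ζ, hζ, h6⟩ := Ideal.IsPrime.prod_mem_iff.mp h5
  rw [Polynomial.mem_nthRootsFinset hl.pos] at hζ
  haveI : NeZero l := ⟨hl.ne_zero⟩
  obtain ⟨i, -, rfl⟩ := hz'.eq_pow_of_pow_eq_one hζ
  refine key (z ^ i * y) ?_
  rw [map_mul, map_pow]
  exact h6

end Pool.Agent.Lib.MP_695920_nt.Gl
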