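import Mathlib
import Pool.Agent.Lib.MP_695920_nt.Gl.Defs
import Pool.Agent.Lib.MP_695920_nt.Refl.Kummer

/-!
The Kummer extension of an element which is not an `l`-th power.
-/

set_option autoImplicit false

open Finset NumberField Module IsDedekindDomain
open scoped nonZeroDivisors Pointwise

namespace Pool.Agent.Lib.MP_695920_nt.Gl

open Pool.Agent.Lib.MP_695920_nt.Solv Pool.Agent.Lib.MP_695920_nt.Tow
  Pool.Agent.Lib.MP_695920_nt.Refl

open Polynomial in
/-- the Kummer extension of an element which is not an `l`-th power -/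
theorem kummer_exists_l {l : ℕ} (hl : l.Prime) (hl2 : l ≠ 2) (E : Type) [Field E] [NumberField E]
    {z γ : 𝓞 E} (hz : IsPrimitiveRoot z l) (hγ : ∀ b : E, b ^ l ≠ (γ : E)) :
    ∃ (L : Type) (_ : Field L) (_ : NumberField L) (_ : Algebra E L) (_ : IsGalois E L)
      (σ : Gal(L/E)) (θ : 𝓞 L), finrank E L = l ∧ θ ^ l = algebraMap (𝓞 E) (𝓞 L) γ ∧
      σ • θ = algebraMap (𝓞 E) (𝓞 L) z * θ ∧ σ ≠ 1 := by
  classical
  have hNZ : NeZero l := ⟨hl.ne_zero⟩
  have hprim : IsPrimitiveRoot (z : E) l :=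
    hz.map_of_injective (f := algebraMap (𝓞 E) E) (FaithfulSMul.algebraMap_injective (𝓞 E) E)
  have hz1 : (z : E) ≠ 1 := hprim.ne_one hl.one_lt
  have hne : (primitiveRoots l E).Nonempty :=
    ⟨(z : E), (mem_primitiveRoots hl.pos).mpr hprim⟩
  have hirr : Irreducible (X ^ l - C (γ : E)) := by
    apply X_pow_sub_C_irreducible_of_odd (hl.odd_of_ne_two hl2)
    intro p hp hpl b
    have : p = l := (Nat.prime_dvd_prime_iff_eq hp hl).mp hpl
    rw [this]
    exact hγ b
  let L := (X ^ l - C (γ : E)).SplittingField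
  have hgal : IsGalois E L := isGalois_of_isSplittingField_X_pow_sub_C hne hirr L
  have hfr : finrank E L = l := finrank_of_isSplittingField_X_pow_sub_C hne hirr L
  have hchar : CharZero L := charZero_of_injective_algebraMap (algebraMap E L).injective
  have hfd : FiniteDimensional E L := Module.finite_of_finrank_pos (by rw [hfr]; exact hl.pos)
  have hnf : NumberField L := by
    refine { to_charZero := hchar, to_finiteDimensional := ?_ }
    exact Module.Finite.trans E L
  have hθ0 := rootOfSplitsXPowSubC_pow (n := l) (γ : E) L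
  set θ0 : L := rootOfSplitsXPowSubC (NeZero.pos l) (γ : E) L with hθ0def
  set σ : Gal(L/E) := (autEquivZmod hirr L hprim).symm (Multiplicative.ofAdd ((1 : ℕ) : ZMod l)) with hσdef
  have hσθ : σ θ0 = (z : E) ^ 1 • θ0 := autEquivZmod_symm_apply_natCast hirr L hθ0 hprim 1
  rw [pow_one, Algebra.smul_def] at hσθ
  have hint : IsIntegral (𝓞 E) θ0 := by
    refine ⟨X ^ l - C γ, monic_X_pow_sub_C γ hl.ne_zero, ?_⟩
    simp only [eval₂_sub, eval₂_pow, eval₂_X, eval₂_C]
    rw [hθ0, IsScalarTower.algebraMap_apply (𝓞 E) E L]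
    simp
  have hint2 : IsIntegral ℤ θ0 := isIntegral_trans (R := ℤ) (A := 𝓞 E) θ0 hint
  let θ : 𝓞 L := ⟨θ0, hint2⟩
  have hθc : ((θ : 𝓞 L) : L) = θ0 := rfl
  refine ⟨L, inferInstance, hnf, inferInstance, hgal, σ, θ, hfr, ?_, ?_, ?_⟩
  · apply FaithfulSMul.algebraMap_injective (𝓞 L) L
    rw [map_pow]
    change θ0 ^ l = _
    rw [hθ0]
    rfl
  · apply FaithfulSMul.algebraMap_injective (𝓞 L) L
    rw [map_mul]
    change σ θ0 = algebraMap E L (z : E) * θ0
    exact hσθ
  · intro h1
    rw [h1] at hσθ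
    have hθne : θ0 ≠ 0 := by
      intro h0
      rw [h0, zero_pow hl.ne_zero] at hθ0
      have : (γ : E) = 0 := (algebraMap E L).injective (by rw [← hθ0, map_zero])
      exact hγ 0 (by rw [this, zero_pow hl.ne_zero])
    have h2 : algebraMap E L (z : E) = 1 := by
      have h3 : (1 : L) * θ0 = algebraMap E L (z : E) * θ0 := by
        rw [one_mul]; exact hσθ
      exact (mul_right_cancel₀ hθne h3).symm
    exact hz1 ((algebraMap E L).injective (by rw [h2, map_one]))

end Pool.Agent.Lib.MP_695920_nt.Gl
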