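import Mathlib
import Pool.Agent.Lib.MP_695920_nt.Refl.Herb
import Pool.Agent.Lib.MP_695920_nt.Gl.Defs

/-!
The Herbrand quotient of a finitely generated abelian group with an automorphism of prime order.
-/

set_option autoImplicit false

open Finset Module

namespace Pool.Agent.Lib.MP_695920_nt.Gl

open Pool.Agent.Lib.MP_695920_nt.Refl

/-- the property: `[X : l X] = l ^ rank X * |X[l]|` -/
def g1_P (l : ℕ) (X : Type*) [AddCommGroup X] : Prop :=
  (nsmulAddMonoidHom (α := X) l).range.index =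
    l ^ finrank ℤ X * Nat.card (nsmulAddMonoidHom (α := X) l).ker ∧
  Nat.card (nsmulAddMonoidHom (α := X) l).ker ≠ 0

theorem g1_P_congr {l : ℕ} {X Y : Type*} [AddCommGroup X] [AddCommGroup Y] (e : X ≃+ Y)
    (h : g1_P l Y) : g1_P l X := by
  have h1 : (nsmulAddMonoidHom (α := X) l).range =
      AddSubgroup.comap (e : X →+ Y) (nsmulAddMonoidHom (α := Y) l).range := by
    ext x
    simp only [AddMonoidHom.mem_range, AddSubgroup.mem_comap, nsmulAddMonoidHom_apply]
    constructor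
    · rintro ⟨y, rfl⟩
      exact ⟨e y, by simp⟩
    · rintro ⟨y, hy⟩
      refine ⟨e.symm y, e.injective ?_⟩
      simpa using hy
  have h2 : Nat.card (nsmulAddMonoidHom (α := X) l).ker =
      Nat.card (nsmulAddMonoidHom (α := Y) l).ker := by
    refine Nat.card_congr (e.toEquiv.subtypeEquiv fun x => ?_)
    simp only [AddMonoidHom.mem_ker, nsmulAddMonoidHom_apply]
    constructor
    · intro hx
      have := congrArg e hx
      simpa using this
    · intro hx
      apply e.injective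
      simpa using hx
  have h3 : finrank ℤ X = finrank ℤ Y := e.toIntLinearEquiv.finrank_eq
  unfold g1_P
  rw [h1, AddSubgroup.index_comap_of_surjective _ (f := (e : X →+ Y)) e.surjective, h2, h3]
  exact h

theorem g1_P_prod {l : ℕ} (hl : l ≠ 0) {X T : Type*} [AddCommGroup X] [Free ℤ X]
    [Module.Finite ℤ X] [AddCommGroup T] [Finite T] : g1_P l (X × T) := by
  have h1 : (nsmulAddMonoidHom (α := X × T) l).range =
      (nsmulAddMonoidHom (α := X) l).range.prod (nsmulAddMonoidHom (α := T) l).range := by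
    ext ⟨x, t⟩
    simp only [AddMonoidHom.mem_range, AddSubgroup.mem_prod, nsmulAddMonoidHom_apply]
    constructor
    · rintro ⟨⟨y, s⟩, h⟩
      rw [Prod.smul_mk, Prod.mk.injEq] at h
      exact ⟨⟨y, h.1⟩, ⟨s, h.2⟩⟩
    · rintro ⟨⟨y, hy⟩, ⟨s, hs⟩⟩
      exact ⟨(y, s), by rw [Prod.smul_mk, hy, hs]⟩
  have h2 : Nat.card (nsmulAddMonoidHom (α := X × T) l).ker =
      Nat.card (nsmulAddMonoidHom (α := T) l).ker := by
    refine Nat.card_congr ⟨fun z => ⟨z.1.2, ?_⟩, fun z => ⟨(0, z.1), ?_⟩, ?_, ?_⟩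
    · have := z.2
      rw [AddMonoidHom.mem_ker, nsmulAddMonoidHom_apply] at this ⊢
      exact congrArg Prod.snd this
    · have := z.2
      rw [AddMonoidHom.mem_ker, nsmulAddMonoidHom_apply] at this ⊢
      rw [Prod.smul_mk, this, smul_zero]
      rfl
    · rintro ⟨⟨x, t⟩, hz⟩
      rw [AddMonoidHom.mem_ker, nsmulAddMonoidHom_apply] at hz
      have hx : l • x = 0 := congrArg Prod.fst hz
      have hx0 : x = 0 := by
        have := AddSubgroup.nsmulAddMonoidHom_injective_of_isTorsionFree (M := X)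
          (n := l) hl
        apply this
        simpa using hx
      simp [hx0]
    · rintro ⟨t, ht⟩
      rfl
  have h3 : (nsmulAddMonoidHom (α := T) l).range.index =
      Nat.card (nsmulAddMonoidHom (α := T) l).ker := by
    have e1 := AddSubgroup.card_mul_index (nsmulAddMonoidHom (α := T) l).ker
    have e2 := AddSubgroup.card_mul_index (nsmulAddMonoidHom (α := T) l).range
    rw [AddSubgroup.index_ker, ← e2, mul_comm] at e1
    exact (Nat.eq_of_mul_eq_mul_left Nat.card_pos e1).symm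
  have h4 : finrank ℤ (X × T) = finrank ℤ X := by
    have e1 : (LinearMap.fst ℤ X T).ker ≤ Submodule.torsion ℤ (X × T) := by
      rintro ⟨x, t⟩ hz
      rw [LinearMap.mem_ker, LinearMap.fst_apply] at hz
      rw [Submodule.mem_torsion_iff]
      have hc : ((Nat.card T : ℕ) : ℤ) ≠ 0 := by exact_mod_cast Nat.card_pos.ne'
      refine ⟨⟨(Nat.card T : ℤ), mem_nonZeroDivisors_of_ne_zero hc⟩, ?_⟩
      have h5 : Nat.card T • t = 0 := card_nsmul_eq_zero'
      change (Nat.card T : ℤ) • ((x, t) : X × T) = 0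
      have h6 : x = 0 := hz
      rw [Prod.smul_mk, natCast_zsmul, natCast_zsmul, h5, h6, smul_zero]
      rfl
    have e2 := finrank_quotient_eq_of_le_torsion e1
    rw [← e2]
    exact (LinearMap.quotKerEquivOfSurjective (LinearMap.fst ℤ X T)
      LinearMap.fst_surjective).finrank_eq
  unfold g1_P
  rw [h1, h2, AddSubgroup.index_prod, h3, AddSubgroup.index_range_nsmul, h4]
  exact ⟨rfl, Nat.card_pos.ne'⟩

theorem g1_P_of_fg {l : ℕ} (hl : l ≠ 0) (X : Type*) [AddCommGroup X] [Module.Finite ℤ X] :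
    g1_P l X := by
  have : AddGroup.FG X := Module.Finite.iff_addGroup_fg.1 inferInstance
  obtain ⟨n, ι, _, p, hp, e, ⟨E⟩⟩ := AddCommGroup.equiv_free_prod_directSum_zmod X
  classical
  have h1 : ∀ i, NeZero (p i ^ e i) := fun i => ⟨pow_ne_zero _ (hp i).ne_zero⟩
  have h2 : Finite (DirectSum ι fun i => ZMod (p i ^ e i)) :=
    Finite.of_equiv _ (DirectSum.addEquivProd (fun i => ZMod (p i ^ e i))).symm.toEquiv
  exact g1_P_congr E (g1_P_prod hl)

/-- multiplicativity of the index for a composition -/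
theorem g1_comp {X : Type*} [AddCommGroup X] (φ ψ : X →+ X) :
    (φ.comp ψ).range.index * (Nat.card φ.ker * Nat.card ψ.ker) =
      Nat.card (φ.comp ψ).ker * (φ.range.index * ψ.range.index) ∧
    (Nat.card (φ.comp ψ).ker ≠ 0 → Nat.card ψ.ker ≠ 0) ∧
    (Nat.card φ.ker ≠ 0 → Nat.card ψ.ker ≠ 0 → Nat.card (φ.comp ψ).ker ≠ 0) := by
  have e1 : ψ.range.relIndex φ.ker * (ψ.range ⊔ φ.ker).index = ψ.range.index := by
    rw [← AddSubgroup.relIndex_mul_index (le_sup_left : ψ.range ≤ ψ.range ⊔ φ.ker),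
      AddSubgroup.relIndex_sup_left]
  have e2 : (ψ.range ⊔ φ.ker).index * φ.range.index = (φ.comp ψ).range.index := by
    have h1 : (φ.comp ψ).range ≤ φ.range := by
      rintro _ ⟨x, rfl⟩
      exact ⟨ψ x, rfl⟩
    have h2 := AddSubgroup.relIndex_map_map φ ψ.range ⊤
    rw [top_sup_eq, AddSubgroup.relIndex_top_right] at h2
    rw [← AddSubgroup.relIndex_mul_index h1, ← h2]
    congr 2
    · ext x
      simp only [AddMonoidHom.mem_range, AddSubgroup.mem_map, AddMonoidHom.comp_apply]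
      constructor
      · rintro ⟨y, ⟨z, rfl⟩, rfl⟩
        exact ⟨z, rfl⟩
      · rintro ⟨z, rfl⟩
        exact ⟨ψ z, ⟨z, rfl⟩, rfl⟩
    · exact (AddMonoidHom.range_eq_map φ).symm
  have e3 : Nat.card ψ.ker * Nat.card (ψ.range ⊓ φ.ker : AddSubgroup X) =
      Nat.card (φ.comp ψ).ker := by
    have h1 : ψ.ker ≤ (φ.comp ψ).ker := by
      intro x hx
      rw [AddMonoidHom.mem_ker] at hx ⊢
      rw [AddMonoidHom.comp_apply, hx, map_zero]
    have h2 : (φ.comp ψ).ker = AddSubgroup.comap ψ φ.ker := by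
      ext x
      rfl
    have h3 := AddSubgroup.relIndex_mul_relIndex ⊥ ψ.ker (φ.comp ψ).ker bot_le h1
    rw [AddSubgroup.relIndex_bot_left, AddSubgroup.relIndex_bot_left, AddSubgroup.relIndex_ker]
      at h3
    rw [← h3]
    congr 2
    rw [h2, AddSubgroup.map_comap_eq]
  have e4 : Nat.card (ψ.range ⊓ φ.ker : AddSubgroup X) * ψ.range.relIndex φ.ker =
      Nat.card φ.ker := by
    have h3 := AddSubgroup.relIndex_mul_relIndex ⊥ (ψ.range ⊓ φ.ker) φ.ker bot_le inf_le_right
    rw [AddSubgroup.relIndex_bot_left, AddSubgroup.relIndex_bot_left,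
      AddSubgroup.inf_relIndex_right] at h3
    exact h3
  refine ⟨?_, ?_, ?_⟩
  · rw [← e2, ← e3, ← e4, ← e1]
    ring
  · intro h h0
    apply h
    rw [← e3, h0, zero_mul]
  · intro h1 h2 h3
    rw [← e3] at h3
    rcases mul_eq_zero.1 h3 with h | h
    · exact h2 h
    · apply h1
      rw [← e4, h, zero_mul]

/-- the iterates of a map -/
def g1_it {X : Type*} [AddCommGroup X] (φ : X →+ X) : ℕ → (X →+ X)
  | 0 => AddMonoidHom.id X
  | n + 1 => φ.comp (g1_it φ n)

theorem g1_it_ker {X : Type*} [AddCommGroup X] (φ : X →+ X) (h : Nat.card φ.ker ≠ 0) (n : ℕ) :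
    Nat.card (g1_it φ n).ker ≠ 0 := by
  induction n with
  | zero =>
    have : (g1_it φ 0).ker = ⊥ := by
      ext x
      rw [AddMonoidHom.mem_ker, AddSubgroup.mem_bot]
      rfl
    rw [this]
    simp
  | succ n ih => exact (g1_comp φ (g1_it φ n)).2.2 h ih

theorem g1_it_pow {X : Type*} [AddCommGroup X] (φ : X →+ X) (h : Nat.card φ.ker ≠ 0) (n : ℕ) :
    (g1_it φ n).range.index * (Nat.card φ.ker) ^ n =
      Nat.card (g1_it φ n).ker * φ.range.index ^ n := by
  induction n with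
  | zero =>
    have h1 : (g1_it φ 0).ker = ⊥ := by
      ext x
      rw [AddMonoidHom.mem_ker, AddSubgroup.mem_bot]
      rfl
    have h2 : (g1_it φ 0).range = ⊤ := by
      ext x
      rw [AddMonoidHom.mem_range]
      exact ⟨fun _ => AddSubgroup.mem_top x, fun _ => ⟨x, rfl⟩⟩
    rw [h1, h2]
    simp
  | succ n ih =>
    have h1 := (g1_comp φ (g1_it φ n)).1
    apply Nat.eq_of_mul_eq_mul_left (Nat.pos_of_ne_zero (g1_it_ker φ h n))
    calc Nat.card (g1_it φ n).ker * ((g1_it φ (n + 1)).range.index * Nat.card φ.ker ^ (n + 1))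
        = ((φ.comp (g1_it φ n)).range.index * (Nat.card φ.ker * Nat.card (g1_it φ n).ker)) *
          Nat.card φ.ker ^ n := by
          rw [show g1_it φ (n + 1) = φ.comp (g1_it φ n) from rfl]
          ring
      _ = Nat.card (φ.comp (g1_it φ n)).ker * φ.range.index *
          ((g1_it φ n).range.index * Nat.card φ.ker ^ n) := by
          rw [h1]
          ring
      _ = Nat.card (g1_it φ n).ker *
          (Nat.card (g1_it φ (n + 1)).ker * φ.range.index ^ (n + 1)) := by
          rw [ih, show g1_it φ (n + 1) = φ.comp (g1_it φ n) from rfl]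
          ring

theorem g1_it_ker_one {X : Type*} [AddCommGroup X] (φ : X →+ X) (n : ℕ)
    (h : Nat.card (g1_it φ (n + 1)).ker ≠ 0) : Nat.card φ.ker ≠ 0 := by
  have hcomm : ∀ m, ∀ x, g1_it φ (m + 1) x = g1_it φ m (φ x) := by
    intro m
    induction m with
    | zero => intro x; rfl
    | succ m ih =>
      intro x
      change φ (g1_it φ (m + 1) x) = φ (g1_it φ m (φ x))
      rw [ih]
  have h1 : φ.ker ≤ (g1_it φ (n + 1)).ker := by
    intro x hx
    rw [AddMonoidHom.mem_ker] at hx ⊢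
    rw [hcomm, hx, map_zero]
  have h2 : Finite (g1_it φ (n + 1)).ker := Nat.finite_of_card_ne_zero h
  have h3 : Finite φ.ker := Finite.of_injective _ (AddSubgroup.inclusion_injective h1)
  exact Nat.card_pos.ne'

open Polynomial in
theorem g1_poly {l : ℕ} (hl : l.Prime) : ∃ A B C : ℤ[X],
    (X - 1) ^ (l - 1) = (l : ℤ[X]) * A + ∑ i ∈ range l, X ^ i ∧
    (l : ℤ[X]) = (X - 1) ^ (l - 1) * B + (∑ i ∈ range l, X ^ i) * C := by
  have hF : Fact l.Prime := ⟨hl⟩
  have hcyc : cyclotomic l ℤ = ∑ i ∈ range l, X ^ i := cyclotomic_prime ℤ l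
  have hA : ∃ A : ℤ[X], (X - 1) ^ (l - 1) - cyclotomic l ℤ = C (l : ℤ) * A := by
    have h1 : ((X - 1) ^ (l - 1) - cyclotomic l ℤ).map (Int.castRingHom (ZMod l)) = 0 := by
      rw [Polynomial.map_sub, Polynomial.map_pow, Polynomial.map_sub, Polynomial.map_X,
        Polynomial.map_one, map_cyclotomic_int]
      have h2 := cyclotomic_mul_prime_eq_pow_of_not_dvd (ZMod l) (p := l) (n := 1)
        (fun h => hl.one_lt.ne' (Nat.dvd_one.1 h))
      rw [one_mul, cyclotomic_one] at h2
      rw [h2, sub_self]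
    have h3 : C (l : ℤ) ∣ (X - 1) ^ (l - 1) - cyclotomic l ℤ := by
      rw [C_dvd_iff_dvd_coeff]
      intro i
      have h4 := congrArg (fun p => p.coeff i) h1
      simp only [coeff_map, coeff_zero, eq_intCast] at h4
      exact (ZMod.intCast_zmod_eq_zero_iff_dvd _ _).1 h4
    exact h3
  obtain ⟨A, hA⟩ := hA
  have hμ := Complex.isPrimitiveRoot_exp l hl.ne_zero
  set μ := Complex.exp (2 * Real.pi * Complex.I / l)
  obtain ⟨z, hz, hlz⟩ := hμ.self_sub_one_pow_dvd_order (k := l - 1)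
    (Nat.sub_lt hl.pos Nat.one_pos)
  rw [Algebra.adjoin_singleton_eq_range_aeval] at hz
  obtain ⟨B, hB⟩ := hz
  have h5 : aeval μ ((l : ℤ[X]) - (X - 1) ^ (l - 1) * B) = 0 := by
    rw [map_sub, map_mul, map_pow, map_sub, aeval_X, map_one, map_natCast, hlz]
    have hB' : aeval μ B = z := hB
    rw [hB']
    ring
  have h6 : cyclotomic l ℤ ∣ (l : ℤ[X]) - (X - 1) ^ (l - 1) * B := by
    rw [cyclotomic_eq_minpoly hμ hl.pos]
    exact minpoly.isIntegrallyClosed_dvd (hμ.isIntegral hl.pos) h5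
  obtain ⟨D, hD⟩ := h6
  refine ⟨A, B, D, ?_, ?_⟩
  · rw [← hcyc, ← sub_eq_iff_eq_add, hA]
    simp
  · rw [← hcyc, ← hD]
    ring

theorem herbrand_l {l : ℕ} (hl : l.Prime) {M : Type*} [AddCommGroup M] [Module.Finite ℤ M]
    (σ : M →+ M) (hσ : ∀ x, σ^[l] x = x) :
    ((NL l σ).range.relIndex (DD σ).ker) ^ (l - 1) * l ^ (finrank ℤ (NL l σ).ker) =
      ((DD σ).range.relIndex (NL l σ).ker) ^ (l - 1) * l ^ ((l - 1) * finrank ℤ (DD σ).ker) ∧
    (NL l σ).range.relIndex (DD σ).ker ≠ 0 ∧ (DD σ).range.relIndex (NL l σ).ker ≠ 0 := by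
  have hD : ∀ x, DD σ x = σ x - x := fun x => rfl
  -- the polynomial calculus
  let s : Module.End ℤ M := σ.toIntLinearMap
  have hs : ∀ x, s x = σ x := fun x => rfl
  have hsi : ∀ i x, (s ^ i) x = σ^[i] x := by
    intro i x
    rw [Module.End.pow_apply]
    rfl
  have hNs : ∀ x, NL l σ x = Polynomial.aeval s (∑ i ∈ range l, (Polynomial.X : Polynomial ℤ) ^ i) x := by
    intro x
    rw [NL_apply, map_sum, LinearMap.sum_apply]
    refine Finset.sum_congr rfl fun i _ => ?_
    rw [map_pow, Polynomial.aeval_X, hsi]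
  have hDs : ∀ x, DD σ x = Polynomial.aeval s ((Polynomial.X : Polynomial ℤ) - 1) x := by
    intro x
    rw [hD, map_sub, Polynomial.aeval_X, map_one]
    rfl
  have hcomm : ∀ (p q : Polynomial ℤ) (x : M), Polynomial.aeval s p (Polynomial.aeval s q x) =
      Polynomial.aeval s (p * q) x := by
    intro p q x
    rw [map_mul]
    rfl
  have hs0 : ∀ x, Polynomial.aeval s ((Polynomial.X : Polynomial ℤ) ^ l - 1) x = 0 := by
    intro x
    rw [map_sub, map_pow, Polynomial.aeval_X, map_one, LinearMap.sub_apply, hsi, hσ]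
    simp
  have hND : ∀ x, NL l σ (DD σ x) = 0 := by
    intro x
    rw [hNs, hDs, hcomm, geom_sum_mul, hs0]
  have hDN : ∀ x, DD σ (NL l σ x) = 0 := by
    intro x
    rw [hNs, hDs, hcomm, mul_comm, geom_sum_mul, hs0]
  have hfin : ∀ A : AddSubgroup M, Module.Finite ℤ A := by
    intro A
    have : Module.Finite ℤ A.toIntSubmodule := inferInstance
    exact this
  -- the restriction of D to ker N
  set M0 := (NL l σ).ker with hM0
  set KD := (DD σ).ker with hKD
  have hmem0 : ∀ x : M0, NL l σ x = 0 := fun x => x.2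
  have hstab : ∀ (p : Polynomial ℤ) (x : M0), NL l σ (Polynomial.aeval s p (x : M)) = 0 := by
    intro p x
    have h1 := hmem0 x
    rw [hNs] at h1
    rw [hNs, hcomm, mul_comm, ← hcomm, h1, map_zero]
  let φ : M0 →+ M0 := ((DD σ).comp M0.subtype).codRestrict M0 (fun x => hND x)
  have hφ : ∀ x : M0, ((φ x : M0) : M) = DD σ x := fun x => rfl
  have hφn : ∀ (n : ℕ) (x : M0), ((g1_it φ n x : M0) : M) =
      Polynomial.aeval s (((Polynomial.X : Polynomial ℤ) - 1) ^ n) (x : M) := by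
    intro n
    induction n with
    | zero => intro x; rw [pow_zero, map_one]; rfl
    | succ n ih =>
      intro x
      change ((φ (g1_it φ n x) : M0) : M) = _
      rw [hφ, ih, hDs, hcomm, pow_succ']
  obtain ⟨A, B, C, hAB, hBC⟩ := g1_poly hl
  have hl1 : ∀ x : M0, Polynomial.aeval s (((Polynomial.X : Polynomial ℤ) - 1) ^ (l - 1)) (x : M) =
      l • Polynomial.aeval s A (x : M) := by
    intro x
    have h1 := hmem0 x
    rw [hNs] at h1
    rw [hAB, map_add, LinearMap.add_apply, h1, add_zero, map_mul, map_natCast]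
    simp
  have hl2 : ∀ x : M0, l • (x : M) =
      Polynomial.aeval s (((Polynomial.X : Polynomial ℤ) - 1) ^ (l - 1)) (Polynomial.aeval s B (x : M)) := by
    intro x
    have h1 := hmem0 x
    rw [hNs] at h1
    have h2 : l • (x : M) = Polynomial.aeval s ((l : Polynomial ℤ)) (x : M) := by
      rw [map_natCast]
      simp
    rw [h2, hBC, map_add, LinearMap.add_apply, mul_comm _ C, ← hcomm C, h1, map_zero, add_zero,
      hcomm]
  have hr : (g1_it φ (l - 1)).range = (nsmulAddMonoidHom (α := M0) l).range := by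
    ext x
    simp only [AddMonoidHom.mem_range, nsmulAddMonoidHom_apply]
    constructor
    · rintro ⟨y, rfl⟩
      refine ⟨⟨Polynomial.aeval s A (y : M), hstab A y⟩, ?_⟩
      apply Subtype.ext
      rw [hφn, hl1]
      rfl
    · rintro ⟨y, rfl⟩
      refine ⟨⟨Polynomial.aeval s B (y : M), hstab B y⟩, ?_⟩
      apply Subtype.ext
      rw [hφn]
      exact (hl2 y).symm
  have hk : (g1_it φ (l - 1)).ker = (nsmulAddMonoidHom (α := M0) l).ker := by
    ext x
    rw [AddMonoidHom.mem_ker, AddMonoidHom.mem_ker, nsmulAddMonoidHom_apply, ← Subtype.coe_inj,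
      hφn, ← Subtype.coe_inj]
    change Polynomial.aeval s (((Polynomial.X : Polynomial ℤ) - 1) ^ (l - 1)) (x : M) = 0 ↔
      l • (x : M) = 0
    constructor
    · intro h
      rw [hl2, hcomm, mul_comm, ← hcomm, h, map_zero]
    · intro h
      rw [hl1, ← map_nsmul, h, map_zero]
  have hP0 : g1_P l M0 := by
    have := hfin M0
    exact g1_P_of_fg hl.ne_zero M0
  have hPD : g1_P l KD := by
    have := hfin KD
    exact g1_P_of_fg hl.ne_zero KD
  have hkne : Nat.card φ.ker ≠ 0 := by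
    apply g1_it_ker_one φ (l - 2)
    rw [show l - 2 + 1 = l - 1 by have := hl.two_le; omega, hk]
    exact hP0.2
  have sq1 := g1_it_pow φ hkne (l - 1)
  rw [hr, hk, hP0.1] at sq1
  have hsq : l ^ finrank ℤ M0 * (Nat.card φ.ker) ^ (l - 1) = φ.range.index ^ (l - 1) := by
    apply Nat.eq_of_mul_eq_mul_left (Nat.pos_of_ne_zero hP0.2)
    rw [← sq1]
    ring
  -- t
  have h3 : ∀ x : M, DD σ x = 0 → NL l σ x = l • x := by
    intro x hx
    rw [hD, sub_eq_zero] at hx
    rw [NL_apply]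
    have h4 : ∀ i, σ^[i] x = x := fun i => Function.iterate_fixed hx i
    rw [Finset.sum_congr rfl fun i _ => h4 i]
    simp
  have ht : Nat.card φ.ker = Nat.card (nsmulAddMonoidHom (α := KD) l).ker := by
    refine Nat.card_congr ⟨fun x => ⟨⟨(x.1 : M), ?_⟩, ?_⟩, fun x => ⟨⟨(x.1 : M), ?_⟩, ?_⟩, ?_, ?_⟩
    · have := x.2
      rw [AddMonoidHom.mem_ker, ← Subtype.coe_inj] at this
      exact this
    · have h1 := x.2
      rw [AddMonoidHom.mem_ker, ← Subtype.coe_inj] at h1
      have h2 : NL l σ (x.1 : M) = 0 := hmem0 x.1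
      rw [AddMonoidHom.mem_ker, nsmulAddMonoidHom_apply, ← Subtype.coe_inj]
      change l • (x.1 : M) = 0
      have h1' : DD σ (x.1 : M) = 0 := h1
      rw [← h3 _ h1', h2]
    · have h1 := x.2
      rw [AddMonoidHom.mem_ker, nsmulAddMonoidHom_apply, ← Subtype.coe_inj] at h1
      have h2 : DD σ (x.1 : M) = 0 := x.1.2
      change NL l σ (x.1 : M) = 0
      rw [h3 _ h2]
      exact h1
    · rw [AddMonoidHom.mem_ker, ← Subtype.coe_inj]
      exact x.1.2
    · intro x
      rfl
    · intro x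
      rfl
  -- y
  have hDM : (DD σ).range ≤ M0 := by
    rintro _ ⟨x, rfl⟩
    exact hND x
  have hNM : (NL l σ).range ≤ KD := by
    rintro _ ⟨x, rfl⟩
    exact hDN x
  have c1 : (M0.map (DD σ)).relIndex (DD σ).range = (M0 ⊔ KD).index := by
    have h2 := AddSubgroup.relIndex_map_map (DD σ) M0 ⊤
    rw [top_sup_eq, AddSubgroup.relIndex_top_right, ← AddMonoidHom.range_eq_map] at h2
    exact h2
  have c2 : (KD.map (NL l σ)).relIndex (NL l σ).range = (M0 ⊔ KD).index := by
    have h2 := AddSubgroup.relIndex_map_map (NL l σ) KD ⊤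
    rw [top_sup_eq, AddSubgroup.relIndex_top_right, ← AddMonoidHom.range_eq_map] at h2
    rw [h2, sup_comm]
  have y1 : (M0.map (DD σ)).relIndex M0 = φ.range.index := by
    unfold AddSubgroup.relIndex
    congr 1
    ext x
    rw [AddSubgroup.mem_addSubgroupOf, AddSubgroup.mem_map, AddMonoidHom.mem_range]
    constructor
    · rintro ⟨y, hy, hyx⟩
      exact ⟨⟨y, hy⟩, Subtype.ext hyx⟩
    · rintro ⟨y, hy⟩
      exact ⟨y, y.2, congrArg Subtype.val hy⟩
  have y2 := AddSubgroup.relIndex_mul_relIndex (M0.map (DD σ)) (DD σ).range M0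
    (by rintro _ ⟨x, -, rfl⟩; exact ⟨x, rfl⟩) hDM
  rw [c1, y1] at y2
  have z1 : KD.map (NL l σ) = KD.map (nsmulAddMonoidHom l) := by
    ext x
    rw [AddSubgroup.mem_map, AddSubgroup.mem_map]
    have h4 : ∀ x ∈ KD, NL l σ x = nsmulAddMonoidHom l x := by
      intro x hx
      rw [nsmulAddMonoidHom_apply]
      exact h3 x hx
    constructor
    · rintro ⟨y, hy, rfl⟩
      exact ⟨y, hy, (h4 y hy).symm⟩
    · rintro ⟨y, hy, rfl⟩
      exact ⟨y, hy, h4 y hy⟩
  have z2 := AddSubgroup.relIndex_mul_relIndex (KD.map (NL l σ)) (NL l σ).range KD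
    (by rintro _ ⟨x, -, rfl⟩; exact ⟨x, rfl⟩) hNM
  rw [c2] at z2
  have z3 : (KD.map (NL l σ)).relIndex KD =
      l ^ finrank ℤ KD * Nat.card (nsmulAddMonoidHom (α := KD) l).ker := by
    rw [z1, ← hPD.1]
    unfold AddSubgroup.relIndex
    rw [AddSubgroup.addSubgroupOf_map_nsmulAddMonoidHom_eq_range]
  rw [z3, ← ht] at z2
  have hlpos : 0 < l := hl.pos
  have hkpos : 0 < Nat.card φ.ker := Nat.pos_of_ne_zero hkne
  have hcne : (M0 ⊔ KD).index ≠ 0 := by
    intro h
    rw [h, zero_mul] at z2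
    have : 0 < l ^ finrank ℤ KD * Nat.card φ.ker := by positivity
    omega
  refine ⟨?_, ?_, ?_⟩
  · apply Nat.eq_of_mul_eq_mul_left (Nat.pos_of_ne_zero (pow_ne_zero (l - 1) hcne))
    calc (M0 ⊔ KD).index ^ (l - 1) *
          ((NL l σ).range.relIndex KD ^ (l - 1) * l ^ finrank ℤ M0)
        = ((M0 ⊔ KD).index * (NL l σ).range.relIndex KD) ^ (l - 1) * l ^ finrank ℤ M0 := by
          rw [mul_pow]; ring
      _ = (l ^ finrank ℤ KD) ^ (l - 1) *
          (l ^ finrank ℤ M0 * (Nat.card φ.ker) ^ (l - 1)) := by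
          rw [z2, mul_pow]; ring
      _ = (l ^ finrank ℤ KD) ^ (l - 1) *
          ((M0 ⊔ KD).index * (DD σ).range.relIndex M0) ^ (l - 1) := by
          rw [hsq, y2]
      _ = (M0 ⊔ KD).index ^ (l - 1) *
          ((DD σ).range.relIndex M0 ^ (l - 1) * l ^ ((l - 1) * finrank ℤ KD)) := by
          rw [mul_pow, ← pow_mul, mul_comm (finrank ℤ KD) (l - 1)]; ring
  · intro h
    rw [h, mul_zero] at z2
    have : 0 < l ^ finrank ℤ KD * Nat.card φ.ker := by positivity
    omega
  · intro h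
    rw [h, mul_zero] at y2
    rw [← y2] at hsq
    have h1 : 0 < l ^ finrank ℤ M0 * (Nat.card φ.ker) ^ (l - 1) := by positivity
    rw [hsq, zero_pow (by have := hl.two_le; omega)] at h1
    exact lt_irrefl _ h1

end Pool.Agent.Lib.MP_695920_nt.Gl
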