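import Mathlib
import Pool.Agent.Lib.MP_695920_nt.Gl.Defs
import Pool.Agent.Lib.MP_695920_nt.Refl.UnitIdx
import Pool.Agent.Lib.MP_695920_nt.Gl.Herb

/-!
The Herbrand quotient of the units for a cyclic extension of prime degree of a totally complex
field.
-/

set_option autoImplicit false

open Finset NumberField Module

namespace Pool.Agent.Lib.MP_695920_nt.Gl

open Pool.Agent.Lib.MP_695920_nt.Refl

section

variable {l : ℕ} {E L : Type} [Field E] [NumberField E] [Field L] [NumberField L] [Algebra E L]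
  [IsGalois E L]

theorem g2_card (hfin : finrank E L = l) : Nat.card Gal(L/E) = l := by
  rw [IsGalois.card_aut_eq_finrank, hfin]

theorem g2_pow (hfin : finrank E L = l) (σ : Gal(L/E)) : σ ^ l = 1 := by
  rw [← g2_card hfin]
  exact pow_card_eq_one'

theorem g2_gen (hl : l.Prime) (hfin : finrank E L = l) {σ : Gal(L/E)} (hσ : σ ≠ 1)
    (τ : Gal(L/E)) : ∃ i, i < l ∧ σ ^ i = τ := by
  have : Fact l.Prime := ⟨hl⟩
  obtain ⟨k, hk⟩ := mem_powers_of_prime_card (g2_card hfin) hσ (g' := τ)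
  refine ⟨k % l, Nat.mod_lt _ hl.pos, ?_⟩
  have h2 : σ ^ k = σ ^ (k % l) := by
    conv_lhs => rw [← Nat.mod_add_div k l, pow_add, pow_mul, g2_pow hfin, one_pow, mul_one]
  rw [← h2]
  exact hk

theorem g2_prod (hl : l.Prime) (hfin : finrank E L = l) {σ : Gal(L/E)} (hσ : σ ≠ 1) (x : L) :
    ∏ τ : Gal(L/E), τ x = ∏ i ∈ Finset.range l, (σ ^ i) x := by
  classical
  have : Fact l.Prime := ⟨hl⟩
  have hord : orderOf σ = l := orderOf_eq_prime (g2_pow hfin σ) hσ
  have h1 : (Finset.univ : Finset Gal(L/E)) = (Finset.range l).image (fun i => σ ^ i) := by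
    ext τ
    simp only [Finset.mem_univ, Finset.mem_image, Finset.mem_range, true_iff]
    exact g2_gen hl hfin hσ τ
  rw [h1, Finset.prod_image]
  intro i hi k hk hik
  have h2 := pow_injOn_Iio_orderOf (x := σ)
  rw [hord] at h2
  exact h2 (by simpa using hi) (by simpa using hk) hik

theorem g2_norm (hl : l.Prime) (hfin : finrank E L = l) {σ : Gal(L/E)} (hσ : σ ≠ 1) (u : 𝓞 L) :
    algebraMap (𝓞 E) (𝓞 L) (Algebra.intNorm (𝓞 E) (𝓞 L) u) =
      ∏ i ∈ Finset.range l, ((σ ^ i) • u) := by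
  apply FaithfulSMul.algebraMap_injective (𝓞 L) L
  rw [← IsScalarTower.algebraMap_apply, IsScalarTower.algebraMap_apply (𝓞 E) E L,
    Algebra.algebraMap_intNorm (K := E) (L := L), Algebra.norm_eq_prod_automorphisms,
    g2_prod hl hfin hσ, map_prod]
  rfl

theorem g2_fixed (hl : l.Prime) (hfin : finrank E L = l) {σ : Gal(L/E)} (hσ : σ ≠ 1) {u : 𝓞 L}
    (hu : σ • u = u) : ∃ w : 𝓞 E, algebraMap (𝓞 E) (𝓞 L) w = u := by
  have h1 : σ (u : L) = u := by
    rw [← r1b_smul, hu]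
  have h2 : (u : L) ∈ Set.range (algebraMap E L) := by
    rw [IsGalois.mem_range_algebraMap_iff_fixed]
    intro τ
    obtain ⟨i, hi, rfl⟩ := g2_gen hl hfin hσ τ
    clear hi
    induction i with
    | zero => rfl
    | succ i ih => rw [pow_succ, AlgEquiv.mul_apply, h1, ih]
  obtain ⟨e, he⟩ := h2
  have h4 : IsIntegral ℤ e := by
    rw [← isIntegral_algebraMap_iff (FaithfulSMul.algebraMap_injective E L), he]
    exact u.isIntegral_coe
  refine ⟨⟨e, h4⟩, ?_⟩
  apply FaithfulSMul.algebraMap_injective (𝓞 L) L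
  rw [← IsScalarTower.algebraMap_apply, IsScalarTower.algebraMap_apply (𝓞 E) E L]
  exact he

theorem g2_fixed_unit (hl : l.Prime) (hfin : finrank E L = l) {σ : Gal(L/E)} (hσ : σ ≠ 1)
    {u : (𝓞 L)ˣ} (hu : σ • (u : 𝓞 L) = u) :
    u ∈ (Units.map (algebraMap (𝓞 E) (𝓞 L) : 𝓞 E →* 𝓞 L)).range := by
  have hu' : σ • ((u⁻¹ : (𝓞 L)ˣ) : 𝓞 L) = (u⁻¹ : (𝓞 L)ˣ) := by
    have h1 : (u : 𝓞 L) * (σ • ((u⁻¹ : (𝓞 L)ˣ) : 𝓞 L)) = 1 := by
      calc (u : 𝓞 L) * (σ • ((u⁻¹ : (𝓞 L)ˣ) : 𝓞 L))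
          = (σ • (u : 𝓞 L)) * (σ • ((u⁻¹ : (𝓞 L)ˣ) : 𝓞 L)) := by rw [hu]
        _ = σ • ((u : 𝓞 L) * ((u⁻¹ : (𝓞 L)ˣ) : 𝓞 L)) := (smul_mul' _ _ _).symm
        _ = 1 := by rw [Units.mul_inv, smul_one]
    exact (Units.eq_inv_of_mul_eq_one_left h1)
  obtain ⟨w, hw⟩ := g2_fixed hl hfin hσ hu
  obtain ⟨w', hw'⟩ := g2_fixed hl hfin hσ hu'
  have hinj : Function.Injective (algebraMap (𝓞 E) (𝓞 L)) :=
    FaithfulSMul.algebraMap_injective _ _
  have h1 : w * w' = 1 := by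
    apply hinj
    rw [map_mul, hw, hw', map_one, Units.mul_inv]
  refine ⟨⟨w, w', h1, by rw [mul_comm]; exact h1⟩, ?_⟩
  ext
  rw [Units.coe_map]
  exact congrArg _ hw

end

/-- `H¹` of the units is at least `l` times as large as `Ĥ⁰`. -/
theorem unit_index_l {l : ℕ} (hl : l.Prime) {E L : Type} [Field E] [NumberField E] [Field L]
    [NumberField L] [Algebra E L] [IsGalois E L] (hfin : finrank E L = l)
    (hE : IsTotallyComplex E) (σ : Gal(L/E)) (hσ : σ ≠ 1) :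
    l * Nat.card ((𝓞 E)ˣ ⧸ (Units.map (Algebra.intNorm (𝓞 E) (𝓞 L) : 𝓞 L →* 𝓞 E)).range) ≤
      Nat.card ((Units.map (Algebra.intNorm (𝓞 E) (𝓞 L) : 𝓞 L →* 𝓞 E)).ker ⧸
        ((MonoidHom.range (Units.map (MulSemiringAction.toRingHom Gal(L/E) (𝓞 L) σ : 𝓞 L →* 𝓞 L) /
          MonoidHom.id (𝓞 L)ˣ)).subgroupOf
          (Units.map (Algebra.intNorm (𝓞 E) (𝓞 L) : 𝓞 L →* 𝓞 E)).ker)) ∧
    0 < Nat.card ((𝓞 E)ˣ ⧸ (Units.map (Algebra.intNorm (𝓞 E) (𝓞 L) : 𝓞 L →* 𝓞 E)).range) := by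
  set ι : (𝓞 E)ˣ →* (𝓞 L)ˣ := Units.map (algebraMap (𝓞 E) (𝓞 L) : 𝓞 E →* 𝓞 L) with hι
  set Nm : (𝓞 L)ˣ →* (𝓞 E)ˣ := Units.map (Algebra.intNorm (𝓞 E) (𝓞 L) : 𝓞 L →* 𝓞 E) with hNm
  set sg : (𝓞 L)ˣ →* (𝓞 L)ˣ :=
    Units.map (MulSemiringAction.toRingHom Gal(L/E) (𝓞 L) σ : 𝓞 L →* 𝓞 L) with hsg
  have hιinj : Function.Injective ι := by
    apply Units.map_injective
    exact FaithfulSMul.algebraMap_injective (𝓞 E) (𝓞 L)
  have hsgc : ∀ u : (𝓞 L)ˣ, ((sg u : (𝓞 L)ˣ) : 𝓞 L) = σ • (u : 𝓞 L) := fun u => rfl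
  have hsgi : ∀ (i : ℕ) (u : (𝓞 L)ˣ), ((sg^[i] u : (𝓞 L)ˣ) : 𝓞 L) = (σ ^ i) • (u : 𝓞 L) := by
    intro i u
    induction i with
    | zero => rw [pow_zero, one_smul]; rfl
    | succ i ih => rw [Function.iterate_succ_apply', hsgc, ih, smul_smul, ← pow_succ']
  let s : Additive (𝓞 L)ˣ →+ Additive (𝓞 L)ˣ := MonoidHom.toAdditive sg
  have hsi : ∀ (i : ℕ) (x : Additive (𝓞 L)ˣ), s^[i] x = Additive.ofMul (sg^[i] x.toMul) := by
    intro i x
    induction i with
    | zero => rfl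
    | succ i ih => rw [Function.iterate_succ_apply', Function.iterate_succ_apply', ih]; rfl
  have hsl : ∀ x, s^[l] x = x := by
    intro x
    rw [hsi]
    have h1 : sg^[l] x.toMul = x.toMul := by
      apply Units.ext
      rw [hsgi, g2_pow hfin, one_smul]
    rw [h1]
    rfl
  have hNN : NL l s = MonoidHom.toAdditive (ι.comp Nm) := by
    refine AddMonoidHom.ext fun x => ?_
    have h1 : ∏ i ∈ Finset.range l, sg^[i] x.toMul = ι (Nm x.toMul) := by
      apply Units.ext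
      rw [Units.coe_prod]
      have h2 : ∀ i ∈ Finset.range l, ((sg^[i] x.toMul : (𝓞 L)ˣ) : 𝓞 L) =
          (σ ^ i) • ((x.toMul : (𝓞 L)ˣ) : 𝓞 L) := fun i _ => hsgi i _
      rw [Finset.prod_congr rfl h2]
      exact (g2_norm hl hfin hσ _).symm
    rw [NL_apply]
    change _ = Additive.ofMul (ι (Nm x.toMul))
    rw [← h1, ofMul_prod]
    exact Finset.sum_congr rfl fun i _ => hsi i x
  have hDD : DD s = MonoidHom.toAdditive (sg / MonoidHom.id (𝓞 L)ˣ) := rfl
  have hDker : (sg / MonoidHom.id (𝓞 L)ˣ).ker = ι.range := by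
    ext u
    rw [MonoidHom.mem_ker, MonoidHom.div_apply, MonoidHom.id_apply, div_eq_one]
    constructor
    · intro h
      apply g2_fixed_unit hl hfin hσ
      rw [← hsgc, h]
    · rintro ⟨w, rfl⟩
      apply Units.ext
      rw [hsgc]
      change σ • (algebraMap (𝓞 E) (𝓞 L) (w : 𝓞 E)) = algebraMap (𝓞 E) (𝓞 L) (w : 𝓞 E)
      apply FaithfulSMul.algebraMap_injective (𝓞 L) L
      rw [← IsScalarTower.algebraMap_apply (𝓞 E) (𝓞 L) L,
        IsScalarTower.algebraMap_apply (𝓞 E) E L]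
      change σ (algebraMap (𝓞 L) L (algebraMap (𝓞 E) (𝓞 L) (w : 𝓞 E))) = _
      rw [← IsScalarTower.algebraMap_apply (𝓞 E) (𝓞 L) L,
        IsScalarTower.algebraMap_apply (𝓞 E) E L, AlgEquiv.commutes]
  have hNker : (ι.comp Nm).ker = Nm.ker := by
    ext u
    rw [MonoidHom.mem_ker, MonoidHom.mem_ker, MonoidHom.comp_apply, ← map_one ι]
    exact hιinj.eq_iff
  obtain ⟨H1, H2, H3⟩ := herbrand_l hl s hsl
  have k0 : (NL l s).range.relIndex (DD s).ker = Nat.card ((𝓞 E)ˣ ⧸ Nm.range) := by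
    rw [hNN, hDD]
    change (Subgroup.toAddSubgroup (ι.comp Nm).range).relIndex
      (Subgroup.toAddSubgroup (sg / MonoidHom.id (𝓞 L)ˣ).ker) = _
    rw [Subgroup.relIndex_toAddSubgroup, hDker, MonoidHom.range_comp, MonoidHom.range_eq_map ι,
      Subgroup.relIndex_map_map_of_injective _ _ hιinj, Subgroup.relIndex_top_right]
    rfl
  have k1 : (DD s).range.relIndex (NL l s).ker =
      Nat.card (Nm.ker ⧸ ((sg / MonoidHom.id (𝓞 L)ˣ).range.subgroupOf Nm.ker)) := by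
    rw [hNN, hDD]
    change (Subgroup.toAddSubgroup (sg / MonoidHom.id (𝓞 L)ˣ).range).relIndex
      (Subgroup.toAddSubgroup (ι.comp Nm).ker) = _
    rw [Subgroup.relIndex_toAddSubgroup, hNker]
    rfl
  rw [← k0, ← k1]
  refine ⟨?_, Nat.pos_of_ne_zero H2⟩
  -- ranks
  have r1 : finrank ℤ (DD s).ker = Units.rank E := by
    rw [← Units.finrank_eq, hDD]
    have e1 : (MonoidHom.toAdditive (sg / MonoidHom.id (𝓞 L)ˣ)).ker =
        (MonoidHom.toAdditive ι).range := by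
      change Subgroup.toAddSubgroup (sg / MonoidHom.id (𝓞 L)ˣ).ker =
        Subgroup.toAddSubgroup ι.range
      rw [hDker]
    rw [e1]
    exact (AddMonoidHom.ofInjective
      (f := MonoidHom.toAdditive ι) hιinj).symm.toIntLinearEquiv.finrank_eq
  have r2 : finrank ℤ (NL l s).range = finrank ℤ (DD s).ker := by
    apply r1b_rank _ H2
    rintro _ ⟨x, rfl⟩
    rw [AddMonoidHom.mem_ker, NL_apply]
    change s (∑ i ∈ Finset.range l, s^[i] x) - ∑ i ∈ Finset.range l, s^[i] x = 0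
    rw [map_sum]
    have h1 : ∑ i ∈ Finset.range l, s (s^[i] x) = ∑ i ∈ Finset.range l, s^[i + 1] x :=
      Finset.sum_congr rfl fun i _ => (Function.iterate_succ_apply' s i x).symm
    have h2 := Finset.sum_range_succ' (fun i => s^[i] x) l
    rw [Finset.sum_range_succ, hsl] at h2
    rw [h1]
    have h3 : s^[0] x = x := rfl
    rw [h3] at h2
    exact sub_eq_zero.2 (add_right_cancel h2).symm
  have r3 := r1b_ker (NL l s)
  rw [r2, r1, Units.finrank_eq] at r3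
  have t2 := isTotallyComplex_of_algebra E L
  have q1 := IsTotallyComplex.finrank E
  have q2 := IsTotallyComplex.finrank L
  have q3 := Module.finrank_mul_finrank ℚ E L
  rw [hfin] at q3
  have p1 : Units.rank E = InfinitePlace.nrComplexPlaces E - 1 := by
    unfold Units.rank
    rw [InfinitePlace.card_eq_nrRealPlaces_add_nrComplexPlaces,
      IsTotallyComplex.nrRealPlaces_eq_zero, zero_add]
  have p2 : Units.rank L = InfinitePlace.nrComplexPlaces L - 1 := by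
    unfold Units.rank
    rw [InfinitePlace.card_eq_nrRealPlaces_add_nrComplexPlaces,
      IsTotallyComplex.nrRealPlaces_eq_zero, zero_add]
  obtain ⟨m, hm⟩ : ∃ m, l = m + 1 := ⟨l - 1, by have := hl.pos; omega⟩
  obtain ⟨c, hc⟩ : ∃ c, InfinitePlace.nrComplexPlaces E = c + 1 :=
    ⟨InfinitePlace.nrComplexPlaces E - 1, by
      have : 0 < finrank ℚ E := finrank_pos
      omega⟩
  have hm0 : m ≠ 0 := by
    intro h
    rw [h, zero_add] at hm
    exact hl.ne_one hm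
  have p4 : finrank ℤ (NL l s).ker = m * finrank ℤ (DD s).ker + m := by
    rw [r1, p1, hc]
    rw [p1, p2, hc] at r3
    rw [q1, q2, hc, hm] at q3
    have q4 : InfinitePlace.nrComplexPlaces L = (c + 1) * (m + 1) := by
      have : 2 * ((c + 1) * (m + 1)) = 2 * InfinitePlace.nrComplexPlaces L := by
        rw [← q3]
        ring
      omega
    rw [q4] at r3
    have q5 : (c + 1) * (m + 1) = c * m + c + m + 1 := by ring
    rw [q5] at r3
    have q6 : m * (c + 1 - 1) + m = c * m + m := by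
      rw [Nat.add_sub_cancel, mul_comm]
    rw [q6]
    omega
  have hlm : l - 1 = m := by omega
  rw [p4, hlm, pow_add, ← mul_assoc] at H1
  have H4 : (l * (NL l s).range.relIndex (DD s).ker) ^ m =
      (DD s).range.relIndex (NL l s).ker ^ m := by
    apply Nat.eq_of_mul_eq_mul_right (pow_pos hl.pos (m * finrank ℤ (DD s).ker))
    rw [← H1]
    ring
  exact (Nat.pow_left_injective (n := m) hm0 H4).le

end Pool.Agent.Lib.MP_695920_nt.Gl
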