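import Mathlib
import Pool.Agent.Lib.MP_695920_nt.Refl.FirstIneq
import Pool.Agent.Lib.MP_695920_nt.Refl.Star
import Pool.Agent.Lib.MP_695920_nt.Gl.KummerEx
import Pool.Agent.Lib.MP_695920_nt.Gl.Kummer
import Pool.Agent.Lib.MP_695920_nt.Gl.UnitIdx
import Pool.Agent.Lib.MP_695920_nt.Solv.Key

set_option autoImplicit false

open Finset NumberField Module IsDedekindDomain
open scoped nonZeroDivisors Pointwise

namespace Pool.Agent.Lib.MP_695920_nt.Gl

open Pool.Agent.Lib.MP_695920_nt.Solv Pool.Agent.Lib.MP_695920_nt.Tow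
  Pool.Agent.Lib.MP_695920_nt.Refl

lemma totallyComplex_of_root {l : ℕ} (hl : l.Prime) (hl2 : l ≠ 2) {E : Type} [Field E]
    [NumberField E] {z : 𝓞 E} (hz : IsPrimitiveRoot z l) : IsTotallyComplex E := by
  refine ⟨fun v => ?_⟩
  rw [← InfinitePlace.not_isReal_iff_isComplex]
  intro hv
  let φ := InfinitePlace.embedding_of_isReal hv
  have h1 : φ (z : E) ^ l = 1 := by
    have h2 : ((z ^ l : 𝓞 E) : E) = ((1 : 𝓞 E) : E) := by rw [hz.pow_eq_one]
    have h3 : (z : E) ^ l = 1 := by simpa using h2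
    rw [← map_pow, h3, map_one]
  have hodd : Odd l := hl.odd_of_ne_two hl2
  have h4 : φ (z : E) = 1 := by
    have h5 : φ (z : E) ^ l = 1 ^ l := by rw [h1, one_pow]
    exact hodd.strictMono_pow.injective h5
  have h6 : (z : E) = 1 := φ.injective (by rw [h4, map_one])
  have h7 : z = 1 := by
    apply RingOfIntegers.ext
    rw [h6]
    simp
  rw [h7] at hz
  exact hl.one_lt.ne' (IsPrimitiveRoot.unique hz IsPrimitiveRoot.one)

/-- Kummer extensions of non-powers which are unramified give subgroups of the class group. -/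
theorem star_l {l : ℕ} (hl : l.Prime) (hl2 : l ≠ 2) {E : Type} [Field E] [NumberField E]
    {z γ c0 : 𝓞 E} (hz : IsPrimitiveRoot z l)
    (hγ : ∀ b : E, b ^ l ≠ (γ : E)) {b : Ideal (𝓞 E)} (hb : Ideal.span {γ} = b ^ l)
    (hγl : ∀ Q : Ideal (𝓞 E), Q.IsPrime → (l : 𝓞 E) ∈ Q → γ ∉ Q)
    (hc : γ - c0 ^ l ∈ Ideal.span {((l : 𝓞 E)) ^ 2}) :
    ∃ H : Subgroup (ClassGroup (𝓞 E)), H ≠ ⊤ ∧ (∀ x, x ^ l ∈ H) ∧
      ∀ q : Ideal (𝓞 E), q.IsPrime → q ≠ ⊥ → (l : 𝓞 E) ∉ q → γ ∉ q →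
        (∃ y, γ - y ^ l ∈ q) → cls q ∈ H := by
  classical
  obtain ⟨L, _, _, _, _, σ, θ, h3, hθ, hσθ, hσ1⟩ := kummer_exists_l hl hl2 E hz hγ
  have hγ0 : γ ≠ 0 := by
    rintro rfl
    exact hγ 0 (by simp [hl.ne_zero])
  have hun := kummer_unram_l hl h3 hz hγ0 hθ hσθ hb hγl hc
  have hcard : Nat.card Gal(L/E) = l := by rw [IsGalois.card_aut_eq_finrank, h3]
  have hord : orderOf σ = l := by
    have h1 : orderOf σ ∣ l := by rw [← hcard]; exact orderOf_dvd_natCard σ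
    rcases (Nat.dvd_prime hl).mp h1 with h2 | h2
    · exact absurd (orderOf_eq_one_iff.mp h2) hσ1
    · exact h2
  have htop : Subgroup.zpowers σ = ⊤ := by
    apply Subgroup.eq_top_of_card_eq
    rw [Nat.card_zpowers, hord, hcard]
  have hG : IsGaloisGroup (Subgroup.zpowers σ) E L := by
    rw [htop]
    exact IsGaloisGroup.of_mulEquiv (G := Gal(L/E)) Subgroup.topEquiv (fun h x => rfl)
  obtain ⟨hU1, hU2⟩ := unit_index_l hl h3 (totallyComplex_of_root hl hl2 hz) σ hσ1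
  have hl3 : 3 ≤ l := by
    have := hl.two_le
    omega
  obtain ⟨H, hH, hHn⟩ := first_ineq (E := E) (L := L) σ (by rw [hord]; exact hl) hun
    hU2 ((Nat.mul_le_mul_right _ hl3).trans hU1)
  refine ⟨H, hH, ?_, ?_⟩
  · intro x
    obtain ⟨I, hI, rfl⟩ := cls_surj x
    have h1 := hHn (I.map (algebraMap (𝓞 E) (𝓞 L))) (map_ne_bot' hI)
    rw [Ideal.relNorm_algebraMap, finrank_int, h3, cls_pow hI] at h1
    exact h1
  · rintro q hq hq0 hlq hγq ⟨y, hy⟩
    obtain ⟨P, hP0, hP⟩ := kummer_split_l hl h3 hz hθ hσθ hq hq0 hlq hγq hy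
    rw [← hP]
    exact hHn P hP0

end Pool.Agent.Lib.MP_695920_nt.Gl
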