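import Mathlib
import Pool.Agent.Lib.MP_695920_nt.Gl.Defs
import Pool.Agent.Lib.MP_695920_nt.Refl.CompDisc

/-!
Adjoining a primitive `l`-th root of unity: degrees and discriminants.
-/

set_option autoImplicit false

open Finset NumberField Module IsDedekindDomain
open scoped nonZeroDivisors Pointwise IntermediateField

namespace Pool.Agent.Lib.MP_695920_nt.Gl

open Pool.Agent.Lib.MP_695920_nt.Refl

section sup

variable {L : Type} [Field L] [NumberField L] [IsGalois ℚ L]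

lemma finrank_sup_root {l : ℕ} (hl : l.Prime) (hl2 : l ≠ 2) (A : IntermediateField ℚ L) {z : L}
    (hz : IsPrimitiveRoot z l) (hzA : z ∉ A) (hA : z + z⁻¹ ∈ A) :
    finrank ℚ (A ⊔ ℚ⟮z⟯ : IntermediateField ℚ L) = 2 * finrank ℚ A := by
  have hz0 : z ≠ 0 := hz.ne_zero hl.ne_zero
  have hint : IsIntegral A z := Algebra.IsIntegral.isIntegral z
  have hdeg : (minpoly A z).natDegree = 2 := by
    apply le_antisymm
    · let y : A := ⟨z + z⁻¹, hA⟩
      let f : Polynomial A := Polynomial.X ^ 2 - Polynomial.C y * Polynomial.X + 1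
      have hf : f.Monic := by
        change (Polynomial.X ^ 2 - Polynomial.C y * Polynomial.X + 1 : Polynomial A).Monic
        monicity!
      have hfd : f.natDegree = 2 := by
        change (Polynomial.X ^ 2 - Polynomial.C y * Polynomial.X + 1 : Polynomial A).natDegree = 2
        compute_degree!
      have hfz : Polynomial.aeval z f = 0 := by
        change Polynomial.aeval z
          (Polynomial.X ^ 2 - Polynomial.C y * Polynomial.X + 1 : Polynomial A) = 0
        rw [map_add, map_sub, map_pow, map_mul, Polynomial.aeval_X, Polynomial.aeval_C, map_one]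
        change z ^ 2 - (z + z⁻¹) * z + 1 = 0
        field_simp
        ring
      have h := Polynomial.natDegree_le_of_dvd (minpoly.dvd A z hfz) hf.ne_zero
      omega
    · rw [minpoly.two_le_natDegree_iff hint]
      rintro ⟨a, ha⟩
      apply hzA
      rw [← ha]
      exact a.2
  have h1 : finrank A A⟮z⟯ = 2 := by
    rw [IntermediateField.adjoin.finrank hint, hdeg]
  have h2 : (A⟮z⟯).restrictScalars ℚ = A ⊔ ℚ⟮z⟯ :=
    IntermediateField.restrictScalars_adjoin_eq_sup ℚ A {z}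
  rw [← h2]
  have h3 := finrank_mul_finrank ℚ A A⟮z⟯
  rw [h1, mul_comm] at h3
  exact h3.symm

lemma nc_of_not_mem {l : ℕ} (hl : l.Prime) (A : IntermediateField ℚ L) {z : L}
    (hz : IsPrimitiveRoot z l) (hzA : z ∉ A) : NC l A := by
  intro x hx
  have h1 : IsPrimitiveRoot (x : L) l := hx.map_of_injective (f := algebraMap A L)
    (algebraMap A L).injective
  have hne : NeZero l := ⟨hl.ne_zero⟩
  obtain ⟨i, _, hi⟩ := h1.eq_pow_of_pow_eq_one hz.pow_eq_one
  apply hzA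
  rw [← hi]
  exact pow_mem x.2 i

lemma rc_of_mem {l : ℕ} (hl : l.Prime) (A : IntermediateField ℚ L) {z : L}
    (hz : IsPrimitiveRoot z l) (hA : z + z⁻¹ ∈ A) : RC l A := by
  let φ : L →ₐ[A] AlgebraicClosure A := IsAlgClosed.lift
  refine ⟨φ z, ⟨z + z⁻¹, hA⟩, hz.map_of_injective (f := φ) φ.injective, ?_⟩
  rw [← map_inv₀, ← map_add]
  exact (φ.commutes ⟨z + z⁻¹, hA⟩).symm

lemma discr_root_le {l : ℕ} (hl : l.Prime) : ∃ B : ℝ, 0 ≤ B ∧ ∀ (L : Type) [Field L]
    [NumberField L] (z : L), IsPrimitiveRoot z l → |(discr ℚ⟮z⟯ : ℝ)| ≤ B := by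
  have hne : NeZero l := ⟨hl.ne_zero⟩
  by_cases h : ∃ (L₀ : Type) (_ : Field L₀) (_ : NumberField L₀) (z₀ : L₀), IsPrimitiveRoot z₀ l
  · obtain ⟨L₀, _, _, z₀, hz₀⟩ := h
    refine ⟨|(discr ℚ⟮z₀⟯ : ℝ)|, abs_nonneg _, ?_⟩
    intro L _ _ z hz
    have h0 : IsCyclotomicExtension {l} ℚ ℚ⟮z₀⟯ :=
      hz₀.intermediateField_adjoin_isCyclotomicExtension ℚ
    have h1 : IsCyclotomicExtension {l} ℚ ℚ⟮z⟯ :=
      hz.intermediateField_adjoin_isCyclotomicExtension ℚ
    have e : ℚ⟮z⟯ ≃ₐ[ℚ] ℚ⟮z₀⟯ :=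
      IsCyclotomicExtension.algEquiv (K := ℚ) (L := ℚ⟮z⟯) (S := {l}) ℚ⟮z₀⟯
    rw [discr_eq_discr_of_algEquiv _ e]
  · refine ⟨0, le_rfl, ?_⟩
    intro L _ _ z hz
    exact absurd ⟨L, inferInstance, inferInstance, z, hz⟩ h

theorem discr_adjoin_root_le {l : ℕ} (hl : l.Prime) (hl2 : l ≠ 2) (n : ℕ) : ∃ B : ℝ, 0 ≤ B ∧
    ∀ (K K' : Type) [Field K] [NumberField K] [Field K'] [NumberField K'] [Algebra K K']
      (z : 𝓞 K'), finrank ℚ K = n → finrank K K' = 2 → IsPrimitiveRoot z l → NC l K →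
      |(discr K' : ℝ)| ≤ B * |(discr K : ℝ)| ^ 2 := by
  obtain ⟨B0, hB0, hB⟩ := discr_root_le hl
  refine ⟨(max 1 B0) ^ (2 * n), by positivity, ?_⟩
  intro K K' _ _ _ _ _ z hn h2 hz hNC
  have hz' : IsPrimitiveRoot (z : K') l :=
    hz.map_of_injective (f := algebraMap (𝓞 K') K') RingOfIntegers.coe_injective
  let f : K →ₐ[ℚ] K' := IsScalarTower.toAlgHom ℚ K K'
  let F₁ : IntermediateField ℚ K' := f.fieldRange
  let F₂ : IntermediateField ℚ K' := ℚ⟮(z : K')⟯
  have e1 : K ≃ₐ[ℚ] F₁ := AlgEquiv.ofInjectiveField f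
  have hd1 : discr K = discr F₁ := discr_eq_discr_of_algEquiv K e1
  have hF1 : finrank ℚ F₁ = n := by rw [← hn]; exact e1.toLinearEquiv.finrank_eq.symm
  have hn0 : 0 < n := by rw [← hn]; exact finrank_pos
  have hK' : finrank ℚ K' = 2 * n := by
    have := finrank_mul_finrank ℚ K K'
    rw [h2, hn] at this
    omega
  have hF1K : finrank F₁ K' = 2 := by
    have := finrank_mul_finrank ℚ F₁ K'
    rw [hF1, hK', mul_comm] at this
    exact Nat.eq_of_mul_eq_mul_right hn0 this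
  have hF2K : finrank F₂ K' ≤ 2 * n := by
    rw [← hK', ← finrank_mul_finrank ℚ F₂ K']
    exact Nat.le_mul_of_pos_left _ finrank_pos
  have hzF : (z : K') ∉ F₁ := by
    rintro ⟨x, hx⟩
    apply hNC x
    apply IsPrimitiveRoot.of_map_of_injective (f := f) _ f.injective
    exact hx ▸ hz'
  have hsup : F₁ ⊔ F₂ = ⊤ := by
    have hle : F₁ ≤ F₁ ⊔ F₂ := le_sup_left
    have h3 := IntermediateField.finrank_bot_mul_relfinrank hle
    have h3' := finrank_mul_finrank ℚ (F₁ ⊔ F₂ : IntermediateField ℚ K') K'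
    rw [← h3, hF1, hK', mul_assoc, mul_comm 2 n] at h3'
    have h3'' := Nat.eq_of_mul_eq_mul_left hn0 h3'
    have h4 : finrank (F₁ ⊔ F₂ : IntermediateField ℚ K') K' ∣ 2 := ⟨_, by rw [mul_comm]; exact h3''.symm⟩
    rcases (Nat.dvd_prime Nat.prime_two).1 h4 with h5 | h5
    · exact IntermediateField.finrank_eq_one_iff_eq_top.1 h5
    · exfalso
      have h6 : F₁ = F₁ ⊔ F₂ := IntermediateField.eq_of_le_of_finrank_eq' hle (by rw [hF1K, h5])
      apply hzF
      rw [h6]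
      exact (le_sup_right : F₂ ≤ F₁ ⊔ F₂) (IntermediateField.mem_adjoin_simple_self ℚ _)
  have h := compDisc_le F₁ F₂ hsup
  have habs : ∀ (F : Type) [Field F] [NumberField F], |(discr F : ℝ)| = ((discr F).natAbs : ℝ) := by
    intro F _ _
    rw [Nat.cast_natAbs, Int.cast_abs]
  have h' : ((discr K').natAbs : ℝ) ≤
      ((discr F₁).natAbs : ℝ) ^ finrank F₁ K' * ((discr F₂).natAbs : ℝ) ^ finrank F₂ K' := by
    exact_mod_cast h
  rw [habs K', hd1, habs F₁]
  refine h'.trans ?_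
  rw [hF1K, mul_comm]
  apply mul_le_mul_of_nonneg_right _ (by positivity)
  have h6 : ((discr F₂).natAbs : ℝ) ≤ max 1 B0 := by
    rw [← habs F₂]
    exact (hB K' z hz').trans (le_max_right _ _)
  calc ((discr F₂).natAbs : ℝ) ^ finrank F₂ K' ≤ (max 1 B0) ^ finrank F₂ K' := by gcongr
    _ ≤ (max 1 B0) ^ (2 * n) := pow_le_pow_right₀ (le_max_left _ _) hF2K

end sup

end Pool.Agent.Lib.MP_695920_nt.Gl
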