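import Mathlib
import Pool.Agent.Lib.MP_695920_nt.Gl.Sup
import Pool.Agent.Lib.MP_695920_nt.Gl.NegNorm
import Pool.Agent.Lib.MP_695920_nt.Gl.Many
import Pool.Agent.Lib.MP_695920_nt.Gl.Reflect
import Pool.Agent.Lib.MP_695920_nt.Gl.Adjoin
import Pool.Agent.Lib.MP_695920_nt.Od.Lat

/-!
Primes with a factor of norm `-1` modulo `l`, in the lattice of subfields.
-/

set_option autoImplicit false

open Finset NumberField Module IsDedekindDomain
open scoped nonZeroDivisors Pointwise IntermediateField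

namespace Pool.Agent.Lib.MP_695920_nt.Gl

open Pool.Agent.Lib.MP_695920_nt.Tow Pool.Agent.Lib.MP_695920_nt.Sx

section two

variable {L : Type} [Field L] [NumberField L] [IsGalois ℚ L]

/-- the relation for the pair `X(z)`, `k(z)` -/
lemma twoUp_base_l {l : ℕ} (hl : l.Prime) (hl2 : l ≠ 2) {k X F0 X' : IntermediateField ℚ L}
    (hkX : k ≤ X) (hkF : k ≤ F0) (hXX : X ≤ X')
    (hFX : F0 ≤ X') {z : L} (hz : IsPrimitiveRoot z l) (hzF : z ∈ F0) (hzX : z ∉ X)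
    (hk2 : finrank ℚ F0 = 2 * finrank ℚ k) (hX2 : finrank ℚ X' = 2 * finrank ℚ X)
    (heven : 2 * finrank ℚ k ∣ finrank ℚ X) {p : ℕ} (hp : p.Prime)
    (hunr : ¬ p ∣ (discr L).natAbs) (h2 : NormNeg l k p) : TwoUp F0 X' L p := by
  let _ : Algebra k X := (IntermediateField.inclusion hkX).toAlgebra
  let _ : Algebra k F0 := (IntermediateField.inclusion hkF).toAlgebra
  let _ : Algebra X X' := (IntermediateField.inclusion hXX).toAlgebra
  let _ : Algebra F0 X' := (IntermediateField.inclusion hFX).toAlgebra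
  let _ : Algebra k X' := (IntermediateField.inclusion (hkX.trans hXX)).toAlgebra
  have _ : IsScalarTower k X X' := IsScalarTower.of_algebraMap_eq fun x => rfl
  have _ : IsScalarTower k F0 X' := IsScalarTower.of_algebraMap_eq fun x => rfl
  have hk0 : 0 < finrank ℚ k := finrank_pos
  have hX0 : 0 < finrank ℚ X := finrank_pos
  have e1 : finrank k F0 = 2 := by
    have := finrank_mul_finrank ℚ k F0
    rw [hk2, mul_comm] at this
    exact Nat.eq_of_mul_eq_mul_right hk0 this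
  have e2 : finrank X X' = 2 := by
    have := finrank_mul_finrank ℚ X X'
    rw [hX2, mul_comm] at this
    exact Nat.eq_of_mul_eq_mul_right hX0 this
  have e3 : Even (finrank k X) := by
    obtain ⟨c, hc⟩ := heven
    have := finrank_mul_finrank ℚ k X
    rw [hc] at this
    have h4 : finrank k X = 2 * c := by
      apply Nat.eq_of_mul_eq_mul_left hk0
      rw [this]; ring
    rw [h4]
    exact even_two_mul c
  -- the root of unity
  let z0 : F0 := ⟨z, hzF⟩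
  have hz0 : IsPrimitiveRoot z0 l := by
    have h1 : Function.Injective (algebraMap F0 L) := (algebraMap F0 L).injective
    exact (IsPrimitiveRoot.map_iff_of_injective (f := algebraMap F0 L) h1).mp hz
  have hint : IsIntegral ℤ z0 := hz0.isIntegral hl.pos
  let zo : 𝓞 F0 := ⟨z0, hint⟩
  have hzo : IsPrimitiveRoot zo l := by
    have h1 : Function.Injective (algebraMap (𝓞 F0) F0) := RingOfIntegers.coe_injective
    exact (IsPrimitiveRoot.map_iff_of_injective (f := algebraMap (𝓞 F0) F0) h1).mp hz0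
  have hXN : NC l X := nc_of_not_mem hl X hz hzX
  obtain ⟨q, hq, hpq, hqN⟩ := h2
  have hunrX : ¬ p ∣ (discr X).natAbs := by
    intro h
    exact hunr (h.trans (Int.natAbs_dvd_natAbs.mpr (discr_dvd_discr X L)))
  obtain ⟨Q1, Q2, a1, a2, a3, a4, a5, a6⟩ := twoRel_of_norm_neg (k := k) (L := X) (F0 := F0)
    (L' := X') hl hl2 e1 e2 hzo e3 hXN hp hq hpq hqN hunrX
  have hpne : ∀ Q : Ideal (𝓞 X'), (p : 𝓞 X') ∈ Q → Q ≠ ⊥ := by
    rintro Q hQ rfl
    rw [Ideal.mem_bot] at hQ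
    exact hp.ne_zero (by exact_mod_cast hQ)
  have b1 : Q1.IsMaximal := a1.isMaximal (hpne Q1 a3)
  have b2 : Q2.IsMaximal := a2.isMaximal (hpne Q2 a4)
  obtain ⟨P1, c1, d1⟩ := Ideal.exists_maximal_ideal_liesOver_of_isIntegral (S := 𝓞 L) Q1
  obtain ⟨P2, c2, d2⟩ := Ideal.exists_maximal_ideal_liesOver_of_isIntegral (S := 𝓞 L) Q2
  have f1 : P1.under (𝓞 X') = Q1 := d1.over.symm
  have f2 : P2.under (𝓞 X') = Q2 := d2.over.symm
  have hmem : ∀ (P : Ideal (𝓞 L)) (Q : Ideal (𝓞 X')), P.under (𝓞 X') = Q → (p : 𝓞 X') ∈ Q →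
      (p : 𝓞 L) ∈ P := by
    intro P Q hPQ hpQ
    rw [← hPQ, Ideal.under_def, Ideal.mem_comap] at hpQ
    simpa using hpQ
  refine ⟨P1, P2, c1.isPrime, c2.isPrime, hmem P1 Q1 f1 a3, hmem P2 Q2 f2 a4, ?_, ?_⟩
  · ext y
    have key : ∀ (P : Ideal (𝓞 L)) (Q : Ideal (𝓞 X')), P.under (𝓞 X') = Q →
        (y ∈ P.under (𝓞 F0) ↔ y ∈ Q.under (𝓞 F0)) := by
      intro P Q hPQ
      rw [← hPQ, Ideal.under_def, Ideal.under_def, Ideal.under_def, Ideal.mem_comap,
        Ideal.mem_comap, Ideal.mem_comap]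
      have h5 : algebraMap (𝓞 F0) (𝓞 L) y =
          algebraMap (𝓞 X') (𝓞 L) (algebraMap (𝓞 F0) (𝓞 X') y) := RingOfIntegers.ext rfl
      rw [h5]
    rw [key P1 Q1 f1, key P2 Q2 f2, a5]
  · rw [f1, f2]
    exact a6

theorem twoUp_of_normNeg {l : ℕ} (hl : l.Prime) (hl2 : l ≠ 2) (M S X : IntermediateField ℚ L)
    {z : L} (hz : IsPrimitiveRoot z l) (hzM : z ∉ M) (hzX : z + z⁻¹ ∈ X)
    (hXM : X ≤ M) (hSn : S.fixingSubgroup.Normal) (hzS : z ∈ S)
    (heven : 2 * finrank ℚ (X ⊓ S : IntermediateField ℚ L) ∣ finrank ℚ X) {p : ℕ} (hp : p.Prime)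
    (hunr : ¬ p ∣ (discr L).natAbs) (h2 : NormNeg l (X ⊓ S : IntermediateField ℚ L) p) :
    TwoUp ((M ⊔ ℚ⟮z⟯) ⊓ S : IntermediateField ℚ L) (M ⊔ ℚ⟮z⟯ : IntermediateField ℚ L) L p := by
  have hzX' : z ∉ X := fun h => hzM (hXM h)
  have hzk : z ∉ (X ⊓ S : IntermediateField ℚ L) := fun h => hzX' h.1
  have hzS' : ℚ⟮z⟯ ≤ S := by
    rw [IntermediateField.adjoin_simple_le_iff]
    exact hzS
  have hkR : z + z⁻¹ ∈ (X ⊓ S : IntermediateField ℚ L) :=
    ⟨hzX, S.add_mem hzS (S.inv_mem hzS)⟩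
  have h3 := twoUp_base_l hl hl2 (k := X ⊓ S) (X := X) (F0 := (X ⊓ S) ⊔ ℚ⟮z⟯) (X' := X ⊔ ℚ⟮z⟯)
    inf_le_left le_sup_left le_sup_left (sup_le_sup_right inf_le_left _) hz
    ((le_sup_right : ℚ⟮z⟯ ≤ (X ⊓ S) ⊔ ℚ⟮z⟯) (IntermediateField.mem_adjoin_simple_self ℚ z)) hzX'
    (finrank_sup_root hl hl2 _ hz hzk hkR) (finrank_sup_root hl hl2 _ hz hzX' hzX) heven hp hunr h2
  refine Od.twoUp_transfer (sup_le_sup_right hXM _) ?_ h3
  intro g hg
  rw [IntermediateField.fixingSubgroup_sup, fixing_inf] at hg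
  obtain ⟨hg1, hg2⟩ := hg
  have hg3 : g ∈ X.fixingSubgroup ⊔ S.fixingSubgroup := hg1
  rw [Subgroup.mem_sup_of_normal_right] at hg3
  obtain ⟨y, hy, w, hw, rfl⟩ := hg3
  refine ⟨y, ?_, w, hw, rfl⟩
  rw [IntermediateField.fixingSubgroup_sup]
  refine ⟨hy, ?_⟩
  have hw2 : w ∈ (ℚ⟮z⟯).fixingSubgroup := IntermediateField.fixingSubgroup_antitone hzS' hw
  exact ((ℚ⟮z⟯).fixingSubgroup.mul_mem_cancel_right hw2).mp hg2

end two

end Pool.Agent.Lib.MP_695920_nt.Gl
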