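import Mathlib
import Pool.Agent.Lib.MP_695920_nt.Gl.Lat
import Pool.Agent.Lib.MP_695920_nt.Tow.Fin2

/-!
The bound at one scale, with the primes with a factor of norm `-1` modulo `l`.
-/

set_option autoImplicit false

open Finset NumberField Module IsDedekindDomain
open scoped nonZeroDivisors Pointwise IntermediateField

namespace Pool.Agent.Lib.MP_695920_nt.Gl

open Pool.Agent.Lib.MP_695920_nt.Tow Pool.Agent.Lib.MP_695920_nt.Sx
  Pool.Agent.Lib.MP_695920_nt.Solv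

variable {L : Type} [Field L] [NumberField L] [IsGalois ℚ L]

/-- counting with products of primes -/
lemma ev_scaled_l {l : ℕ} (hl : 0 < l) {N : ℕ} (hL : finrank ℚ L = N)
    (S X : IntermediateField ℚ L)
    (τ e0 η g : ℝ) (B w : ℕ) (hw : 1 ≤ w) (hwτ : Real.log w ≤ η * τ)
    (hηB : 2 * l * (N : ℝ) ^ 2 * B * η ≤ 1) (hτ : 4 * l * (N : ℝ) ^ 2 ≤ τ)
    (hbig : ∀ F : IntermediateField ℚ L, ¬ F ≤ S → τ < dd F)
    (hev : ∀ (X : IntermediateField ℚ L) (g : ℝ), 1 < finrank ℚ X → 0 < g →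
      g * (Nat.card {x : ClassGroup (𝓞 X) // x ^ l = 1} : ℝ) ≤
        Bn (finrank ℚ X) * Real.sqrt |(discr X : ℝ)| * Real.log |(discr X : ℝ)| ^ finrank ℚ X →
      Real.log g + hh l X ≤ dd X / 2 + e0)
    (hX : ¬ X ≤ S) (G : Finset ℕ)
    (hG : ∀ t ∈ G, Squarefree t ∧ t ≤ w ^ B ∧
      ∀ p : ℕ, p.Prime → p ∣ t → TwoUp (X ⊓ S : IntermediateField ℚ L) X L p)
    (hcard : Real.exp g ≤ G.card) :
    hh l X ≤ dd X / 2 + e0 - g := by
  have hN : 0 < N := by rw [← hL]; exact finrank_pos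
  have hNr : (1 : ℝ) ≤ N := by exact_mod_cast hN
  have hlr : (1 : ℝ) ≤ l := by exact_mod_cast hl
  have hX1 := one_lt_finrank_of_not_le hX
  have hXN : finrank ℚ X ≤ N := by rw [← hL]; exact finrank_le_top X
  have hw0 : (0 : ℝ) < w := by exact_mod_cast hw
  have hw1r : (1 : ℝ) ≤ (w : ℝ) ^ B := one_le_pow₀ (by exact_mod_cast hw)
  have h1 := Od.ev_lat_prod (F := X ⊓ S) (K := X) inf_le_left (l := l) hl hX1
    (Real.exp τ) (Real.exp_pos _) (by
    intro A hAX hA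
    have h2 : ¬ A ≤ S := fun h => hA (le_inf hAX h)
    have h3 := hbig A h2
    have h4 := one_le_absdiscr A
    rw [← Real.exp_log (show (0 : ℝ) < |(discr A : ℝ)| by linarith)]
    exact Real.exp_le_exp.mpr h3.le) G ((w : ℝ) ^ B) hw1r (by
    intro t ht
    obtain ⟨a, b, c⟩ := hG t ht
    exact ⟨a, by exact_mod_cast b, c⟩) (by
    rw [Real.log_exp, Real.log_pow]
    have hn1 : (finrank ℚ X : ℝ) ≤ N := by exact_mod_cast hXN
    have hn0 : (1 : ℝ) ≤ finrank ℚ X := by exact_mod_cast hX1.le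
    have hlogw : 0 ≤ Real.log (w : ℝ) := Real.log_nonneg (by exact_mod_cast hw)
    have hB0 : (0 : ℝ) ≤ B := Nat.cast_nonneg B
    have hτ0 : 0 ≤ τ := le_trans (by positivity) hτ
    have e1 : (finrank ℚ X : ℝ) * (finrank ℚ X - 1) ≤ (N : ℝ) ^ 2 := by nlinarith
    have e2 : (finrank ℚ X : ℝ) ^ 2 ≤ (N : ℝ) ^ 2 := pow_le_pow_left₀ (by linarith) hn1 2
    have e3 : (l : ℝ) * finrank ℚ X * (finrank ℚ X - 1) * (B * Real.log w) ≤
        l * (N : ℝ) ^ 2 * (B * (η * τ)) := by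
      calc (l : ℝ) * finrank ℚ X * (finrank ℚ X - 1) * (B * Real.log w)
          = l * ((finrank ℚ X : ℝ) * (finrank ℚ X - 1)) * (B * Real.log w) := by
            ring
        _ ≤ l * (N : ℝ) ^ 2 * (B * Real.log w) := by
            apply mul_le_mul_of_nonneg_right _ (by positivity)
            exact mul_le_mul_of_nonneg_left e1 (by linarith)
        _ ≤ _ := by
            apply mul_le_mul_of_nonneg_left _ (by positivity)
            exact mul_le_mul_of_nonneg_left hwτ hB0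
    have e4 : l * (N : ℝ) ^ 2 * (B * (η * τ)) ≤ τ / 2 := by
      calc l * (N : ℝ) ^ 2 * (B * (η * τ)) = (2 * l * (N : ℝ) ^ 2 * B * η) * (τ / 2) := by ring
        _ ≤ 1 * (τ / 2) := mul_le_mul_of_nonneg_right hηB (by linarith)
        _ = τ / 2 := one_mul _
    have e5 : 2 * (l : ℝ) * (finrank ℚ X : ℝ) ^ 2 ≤ 2 * l * (N : ℝ) ^ 2 :=
      mul_le_mul_of_nonneg_left e2 (by positivity)
    linarith)
  have hg0 : (0 : ℝ) < G.card := (Real.exp_pos g).trans_le hcard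
  have h2 := hev X G.card hX1 hg0 h1
  have h3 : g ≤ Real.log G.card := by
    rw [← Real.log_exp g]
    exact Real.log_le_log (Real.exp_pos g) hcard
  linarith

/-- the bound at one scale -/
lemma at_scale_l {l : ℕ} (hl : l.Prime) (hl2 : l ≠ 2) {N : ℕ} (hL : finrank ℚ L = N)
    (S M X : IntermediateField ℚ L) {z : L}
    (hz : IsPrimitiveRoot z l) (hzM : z ∉ M) (hzX : z + z⁻¹ ∈ X) (hXM : X ≤ M)
    (hSn : S.fixingSubgroup.Normal) (hzS : z ∈ S)
    (heven : 2 * finrank ℚ (X ⊓ S : IntermediateField ℚ L) ∣ finrank ℚ X)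
    (τ e0 cs η c C' : ℝ) (B w₀ : ℕ) (hc : 0 < c)
    (hτ : 4 * l * (N : ℝ) ^ 2 ≤ τ) (hητ : 2 + 2 * cs ≤ η * τ) (hcs : 0 ≤ cs)
    (hηB : 2 * l * (N : ℝ) ^ 2 * B * η ≤ 1) (hS : dd S ≤ cs + η / 2 * τ)
    (hmany : ∀ (w : ℕ) (V : Finset ℕ), w₀ ≤ w →
      |(discr (X ⊓ S : IntermediateField ℚ L) : ℝ)| ≤ w →
        (V.card : ℝ) ≤ C' * Real.log w →
        (w : ℝ) ^ c ≤
          (Od.prods (fun p => p ∉ V ∧ NormNeg l (X ⊓ S : IntermediateField ℚ L) p) (w ^ B)).card)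
    (hw₀ : w₀ ≤ ⌊Real.exp (η * τ)⌋₊)
    (hV : 2 * dd L ≤ C' * Real.log (⌊Real.exp (η * τ)⌋₊ : ℝ))
    (hbig : ∀ F : IntermediateField ℚ L, ¬ F ≤ S → τ < dd F)
    (hev : ∀ (X : IntermediateField ℚ L) (g : ℝ), 1 < finrank ℚ X → 0 < g →
      g * (Nat.card {x : ClassGroup (𝓞 X) // x ^ l = 1} : ℝ) ≤
        Bn (finrank ℚ X) * Real.sqrt |(discr X : ℝ)| * Real.log |(discr X : ℝ)| ^ finrank ℚ X →
      Real.log g + hh l X ≤ dd X / 2 + e0)
    (hM : ¬ (M ⊔ ℚ⟮z⟯ : IntermediateField ℚ L) ≤ S) :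
    hh l (M ⊔ ℚ⟮z⟯ : IntermediateField ℚ L) ≤
      dd (M ⊔ ℚ⟮z⟯ : IntermediateField ℚ L) / 2 + e0 - c * (η * τ - 1) := by
  classical
  set w : ℕ := ⌊Real.exp (η * τ)⌋₊ with hw
  obtain ⟨hw1, hw2, hw3, hw4, hw5⟩ := floor_exp (η * τ) (by linarith)
  have hw0 : (0 : ℝ) < w := by exact_mod_cast hw1
  set V : Finset ℕ := (discr L).natAbs.primeFactors with hVdef
  have hVc : (V.card : ℝ) ≤ C' * Real.log w := by
    refine le_trans (card_ramified_le' (L := L) V ?_) hV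
    intro p hp
    rw [hVdef, Nat.mem_primeFactors] at hp
    exact ⟨hp.1, hp.2.1⟩
  have hk : |(discr (X ⊓ S : IntermediateField ℚ L) : ℝ)| ≤ w := by
    have h1 : dd (X ⊓ S : IntermediateField ℚ L) ≤ Real.log w := by
      refine (dd_mono inf_le_right).trans (hS.trans ?_)
      have : η / 2 * τ = η * τ / 2 := by ring
      linarith
    have h2 := one_le_absdiscr (X ⊓ S : IntermediateField ℚ L)
    exact (Real.log_le_log_iff (by linarith) hw0).mp h1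
  have hmain := hmany w V hw₀ hk hVc
  apply ev_scaled_l hl.pos hL S (M ⊔ ℚ⟮z⟯) τ e0 η _ B w hw1 hw4 hηB hτ hbig hev hM
    (Od.prods (fun p => p ∉ V ∧ NormNeg l (X ⊓ S : IntermediateField ℚ L) p) (w ^ B))
  · intro t ht
    rw [Od.mem_prods] at ht
    obtain ⟨⟨h1, h2⟩, h3, h4⟩ := ht
    refine ⟨h3, h2, fun p hp hpt => ?_⟩
    obtain ⟨h5, h6⟩ := h4 p hp hpt
    apply twoUp_of_normNeg hl hl2 M S X hz hzM hzX hXM hSn hzS heven hp _ h6
    intro h7
    apply h5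
    rw [hVdef, Nat.mem_primeFactors]
    exact ⟨hp, h7, Int.natAbs_ne_zero.mpr (discr_ne_zero L)⟩
  · refine le_trans ?_ hmain
    rw [Real.rpow_def_of_pos hw0]
    apply Real.exp_le_exp.mpr
    rw [mul_comm]
    exact mul_le_mul_of_nonneg_right hw5 hc.le

end Pool.Agent.Lib.MP_695920_nt.Gl
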