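import Mathlib
import Pool.Agent.Lib.MP_695920_nt.Gl.Scale
import Pool.Agent.Lib.MP_695920_nt.Tow.CritMain

/-!
The bound for `M(z)` in logarithmic form, `z` a primitive `l`-th root of unity.
-/

set_option autoImplicit false

open Finset NumberField Module IsDedekindDomain
open scoped nonZeroDivisors Pointwise IntermediateField

namespace Pool.Agent.Lib.MP_695920_nt.Gl

open Pool.Agent.Lib.MP_695920_nt.Tow Pool.Agent.Lib.MP_695920_nt.Sx
  Pool.Agent.Lib.MP_695920_nt.Solv Pool.Agent.Lib.MP_695920_nt.Tow.V2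

lemma prods_mono_gl {P : ℕ → Prop} {Y Y' : ℕ} (h : Y ≤ Y') : Od.prods P Y ⊆ Od.prods P Y' := by
  intro s hs
  rw [Od.mem_prods] at hs ⊢
  exact ⟨⟨hs.1.1, hs.1.2.trans h⟩, hs.2⟩

/-- `many_neg` for all degrees at most `N` -/
lemma many_unif_l {l : ℕ} (hl : l.Prime) (hl2 : l ≠ 2) (N : ℕ) : ∃ (c : ℝ) (B : ℕ), 0 < c ∧
    ∀ C' : ℝ, ∃ w₀ : ℕ,
    ∀ (E : Type) [Field E] [NumberField E], finrank ℚ E ≤ N → RC l E → NC l E →
      ∀ (w : ℕ) (V : Finset ℕ), w₀ ≤ w → |(discr E : ℝ)| ≤ w →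
        (V.card : ℝ) ≤ C' * Real.log w →
        (w : ℝ) ^ c ≤ (Od.prods (fun p => p ∉ V ∧ NormNeg l E p) (w ^ B)).card := by
  induction N with
  | zero =>
    refine ⟨1, 0, one_pos, fun _ => ⟨0, ?_⟩⟩
    intro E _ _ hE
    have : 0 < finrank ℚ E := finrank_pos
    omega
  | succ N ih =>
    obtain ⟨c1, B1, hc1, h1⟩ := ih
    obtain ⟨c2, B2, hc2, h2⟩ := many_neg hl hl2 (N + 1)
    refine ⟨min c1 c2, B1 + B2, lt_min hc1 hc2, fun C' => ?_⟩
    obtain ⟨w1, hw1⟩ := h1 C'
    obtain ⟨w2, hw2⟩ := h2 C'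
    refine ⟨w1 + w2 + 1, ?_⟩
    intro E _ _ hE hR h3 w V hw hd hV
    have hw0 : 1 ≤ w := by omega
    have hwr : (1 : ℝ) ≤ w := by exact_mod_cast hw0
    rcases Nat.lt_or_ge N (finrank ℚ E) with h | h
    · have h4 := hw2 E (by omega) hR h3 w V (by omega) hd hV
      calc (w : ℝ) ^ (min c1 c2) ≤ (w : ℝ) ^ c2 :=
            Real.rpow_le_rpow_of_exponent_le hwr (min_le_right _ _)
        _ ≤ _ := h4
        _ ≤ _ := by
            exact_mod_cast Finset.card_le_card
              (prods_mono_gl (Nat.pow_le_pow_right hw0 (Nat.le_add_left B2 B1)))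
    · have h4 := hw1 E h hR h3 w V (by omega) hd hV
      calc (w : ℝ) ^ (min c1 c2) ≤ (w : ℝ) ^ c1 :=
            Real.rpow_le_rpow_of_exponent_le hwr (min_le_left _ _)
        _ ≤ _ := h4
        _ ≤ _ := by
            exact_mod_cast Finset.card_le_card
              (prods_mono_gl (Nat.pow_le_pow_right hw0 (Nat.le_add_right B1 B2)))

theorem main_log_l {l : ℕ} (hl : l.Prime) (hl2 : l ≠ 2) (N : ℕ) (hN : 0 < N) :
    ∃ δ : ℝ, 0 < δ ∧ ∀ ε : ℝ, 0 < ε →
    ∃ C : ℝ, 0 ≤ C ∧ ∀ (L : Type) [Field L] [NumberField L] [IsGalois ℚ L]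
      (M S0 : IntermediateField ℚ L) (z : L) (KK : Set (IntermediateField ℚ L)) (u : ℝ),
      finrank ℚ L = N → IsPrimitiveRoot z l → z ∉ M →
      (M ⊔ ℚ⟮z⟯ : IntermediateField ℚ L).fixingSubgroup.normalCore = ⊥ →
      (∃ K ∈ KK, K ≤ M ⊔ ℚ⟮z⟯) → (∀ K ∈ KK, u ≤ dd K) →
      (∀ N' : Subgroup Gal(L/ℚ), N'.Normal → N' ≤ S0.fixingSubgroup →
        N' ≤ (ℚ⟮z⟯ : IntermediateField ℚ L).fixingSubgroup →
        (∀ K ∈ KK, ¬ N' ≤ K.fixingSubgroup) →
        Crit2 l (M ⊔ ℚ⟮z⟯ : IntermediateField ℚ L).fixingSubgroup N' ∨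
        ∃ X : IntermediateField ℚ L, X ≤ M ∧ z + z⁻¹ ∈ X ∧
          2 * finrank ℚ (X ⊓ IntermediateField.fixedField N' : IntermediateField ℚ L) ∣
            finrank ℚ X) →
      hh l (M ⊔ ℚ⟮z⟯ : IntermediateField ℚ L) ≤
        (1 / 2 + ε) * dd (M ⊔ ℚ⟮z⟯ : IntermediateField ℚ L) + dd S0 - δ * u + C := by
  have hl0 : 0 < l := hl.pos
  have hlr : (1 : ℝ) ≤ l := by exact_mod_cast hl0
  have hNr : (1 : ℝ) ≤ N := by exact_mod_cast hN
  have hN2 : (1 : ℝ) ≤ (N : ℝ) ^ 2 := one_le_pow₀ hNr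
  obtain ⟨c, B, hc, hmany⟩ := many_unif_l hl hl2 N
  obtain ⟨Bz, hBz0, hBz⟩ := discr_root_le hl
  have hB0 : (0 : ℝ) ≤ B := Nat.cast_nonneg B
  have hη1 : 0 < V2.eta l N := V2.eta_pos hl0 hN
  have hη1le : V2.eta l N ≤ 1 / 64 := V2.eta_le hl0 hN
  set η : ℝ := min (V2.eta l N) (1 / (2 * l * (N : ℝ) ^ 2 * (B + 1))) with hη
  have hη0 : 0 < η := lt_min hη1 (by positivity)
  have hηe : η ≤ V2.eta l N := min_le_left _ _
  have hηle : η ≤ 1 / 64 := hηe.trans hη1le
  have hηB : 2 * l * (N : ℝ) ^ 2 * B * η ≤ 1 := by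
    have h1 : η ≤ 1 / (2 * l * (N : ℝ) ^ 2 * (B + 1)) := min_le_right _ _
    rw [le_div_iff₀ (by positivity)] at h1
    have h2 : 0 ≤ 2 * l * (N : ℝ) ^ 2 * η := by positivity
    linarith
  obtain ⟨cs, κ, hcs, hκ, hκ1, hsc⟩ := scale_lat2 N hN η hη0 (by linarith)
  obtain ⟨w0, hw0⟩ := degone_unif N
  set c0 : ℝ := min 1 c with hc0
  have hc00 : 0 < c0 := lt_min one_pos hc
  have hc01 : c0 ≤ 1 := min_le_left _ _
  have hc0c : c0 ≤ c := min_le_right _ _
  set δ : ℝ := c0 * (η * κ) with hδ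
  have hδ0 : 0 < δ := by positivity
  refine ⟨δ, hδ0, ?_⟩
  intro ε hε
  set A : ℝ := N * (1 + l) + 3 with hA
  have hA0 : 0 < A := by rw [hA]; positivity
  set ε1 : ℝ := ε / 2 / (A * (N : ℝ) ^ 2) with hε1
  have hε10 : 0 < ε1 := by rw [hε1]; positivity
  have hAε : A * ε1 * (N : ℝ) ^ 2 = ε / 2 := by rw [hε1]; field_simp
  obtain ⟨CT, hCT, htr⟩ := triv_lat l N hl0 ε1 hε10
  obtain ⟨CW, cW, hCW, hcW, hst⟩ := step_all l N ε1 hε10
  set ε' : ℝ := ε / (2 * δ) with hε'
  have hε'0 : 0 < ε' := by positivity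
  have hε'δ : δ * ε' = ε / 2 := by rw [hε']; field_simp
  have hccs := ccs_nonneg N
  set C' : ℝ := 4 / η * (ccs N + (N : ℝ) ^ 2 / (ε' * κ)) with hC'
  obtain ⟨w1, hw1⟩ := hmany C'
  set τ0 : ℝ := 4 * l * (N : ℝ) ^ 2 + Bz + (N + 10 + 4 * cs + w0 + w1) / η with hτ0
  have hτ00 : 0 ≤ τ0 := by rw [hτ0]; positivity
  set u0 : ℝ := 2 * cs + τ0 / κ with hu0
  have hu00 : 0 ≤ u0 := by rw [hu0]; positivity
  refine ⟨δ * u0 + 7 + |Real.log ε1| + N * (|Real.log CW| + cW + l * CT + l * cs) + CT +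
    ε / 2 * ccs N + 1, by positivity, ?_⟩
  intro L _ _ _ M S0 z KK u hL hz hzM hcore hKM hKu hcrit
  set M' : IntermediateField ℚ L := M ⊔ ℚ⟮z⟯ with hM'
  obtain ⟨htriv, hev⟩ := htr L hL
  have hΛ := dd_closure M' hcore
  rw [hL] at hΛ
  have hU0 := dd_nonneg M'
  have hΛ0 := dd_nonneg L
  have hS00 := dd_nonneg S0
  -- the error terms in terms of the discriminant of `M'`
  have herr : A * (ε1 * dd L) ≤ ε / 2 * ccs N + ε / 2 * dd M' := by
    have h1 : A * (ε1 * dd L) ≤ A * (ε1 * (ccs N + (N : ℝ) ^ 2 * dd M')) := by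
      apply mul_le_mul_of_nonneg_left _ hA0.le
      exact mul_le_mul_of_nonneg_left hΛ hε10.le
    have h2 : A * (ε1 * (ccs N + (N : ℝ) ^ 2 * dd M')) = A * ε1 * ccs N + ε / 2 * dd M' := by
      rw [← hAε]; ring
    have h3 : A * ε1 * ccs N ≤ ε / 2 * ccs N := by
      apply mul_le_mul_of_nonneg_right _ hccs
      rw [← hAε]
      exact le_mul_of_one_le_right (by positivity) hN2
    linarith
  set x : ℝ := ε1 * dd L with hx
  have hx0 : 0 ≤ x := by rw [hx]; positivity
  have hA3 : 3 * x ≤ A * x := by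
    apply mul_le_mul_of_nonneg_right _ hx0
    rw [hA]
    have : (0 : ℝ) ≤ N * (1 + l) := by positivity
    linarith
  have hNS : 0 ≤ N * (|Real.log CW| + cW + l * CT + l * cs) := by positivity
  have habs : 0 ≤ |Real.log ε1| := abs_nonneg _
  have hδu0 : 0 ≤ δ * u0 := by positivity
  have htM := htriv M'
  have hεM : 0 ≤ ε / 2 * dd M' := by positivity
  have hεc : 0 ≤ ε / 2 * ccs N := by positivity
  rcases le_or_gt u u0 with hsmall | hlarge
  · -- small discriminant
    have h1 : δ * u ≤ δ * u0 := mul_le_mul_of_nonneg_left hsmall hδ0.le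
    linarith
  have hupos : 0 ≤ u := by linarith
  rcases le_or_gt u (ε' * dd M') with hsmall2 | hlarge2
  · -- relatively small discriminant
    have h1 : δ * u ≤ δ * (ε' * dd M') := mul_le_mul_of_nonneg_left hsmall2 hδ0.le
    rw [← mul_assoc, hε'δ] at h1
    linarith
  -- the base field is not small
  by_cases hS0small : dd S0 ≤ κ * u
  swap
  · push Not at hS0small
    have h1 : δ * u ≤ κ * u := by
      have h2 : 0 ≤ κ * u := by positivity
      have h3 : c0 * η ≤ 1 := by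
        calc c0 * η ≤ 1 * 1 := mul_le_mul hc01 (by linarith) hη0.le (by norm_num)
          _ = 1 := one_mul 1
      calc δ * u = c0 * η * (κ * u) := by rw [hδ]; ring
        _ ≤ 1 * (κ * u) := mul_le_mul_of_nonneg_right h3 h2
        _ = κ * u := one_mul _
    linarith
  -- large discriminant
  have hcsK : 2 * cs < u := by
    have : 0 ≤ τ0 / κ := by positivity
    linarith
  obtain ⟨S, τ, hτ, hKS, hS, hbig⟩ := hsc L u hL hcsK
  have hS0S : S0 ≤ S := by
    by_contra h
    have := hbig S0 h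
    linarith
  have hτ1 : τ0 ≤ τ := by
    refine le_trans ?_ hτ
    have h1 : τ0 / κ ≤ u := by linarith
    rw [div_le_iff₀ hκ] at h1
    linarith
  have hητ : η * κ * u ≤ η * τ := by
    have := mul_le_mul_of_nonneg_left hτ hη0.le
    linarith
  have hw00 : (0 : ℝ) ≤ w0 := Nat.cast_nonneg _
  have hw10 : (0 : ℝ) ≤ w1 := Nat.cast_nonneg _
  have hdiv0 : 0 ≤ (N + 10 + 4 * cs + w0 + w1) / η := by positivity
  have h4lN : 0 ≤ 4 * l * (N : ℝ) ^ 2 := by positivity
  have hc1 : 4 * l * (N : ℝ) ^ 2 ≤ τ := by linarith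
  have hcB : Bz ≤ τ := by linarith
  have hc2 : N + 10 + 4 * cs + w0 + w1 ≤ η * τ := by
    have h1 : (N + 10 + 4 * cs + w0 + w1) / η ≤ τ := by linarith
    rw [div_le_iff₀ hη0] at h1
    linarith
  have hτpos : 0 ≤ τ := by linarith
  have hητe : η * τ ≤ V2.eta l N * τ := mul_le_mul_of_nonneg_right hηe hτpos
  have hητ1 : η * τ ≤ τ / 64 := by
    have := mul_le_mul_of_nonneg_right hηle hτpos
    linarith
  -- the field `ℚ(z)` is contained in `S`
  have hzS' : ℚ⟮z⟯ ≤ S := by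
    by_contra h
    have h1 := hbig _ h
    have h2 := hBz L z hz
    have h3 := one_le_absdiscr ℚ⟮z⟯
    have h4 : dd ℚ⟮z⟯ ≤ Real.log Bz := Real.log_le_log (by linarith) h2
    have h5 : Real.log Bz ≤ Bz - 1 := Real.log_le_sub_one_of_pos (by linarith)
    linarith
  have hzS : z ∈ S := hzS' (IntermediateField.mem_adjoin_simple_self ℚ z)
  have hddS : dd S ≤ cs + η * τ / 2 := by
    have : η / 2 * τ = η * τ / 2 := by ring
    rw [← this]
    exact hS
  have hSn : S.fixingSubgroup.Normal := by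
    apply fix_normal
    intro F hF
    have := hbig F hF
    linarith
  have hMS : ¬ M' ≤ S := by
    obtain ⟨K, hK, hKM⟩ := hKM
    exact fun h => hKS K (hKu K hK) (hKM.trans h)
  have hcr := hcrit S.fixingSubgroup hSn (IntermediateField.fixingSubgroup_antitone hS0S)
    (IntermediateField.fixingSubgroup_antitone hzS')
    (fun K hK h => hKS K (hKu K hK) (le_of_fixing h))
  have hlog3 : (w0 : ℝ) ≤ (⌊Real.exp (V2.eta l N * τ)⌋₊ : ℝ) := by
    obtain ⟨-, -, hw3, -, -⟩ := floor_exp (V2.eta l N * τ) (by linarith)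
    refine le_trans ?_ hw3
    have := Real.add_one_le_exp (V2.eta l N * τ - 1)
    linarith
  have hlog4 : (w1 : ℝ) ≤ (⌊Real.exp (η * τ)⌋₊ : ℝ) := by
    obtain ⟨-, -, hw3, -, -⟩ := floor_exp (η * τ) (by linarith)
    refine le_trans ?_ hw3
    have := Real.add_one_le_exp (η * τ - 1)
    linarith
  have hδu : δ * u ≤ c0 * (η * τ) := by
    have : δ * u = c0 * (η * κ * u) := by rw [hδ]; ring
    rw [this]
    exact mul_le_mul_of_nonneg_left hητ hc00.le
  have hητ0 : 0 ≤ η * τ := by positivity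
  have hδu1 : δ * u ≤ η * τ := hδu.trans (mul_le_of_le_one_left hητ0 hc01)
  rcases hcr with hcr | ⟨X, hXM, hzX, heven⟩
  · -- the group theoretic criterion
    obtain ⟨hw1', -, hw3, -, hw5⟩ := floor_exp (V2.eta l N * τ) (by linarith)
    by_cases hram : 2 * dd L ≤ (⌊Real.exp (V2.eta l N * τ)⌋₊ : ℝ) / 128
    swap
    · -- very large discriminant of the closure
      push Not at hram
      have hw0' : (0 : ℝ) < (⌊Real.exp (V2.eta l N * τ)⌋₊ : ℝ) := by exact_mod_cast hw1'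
      have hΛpos : 0 < dd L := by
        by_contra h
        have h1 : dd L = 0 := le_antisymm (not_lt.mp h) hΛ0
        rw [h1] at hram
        linarith
      have h1 : Real.log (⌊Real.exp (V2.eta l N * τ)⌋₊ : ℝ) ≤ Real.log (256 * dd L) := by
        apply Real.log_le_log hw0'
        linarith
      rw [Real.log_mul (by norm_num) hΛpos.ne'] at h1
      have h2 := log_le_eps hε10 hΛpos
      have h3 : Real.log 256 ≤ 6 := by
        rw [show (256 : ℝ) = 2 ^ 8 by norm_num, Real.log_pow]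
        have := Real.log_two_lt_d9
        push_cast
        linarith
      linarith
    have h1 := at_scale (l := l) hl0 hL S M' τ (CT + x) cs (|Real.log CW| + x) cW
      hc1 (by linarith) hcs
      (by positivity) (by positivity) hcW ?_ ?_ hbig hram htriv hev ?_ hMS (fun _ => hcr)
    · have e1 : N * (|Real.log CW| + x + cW + l * (CT + x) + l * cs) + (CT + x) =
          N * (|Real.log CW| + cW + l * CT + l * cs) + CT + (A - 2) * x := by
        rw [hA]; ring
      have e2 : (A - 2) * x ≤ A * x := mul_le_mul_of_nonneg_right (by linarith) hx0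
      linarith
    · refine hddS.trans ?_
      have : V2.eta l N / 2 * τ = V2.eta l N * τ / 2 := by ring
      linarith
    · intro E _ _ hEN hES
      apply hw0 E hEN
      · exact_mod_cast hlog3
      · refine (hES.trans hddS).trans ?_
        linarith
    · intro hlp hl2 F X hFX hsol hdeg hex
      obtain ⟨E, a, hFE, ha1, hal, hE, hcl, hdd⟩ := hst hlp hl2 L F X hFX hL hsol hdeg hex
      refine ⟨E, a, hFE, ha1, hal, hE, ?_, hdd⟩
      have hcE := one_le_card l E
      have hcF := one_le_card l F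
      have hcX := one_le_card l X
      have h2 := Real.log_le_log (by linarith) hcl
      rw [Real.log_mul (by positivity) (by positivity), Real.log_mul (by positivity)
        (by positivity), Real.log_mul (by positivity) (by positivity), Real.log_exp,
        Real.log_pow] at h2
      have h3 := le_abs_self (Real.log CW)
      have h4 : hh l X ≤ Real.log CW + x + a * hh l E + hh l F := h2
      linarith
  · -- even relative degree
    rw [IsGalois.fixedField_fixingSubgroup S] at heven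
    have hkN : finrank ℚ (X ⊓ S : IntermediateField ℚ L) ≤ N := by
      rw [← hL]; exact finrank_le_top (X ⊓ S : IntermediateField ℚ L)
    have hkNC : NC l (X ⊓ S : IntermediateField ℚ L) :=
      nc_of_not_mem hl _ hz (fun h => hzM (hXM h.1))
    have hkRC : RC l (X ⊓ S : IntermediateField ℚ L) :=
      rc_of_mem hl _ hz ⟨hzX, S.add_mem hzS (S.inv_mem hzS)⟩
    have hV : 2 * dd L ≤ C' * Real.log (⌊Real.exp (η * τ)⌋₊ : ℝ) := by
      obtain ⟨-, -, -, -, hw5⟩ := floor_exp (η * τ) (by linarith)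
      have hC'0 : 0 ≤ C' := by positivity
      have h1 : η * τ / 2 ≤ Real.log (⌊Real.exp (η * τ)⌋₊ : ℝ) := by linarith
      have h2 : dd M' ≤ τ / (ε' * κ) := by
        rw [le_div_iff₀ (by positivity)]
        calc dd M' * (ε' * κ) = κ * (ε' * dd M') := by ring
          _ ≤ κ * u := mul_le_mul_of_nonneg_left hlarge2.le hκ.le
          _ ≤ τ := hτ
      have h3 : (1 : ℝ) ≤ τ := by
        have h5 : (1 : ℝ) ≤ 4 * l * (N : ℝ) ^ 2 := by nlinarith
        linarith
      have h4 : ccs N ≤ ccs N * τ := le_mul_of_one_le_right hccs h3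
      have h5 : (N : ℝ) ^ 2 * dd M' ≤ (N : ℝ) ^ 2 * (τ / (ε' * κ)) :=
        mul_le_mul_of_nonneg_left h2 (by positivity)
      calc 2 * dd L ≤ 2 * (ccs N * τ + (N : ℝ) ^ 2 * (τ / (ε' * κ))) := by linarith
        _ = C' * (η * τ / 2) := by
            rw [hC']
            field_simp
            ring
        _ ≤ _ := mul_le_mul_of_nonneg_left h1 hC'0
    have h1 := at_scale_l hl hl2 hL S M X hz hzM hzX hXM hSn hzS heven τ (CT + x) cs η c C' B w1
      hc hc1 (by linarith) hcs hηB hS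
      (hw1 (X ⊓ S : IntermediateField ℚ L) hkN hkRC hkNC)
      (by exact_mod_cast hlog4) hV hbig hev hMS
    have h2 : c0 * (η * τ - 1) ≤ c * (η * τ - 1) :=
      mul_le_mul_of_nonneg_right hc0c (by linarith)
    have h3 : c0 * (η * τ - 1) = c0 * (η * τ) - c0 := by ring
    have h4 : hh l M' ≤ dd M' / 2 + (CT + x) - c * (η * τ - 1) := h1
    linarith

end Pool.Agent.Lib.MP_695920_nt.Gl
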