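import Mathlib
import Pool.Agent.Lib.MP_695920_nt.Gl.Defs

/-!
A step by a solvable polynomial: a term of the derived series of the stabilizer fixes the root.
-/

set_option autoImplicit false

open Finset NumberField Module IsDedekindDomain
open scoped nonZeroDivisors Pointwise IntermediateField

namespace Pool.Agent.Lib.MP_695920_nt.Gl

theorem derived_of_solvable {K L : Type} [Field K] [NumberField K] [Field L] [NumberField L]
    [IsGalois ℚ L] (ψ : K →ₐ[ℚ] L) (E : IntermediateField ℚ K) (α : K)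
    (hs : Group.IsSolvable (minpoly E α).Gal) :
    ∃ k, ∀ x ∈ derivedSeries (E.map ψ).fixingSubgroup k,
      ((x : (E.map ψ).fixingSubgroup) : Gal(L/ℚ)) ∈
        ((E ⊔ ℚ⟮α⟯ : IntermediateField ℚ K).map ψ).fixingSubgroup := by
  classical
  let _ : Algebra E L := ((ψ : K →+* L).comp (algebraMap E K)).toAlgebra
  have halg : ∀ e : E, algebraMap E L e = ψ (e : K) := fun e => rfl
  have : IsScalarTower ℚ E L := IsScalarTower.of_algebraMap_eq fun q => by
    rw [halg]
    simp
  set f := minpoly E α with hf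
  have hαint : IsIntegral E α := Algebra.IsIntegral.isIntegral α
  have hf0 : f ≠ 0 := minpoly.ne_zero hαint
  have hdvd : f ∣ (minpoly ℚ α).map (algebraMap ℚ E) := minpoly.dvd_map_of_isScalarTower ℚ E α
  have hsplit : (f.map (algebraMap E L)).Splits := by
    have h1 : ((minpoly ℚ (ψ α)).map (algebraMap ℚ L)).Splits := Normal.splits inferInstance _
    rw [minpoly.algHom_eq ψ ψ.injective] at h1
    have h2 : f.map (algebraMap E L) ∣ (minpoly ℚ α).map (algebraMap ℚ L) := by
      rw [IsScalarTower.algebraMap_eq ℚ E L, ← Polynomial.map_map]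
      exact Polynomial.map_dvd _ hdvd
    refine h1.of_dvd ?_ h2
    rw [Polynomial.map_ne_zero_iff (algebraMap ℚ L).injective]
    exact minpoly.ne_zero (Algebra.IsIntegral.isIntegral α)
  have : Fact ((f.map (algebraMap E L)).Splits) := ⟨hsplit⟩
  have hroot : ψ α ∈ f.rootSet L := by
    rw [Polynomial.mem_rootSet]
    refine ⟨hf0, ?_⟩
    have h1 : Polynomial.aeval (ψ α) f = ψ (Polynomial.aeval α f) := by
      rw [Polynomial.aeval_def, Polynomial.aeval_def, ← AlgHom.coe_toRingHom ψ,
        Polynomial.hom_eval₂]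
      rfl
    rw [h1, hf, minpoly.aeval, map_zero]
  let φ : (E.map ψ).fixingSubgroup →* Gal(L/E) :=
    { toFun := fun x => AlgEquiv.ofRingEquiv (f := ((x : Gal(L/ℚ)) : L ≃+* L)) (by
        intro e
        rw [halg]
        have := (IntermediateField.mem_fixingSubgroup_iff _ _).1 x.2 (ψ (e : K))
          ⟨(e : K), e.2, rfl⟩
        exact this)
      map_one' := by
        ext y
        rfl
      map_mul' := fun x y => by
        ext z
        rfl }
  have hφ : ∀ (x : (E.map ψ).fixingSubgroup) (y : L), φ x y = (x : Gal(L/ℚ)) y := fun x y => rfl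
  let r : (E.map ψ).fixingSubgroup →* f.Gal := (Polynomial.Gal.restrict f L).comp φ
  obtain ⟨k, hk⟩ := hs.solvable
  refine ⟨k, fun x hx => ?_⟩
  have hrx : r x = 1 := by
    have h1 : r x ∈ derivedSeries f.Gal k :=
      map_derivedSeries_le_derivedSeries r k (Subgroup.mem_map_of_mem r hx)
    rw [hk] at h1
    exact Subgroup.mem_bot.1 h1
  have hxα : (x : Gal(L/ℚ)) (ψ α) = ψ α := by
    have h1 := Polynomial.Gal.restrict_smul (p := f) (E := L) (φ x) ⟨ψ α, hroot⟩
    have h2 : Polynomial.Gal.restrict f L (φ x) = 1 := hrx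
    rw [h2, one_smul] at h1
    rw [← hφ]
    exact h1.symm
  rw [IntermediateField.map_sup, IntermediateField.fixingSubgroup_sup, Subgroup.mem_inf]
  refine ⟨x.2, ?_⟩
  rw [IntermediateField.adjoin_map, Set.image_singleton]
  have h3 : ℚ⟮ψ α⟯ ≤ IntermediateField.fixedField (Subgroup.zpowers (x : Gal(L/ℚ))) := by
    rw [IntermediateField.adjoin_simple_le_iff]
    rintro ⟨g, hg⟩
    obtain ⟨m, rfl⟩ := Subgroup.mem_zpowers_iff.1 hg
    change ((x : Gal(L/ℚ)) ^ m) (ψ α) = ψ α
    have h4 : (x : Gal(L/ℚ)) ∈ MulAction.stabilizer Gal(L/ℚ) (ψ α) := hxα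
    exact (Subgroup.zpow_mem _ h4 m)
  exact (IntermediateField.le_iff_le _ _).1 h3 (Subgroup.mem_zpowers _)

end Pool.Agent.Lib.MP_695920_nt.Gl
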