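import Mathlib
import Pool.Agent.Lib.MP_695920_nt.Gl.Main
import Pool.Agent.Lib.MP_695920_nt.Gl.FDefs
import Pool.Agent.Lib.MP_695920_nt.Gl.Solv
import Pool.Agent.Lib.MP_695920_nt.Sx.Ref

/-!
The `l`-torsion of fields containing `z + z⁻¹` and not `z`, `z` a primitive `l`-th root of unity.
-/

set_option autoImplicit false

open Finset NumberField Module IsDedekindDomain
open scoped nonZeroDivisors Pointwise IntermediateField

namespace Pool.Agent.Lib.MP_695920_nt.Gl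

open Pool.Agent.Lib.MP_695920_nt.Tow Pool.Agent.Lib.MP_695920_nt.Sx
  Pool.Agent.Lib.MP_695920_nt.Solv Pool.Agent.Lib.MP_695920_nt.Tow.V2

theorem main_lat_l {l : ℕ} (hl : l.Prime) (hl2 : l ≠ 2) (n : ℕ) :
    ∃ δ : ℝ, 0 < δ ∧ ∀ ε : ℝ, 0 < ε →
    ∃ C : ℝ, ∀ (L : Type) [Field L] [NumberField L] [IsGalois ℚ L]
      (M S0 : IntermediateField ℚ L) (z : L) (KK : Set (IntermediateField ℚ L)) (T : ℝ),
      IsPrimitiveRoot z l → z ∉ M →
      (M ⊔ ℚ⟮z⟯ : IntermediateField ℚ L).fixingSubgroup.normalCore = ⊥ →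
      finrank ℚ (M ⊔ ℚ⟮z⟯ : IntermediateField ℚ L) = n → 0 < T →
      (∃ K ∈ KK, K ≤ M ⊔ ℚ⟮z⟯) → (∀ K ∈ KK, T ≤ |(discr K : ℝ)|) →
      (∀ N' : Subgroup Gal(L/ℚ), N'.Normal → N' ≤ S0.fixingSubgroup →
        N' ≤ (ℚ⟮z⟯ : IntermediateField ℚ L).fixingSubgroup →
        (∀ K ∈ KK, ¬ N' ≤ K.fixingSubgroup) →
        Crit2 l (M ⊔ ℚ⟮z⟯ : IntermediateField ℚ L).fixingSubgroup N' ∨
        ∃ X : IntermediateField ℚ L, X ≤ M ∧ z + z⁻¹ ∈ X ∧
          2 * finrank ℚ (X ⊓ IntermediateField.fixedField N' : IntermediateField ℚ L) ∣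
            finrank ℚ X) →
      (Nat.card {x : ClassGroup (𝓞 (M ⊔ ℚ⟮z⟯ : IntermediateField ℚ L)) // x ^ l = 1} : ℝ) ≤
        C * |(discr (M ⊔ ℚ⟮z⟯ : IntermediateField ℚ L) : ℝ)| ^ (1 / 2 + ε) *
          |(discr S0 : ℝ)| * T ^ (-δ) := by
  classical
  choose δ hδ hmain using fun (N : ℕ) => main_log_l hl hl2 (N + 1) (Nat.succ_pos N)
  have hinv : ∀ N, 0 < (δ N)⁻¹ := fun N => inv_pos.mpr (hδ N)
  have hne : (range (n.factorial)).Nonempty := ⟨0, Finset.mem_range.mpr n.factorial_pos⟩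
  have hsum : 0 < ∑ N ∈ range (n.factorial), (δ N)⁻¹ := Finset.sum_pos (fun N _ => hinv N) hne
  refine ⟨(∑ N ∈ range (n.factorial), (δ N)⁻¹)⁻¹, inv_pos.mpr hsum, ?_⟩
  intro ε hε
  choose C hC hmain2 using fun (N : ℕ) => hmain N ε hε
  refine ⟨Real.exp (∑ N ∈ range (n.factorial), C N), ?_⟩
  intro L _ _ _ M S0 z KK T hz hzM hcore hn hT0 hKM hKT hcrit
  set M' : IntermediateField ℚ L := M ⊔ ℚ⟮z⟯ with hM'
  set δ' := (∑ N ∈ range (n.factorial), (δ N)⁻¹)⁻¹ with hδ'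
  have hδ'0 : 0 < δ' := inv_pos.mpr hsum
  -- the degree of the closure
  have hLn : finrank ℚ L ≤ n.factorial := by
    rw [← IsGalois.card_aut_eq_finrank ℚ L, ← hn, finrank_index (F := ℚ) M']
    exact card_le_factorial _ hcore
  obtain ⟨N, hN⟩ : ∃ N, finrank ℚ L = N + 1 :=
    Nat.exists_eq_succ_of_ne_zero (finrank_pos : 0 < finrank ℚ L).ne'
  have hNmem : N ∈ range (n.factorial) := Finset.mem_range.mpr (by omega)
  have h2 : δ' ≤ δ N := by
    rw [hδ', inv_le_comm₀ hsum (hδ N)]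
    exact Finset.single_le_sum (f := fun N => (δ N)⁻¹) (fun N _ => (hinv N).le) hNmem
  have hx1 : δ' / δ N ≤ 1 := (div_le_one (hδ N)).mpr h2
  have hx0 : 0 ≤ δ' / δ N := by have := hδ N; positivity
  have h3 : C N ≤ ∑ N ∈ range (n.factorial), C N :=
    Finset.single_le_sum (f := C) (fun N _ => hC N) hNmem
  have hu : ∀ K ∈ KK, δ' / δ N * Real.log T ≤ dd K := by
    intro E hE
    have hTE : Real.log T ≤ dd E := Real.log_le_log hT0 (hKT E hE)
    rcases le_or_gt 0 (Real.log T) with h | h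
    · calc δ' / δ N * Real.log T ≤ 1 * Real.log T := mul_le_mul_of_nonneg_right hx1 h
        _ ≤ dd E := by rw [one_mul]; exact hTE
    · refine le_trans ?_ (dd_nonneg E)
      exact mul_nonpos_of_nonneg_of_nonpos hx0 h.le
  have h1 := hmain2 N L M S0 z KK (δ' / δ N * Real.log T) hN hz hzM hcore hKM hu hcrit
  have h4 : δ N * (δ' / δ N * Real.log T) = δ' * Real.log T := by
    have := (hδ N).ne'
    field_simp
  rw [h4] at h1
  have h5 : hh l M' ≤ (∑ N ∈ range (n.factorial), C N) + (1 / 2 + ε) * dd M' + dd S0 -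
      δ' * Real.log T := by
    have h6 : hh l M' ≤ (1 / 2 + ε) * dd M' + dd S0 - δ' * Real.log T + C N := h1
    linarith
  have hcard := one_le_card l M'
  have hDM := one_le_absdiscr M'
  have hDS := one_le_absdiscr S0
  have h6 : (Nat.card {x : ClassGroup (𝓞 M') // x ^ l = 1} : ℝ) = Real.exp (hh l M') := by
    unfold hh
    rw [Real.exp_log (by linarith)]
  have h7 : |(discr S0 : ℝ)| = Real.exp (dd S0) := by
    unfold dd
    rw [Real.exp_log (by linarith)]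
  rw [h6, h7]
  refine (Real.exp_le_exp.mpr h5).trans (le_of_eq ?_)
  rw [Real.rpow_def_of_pos (by linarith), Real.rpow_def_of_pos hT0, ← Real.exp_add,
    ← Real.exp_add, ← Real.exp_add]
  congr 1
  unfold dd
  ring

section crit

variable {L : Type} [Field L] [NumberField L] [IsGalois ℚ L]

lemma crit_power {l : ℕ} (hl : l.Prime) (hl2 : l ≠ 2) (M : IntermediateField ℚ L) {z : L}
    (hz : IsPrimitiveRoot z l) (hzM : z ∉ M) (hzr : z + z⁻¹ ∈ M) (N : Subgroup Gal(L/ℚ))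
    (hN : N.Normal) (hNz : N ≤ (ℚ⟮z⟯ : IntermediateField ℚ L).fixingSubgroup) {j : ℕ}
    (hj : finrank ℚ M = l ^ j *
      finrank ℚ (M ⊓ IntermediateField.fixedField N : IntermediateField ℚ L))
    (hk : ∃ k, ∀ x ∈ derivedSeries
      (M ⊓ IntermediateField.fixedField N : IntermediateField ℚ L).fixingSubgroup k,
      (x : Gal(L/ℚ)) ∈ M.fixingSubgroup) :
    Crit2 l (M ⊔ ℚ⟮z⟯ : IntermediateField ℚ L).fixingSubgroup N := by
  set R := (ℚ⟮z⟯ : IntermediateField ℚ L).fixingSubgroup with hR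
  set H := M.fixingSubgroup with hH
  set E0 : IntermediateField ℚ L := M ⊓ IntermediateField.fixedField N with hE0
  have hsup : (M ⊔ ℚ⟮z⟯ : IntermediateField ℚ L).fixingSubgroup = H ⊓ R :=
    IntermediateField.fixingSubgroup_sup
  have hE0f : E0.fixingSubgroup = H ⊔ N := by
    rw [hE0, fixing_inf, IntermediateField.fixingSubgroup_fixedField]
  have hzfix : z ∈ IntermediateField.fixedField N := by
    have h1 : (ℚ⟮z⟯ : IntermediateField ℚ L) ≤ IntermediateField.fixedField N := by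
      rw [IntermediateField.le_iff_le]
      exact hNz
    exact h1 (IntermediateField.mem_adjoin_simple_self ℚ z)
  have hzE : z ∉ E0 := fun h => hzM h.1
  have hrE : z + z⁻¹ ∈ E0 :=
    ⟨hzr, (IntermediateField.fixedField N).add_mem hzfix
      ((IntermediateField.fixedField N).inv_mem hzfix)⟩
  have hsupE : (E0 ⊔ ℚ⟮z⟯ : IntermediateField ℚ L).fixingSubgroup = (H ⊔ N) ⊓ R := by
    rw [IntermediateField.fixingSubgroup_sup, hE0f]
  have h4 : H ⊓ R ⊔ N = (H ⊔ N) ⊓ R := by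
    apply le_antisymm
    · apply sup_le
      · exact inf_le_inf_right R le_sup_left
      · exact le_inf le_sup_right hNz
    · intro x hx
      obtain ⟨hx1, hx2⟩ := hx
      have hx3 : x ∈ H ⊔ N := hx1
      rw [Subgroup.mem_sup_of_normal_right] at hx3
      obtain ⟨y, hy, w, hw, rfl⟩ := hx3
      have hyR : y ∈ R := by
        have h5 : w ∈ R := hNz hw
        exact (R.mul_mem_cancel_right h5).mp hx2
      exact Subgroup.mul_mem_sup ⟨hy, hyR⟩ hw
  rw [hsup]
  refine Or.inr (Or.inr ⟨hl, hl2, ⟨j, ?_⟩, ?_⟩)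
  · rw [h4]
    have e1 : (H ⊓ R).index = 2 * finrank ℚ M := by
      rw [← hsup, ← finrank_index (F := ℚ) (M ⊔ ℚ⟮z⟯ : IntermediateField ℚ L),
        finrank_sup_root hl hl2 M hz hzM hzr]
    have e2 : ((H ⊔ N) ⊓ R).index = 2 * finrank ℚ E0 := by
      rw [← hsupE, ← finrank_index (F := ℚ) (E0 ⊔ ℚ⟮z⟯ : IntermediateField ℚ L),
        finrank_sup_root hl hl2 E0 hz hzE hrE]
    have e3 := Subgroup.relIndex_mul_index (inf_le_inf_right R (le_sup_left : H ≤ H ⊔ N))
    rw [e1, e2, hj] at e3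
    have hE0pos : 0 < finrank ℚ E0 := finrank_pos
    apply Nat.eq_of_mul_eq_mul_right (by omega : 0 < 2 * finrank ℚ E0)
    rw [e3]
    ring
  · obtain ⟨k, hk⟩ := hk
    refine ⟨k, fun x hx => ?_⟩
    have hxR : (x : Gal(L/ℚ)) ∈ R := (h4.le x.2).2
    refine ⟨?_, hxR⟩
    have hle : H ⊓ R ⊔ N ≤ E0.fixingSubgroup := by
      rw [hE0f, h4]
      exact inf_le_left
    have h6 := map_derivedSeries_le_derivedSeries (Subgroup.inclusion hle) k
      (Subgroup.mem_map_of_mem _ hx)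
    exact hk _ h6

lemma exists_aut_comp {K : Type} [Field K] [NumberField K] (φ s : K →ₐ[ℚ] L) :
    ∃ σ : L ≃ₐ[ℚ] L, ∀ x : K, σ (φ x) = s x := by
  let e : φ.fieldRange ≃ₐ[ℚ] s.fieldRange :=
    (AlgEquiv.ofInjectiveField φ).symm.trans (AlgEquiv.ofInjectiveField s)
  refine ⟨e.liftNormal L, fun x => ?_⟩
  have h1 := AlgEquiv.liftNormal_commutes e L (AlgEquiv.ofInjectiveField φ x)
  have h2 : e (AlgEquiv.ofInjectiveField φ x) = AlgEquiv.ofInjectiveField s x := by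
    change AlgEquiv.ofInjectiveField s ((AlgEquiv.ofInjectiveField φ).symm
      (AlgEquiv.ofInjectiveField φ x)) = _
    rw [AlgEquiv.symm_apply_apply]
  rw [h2] at h1
  exact h1

/-- the elements of `N` do not sweep, or the sweeping elements do not generate -/
lemma mild_crit {K : Type} [Field K] [NumberField K] (φ : K →ₐ[ℚ] L)
    (N : Subgroup Gal(L/ℚ)) (hN : N.Normal)
    (hm : Mild ((φ.fieldRange ⊓ IntermediateField.fixedField N :
      IntermediateField ℚ L).comap φ)) {H : Subgroup Gal(L/ℚ)}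
    (hH : H ≤ φ.fieldRange.fixingSubgroup) :
    (∀ g ∈ N, g ∉ cset H N) ∨ cgrp H N ≠ ⊤ := by
  set F : IntermediateField ℚ K := (φ.fieldRange ⊓ IntermediateField.fixedField N :
      IntermediateField ℚ L).comap φ with hF
  have hmem : ∀ x : K, x ∈ F ↔ φ x ∈ IntermediateField.fixedField N :=
    fun x => ⟨fun h => h.2, fun h => ⟨⟨x, rfl⟩, h⟩⟩
  have hfix : ∀ g ∈ N, FixesEl F g := by
    intro g hg s x hx
    obtain ⟨σ, hσ⟩ := exists_aut_comp φ s
    rw [← hσ]
    have h1 := (hmem x).mp hx ⟨σ⁻¹ * g * σ⁻¹⁻¹, hN.conj_mem g hg σ⁻¹⟩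
    have h2 : (σ⁻¹ * g * σ⁻¹⁻¹) (φ x) = φ x := h1
    rw [inv_inv, AlgEquiv.mul_apply, AlgEquiv.mul_apply] at h2
    have h3 := congrArg σ h2
    rw [← AlgEquiv.mul_apply, mul_inv_cancel, AlgEquiv.one_apply] at h3
    exact h3
  have hinert : ∀ g ∈ cset H N, InertEl F g := by
    intro g hg s t hst
    obtain ⟨σ, hσ⟩ := exists_aut_comp φ s
    obtain ⟨τ, hτ⟩ := exists_aut_comp φ t
    have h1 : σ⁻¹ * τ ∈ (φ.fieldRange ⊓ IntermediateField.fixedField N :
        IntermediateField ℚ L).fixingSubgroup := by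
      rw [IntermediateField.mem_fixingSubgroup_iff]
      rintro y ⟨⟨x, rfl⟩, hy⟩
      have h2 := hst x ((hmem x).mpr hy)
      rw [← hσ, ← hτ] at h2
      change σ⁻¹ (τ (φ x)) = φ x
      rw [← h2, ← AlgEquiv.mul_apply, inv_mul_cancel, AlgEquiv.one_apply]
    rw [fixing_inf, IntermediateField.fixingSubgroup_fixedField, sup_comm,
      Subgroup.mem_sup_of_normal_left] at h1
    obtain ⟨n, hn, h, hh, e1⟩ := h1
    obtain ⟨i, k, hk, e⟩ := hg (σ * n * σ⁻¹) (hN.conj_mem n hn σ) σ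
    refine ⟨i, fun x => ?_⟩
    have hkx : ∀ g' : L ≃ₐ[ℚ] L, g' ∈ φ.fieldRange.fixingSubgroup → g' (φ x) = φ x := by
      intro g' hg'
      rw [IntermediateField.mem_fixingSubgroup_iff] at hg'
      exact hg' (φ x) ⟨x, rfl⟩
    have e2 : τ = g ^ i * σ * k * h := by
      calc τ = σ * (σ⁻¹ * τ) := by group
        _ = σ * (n * h) := by rw [e1]
        _ = σ * n * σ⁻¹ * σ * h := by group
        _ = g ^ i * σ * k * h := by rw [e]
    rw [← hσ, ← hτ, e2]
    rw [AlgEquiv.mul_apply, AlgEquiv.mul_apply, AlgEquiv.mul_apply, hkx h hh, hkx k (hH hk)]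
  rcases hm L ⟨φ⟩ with h | ⟨y, hy, h⟩
  · left
    intro g hg hgc
    exact h g (hfix g hg) (hinert g hgc)
  · right
    intro htop
    apply hy
    refine (IsGalois.mem_range_algebraMap_iff_fixed y).mpr ?_
    intro g
    have hle : cgrp H N ≤ MulAction.stabilizer (L ≃ₐ[ℚ] L) y := by
      unfold cgrp
      rw [Subgroup.closure_le]
      rintro g (hg | hg)
      · exact h g (Or.inr (hinert g hg))
      · exact h g (Or.inl (hfix g hg))
    rw [htop] at hle
    exact hle (Subgroup.mem_top g)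

end crit

/-- a root of unity in a quadratic extension with given real part -/
lemma exists_adjoin_r {l : ℕ} (hl : l.Prime) (hl2 : l ≠ 2) (K : Type) [Field K] [NumberField K]
    {r : K} (hr : RR l r) (hN : NC l K) :
    ∃ (K' : Type) (_ : Field K') (_ : NumberField K') (_ : Algebra K K') (z : 𝓞 K'),
      finrank K K' = 2 ∧ IsPrimitiveRoot z l ∧ K⟮(z : K')⟯ = ⊤ ∧
        algebraMap K K' r = (z : K') + (z : K')⁻¹ := by
  have hne : NeZero l := ⟨hl.ne_zero⟩
  obtain ⟨w, hw, hwr⟩ := hr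
  obtain ⟨K', _, _, _, z, h2, hz, htop⟩ := exists_adjoin_l hl hl2 K ⟨w, r, hw, hwr⟩ hN
  have hfd : FiniteDimensional K K' := Module.finite_of_finrank_pos (by rw [h2]; norm_num)
  let ψ : K' →ₐ[K] AlgebraicClosure K := IsAlgClosed.lift
  have hzK : IsPrimitiveRoot (z : K') l :=
    (IsPrimitiveRoot.map_iff_of_injective (f := algebraMap (𝓞 K') K')
      RingOfIntegers.coe_injective).mpr hz
  have hψz : IsPrimitiveRoot (ψ (z : K')) l := hzK.map_of_injective ψ.injective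
  obtain ⟨i, hi, hiw⟩ := hψz.eq_pow_of_pow_eq_one hw.pow_eq_one
  have hzi : ψ ((z : K') ^ i) = w := by rw [map_pow, hiw]
  have hprim : IsPrimitiveRoot ((z : K') ^ i) l := by
    rw [← hzi] at hw
    exact (IsPrimitiveRoot.map_iff_of_injective (f := ψ) ψ.injective).mp hw
  have hprim' : IsPrimitiveRoot (z ^ i) l := by
    refine (IsPrimitiveRoot.map_iff_of_injective (f := algebraMap (𝓞 K') K')
      RingOfIntegers.coe_injective).mp ?_
    rw [map_pow]
    exact hprim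
  have hcoe : ((z ^ i : 𝓞 K') : K') = (z : K') ^ i := map_pow (algebraMap (𝓞 K') K') z i
  refine ⟨K', inferInstance, inferInstance, inferInstance, z ^ i, h2, hprim', ?_, ?_⟩
  · rw [hcoe]
    rw [eq_top_iff, ← htop, IntermediateField.adjoin_simple_le_iff]
    obtain ⟨i', hi', hz'⟩ := hprim.eq_pow_of_pow_eq_one hzK.pow_eq_one
    have h5 := pow_mem (IntermediateField.mem_adjoin_simple_self K ((z : K') ^ i)) i'
    rwa [hz'] at h5
  · rw [hcoe]
    apply ψ.injective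
    change ψ (algebraMap K K' r) = ψ ((z : K') ^ i + ((z : K') ^ i)⁻¹)
    rw [map_add, map_inv₀, hzi, ← hwr]
    exact ψ.commutes r

lemma tl_le_of_equiv (l : ℕ) {A B : Type} [Field A] [NumberField A] [Field B] [NumberField B]
    (e : A ≃ₐ[ℚ] B) : tl l A ≤ tl l B :=
  Pool.Agent.Lib.MP_695920_nt.Solv.card_tors_le_of_equiv (RingOfIntegers.mapRingEquiv e.toRingEquiv) l

lemma tl_eq_of_equiv (l : ℕ) {A B : Type} [Field A] [NumberField A] [Field B] [NumberField B]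
    (e : A ≃ₐ[ℚ] B) : tl l A = tl l B :=
  le_antisymm (tl_le_of_equiv l e) (tl_le_of_equiv l e.symm)

theorem any_l {l : ℕ} (hl : l.Prime) (hl2 : l ≠ 2) (n : ℕ) :
    ∃ δ : ℝ, 0 < δ ∧ ∀ ε : ℝ, 0 < ε → ∃ C : ℝ,
    ∀ (K : Type) [Field K] [NumberField K] (r : K) (S0 : IntermediateField ℚ K) (T : ℝ),
      finrank ℚ K = n → RR l r → NC l K → 0 < T →
      (∀ E : IntermediateField ℚ K, S0 ≤ E → r ∈ E →
        (E ≠ ⊤ → ¬ Fine l E ∧ ¬ EvenX r E) → T ≤ |(discr E : ℝ)|) →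
      (tl l K : ℝ) ≤ C * |(discr K : ℝ)| ^ (1 / 2 + ε) * |(discr S0 : ℝ)| * T ^ (-δ) := by
  obtain ⟨δ, hδ, hmain⟩ := main_lat_l hl hl2 (2 * n)
  obtain ⟨B, hB0, hB⟩ := discr_adjoin_root_le hl hl2 n
  refine ⟨δ / 2, by positivity, fun ε hε => ?_⟩
  obtain ⟨C, hC⟩ := hmain ε hε
  refine ⟨Real.sqrt (((l : ℝ) ^ 2) ^ n * (|C| * B ^ (1 / 2 + ε))), ?_⟩
  intro K _ _ r S0 T hn hr hN hT hbad
  obtain ⟨K', _, _, _, z, hK2, hz, htop, hzr⟩ := exists_adjoin_r hl hl2 K hr hN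
  obtain ⟨L, _, _, _, φ, hcore⟩ := Sx.exists_closure K'
  let ι : K →ₐ[ℚ] K' := (algebraMap K K').toRatAlgHom
  have hι : ∀ x, ι x = algebraMap K K' x := fun x => rfl
  have hsup := fieldRange_eq_sup (z : K') htop φ ι hι
  set M : IntermediateField ℚ L := (φ.comp ι).fieldRange with hM
  let eM' : K' ≃ₐ[ℚ] φ.fieldRange := AlgEquiv.ofInjectiveField φ
  have hzK : IsPrimitiveRoot (z : K') l :=
    (IsPrimitiveRoot.map_iff_of_injective (f := algebraMap (𝓞 K') K')
      RingOfIntegers.coe_injective).mpr hz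
  have hzL : IsPrimitiveRoot (φ (z : K')) l := hzK.map_of_injective φ.injective
  have hzM : φ (z : K') ∉ M := by
    rintro ⟨x, hx⟩
    apply hN x
    have h1 : (φ.comp ι) x = φ (z : K') := hx
    rw [← h1] at hzL
    exact (IsPrimitiveRoot.map_iff_of_injective (f := φ.comp ι) (φ.comp ι).injective).mp hzL
  have hrL : (φ.comp ι) r = φ (z : K') + (φ (z : K'))⁻¹ := by
    rw [← map_inv₀, ← map_add, ← hzr]
    rfl
  have hfinM' : finrank ℚ φ.fieldRange = 2 * n := by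
    rw [← hn, mul_comm, ← hK2, finrank_mul_finrank ℚ K K']
    exact (eM'.toLinearEquiv.finrank_eq).symm
  have hmapfin : ∀ X : IntermediateField ℚ K, finrank ℚ (X.map (φ.comp ι)) = finrank ℚ X :=
    fun X => ((IntermediateField.equivMap X (φ.comp ι)).toLinearEquiv.finrank_eq).symm
  have hmapM : ∀ X : IntermediateField ℚ K, X.map (φ.comp ι) ≤ M := by
    rintro X _ ⟨x, -, rfl⟩
    exact ⟨x, rfl⟩
  set KK : Set (IntermediateField ℚ L) := {F | ∃ E : IntermediateField ℚ K, S0 ≤ E ∧ r ∈ E ∧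
    (E ≠ ⊤ → ¬ Fine l E ∧ ¬ EvenX r E) ∧ E.map (φ.comp ι) = F} with hKK
  have htopK : (⊤ : IntermediateField ℚ K).map (φ.comp ι) ∈ KK :=
    ⟨⊤, le_top, IntermediateField.mem_top, fun h => absurd rfl h, rfl⟩
  have h1 := hC L M (S0.map (φ.comp ι)) (φ (z : K')) KK T hzL hzM (by rw [hsup]; exact hcore)
    (by rw [hsup]; exact hfinM') hT ⟨_, htopK, (hmapM _).trans le_sup_left⟩ (by
      rintro F ⟨E, h1, h2, h3, rfl⟩
      rw [← absDiscr_eq_of_equiv (IntermediateField.equivMap E (φ.comp ι))]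
      exact hbad E h1 h2 h3) (by
      intro N' hN' hNS hNz hNK
      set E0 : IntermediateField ℚ L := M ⊓ IntermediateField.fixedField N' with hE0
      have hE0f : E0.fixingSubgroup = M.fixingSubgroup ⊔ N' := by
        rw [hE0, fixing_inf, IntermediateField.fixingSubgroup_fixedField]
      let E : IntermediateField ℚ K := E0.comap (φ.comp ι)
      have hmap : E.map (φ.comp ι) = E0 := by
        ext y
        constructor
        · rintro ⟨x, hx, rfl⟩
          exact hx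
        · intro hy
          obtain ⟨x, rfl⟩ := hy.1
          exact ⟨x, hy, rfl⟩
      have hzfix : φ (z : K') ∈ IntermediateField.fixedField N' := by
        have h1 : (ℚ⟮φ (z : K')⟯ : IntermediateField ℚ L) ≤ IntermediateField.fixedField N' := by
          rw [IntermediateField.le_iff_le]
          exact hNz
        exact h1 (IntermediateField.mem_adjoin_simple_self ℚ _)
      have hSE : S0 ≤ E := by
        intro x hx
        refine ⟨⟨x, rfl⟩, ?_⟩
        have h1 : S0.map (φ.comp ι) ≤ IntermediateField.fixedField N' := by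
          rw [IntermediateField.le_iff_le]
          exact hNS
        exact h1 ⟨x, hx, rfl⟩
      have hrE : r ∈ E := by
        refine ⟨⟨r, rfl⟩, ?_⟩
        have h1 := (IntermediateField.fixedField N').add_mem hzfix
          ((IntermediateField.fixedField N').inv_mem hzfix)
        rw [← hrL] at h1
        exact h1
      have hfine : (Fine l E ∨ EvenX r E) := by
        by_contra hcon
        apply hNK E0 ⟨E, hSE, hrE, fun _ => not_or.mp hcon, hmap⟩
        rw [hE0f]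
        exact le_sup_right
      rcases hfine with (⟨⟨j, hj⟩, α, hα, hsol⟩ | hcyc) | ⟨X, hrX, hX⟩
      · left
        apply crit_power hl hl2 M hzL hzM (hrL ▸ ⟨r, rfl⟩) N' hN' hNz (j := j)
        · rw [← hE0, ← hmap, hmapfin]
          have e1 : finrank ℚ M = finrank ℚ K :=
            ((AlgEquiv.ofInjectiveField (φ.comp ι)).toLinearEquiv.finrank_eq).symm
          rw [e1, ← finrank_mul_finrank ℚ E K, hj, mul_comm]
        · obtain ⟨k, hk⟩ := derived_of_solvable (φ.comp ι) E α hsol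
          rw [hα] at hk
          refine ⟨k, ?_⟩
          rw [← hE0, ← hmap]
          intro x hx
          have h2 := hk x hx
          have h3 : (⊤ : IntermediateField ℚ K).map (φ.comp ι) = M := by
            apply le_antisymm (hmapM _)
            rintro _ ⟨x, rfl⟩
            exact ⟨x, trivial, rfl⟩
          rwa [h3] at h2
      · left
        rcases mild_crit (φ.comp ι) N' hN' hcyc
          (H := (M ⊔ ℚ⟮φ (z : K')⟯ : IntermediateField ℚ L).fixingSubgroup)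
          (IntermediateField.fixingSubgroup_antitone le_sup_left) with h | h
        · exact Or.inl h
        · exact Or.inr (Or.inl h)
      · right
        refine ⟨X.map (φ.comp ι), hmapM X, hrL ▸ ⟨r, hrX, rfl⟩, ?_⟩
        have h3 : (X.map (φ.comp ι) ⊓ IntermediateField.fixedField N' : IntermediateField ℚ L) =
            (X ⊓ E).map (φ.comp ι) := by
          apply le_antisymm
          · rintro _ ⟨⟨x, hx, rfl⟩, h4⟩
            exact ⟨x, ⟨hx, ⟨⟨x, rfl⟩, h4⟩⟩, rfl⟩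
          · rintro _ ⟨x, ⟨hx, hy⟩, rfl⟩
            exact ⟨⟨x, hx, rfl⟩, hy.2⟩
        rw [h3, hmapfin, hmapfin]
        exact hX)
  rw [hsup] at h1
  have h2 : (Nat.card {x : ClassGroup (𝓞 φ.fieldRange) // x ^ l = 1} : ℝ) = tl l K' := by
    rw [tl_eq_of_equiv l eM']
    rfl
  rw [h2, ← absDiscr_eq_of_equiv eM',
    ← absDiscr_eq_of_equiv (IntermediateField.equivMap S0 (φ.comp ι))] at h1
  have h3 : (tl l K : ℝ) ^ 2 ≤ ((l : ℝ) ^ 2) ^ n * tl l K' := by
    have := reflection_l hl hl2 hK2 hz hN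
    rw [hn] at this
    exact_mod_cast this
  have h4 := hB K K' z hn hK2 hz hN
  have hS01 : 1 ≤ |(discr S0 : ℝ)| := one_le_absdiscr S0
  have hTp : 0 < T ^ (-δ) := Real.rpow_pos_of_pos hT _
  have hDK : 0 ≤ |(discr K : ℝ)| := abs_nonneg _
  have hmono : |(discr K' : ℝ)| ^ (1 / 2 + ε) ≤
      B ^ (1 / 2 + ε) * (|(discr K : ℝ)| ^ 2) ^ (1 / 2 + ε) := by
    rw [← Real.mul_rpow hB0 (by positivity)]
    exact Real.rpow_le_rpow (abs_nonneg _) h4 (by positivity)
  have hpow : (|(discr K : ℝ)| ^ 2) ^ (1 / 2 + ε) = (|(discr K : ℝ)| ^ (1 / 2 + ε)) ^ 2 := by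
    rw [← Real.rpow_natCast, ← Real.rpow_natCast, ← Real.rpow_mul hDK, ← Real.rpow_mul hDK,
      mul_comm]
  have hTpow : T ^ (-δ) = (T ^ (-(δ / 2))) ^ 2 := by
    rw [← Real.rpow_natCast, ← Real.rpow_mul hT.le]
    congr 1
    push_cast
    ring
  have hSsq : |(discr S0 : ℝ)| ≤ |(discr S0 : ℝ)| ^ 2 := by
    nlinarith
  have hBp : 0 ≤ B ^ (1 / 2 + ε) := Real.rpow_nonneg hB0 _
  have h6 : (tl l K' : ℝ) ≤ (|C| * B ^ (1 / 2 + ε)) *
      ((|(discr K : ℝ)| ^ (1 / 2 + ε)) ^ 2 * |(discr S0 : ℝ)| ^ 2 * (T ^ (-(δ / 2))) ^ 2) := by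
    calc (tl l K' : ℝ) ≤ C * |(discr K' : ℝ)| ^ (1 / 2 + ε) * |(discr S0 : ℝ)| * T ^ (-δ) := h1
      _ ≤ |C| * (B ^ (1 / 2 + ε) * (|(discr K : ℝ)| ^ 2) ^ (1 / 2 + ε)) *
          |(discr S0 : ℝ)| ^ 2 * T ^ (-δ) := by
        apply mul_le_mul_of_nonneg_right _ hTp.le
        apply mul_le_mul _ hSsq (abs_nonneg _) (by positivity)
        exact mul_le_mul (le_abs_self C) hmono (by positivity) (abs_nonneg _)
      _ = _ := by rw [hpow, hTpow]; ring
  have h7 : (tl l K : ℝ) ^ 2 ≤ (((l : ℝ) ^ 2) ^ n * (|C| * B ^ (1 / 2 + ε))) *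
      ((|(discr K : ℝ)| ^ (1 / 2 + ε)) * |(discr S0 : ℝ)| * (T ^ (-(δ / 2)))) ^ 2 := by
    calc (tl l K : ℝ) ^ 2 ≤ ((l : ℝ) ^ 2) ^ n * tl l K' := h3
      _ ≤ ((l : ℝ) ^ 2) ^ n * ((|C| * B ^ (1 / 2 + ε)) *
          ((|(discr K : ℝ)| ^ (1 / 2 + ε)) ^ 2 * |(discr S0 : ℝ)| ^ 2 *
            (T ^ (-(δ / 2))) ^ 2)) :=
        mul_le_mul_of_nonneg_left h6 (by positivity)
      _ = _ := by ring
  have h8 : (tl l K : ℝ) ≤ Real.sqrt ((((l : ℝ) ^ 2) ^ n * (|C| * B ^ (1 / 2 + ε))) *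
      ((|(discr K : ℝ)| ^ (1 / 2 + ε)) * |(discr S0 : ℝ)| * (T ^ (-(δ / 2)))) ^ 2) :=
    Real.le_sqrt_of_sq_le h7
  rw [Real.sqrt_mul (by positivity), Real.sqrt_sq (by positivity)] at h8
  linarith

end Pool.Agent.Lib.MP_695920_nt.Gl
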