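import Mathlib
import Pool.Agent.Lib.MP_695920_nt.Gl.Final
import Pool.Agent.Lib.MP_695920_nt.Tow.CritMain

/-!
The bound for one step.
-/

set_option autoImplicit false

open Finset NumberField Module IsDedekindDomain
open scoped nonZeroDivisors Pointwise IntermediateField

namespace Pool.Agent.Lib.MP_695920_nt.Gl

open Pool.Agent.Lib.MP_695920_nt.Tow Pool.Agent.Lib.MP_695920_nt.Sx
  Pool.Agent.Lib.MP_695920_nt.Solv Pool.Agent.Lib.MP_695920_nt.Tow.V2

section crit

variable {L : Type} [Field L] [NumberField L] [IsGalois ℚ L]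

lemma crit_power' {l : ℕ} (hl : l.Prime) (hl2 : l ≠ 2) (M : IntermediateField ℚ L)
    (N : Subgroup Gal(L/ℚ)) {j : ℕ}
    (hj : finrank ℚ M = l ^ j *
      finrank ℚ (M ⊓ IntermediateField.fixedField N : IntermediateField ℚ L))
    (hk : ∃ k, ∀ x ∈ derivedSeries
      (M ⊓ IntermediateField.fixedField N : IntermediateField ℚ L).fixingSubgroup k,
      (x : Gal(L/ℚ)) ∈ M.fixingSubgroup) :
    Crit2 l M.fixingSubgroup N := by
  set H := M.fixingSubgroup with hH
  set E0 : IntermediateField ℚ L := M ⊓ IntermediateField.fixedField N with hE0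
  have hE0f : E0.fixingSubgroup = H ⊔ N := by
    rw [hE0, fixing_inf, IntermediateField.fixingSubgroup_fixedField]
  refine Or.inr (Or.inr ⟨hl, hl2, ⟨j, ?_⟩, ?_⟩)
  · have e1 : H.index = finrank ℚ M := (finrank_index (F := ℚ) M).symm
    have e2 : (H ⊔ N).index = finrank ℚ E0 := by
      rw [← hE0f, ← finrank_index (F := ℚ) E0]
    have e3 := Subgroup.relIndex_mul_index (le_sup_left : H ≤ H ⊔ N)
    rw [e1, e2, hj] at e3
    have hE0pos : 0 < finrank ℚ E0 := finrank_pos
    exact Nat.eq_of_mul_eq_mul_right hE0pos e3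
  · rw [hE0f] at hk
    exact hk

end crit

lemma absDiscr_top (K : Type) [Field K] [NumberField K] :
    |(discr (⊤ : IntermediateField ℚ K) : ℝ)| = |(discr K : ℝ)| :=
  absDiscr_eq_of_equiv (IntermediateField.topEquiv (F := ℚ) (E := K))

theorem step_T {l : ℕ} (hl : l.Prime) (hl2 : l ≠ 2) (n : ℕ) :
    ∃ δ : ℝ, 0 < δ ∧ ∀ ε : ℝ, 0 < ε → ∃ C : ℝ,
    ∀ (K : Type) [Field K] [NumberField K] (E : IntermediateField ℚ K) (T : ℝ),
      finrank ℚ K = n → 0 < T →
      (∀ F : IntermediateField ℚ K, E ≤ F → (F ≠ ⊤ → ¬ Fine l F) → T ≤ |(discr F : ℝ)|) →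
      (tl l K : ℝ) ≤ C * |(discr K : ℝ)| ^ (1 / 2 + ε) * |(discr E : ℝ)| * T ^ (-δ) := by
  obtain ⟨δ, hδ, hmain⟩ := crit_main n l hl.pos
  refine ⟨δ, hδ, fun ε hε => ?_⟩
  obtain ⟨C, hC⟩ := hmain ε hε
  refine ⟨C, ?_⟩
  intro K _ _ E T hn hT hfine
  obtain ⟨L, _, _, _, φ, hcore⟩ := Sx.exists_closure K
  set M : IntermediateField ℚ L := φ.fieldRange with hM
  let eM : K ≃ₐ[ℚ] M := AlgEquiv.ofInjectiveField φ
  have hmapfin : ∀ X : IntermediateField ℚ K, finrank ℚ (X.map φ) = finrank ℚ X :=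
    fun X => ((IntermediateField.equivMap X φ).toLinearEquiv.finrank_eq).symm
  have hmapM : ∀ X : IntermediateField ℚ K, X.map φ ≤ M := by
    rintro X _ ⟨x, -, rfl⟩
    exact ⟨x, rfl⟩
  have hMn : finrank ℚ M = n := by
    rw [← hn]
    exact (eM.toLinearEquiv.finrank_eq).symm
  have hDM : |(discr M : ℝ)| = |(discr K : ℝ)| := (absDiscr_eq_of_equiv eM).symm
  set KK : Set (IntermediateField ℚ L) := {F | ∃ F' : IntermediateField ℚ K, E ≤ F' ∧
    (F' ≠ ⊤ → ¬ Fine l F') ∧ F'.map φ = F} with hKK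
  have h1 := hC L M (E.map φ) KK T hMn hcore hT
    ⟨_, ⟨⊤, le_top, fun h => absurd rfl h, rfl⟩, hmapM _⟩ (by
      rintro F ⟨F', h1, h2, rfl⟩
      rw [← absDiscr_eq_of_equiv (IntermediateField.equivMap F' φ)]
      exact hfine F' h1 h2) (by
      intro N' hN' hNS hNK
      set E0 : IntermediateField ℚ L := M ⊓ IntermediateField.fixedField N' with hE0
      let F : IntermediateField ℚ K := E0.comap φ
      have hmap : F.map φ = E0 := by
        ext y
        constructor
        · rintro ⟨x, hx, rfl⟩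
          exact hx
        · intro hy
          obtain ⟨x, rfl⟩ := hy.1
          exact ⟨x, hy, rfl⟩
      have hEF : E ≤ F := by
        intro x hx
        refine ⟨⟨x, rfl⟩, ?_⟩
        have h1 : E.map φ ≤ IntermediateField.fixedField N' := by
          rw [IntermediateField.le_iff_le]
          exact hNS
        exact h1 ⟨x, hx, rfl⟩
      have htopM : (⊤ : IntermediateField ℚ K).map φ = M := by
        apply le_antisymm (hmapM _)
        rintro _ ⟨x, rfl⟩
        exact ⟨x, trivial, rfl⟩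
      have hF : Fine l F := by
        by_contra hcon
        apply hNK E0 ⟨F, hEF, fun _ => hcon, hmap⟩
        rw [← IntermediateField.le_iff_le]
        exact inf_le_right
      rcases hF with ⟨⟨j, hj⟩, α, hα, hsol⟩ | hcyc
      · apply crit_power' hl hl2 M N' (j := j)
        · rw [← hE0, ← hmap, hmapfin, hMn, ← hn, ← finrank_mul_finrank ℚ F K, hj, mul_comm]
        · obtain ⟨k, hk⟩ := derived_of_solvable φ F α hsol
          rw [hα, htopM] at hk
          rw [← hE0, ← hmap]
          exact ⟨k, hk⟩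
      · rcases mild_crit φ N' hN' hcyc (H := M.fixingSubgroup) le_rfl with h | h
        · exact Or.inl h
        · exact Or.inr (Or.inl h))
  have h2 : (Nat.card {x : ClassGroup (𝓞 M) // x ^ l = 1} : ℝ) = tl l K := by
    rw [tl_eq_of_equiv l eM]
    rfl
  rw [h2, hDM, ← absDiscr_eq_of_equiv (IntermediateField.equivMap E φ)] at h1
  exact h1

end Pool.Agent.Lib.MP_695920_nt.Gl
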