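import Mathlib
import Pool.Agent.Lib.MP_695920_nt.Gl.StepBound
import Pool.Agent.Lib.MP_695920_nt.Gl.RelTl
import Pool.Agent.Lib.MP_695920_nt.Gl.ClassNum
import Pool.Agent.Lib.MP_695920_nt.Qg.FinE
import Pool.Agent.Lib.MP_695920_nt.Refl.CompDisc

/-!
The bound for one step, quadratic steps for `l = 3` included.
-/

set_option autoImplicit false

open Finset NumberField Module IsDedekindDomain
open scoped nonZeroDivisors Pointwise IntermediateField

namespace Pool.Agent.Lib.MP_695920_nt.Gl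

open Pool.Agent.Lib.MP_695920_nt.Tow Pool.Agent.Lib.MP_695920_nt.Sx
  Pool.Agent.Lib.MP_695920_nt.Solv

lemma combineA {t D D1 D2 A B ε δ1 δ3 : ℝ} {a : ℕ} (hδ1 : 0 < δ1) (hδ3 : 0 < δ3) (hA : 0 ≤ A)
    (hB : 0 ≤ B) (hD1 : 1 ≤ D1) (hD : 1 ≤ D) (hD2 : 1 ≤ D2)
    (h1 : t ≤ A * D ^ (1 / 2 + ε) * D2 * D1 ^ (-δ1))
    (h2 : t ≤ B * D ^ (1 / 2 + ε) * D1 ^ a * D ^ (-δ3)) :
    t ≤ (A + B) * D ^ (1 / 2 + ε) * D2 * D ^ (-(δ3 / (a + δ1) * δ1)) := by
  have hDe : 0 < D ^ (1 / 2 + ε) := Real.rpow_pos_of_pos (by linarith) _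
  have hDx : 0 < D ^ (-(δ3 / (a + δ1) * δ1)) := Real.rpow_pos_of_pos (by linarith) _
  have ha1 : 0 < (a : ℝ) + δ1 := by positivity
  set b : ℝ := δ3 / (a + δ1) with hb
  have hb0 : 0 < b := by positivity
  rcases le_or_gt (D ^ b) D1 with h | h
  · have h3 : D1 ^ (-δ1) ≤ D ^ (-(b * δ1)) := by
      have h4 : D ^ (-(b * δ1)) = (D ^ b) ^ (-δ1) := by
        rw [← Real.rpow_mul (by linarith)]
        congr 1
        ring
      rw [h4]
      exact Real.rpow_le_rpow_of_nonpos (Real.rpow_pos_of_pos (by linarith) _) h (by linarith)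
    calc t ≤ A * D ^ (1 / 2 + ε) * D2 * D1 ^ (-δ1) := h1
      _ ≤ A * D ^ (1 / 2 + ε) * D2 * D ^ (-(b * δ1)) :=
        mul_le_mul_of_nonneg_left h3 (by positivity)
      _ ≤ (A + B) * D ^ (1 / 2 + ε) * D2 * D ^ (-(b * δ1)) := by
        apply mul_le_mul_of_nonneg_right _ hDx.le
        apply mul_le_mul_of_nonneg_right _ (by linarith)
        apply mul_le_mul_of_nonneg_right _ hDe.le
        linarith
  · have h3 : D1 ^ a * D ^ (-δ3) ≤ D ^ (-(b * δ1)) := by
      have h4 : D ^ (-(b * δ1)) = (D ^ b) ^ a * D ^ (-δ3) := by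
        rw [← Real.rpow_natCast, ← Real.rpow_mul (by linarith), ← Real.rpow_add (by linarith)]
        congr 1
        rw [hb]
        field_simp
        ring
      rw [h4]
      exact mul_le_mul_of_nonneg_right (pow_le_pow_left₀ (by linarith) h.le a)
        (Real.rpow_pos_of_pos (by linarith) _).le
    calc t ≤ B * D ^ (1 / 2 + ε) * D1 ^ a * D ^ (-δ3) := h2
      _ = B * D ^ (1 / 2 + ε) * (D1 ^ a * D ^ (-δ3)) := by ring
      _ ≤ B * D ^ (1 / 2 + ε) * D ^ (-(b * δ1)) := mul_le_mul_of_nonneg_left h3 (by positivity)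
      _ ≤ (A + B) * D ^ (1 / 2 + ε) * D ^ (-(b * δ1)) := by
        apply mul_le_mul_of_nonneg_right _ hDx.le
        apply mul_le_mul_of_nonneg_right _ hDe.le
        linarith
      _ = (A + B) * D ^ (1 / 2 + ε) * 1 * D ^ (-(b * δ1)) := by ring
      _ ≤ (A + B) * D ^ (1 / 2 + ε) * D2 * D ^ (-(b * δ1)) := by
        apply mul_le_mul_of_nonneg_right _ hDx.le
        exact mul_le_mul_of_nonneg_left hD2 (by positivity)

/-- the discriminant of a compositum -/
lemma join_disc {K : Type} [Field K] [NumberField K] (E F : IntermediateField ℚ K) {B : ℝ}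
    (hF : |(discr F : ℝ)| ≤ B) (htop : E ⊔ F = ⊤) :
    |(discr K : ℝ)| ≤ (|(discr E : ℝ)| * B) ^ finrank ℚ K := by
  have hDE := one_le_absdiscr E
  have hDF := one_le_absdiscr F
  have hDK := one_le_absdiscr K
  have h1 := Pool.Agent.Lib.MP_695920_nt.Refl.comp_disc E F
  rw [htop, absDiscr_top, IntermediateField.finrank_top'] at h1
  have hn : (0 : ℝ) < finrank ℚ K := by exact_mod_cast (finrank_pos : 0 < finrank ℚ K)
  have hE1 : (1 : ℝ) ≤ finrank ℚ E := by exact_mod_cast (finrank_pos : 0 < finrank ℚ E)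
  have hF1 : (1 : ℝ) ≤ finrank ℚ F := by exact_mod_cast (finrank_pos : 0 < finrank ℚ F)
  have hlE : 0 ≤ Real.log |(discr E : ℝ)| := Real.log_nonneg hDE
  have hlF : 0 ≤ Real.log |(discr F : ℝ)| := Real.log_nonneg hDF
  have e1 : Real.log |(discr E : ℝ)| / finrank ℚ E ≤ Real.log |(discr E : ℝ)| :=
    div_le_self hlE hE1
  have e2 : Real.log |(discr F : ℝ)| / finrank ℚ F ≤ Real.log |(discr F : ℝ)| :=
    div_le_self hlF hF1
  have e3 : Real.log |(discr F : ℝ)| ≤ Real.log B := Real.log_le_log (by linarith) hF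
  have hB : 1 ≤ B := hDF.trans hF
  rw [div_le_iff₀ hn] at h1
  have e4 : Real.log |(discr K : ℝ)| ≤ finrank ℚ K * (Real.log |(discr E : ℝ)| + Real.log B) := by
    calc Real.log |(discr K : ℝ)| ≤ (Real.log |(discr E : ℝ)| / finrank ℚ E +
          Real.log |(discr F : ℝ)| / finrank ℚ F) * finrank ℚ K := h1
      _ ≤ (Real.log |(discr E : ℝ)| + Real.log B) * finrank ℚ K :=
        mul_le_mul_of_nonneg_right (by linarith) hn.le
      _ = _ := by ring
  rw [← Real.log_mul (by linarith) (by linarith), ← Real.log_pow] at e4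
  exact (Real.log_le_log_iff (by linarith) (by positivity)).mp e4

lemma rr_neg_one (K : Type) [Field K] [NumberField K] : RR 3 (-1 : K) := by
  obtain ⟨z, hz⟩ := IsAlgClosed.exists_root
    (Polynomial.cyclotomic 3 (AlgebraicClosure K)) (by
      rw [Polynomial.degree_cyclotomic]
      decide)
  have hprim : IsPrimitiveRoot z 3 := Polynomial.isRoot_cyclotomic_iff.mp hz
  refine ⟨z, hprim, ?_⟩
  have hz0 : z ≠ 0 := hprim.ne_zero (by norm_num)
  rw [Polynomial.IsRoot.def, Polynomial.cyclotomic_three] at hz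
  simp only [Polynomial.eval_add, Polynomial.eval_pow, Polynomial.eval_X,
    Polynomial.eval_one] at hz
  rw [map_neg, map_one]
  field_simp
  linear_combination -hz

lemma exists_omega_of_root {K : Type} [Field K] [NumberField K] {x : K}
    (hx : IsPrimitiveRoot x 3) : x ^ 2 + x + 1 = 0 := by
  have h1 : x ≠ 1 := hx.ne_one (by norm_num)
  have h2 : x ^ 3 = 1 := hx.pow_eq_one
  have h3 : (x - 1) * (x ^ 2 + x + 1) = 0 := by linear_combination h2
  exact (mul_eq_zero.mp h3).resolve_left (sub_ne_zero.mpr h1)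

/-- quadratic steps for `l = 3` -/
theorem quad_step (n : ℕ) : ∃ (δ : ℝ) (A : ℕ), 0 < δ ∧ ∀ ε : ℝ, 0 < ε → ∃ C : ℝ, 0 ≤ C ∧
    ∀ (K : Type) [Field K] [NumberField K] (F : IntermediateField ℚ K),
      finrank ℚ K = n → finrank F K = 2 →
      (tl 3 K : ℝ) ≤ C * |(discr K : ℝ)| ^ (1 / 2 + ε) * |(discr F : ℝ)| ^ A *
        |(discr K : ℝ)| ^ (-δ) := by
  obtain ⟨δ1, hδ1, A1, C1, hC1, h1⟩ := Pool.Agent.Lib.MP_695920_nt.Qg.three_torsion_quad (n / 2)
  obtain ⟨δ2, hδ2, h2⟩ := any_l Nat.prime_three (by norm_num) n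
  obtain ⟨Bc, hBc⟩ := discr_root_le Nat.prime_three
  set δ : ℝ := min 1 (min δ1 δ2) with hδ
  have hδ0 : 0 < δ := lt_min one_pos (lt_min hδ1 hδ2)
  have hδa : δ ≤ 1 := min_le_left _ _
  have hδb : δ ≤ δ1 := (min_le_right _ _).trans (min_le_left _ _)
  have hδc : δ ≤ δ2 := (min_le_right _ _).trans (min_le_right _ _)
  refine ⟨δ, A1 + 1 + n, hδ0, fun ε hε => ?_⟩
  obtain ⟨C2, hC2⟩ := h2 ε hε
  obtain ⟨C3, hC3, h3⟩ := class_number_le n ε hε
  set Bx : ℝ := max Bc 1 with hBx
  have hBx1 : 1 ≤ Bx := le_max_right _ _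
  have hBxn : 1 ≤ Bx ^ n := one_le_pow₀ hBx1
  refine ⟨C1 + |C2| + C3 * Bx ^ n, by positivity, ?_⟩
  intro K _ _ F hn hF2
  have hDK := one_le_absdiscr K
  have hDF := one_le_absdiscr F
  have hX : 0 < |(discr K : ℝ)| ^ (1 / 2 + ε) := Real.rpow_pos_of_pos (by linarith) _
  have hY : 0 < |(discr K : ℝ)| ^ (-δ) := Real.rpow_pos_of_pos (by linarith) _
  have hpow : ∀ a : ℕ, a ≤ A1 + 1 + n →
      |(discr F : ℝ)| ^ a ≤ |(discr F : ℝ)| ^ (A1 + 1 + n) :=
    fun a ha => pow_le_pow_right₀ hDF ha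
  by_cases hω : ∃ x : F, IsPrimitiveRoot x 3
  · -- the base field contains the roots of unity
    obtain ⟨x, hx⟩ := hω
    have hFn : finrank ℚ F = n / 2 := by
      have := finrank_mul_finrank ℚ F K
      rw [hF2, hn] at this
      omega
    have e1 := h1 F K hFn hF2 ⟨x, exists_omega_of_root hx⟩
    have e2 : |(discr K : ℝ)| ^ (1 / 2 - δ1) ≤
        |(discr K : ℝ)| ^ (1 / 2 + ε) * |(discr K : ℝ)| ^ (-δ) := by
      rw [← Real.rpow_add (by linarith)]
      exact Real.rpow_le_rpow_of_exponent_le hDK (by linarith)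
    calc (tl 3 K : ℝ) ≤ C1 * |(discr K : ℝ)| ^ (1 / 2 - δ1) * |(discr F : ℝ)| ^ A1 := e1
      _ ≤ (C1 + |C2| + C3 * Bx ^ n) *
          (|(discr K : ℝ)| ^ (1 / 2 + ε) * |(discr K : ℝ)| ^ (-δ)) *
          |(discr F : ℝ)| ^ (A1 + 1 + n) := by
          apply mul_le_mul _ (hpow A1 (by omega)) (by positivity) (by positivity)
          apply mul_le_mul _ e2 (by positivity) (by positivity)
          have : 0 ≤ |C2| := abs_nonneg _
          have : 0 ≤ C3 * Bx ^ n := by positivity
          linarith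
      _ = _ := by ring
  · by_cases hK : ∃ x : K, IsPrimitiveRoot x 3
    · -- the field is obtained by adjoining the roots of unity
      obtain ⟨x, hx⟩ := hK
      have hxF : x ∉ F := by
        intro h
        apply hω
        refine ⟨⟨x, h⟩, ?_⟩
        exact (IsPrimitiveRoot.map_iff_of_injective (f := algebraMap F K)
          (algebraMap F K).injective).mp hx
      have htop : F ⊔ ℚ⟮x⟯ = ⊤ := by
        have hlt : F < F ⊔ ℚ⟮x⟯ := by
          refine lt_of_le_of_ne le_sup_left ?_
          intro h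
          apply hxF
          rw [h]
          exact (le_sup_right : ℚ⟮x⟯ ≤ F ⊔ ℚ⟮x⟯) (IntermediateField.mem_adjoin_simple_self ℚ x)
        apply IntermediateField.eq_of_le_of_finrank_le le_top
        rw [IntermediateField.finrank_top']
        have hFK := finrank_mul_finrank ℚ F K
        rw [hF2] at hFK
        have hlt2 : finrank ℚ F < finrank ℚ (F ⊔ ℚ⟮x⟯ : IntermediateField ℚ K) := by
          by_contra hcon
          apply hlt.ne
          exact IntermediateField.eq_of_le_of_finrank_le le_sup_left (by omega)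
        obtain ⟨b, hb⟩ := finrank_dvd (le_sup_left : F ≤ F ⊔ ℚ⟮x⟯)
        rw [hb] at hlt2 ⊢
        have hF0 : 0 < finrank ℚ F := finrank_pos
        have : 2 ≤ b := by
          by_contra hcon
          push Not at hcon
          have : finrank ℚ F * b ≤ finrank ℚ F * 1 := Nat.mul_le_mul_left _ (by omega)
          omega
        rw [← hFK]
        exact Nat.mul_le_mul_left _ this
      have e1 := join_disc F ℚ⟮x⟯ (B := Bx) ((hBc.2 K x hx).trans (le_max_left _ _)) htop
      rw [hn, mul_pow] at e1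
      have e2 := h3 K hn
      have e3 : (tl 3 K : ℝ) ≤ Nat.card (ClassGroup (𝓞 K)) := by exact_mod_cast tl_le_class 3 K
      have e4 : (1 : ℝ) ≤ |(discr F : ℝ)| ^ n * Bx ^ n * |(discr K : ℝ)| ^ (-δ) := by
        have e5 : |(discr K : ℝ)| ^ δ ≤ |(discr F : ℝ)| ^ n * Bx ^ n := by
          calc |(discr K : ℝ)| ^ δ ≤ |(discr K : ℝ)| ^ (1 : ℝ) :=
                Real.rpow_le_rpow_of_exponent_le hDK hδa
            _ = |(discr K : ℝ)| := Real.rpow_one _
            _ ≤ _ := e1
        rw [Real.rpow_neg (by linarith), ← div_eq_mul_inv, le_div_iff₀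
          (Real.rpow_pos_of_pos (by linarith) _), one_mul]
        exact e5
      calc (tl 3 K : ℝ) ≤ C3 * |(discr K : ℝ)| ^ (1 / 2 + ε) := e3.trans e2
        _ = C3 * |(discr K : ℝ)| ^ (1 / 2 + ε) * 1 := (mul_one _).symm
        _ ≤ C3 * |(discr K : ℝ)| ^ (1 / 2 + ε) *
            (|(discr F : ℝ)| ^ n * Bx ^ n * |(discr K : ℝ)| ^ (-δ)) :=
            mul_le_mul_of_nonneg_left e4 (by positivity)
        _ = (C3 * Bx ^ n) * (|(discr K : ℝ)| ^ (1 / 2 + ε) * |(discr K : ℝ)| ^ (-δ)) *
            |(discr F : ℝ)| ^ n := by ring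
        _ ≤ (C1 + |C2| + C3 * Bx ^ n) *
            (|(discr K : ℝ)| ^ (1 / 2 + ε) * |(discr K : ℝ)| ^ (-δ)) *
            |(discr F : ℝ)| ^ (A1 + 1 + n) := by
            apply mul_le_mul _ (hpow n (by omega)) (by positivity) (by positivity)
            apply mul_le_mul_of_nonneg_right _ (by positivity)
            have : 0 ≤ |C2| := abs_nonneg _
            linarith
        _ = _ := by ring
    · -- no roots of unity
      push Not at hK
      have e1 := hC2 K (-1) F |(discr K : ℝ)| hn (rr_neg_one K) hK (by linarith) (by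
        intro E hFE hrE hE
        by_cases hEt : E = ⊤
        · rw [hEt, absDiscr_top]
        · exfalso
          apply (hE hEt).2
          have hEF : E = F := by
            have hFK := finrank_mul_finrank ℚ F K
            rw [hF2] at hFK
            have hEK : finrank ℚ E < finrank ℚ K := by
              by_contra hcon
              apply hEt
              apply IntermediateField.eq_of_le_of_finrank_le le_top
              rw [IntermediateField.finrank_top']
              omega
            obtain ⟨b, hb⟩ := finrank_dvd hFE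
            have hF0 : 0 < finrank ℚ F := finrank_pos
            have hE0 : 0 < finrank ℚ E := finrank_pos
            have hb2 : b < 2 := by
              by_contra hcon
              push Not at hcon
              have : finrank ℚ F * 2 ≤ finrank ℚ F * b := Nat.mul_le_mul_left _ hcon
              omega
            have hb1 : b = 1 := by
              rcases Nat.eq_zero_or_pos b with h | h
              · rw [h, mul_zero] at hb
                omega
              · omega
            rw [hb1, mul_one] at hb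
            exact (IntermediateField.eq_of_le_of_finrank_le hFE hb.le).symm
          refine ⟨⊤, IntermediateField.mem_top, ?_⟩
          rw [top_inf_eq, IntermediateField.finrank_top', hEF, ← finrank_mul_finrank ℚ F K, hF2,
            mul_comm])
      have e2 : |(discr K : ℝ)| ^ (-δ2) ≤ |(discr K : ℝ)| ^ (-δ) :=
        Real.rpow_le_rpow_of_exponent_le hDK (by linarith)
      have e3 : 0 < |(discr K : ℝ)| ^ (-δ2) := Real.rpow_pos_of_pos (by linarith) _
      calc (tl 3 K : ℝ) ≤ C2 * |(discr K : ℝ)| ^ (1 / 2 + ε) * |(discr F : ℝ)| *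
            |(discr K : ℝ)| ^ (-δ2) := e1
        _ ≤ |C2| * |(discr K : ℝ)| ^ (1 / 2 + ε) * |(discr F : ℝ)| *
            |(discr K : ℝ)| ^ (-δ2) := by
            apply mul_le_mul_of_nonneg_right _ e3.le
            apply mul_le_mul_of_nonneg_right _ (by linarith)
            exact mul_le_mul_of_nonneg_right (le_abs_self _) hX.le
        _ = |C2| * (|(discr K : ℝ)| ^ (1 / 2 + ε) * |(discr K : ℝ)| ^ (-δ2)) *
            |(discr F : ℝ)| ^ 1 := by ring
        _ ≤ (C1 + |C2| + C3 * Bx ^ n) *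
            (|(discr K : ℝ)| ^ (1 / 2 + ε) * |(discr K : ℝ)| ^ (-δ)) *
            |(discr F : ℝ)| ^ (A1 + 1 + n) := by
            apply mul_le_mul _ (hpow 1 (by omega)) (by positivity) (by positivity)
            apply mul_le_mul _ (mul_le_mul_of_nonneg_left e2 hX.le) (by positivity) (by positivity)
            have : 0 ≤ C3 * Bx ^ n := by positivity
            linarith
        _ = _ := by ring

end Pool.Agent.Lib.MP_695920_nt.Gl
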