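import Mathlib
import Pool.Agent.Lib.MP_695920_nt.Gl.Step3

/-!
The bound for one step.
-/

set_option autoImplicit false

open Finset NumberField Module IsDedekindDomain
open scoped nonZeroDivisors Pointwise IntermediateField

namespace Pool.Agent.Lib.MP_695920_nt.Gl

open Pool.Agent.Lib.MP_695920_nt.Tow Pool.Agent.Lib.MP_695920_nt.Sx
  Pool.Agent.Lib.MP_695920_nt.Solv

/-- steps without a condition on roots of unity, `l = 3` -/
theorem step_fine3 (n : ℕ) : ∃ (δ : ℝ) (A : ℕ), 0 < δ ∧ ∀ ε : ℝ, 0 < ε → ∃ C : ℝ, 0 ≤ C ∧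
    ∀ (K : Type) [Field K] [NumberField K] (E : IntermediateField ℚ K) (T : ℝ),
      finrank ℚ K = n → 1 ≤ T → T ≤ |(discr K : ℝ)| →
      (∀ F : IntermediateField ℚ K, E ≤ F → F ≠ ⊤ → |(discr F : ℝ)| < T → Fine3 3 F) →
      (tl 3 K : ℝ) ≤ C * |(discr K : ℝ)| ^ (1 / 2 + ε) * |(discr E : ℝ)| ^ A *
        T ^ (-δ) := by
  classical
  obtain ⟨δ1, hδ1, h1⟩ := step_T Nat.prime_three (by norm_num) n
  obtain ⟨δ3, A, hδ3, h3⟩ := quad_step n
  refine ⟨min δ1 (δ3 / (A + δ1) * δ1), 1, lt_min hδ1 (by positivity), fun ε hε => ?_⟩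
  obtain ⟨C1, hC1⟩ := h1 ε hε
  obtain ⟨C3, hC3, h3⟩ := h3 ε hε
  refine ⟨|C1| + C3, by positivity, ?_⟩
  intro K _ _ E T hn hT1 hTK hfine
  have hDK := one_le_absdiscr K
  have hDE := one_le_absdiscr E
  -- the smallest discriminant
  have hfinI : Finite (IntermediateField ℚ K) := Field.finite_intermediateField_of_exists_primitive_element ℚ K
    (Field.exists_primitive_element ℚ K)
  cases nonempty_fintype (IntermediateField ℚ K)
  let S : Finset (IntermediateField ℚ K) := Finset.univ.filter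
    (fun F => E ≤ F ∧ (F ≠ ⊤ → ¬ Fine 3 F))
  have hS : S.Nonempty := ⟨⊤, by simp [S]⟩
  obtain ⟨F0, hF0, hmin⟩ := Finset.exists_min_image S (fun F => |(discr F : ℝ)|) hS
  rw [Finset.mem_filter] at hF0
  obtain ⟨-, hEF0, hF0f⟩ := hF0
  have hDF0 := one_le_absdiscr F0
  have hT := hC1 K E |(discr F0 : ℝ)| hn (by linarith) (by
    intro F hEF hF
    exact hmin F (by rw [Finset.mem_filter]; exact ⟨Finset.mem_univ _, hEF, hF⟩))
  have hT' : (tl 3 K : ℝ) ≤ |C1| * |(discr K : ℝ)| ^ (1 / 2 + ε) * |(discr E : ℝ)| *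
      |(discr F0 : ℝ)| ^ (-δ1) := by
    refine hT.trans ?_
    apply mul_le_mul_of_nonneg_right _ (Real.rpow_pos_of_pos (by linarith) _).le
    apply mul_le_mul_of_nonneg_right _ (by linarith)
    exact mul_le_mul_of_nonneg_right (le_abs_self _) (Real.rpow_pos_of_pos (by linarith) _).le
  have hweak : ∀ (C δ D : ℝ), 0 ≤ C → C ≤ |C1| + C3 → min δ1 (δ3 / (A + δ1) * δ1) ≤ δ →
      0 < δ → T ≤ D →
      C * |(discr K : ℝ)| ^ (1 / 2 + ε) * |(discr E : ℝ)| * D ^ (-δ) ≤
      (|C1| + C3) * |(discr K : ℝ)| ^ (1 / 2 + ε) * |(discr E : ℝ)| ^ 1 *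
        T ^ (-(min δ1 (δ3 / (A + δ1) * δ1))) := by
    intro C δ D hC0 hC hδ hδ0 hTD
    have e0 : D ^ (-δ) ≤ T ^ (-δ) :=
      Real.rpow_le_rpow_of_nonpos (by linarith) hTD (by linarith)
    have e1 : T ^ (-δ) ≤ T ^ (-(min δ1 (δ3 / (A + δ1) * δ1))) :=
      Real.rpow_le_rpow_of_exponent_le hT1 (by linarith)
    have e2 : 0 < D ^ (-δ) := Real.rpow_pos_of_pos (by linarith) _
    have e3 : 0 < |(discr K : ℝ)| ^ (1 / 2 + ε) := Real.rpow_pos_of_pos (by linarith) _
    rw [pow_one]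
    apply mul_le_mul _ (e0.trans e1) e2.le (by positivity)
    apply mul_le_mul_of_nonneg_right _ (by linarith)
    exact mul_le_mul_of_nonneg_right hC e3.le
  by_cases hTF : T ≤ |(discr F0 : ℝ)|
  · exact hT'.trans (hweak _ δ1 _ (abs_nonneg _) (by linarith) (min_le_left _ _) hδ1 hTF)
  · push Not at hTF
    have hF0t : F0 ≠ ⊤ := by
      rintro rfl
      rw [absDiscr_top] at hTF
      linarith
    have hquad : finrank F0 K = 2 := by
      rcases hfine F0 hEF0 hF0t hTF with h | ⟨-, h⟩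
      · exact absurd h (hF0f hF0t)
      · exact h
    have h4 := h3 K F0 hn hquad
    have h5 := combineA hδ1 hδ3 (abs_nonneg C1) hC3 hDF0 hDK hDE hT' h4
    exact h5.trans (hweak _ _ _ (by positivity) le_rfl (min_le_right _ _) (by positivity) hTK)

/-- the bound for a field `K` and a subfield `E` such that all the fields between them of
discriminant less than `T` are allowed -/
theorem step_all {l : ℕ} (hl : l.Prime) (hl2 : l ≠ 2) (n : ℕ) :
    ∃ (δ : ℝ) (A : ℕ), 0 < δ ∧ ∀ ε : ℝ, 0 < ε → ∃ C : ℝ, 0 ≤ C ∧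
    ∀ (K : Type) [Field K] [NumberField K] (E : IntermediateField ℚ K) (T : ℝ),
      finrank ℚ K = n → 1 ≤ T → T ≤ |(discr K : ℝ)| →
      (∀ F : IntermediateField ℚ K, E ≤ F → F ≠ ⊤ → |(discr F : ℝ)| < T → Allowed l F) →
      (tl l K : ℝ) ≤ C * |(discr K : ℝ)| ^ (1 / 2 + ε) * |(discr E : ℝ)| ^ A *
        T ^ (-δ) := by
  obtain ⟨δ1, hδ1, h1⟩ := step_T hl hl2 n
  obtain ⟨δ2, hδ2, h2⟩ := any_l hl hl2 n
  obtain ⟨δ3, A, hδ3, h3⟩ := step_fine3 n
  refine ⟨min δ1 (min δ2 δ3), A + 1, lt_min hδ1 (lt_min hδ2 hδ3), fun ε hε => ?_⟩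
  obtain ⟨C1, hC1⟩ := h1 ε hε
  obtain ⟨C2, hC2⟩ := h2 ε hε
  obtain ⟨C3, hC30, hC3⟩ := h3 ε hε
  refine ⟨|C1| + |C2| + C3, by positivity, ?_⟩
  intro K _ _ E T hn hT1 hTK hall
  have hDK := one_le_absdiscr K
  have hDE := one_le_absdiscr E
  have key : ∀ (C δ : ℝ) (a : ℕ), C ≤ |C1| + |C2| + C3 → min δ1 (min δ2 δ3) ≤ δ → a ≤ A + 1 →
      C * |(discr K : ℝ)| ^ (1 / 2 + ε) * |(discr E : ℝ)| ^ a * T ^ (-δ) ≤
      (|C1| + |C2| + C3) * |(discr K : ℝ)| ^ (1 / 2 + ε) * |(discr E : ℝ)| ^ (A + 1) *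
        T ^ (-(min δ1 (min δ2 δ3))) := by
    intro C δ a hC hδ ha
    have e1 : T ^ (-δ) ≤ T ^ (-(min δ1 (min δ2 δ3))) :=
      Real.rpow_le_rpow_of_exponent_le hT1 (by linarith)
    have e2 : 0 < T ^ (-δ) := Real.rpow_pos_of_pos (by linarith) _
    have e3 : 0 < |(discr K : ℝ)| ^ (1 / 2 + ε) := Real.rpow_pos_of_pos (by linarith) _
    have e4 : |(discr E : ℝ)| ^ a ≤ |(discr E : ℝ)| ^ (A + 1) := pow_le_pow_right₀ hDE ha
    have e5 : 0 ≤ |C1| + |C2| + C3 := by positivity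
    apply mul_le_mul _ e1 e2.le (by positivity)
    apply mul_le_mul _ e4 (by positivity) (by positivity)
    exact mul_le_mul_of_nonneg_right hC e3.le
  by_cases hcyc : (∀ x : K, ¬ IsPrimitiveRoot x l) ∧ HasReal l (⊤ : IntermediateField ℚ K)
  · obtain ⟨hN, r, -, hr⟩ := hcyc
    have h3 := hC2 K r E T hn hr hN (by linarith) (by
      intro F hEF hrF hF
      by_contra hlt
      push Not at hlt
      have hFt : F ≠ ⊤ := by
        rintro rfl
        rw [absDiscr_top] at hlt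
        linarith
      obtain ⟨h4, h5⟩ := hF hFt
      rcases hall F hEF hFt hlt with h6 | h6 | ⟨-, h6⟩ | ⟨-, -, h6⟩
      · exact h4 (Or.inl h6)
      · exact h4 (Or.inr h6)
      · apply h5
        refine ⟨⊤, IntermediateField.mem_top, ?_⟩
        rw [top_inf_eq, IntermediateField.finrank_top', ← finrank_mul_finrank ℚ F K, h6,
          mul_comm]
      · obtain ⟨X, ⟨r', hr'X, hr'⟩, h7⟩ := h6 ⟨r, hrF, hr⟩
        exact h5 ⟨X, RR.mem hl hr' hr hr'X, h7⟩)
    have h4 := key C2 δ2 1 (by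
      have := le_abs_self C2
      have := abs_nonneg C1
      linarith) ((min_le_right _ _).trans (min_le_left _ _)) (by omega)
    rw [pow_one] at h4
    exact h3.trans h4
  · have hall' : ∀ F : IntermediateField ℚ K, E ≤ F → F ≠ ⊤ → |(discr F : ℝ)| < T →
        Fine3 l F := by
      intro F hEF hFt hlt
      rcases hall F hEF hFt hlt with h6 | h6 | h6 | ⟨h6, h7, -⟩
      · exact Or.inl (Or.inl h6)
      · exact Or.inl (Or.inr h6)
      · exact Or.inr h6
      · exact absurd ⟨h6, h7⟩ hcyc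
    by_cases hl3 : l = 3
    · subst hl3
      refine (hC3 K E T hn hT1 hTK hall').trans (key C3 δ3 A ?_
        ((min_le_right _ _).trans (min_le_right _ _)) (Nat.le_succ A))
      have := abs_nonneg C1
      have := abs_nonneg C2
      linarith
    · have h3 := hC1 K E T hn (by linarith) (by
        intro F hEF hF
        by_contra hlt
        push Not at hlt
        have hFt : F ≠ ⊤ := by
          rintro rfl
          rw [absDiscr_top] at hlt
          linarith
        rcases hall' F hEF hFt hlt with h4 | ⟨h4, -⟩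
        · exact hF hFt h4
        · exact hl3 h4)
      have h4 := key C1 δ1 1 (by
        have := le_abs_self C1
        have := abs_nonneg C2
        linarith) (min_le_left _ _) (by omega)
      rw [pow_one] at h4
      exact h3.trans h4

end Pool.Agent.Lib.MP_695920_nt.Gl
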