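import Mathlib
import Pool.Agent.Lib.MP_695920_nt.Gl.StepAll
import Pool.Agent.Lib.MP_695920_nt.Gl.RelTl
import Pool.Agent.Lib.MP_695920_nt.Refl.CompDisc

/-!
The bound for the fields which are reached from the rational numbers by steps.
-/

set_option autoImplicit false

open Finset NumberField Module IsDedekindDomain
open scoped nonZeroDivisors Pointwise IntermediateField

namespace Pool.Agent.Lib.MP_695920_nt.Gl

open Pool.Agent.Lib.MP_695920_nt.Tow Pool.Agent.Lib.MP_695920_nt.Sx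
  Pool.Agent.Lib.MP_695920_nt.Solv

/-- The number fields obtained from fields of degree `1` by steps and by adjoining fields of
discriminant at most `B`. -/
inductive Reachable (l : ℕ) (B : ℝ) : (K : Type) → [Field K] → [NumberField K] → Prop
  | rat (K : Type) [Field K] [NumberField K] : finrank ℚ K = 1 → Reachable l B K
  | step (K : Type) [Field K] [NumberField K] (E : IntermediateField ℚ K) : E ≠ ⊤ →
      Reachable l B E → (∀ F : IntermediateField ℚ K, E ≤ F → F ≠ ⊤ → Allowed l F) →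
      Reachable l B K
  | join (K : Type) [Field K] [NumberField K] (E F : IntermediateField ℚ K) : E ≠ ⊤ →
      Reachable l B E → |(discr F : ℝ)| ≤ B → E ⊔ F = ⊤ → Reachable l B K

/-- the bound for the larger field from the one for the smaller field -/
lemma up_bound {tK tE DK DE C1 C2 ε δ : ℝ} (hε : 0 < ε) (hC2 : 0 < C2)
    (hDE : 1 ≤ DE) (hDED : DE ≤ DK) (h1 : tE ≤ C1 * DE ^ (1 / 2 + ε) * DE ^ (-δ))
    (hC1 : 0 < C1)
    (h2 : tK * Real.sqrt DE ≤ C2 * tE * DK ^ ε * Real.sqrt DK) :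
    tK ≤ C1 * C2 * DK ^ (1 / 2 + 2 * ε) * DE ^ (-δ) := by
  have hDK : 1 ≤ DK := hDE.trans hDED
  have hs : 0 < Real.sqrt DE := Real.sqrt_pos.mpr (by linarith)
  have hX : 0 < DK ^ ε := Real.rpow_pos_of_pos (by linarith) _
  have hY : 0 < DE ^ (-δ) := Real.rpow_pos_of_pos (by linarith) _
  have hsK : 0 ≤ Real.sqrt DK := Real.sqrt_nonneg _
  have e1 : DE ^ (1 / 2 + ε) = Real.sqrt DE * DE ^ ε := by
    rw [Real.rpow_add (by linarith), Real.sqrt_eq_rpow]
  have e2 : DK ^ (1 / 2 + 2 * ε) = Real.sqrt DK * (DK ^ ε * DK ^ ε) := by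
    rw [← Real.rpow_add (by linarith), Real.sqrt_eq_rpow, ← Real.rpow_add (by linarith)]
    congr 1
    ring
  have e3 : DE ^ ε ≤ DK ^ ε := Real.rpow_le_rpow (by linarith) hDED hε.le
  have e4 : tK * Real.sqrt DE ≤ (C1 * C2 * DK ^ (1 / 2 + 2 * ε) * DE ^ (-δ)) * Real.sqrt DE := by
    calc tK * Real.sqrt DE ≤ C2 * tE * DK ^ ε * Real.sqrt DK := h2
      _ = (C2 * DK ^ ε * Real.sqrt DK) * tE := by ring
      _ ≤ (C2 * DK ^ ε * Real.sqrt DK) * (C1 * DE ^ (1 / 2 + ε) * DE ^ (-δ)) :=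
        mul_le_mul_of_nonneg_left h1 (by positivity)
      _ = (C1 * C2 * DK ^ ε * Real.sqrt DK * DE ^ (-δ) * Real.sqrt DE) * DE ^ ε := by
        rw [e1]; ring
      _ ≤ (C1 * C2 * DK ^ ε * Real.sqrt DK * DE ^ (-δ) * Real.sqrt DE) * DK ^ ε :=
        mul_le_mul_of_nonneg_left e3 (by positivity)
      _ = _ := by rw [e2]; ring
  exact le_of_mul_le_mul_right e4 hs

lemma discr_sub_le (K E : Type) [Field K] [NumberField K] [Field E] [NumberField E]
    [Algebra E K] : |(discr E : ℝ)| ≤ |(discr K : ℝ)| := by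
  have h1 : discr E ∣ discr K := NumberField.discr_dvd_discr E K
  have h2 : |discr E| ≤ |discr K| := by
    have h3 : |discr E| ∣ |discr K| := (abs_dvd_abs _ _).mpr h1
    exact Int.le_of_dvd (abs_pos.mpr (NumberField.discr_ne_zero K)) h3
  rw [← Int.cast_abs, ← Int.cast_abs]
  exact_mod_cast h2

lemma reach_inv {l : ℕ} {B : ℝ} {K : Type} [Field K] [NumberField K] (h : Reachable l B K) :
    finrank ℚ K = 1 ∨ (∃ E : IntermediateField ℚ K, E ≠ ⊤ ∧ Reachable l B E ∧
      ∀ F : IntermediateField ℚ K, E ≤ F → F ≠ ⊤ → Allowed l F) ∨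
      ∃ E F : IntermediateField ℚ K, E ≠ ⊤ ∧ Reachable l B E ∧ |(discr F : ℝ)| ≤ B ∧
        E ⊔ F = ⊤ := by
  cases h
  case rat h => exact Or.inl h
  case step E h1 h2 h3 => exact Or.inr (Or.inl ⟨E, h1, h2, h3⟩)
  case join E F h1 h2 h3 h4 => exact Or.inr (Or.inr ⟨E, F, h1, h2, h3, h4⟩)

theorem reach_bound {l : ℕ} (hl : l.Prime) (hl2 : l ≠ 2) (d : ℕ) :
    ∃ δ : ℝ, 0 < δ ∧ δ ≤ 1 / 2 ∧ ∀ B ε : ℝ, 0 < ε → ∃ C : ℝ, 0 < C ∧
    ∀ (K : Type) [Field K] [NumberField K], finrank ℚ K ≤ d → Reachable l B K →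
      (tl l K : ℝ) ≤ C * |(discr K : ℝ)| ^ (1 / 2 + ε) * |(discr K : ℝ)| ^ (-δ) := by
  induction d with
  | zero =>
    refine ⟨1 / 2, by norm_num, le_rfl, fun B ε hε => ⟨1, one_pos, ?_⟩⟩
    intro K _ _ hK
    have : 0 < finrank ℚ K := finrank_pos
    omega
  | succ d ih =>
    obtain ⟨δ, hδ, hδ2, ih⟩ := ih
    obtain ⟨δ3, A, hδ3, hstep⟩ := step_all hl hl2 (d + 1)
    set δ' : ℝ := min (δ / (d + 1)) (δ3 / (A + δ) * δ) with hδ'
    have hd : (0 : ℝ) < (d : ℝ) + 1 := by positivity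
    have hδ'0 : 0 < δ' := lt_min (by positivity) (by positivity)
    have hδ'1 : δ' ≤ δ := by
      refine (min_le_left _ _).trans ?_
      apply div_le_self hδ.le
      have : (0 : ℝ) ≤ d := Nat.cast_nonneg d
      linarith
    refine ⟨δ', hδ'0, hδ'1.trans hδ2, fun B ε hε => ?_⟩
    obtain ⟨C1, hC1, hIH⟩ := ih B (ε / 2) (by positivity)
    obtain ⟨C2, hC2, hrel⟩ := tl_rel_bound l (d + 1) (ε / 2) (by positivity)
    obtain ⟨C3, hC3, hst⟩ := hstep ε hε
    set B' : ℝ := max B 1 with hB'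
    have hB'1 : 1 ≤ B' := le_max_right _ _
    set C : ℝ := 1 + C1 + (C1 * C2 + C3) + C1 * C2 * B' ^ δ with hC
    have hBδ : 0 < B' ^ δ := Real.rpow_pos_of_pos (by linarith) _
    have hC0 : 0 < C := by positivity
    refine ⟨C, hC0, ?_⟩
    intro K _ _ hK hR
    have hDK := one_le_absdiscr K
    have hpe : 0 < |(discr K : ℝ)| ^ (1 / 2 + ε) := Real.rpow_pos_of_pos (by linarith) _
    -- weakening
    have hweak : ∀ (A ε1 δ1 : ℝ), A ≤ C → ε1 ≤ ε → δ' ≤ δ1 →
        A * |(discr K : ℝ)| ^ (1 / 2 + ε1) * |(discr K : ℝ)| ^ (-δ1) ≤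
        C * |(discr K : ℝ)| ^ (1 / 2 + ε) * |(discr K : ℝ)| ^ (-δ') := by
      intro A ε1 δ1 hA hε1 hδ1
      have e1 : |(discr K : ℝ)| ^ (-δ1) ≤ |(discr K : ℝ)| ^ (-δ') :=
        Real.rpow_le_rpow_of_exponent_le hDK (by linarith)
      have e2 : |(discr K : ℝ)| ^ (1 / 2 + ε1) ≤ |(discr K : ℝ)| ^ (1 / 2 + ε) :=
        Real.rpow_le_rpow_of_exponent_le hDK (by linarith)
      have e3 : 0 < |(discr K : ℝ)| ^ (-δ1) := Real.rpow_pos_of_pos (by linarith) _
      have e4 : 0 < |(discr K : ℝ)| ^ (1 / 2 + ε1) := Real.rpow_pos_of_pos (by linarith) _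
      calc A * |(discr K : ℝ)| ^ (1 / 2 + ε1) * |(discr K : ℝ)| ^ (-δ1)
          ≤ C * |(discr K : ℝ)| ^ (1 / 2 + ε1) * |(discr K : ℝ)| ^ (-δ1) := by
            apply mul_le_mul_of_nonneg_right _ e3.le
            exact mul_le_mul_of_nonneg_right hA e4.le
        _ ≤ _ := by
            apply mul_le_mul _ e1 e3.le (by positivity)
            exact mul_le_mul_of_nonneg_left e2 hC0.le
    rcases Nat.lt_or_ge d (finrank ℚ K) with hKd | hKd
    swap
    · refine (hIH K hKd hR).trans (hweak C1 (ε / 2) δ ?_ (by linarith) hδ'1)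
      rw [hC]
      have : 0 < C1 * C2 := by positivity
      have : 0 < C1 * C2 * B' ^ δ := by positivity
      linarith
    · have hKn : finrank ℚ K = d + 1 := by omega
      -- common part
      have hcommon : ∀ E : IntermediateField ℚ K, E ≠ ⊤ → Reachable l B E →
          (tl l K : ℝ) ≤ C1 * C2 * |(discr K : ℝ)| ^ (1 / 2 + ε) * |(discr E : ℝ)| ^ (-δ) := by
        intro E hE hRE
        have hlt : finrank ℚ E ≤ d := by
          have h1 : finrank ℚ E < finrank ℚ K := by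
            by_contra hcon
            apply hE
            apply IntermediateField.eq_of_le_of_finrank_le le_top
            rw [IntermediateField.finrank_top']
            omega
          omega
        have h1 := hIH E hlt hRE
        have h2 := hrel K E hKn
        have h3 := up_bound (ε := ε / 2) (by positivity) hC2 (one_le_absdiscr E)
          (discr_sub_le K E) h1 hC1 h2
        have h4 : 2 * (ε / 2) = ε := by ring
        rw [h4] at h3
        exact h3
      rcases reach_inv hR with h1 | ⟨E, hE, hRE, hS⟩ | ⟨E, F, hE, hRE, hF, htop⟩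
      · have h2 : (tl l K : ℝ) ≤ 1 := by
          exact_mod_cast card_tors_of_finrank_one h1 l
        refine h2.trans ?_
        have h3 : (1 : ℝ) ≤ |(discr K : ℝ)| ^ (1 / 2 + ε) * |(discr K : ℝ)| ^ (-δ') := by
          rw [← Real.rpow_add (by linarith)]
          apply Real.one_le_rpow hDK
          have : δ' ≤ 1 / 2 := hδ'1.trans hδ2
          linarith
        have h4 : (1 : ℝ) ≤ C := by
          rw [hC]
          have : 0 < C1 * C2 := by positivity
          have : 0 < C1 * C2 * B' ^ δ := by positivity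
          linarith
        calc (1 : ℝ) ≤ |(discr K : ℝ)| ^ (1 / 2 + ε) * |(discr K : ℝ)| ^ (-δ') := h3
          _ = 1 * (|(discr K : ℝ)| ^ (1 / 2 + ε) * |(discr K : ℝ)| ^ (-δ')) := (one_mul _).symm
          _ ≤ C * (|(discr K : ℝ)| ^ (1 / 2 + ε) * |(discr K : ℝ)| ^ (-δ')) := by
            apply mul_le_mul_of_nonneg_right h4
            linarith
          _ = _ := by ring
      · have h1 := hcommon E hE hRE
        have h2 := hst K E |(discr K : ℝ)| hKn hDK le_rfl (fun F hF hne _ => hS F hF hne)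
        have h1' : (tl l K : ℝ) ≤ C1 * C2 * |(discr K : ℝ)| ^ (1 / 2 + ε) * 1 *
            |(discr E : ℝ)| ^ (-δ) := by rw [mul_one]; exact h1
        have h3 := combineA hδ hδ3 (by positivity) hC3 (one_le_absdiscr E) hDK le_rfl h1' h2
        rw [mul_one] at h3
        refine h3.trans (hweak _ ε _ ?_ le_rfl (min_le_right _ _))
        rw [hC]
        have : 0 < C1 * C2 * B' ^ δ := by positivity
        linarith
      · have h1 := hcommon E hE hRE
        have hFB : |(discr F : ℝ)| ≤ B' := hF.trans (le_max_left _ _)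
        have h2 := join_disc E F hFB htop
        rw [hKn] at h2
        have hDE := one_le_absdiscr E
        have h3 : |(discr E : ℝ)| ^ (-δ) ≤ B' ^ δ * |(discr K : ℝ)| ^ (-(δ / (d + 1))) := by
          have h4 : |(discr K : ℝ)| ^ (δ / (d + 1)) ≤ (|(discr E : ℝ)| * B') ^ δ := by
            have h5 : (|(discr E : ℝ)| * B') ^ δ =
                ((|(discr E : ℝ)| * B') ^ (d + 1)) ^ (δ / (d + 1)) := by
              rw [← Real.rpow_natCast, ← Real.rpow_mul (by positivity)]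
              congr 1
              push_cast
              field_simp
            rw [h5]
            exact Real.rpow_le_rpow (by linarith) h2 (by positivity)
          rw [Real.mul_rpow (by linarith) (by linarith)] at h4
          have h6 : 0 < |(discr E : ℝ)| ^ δ := Real.rpow_pos_of_pos (by linarith) _
          have h7 : 0 < |(discr K : ℝ)| ^ (δ / (d + 1)) := Real.rpow_pos_of_pos (by linarith) _
          rw [Real.rpow_neg (by linarith), Real.rpow_neg (by linarith), inv_eq_one_div,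
            ← div_eq_mul_inv, div_le_div_iff₀ h6 h7]
          linarith
        have h8 : (tl l K : ℝ) ≤ C1 * C2 * B' ^ δ * |(discr K : ℝ)| ^ (1 / 2 + ε) *
            |(discr K : ℝ)| ^ (-(δ / (d + 1))) := by
          calc (tl l K : ℝ) ≤ C1 * C2 * |(discr K : ℝ)| ^ (1 / 2 + ε) * |(discr E : ℝ)| ^ (-δ) := h1
            _ ≤ C1 * C2 * |(discr K : ℝ)| ^ (1 / 2 + ε) *
                (B' ^ δ * |(discr K : ℝ)| ^ (-(δ / (d + 1)))) :=
              mul_le_mul_of_nonneg_left h3 (by positivity)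
            _ = _ := by ring
        refine h8.trans (hweak _ ε _ ?_ le_rfl (min_le_left _ _))
        rw [hC]
        have : 0 < C1 * C2 := by positivity
        linarith

/-- combination of two bounds -/
lemma combineT {t X T D1 A B δ1 δ3 : ℝ} {a : ℕ} (hδ1 : 0 < δ1) (hδ3 : 0 < δ3) (hA : 0 ≤ A)
    (hB : 0 ≤ B) (hX : 0 ≤ X) (hD1 : 1 ≤ D1) (hT : 1 ≤ T)
    (h1 : t ≤ A * X * D1 ^ (-δ1)) (h2 : t ≤ B * X * D1 ^ a * T ^ (-δ3)) :
    t ≤ (A + B) * X * T ^ (-(δ3 / (a + δ1) * δ1)) := by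
  have hDx : 0 < T ^ (-(δ3 / (a + δ1) * δ1)) := Real.rpow_pos_of_pos (by linarith) _
  have ha1 : 0 < (a : ℝ) + δ1 := by positivity
  set b : ℝ := δ3 / (a + δ1) with hb
  have hb0 : 0 < b := by positivity
  rcases le_or_gt (T ^ b) D1 with h | h
  · have h3 : D1 ^ (-δ1) ≤ T ^ (-(b * δ1)) := by
      have h4 : T ^ (-(b * δ1)) = (T ^ b) ^ (-δ1) := by
        rw [← Real.rpow_mul (by linarith)]
        congr 1
        ring
      rw [h4]
      exact Real.rpow_le_rpow_of_nonpos (Real.rpow_pos_of_pos (by linarith) _) h (by linarith)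
    calc t ≤ A * X * D1 ^ (-δ1) := h1
      _ ≤ A * X * T ^ (-(b * δ1)) := mul_le_mul_of_nonneg_left h3 (by positivity)
      _ ≤ (A + B) * X * T ^ (-(b * δ1)) := by
        apply mul_le_mul_of_nonneg_right _ hDx.le
        apply mul_le_mul_of_nonneg_right _ hX
        linarith
  · have h3 : D1 ^ a * T ^ (-δ3) ≤ T ^ (-(b * δ1)) := by
      have h4 : T ^ (-(b * δ1)) = (T ^ b) ^ a * T ^ (-δ3) := by
        rw [← Real.rpow_natCast, ← Real.rpow_mul (by linarith), ← Real.rpow_add (by linarith)]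
        congr 1
        rw [hb]
        field_simp
        ring
      rw [h4]
      exact mul_le_mul_of_nonneg_right (pow_le_pow_left₀ (by linarith) h.le a)
        (Real.rpow_pos_of_pos (by linarith) _).le
    calc t ≤ B * X * D1 ^ a * T ^ (-δ3) := h2
      _ = B * X * (D1 ^ a * T ^ (-δ3)) := by ring
      _ ≤ B * X * T ^ (-(b * δ1)) := mul_le_mul_of_nonneg_left h3 (by positivity)
      _ ≤ (A + B) * X * T ^ (-(b * δ1)) := by
        apply mul_le_mul_of_nonneg_right _ hDx.le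
        apply mul_le_mul_of_nonneg_right _ hX
        linarith

/-- the bound for extensions of a reachable field -/
theorem ext_bound {l : ℕ} (hl : l.Prime) (hl2 : l ≠ 2) (n : ℕ) :
    ∃ δ : ℝ, 0 < δ ∧ ∀ B ε : ℝ, 0 < ε → ∃ C : ℝ, 0 < C ∧
    ∀ (K E : Type) [Field K] [NumberField K] [Field E] [NumberField E] [Algebra E K],
      finrank ℚ K = n → Reachable l B E →
      (tl l K : ℝ) ≤ C * |(discr K : ℝ)| ^ (1 / 2 + ε) * |(discr E : ℝ)| ^ (-δ) := by
  obtain ⟨δ, hδ, -, h⟩ := reach_bound hl hl2 n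
  refine ⟨δ, hδ, fun B ε hε => ?_⟩
  obtain ⟨C1, hC1, h1⟩ := h B (ε / 2) (by positivity)
  obtain ⟨C2, hC2, h2⟩ := tl_rel_bound l n (ε / 2) (by positivity)
  refine ⟨C1 * C2, by positivity, ?_⟩
  intro K E _ _ _ _ _ hK hE
  have hfd : FiniteDimensional E K := Module.Finite.of_restrictScalars_finite ℚ E K
  have hEn : finrank ℚ E ≤ n := by
    rw [← hK, ← finrank_mul_finrank ℚ E K]
    exact Nat.le_mul_of_pos_right _ finrank_pos
  have h3 := h1 E hEn hE
  have h4 := up_bound (ε := ε / 2) (by positivity) hC2 (one_le_absdiscr E)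
    (discr_sub_le K E) h3 hC1 (h2 K E hK)
  have h5 : 2 * (ε / 2) = ε := by ring
  rw [h5] at h4
  exact h4

/-- the main theorem -/
theorem tower_bound {l : ℕ} (hl : l.Prime) (hl2 : l ≠ 2) (n : ℕ) :
    ∃ δ : ℝ, 0 < δ ∧ ∀ B ε : ℝ, 0 < ε → ∃ C : ℝ,
    ∀ (K : Type) [Field K] [NumberField K] (E : IntermediateField ℚ K) (T : ℝ),
      finrank ℚ K = n → Reachable l B E → 0 < T → T ≤ |(discr K : ℝ)| →
      (∀ F : IntermediateField ℚ K, E ≤ F → F ≠ ⊤ → |(discr F : ℝ)| < T → Allowed l F) →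
      (tl l K : ℝ) ≤ C * |(discr K : ℝ)| ^ (1 / 2 + ε) * T ^ (-δ) := by
  obtain ⟨δ1, hδ1, h1⟩ := ext_bound hl hl2 n
  obtain ⟨δ3, A, hδ3, h3⟩ := step_all hl hl2 n
  have hA : 0 < (A : ℝ) + δ1 := by positivity
  refine ⟨δ3 / (A + δ1) * δ1, by positivity, fun B ε hε => ?_⟩
  obtain ⟨C1, hC1, h1⟩ := h1 B ε hε
  obtain ⟨C3, hC3, h3⟩ := h3 ε hε
  refine ⟨C1 + C3, ?_⟩
  intro K _ _ E T hK hE hT0 hTK hall
  have hX : 0 ≤ |(discr K : ℝ)| ^ (1 / 2 + ε) := Real.rpow_nonneg (abs_nonneg _) _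
  have e1 := h1 K E hK hE
  have hDE := one_le_absdiscr E
  rcases le_or_gt 1 T with hT | hT
  · exact combineT hδ1 hδ3 hC1.le hC3 hX hDE hT e1 (h3 K E T hK hT hTK hall)
  · have e2 : |(discr E : ℝ)| ^ (-δ1) ≤ 1 :=
      Real.rpow_le_one_of_one_le_of_nonpos hDE (by linarith)
    have e3 : 1 ≤ T ^ (-(δ3 / (A + δ1) * δ1)) := by
      apply Real.one_le_rpow_of_pos_of_le_one_of_nonpos hT0 hT.le
      have : 0 < δ3 / (A + δ1) * δ1 := by positivity
      linarith
    calc (tl l K : ℝ) ≤ C1 * |(discr K : ℝ)| ^ (1 / 2 + ε) * |(discr E : ℝ)| ^ (-δ1) := e1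
      _ ≤ C1 * |(discr K : ℝ)| ^ (1 / 2 + ε) * 1 :=
        mul_le_mul_of_nonneg_left e2 (by positivity)
      _ ≤ C1 * |(discr K : ℝ)| ^ (1 / 2 + ε) * T ^ (-(δ3 / (A + δ1) * δ1)) :=
        mul_le_mul_of_nonneg_left e3 (by positivity)
      _ ≤ (C1 + C3) * |(discr K : ℝ)| ^ (1 / 2 + ε) * T ^ (-(δ3 / (A + δ1) * δ1)) := by
        apply mul_le_mul_of_nonneg_right _ (by linarith)
        apply mul_le_mul_of_nonneg_right _ hX
        linarith

end Pool.Agent.Lib.MP_695920_nt.Gl
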