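import Mathlib
import Pool.Agent.Lib.MP_695920_nt.Gl.ExNegAux
import Pool.Agent.Lib.MP_695920_nt.Gl.GenA
import Pool.Agent.Lib.MP_695920_nt.Gl.Adjoin

/-!
A number field which contains `z + z⁻¹` but not `z`, `z` a primitive `l`-th root of unity, has a
prime of norm `-1` modulo `l`.
-/

set_option autoImplicit false

open NumberField Module

namespace Pool.Agent.Lib.MP_695920_nt.Gl

theorem exists_neg {l : ℕ} (hl : l.Prime) (hl2 : l ≠ 2) (E : Type) [Field E] [NumberField E]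
    (hR : RC l E) (hN : NC l E) :
    ∃ P : Ideal (𝓞 E), P.IsPrime ∧ P ≠ ⊥ ∧ Ideal.absNorm P % l = l - 1 := by
  obtain ⟨K', _, _, _, z, h2, hz, -⟩ := exists_adjoin_l hl hl2 E hR hN
  refine exists_neg_aux hl E K' h2 (fun v hv hv0 hlv => absNorm_mod_cases hl hl2 h2 hz hv hv0 hlv)
    fun v hv hv0 hlv h1 => ?_
  obtain ⟨P, Q, hP, hQ, -, -, hne, hPv, hQv, -, -⟩ :=
    two_primes_l hl hl2 h2 hz hN hv hv0 hlv h1
  exact ⟨P, Q, hP, hQ, hne, hPv, hQv⟩

end Pool.Agent.Lib.MP_695920_nt.Gl
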