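import Mathlib
import Pool.Agent.Lib.MP_695920_nt.Gl.StepAll
import Pool.Agent.Lib.MP_695920_nt.Gl.RelTl
import Pool.Agent.Lib.MP_695920_nt.Gl.ClassNum
import Pool.Agent.Lib.MP_695920_nt.Refl.CompDisc

/-!
The bound in terms of the subfields of small discriminant and their extensions in `K`.
-/

set_option autoImplicit false

open Finset NumberField Module IsDedekindDomain
open scoped nonZeroDivisors Pointwise IntermediateField

namespace Pool.Agent.Lib.MP_695920_nt.Gl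

open Pool.Agent.Lib.MP_695920_nt.Tow Pool.Agent.Lib.MP_695920_nt.Sx
  Pool.Agent.Lib.MP_695920_nt.Solv

lemma discr_le_of_algebra (K E : Type) [Field K] [NumberField K] [Field E] [NumberField E]
    [Algebra E K] : |(discr E : ℝ)| ≤ |(discr K : ℝ)| := by
  have h1 : discr E ∣ discr K := NumberField.discr_dvd_discr E K
  have h2 : |discr E| ≤ |discr K| := by
    have h3 : |discr E| ∣ |discr K| := (abs_dvd_abs _ _).mpr h1
    exact Int.le_of_dvd (abs_pos.mpr (NumberField.discr_ne_zero K)) h3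
  rw [← Int.cast_abs, ← Int.cast_abs]
  exact_mod_cast h2

lemma discr_le_of_le {K : Type} [Field K] [NumberField K] {E F : IntermediateField ℚ K}
    (h : E ≤ F) : |(discr E : ℝ)| ≤ |(discr F : ℝ)| := by
  let _ : Algebra E F := (IntermediateField.inclusion h).toAlgebra
  exact discr_le_of_algebra F E

/-- `step_all` for all degrees at most `n` -/
lemma step_unif {l : ℕ} (hl : l.Prime) (hl2 : l ≠ 2) (n : ℕ) :
    ∃ (δ : ℝ) (A : ℕ), 0 < δ ∧ ∀ ε : ℝ, 0 < ε → ∃ C : ℝ, 0 ≤ C ∧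
    ∀ (K : Type) [Field K] [NumberField K] (E : IntermediateField ℚ K) (T : ℝ),
      finrank ℚ K ≤ n → 1 ≤ T → T ≤ |(discr K : ℝ)| →
      (∀ F : IntermediateField ℚ K, E ≤ F → F ≠ ⊤ → |(discr F : ℝ)| < T → Allowed l F) →
      (tl l K : ℝ) ≤ C * |(discr K : ℝ)| ^ (1 / 2 + ε) * |(discr E : ℝ)| ^ A *
        T ^ (-δ) := by
  induction n with
  | zero =>
    refine ⟨1, 0, one_pos, fun _ _ => ⟨0, le_rfl, ?_⟩⟩
    intro K _ _ E T hK
    have : 0 < finrank ℚ K := finrank_pos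
    omega
  | succ n ih =>
    obtain ⟨δ1, A1, hδ1, h1⟩ := ih
    obtain ⟨δ2, A2, hδ2, h2⟩ := step_all hl hl2 (n + 1)
    refine ⟨min δ1 δ2, A1 + A2, lt_min hδ1 hδ2, fun ε hε => ?_⟩
    obtain ⟨C1, hC1, h1⟩ := h1 ε hε
    obtain ⟨C2, hC2, h2⟩ := h2 ε hε
    refine ⟨C1 + C2, by positivity, ?_⟩
    intro K _ _ E T hK hT hTK hall
    have hDK := one_le_absdiscr K
    have hDE := one_le_absdiscr E
    have key : ∀ (C δ : ℝ) (a : ℕ), C ≤ C1 + C2 → min δ1 δ2 ≤ δ → a ≤ A1 + A2 →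
        C * |(discr K : ℝ)| ^ (1 / 2 + ε) * |(discr E : ℝ)| ^ a * T ^ (-δ) ≤
        (C1 + C2) * |(discr K : ℝ)| ^ (1 / 2 + ε) * |(discr E : ℝ)| ^ (A1 + A2) *
          T ^ (-(min δ1 δ2)) := by
      intro C δ a hC hδ ha
      have e1 : T ^ (-δ) ≤ T ^ (-(min δ1 δ2)) :=
        Real.rpow_le_rpow_of_exponent_le hT (by linarith)
      have e2 : 0 < T ^ (-δ) := Real.rpow_pos_of_pos (by linarith) _
      have e3 : 0 < |(discr K : ℝ)| ^ (1 / 2 + ε) := Real.rpow_pos_of_pos (by linarith) _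
      have e4 : |(discr E : ℝ)| ^ a ≤ |(discr E : ℝ)| ^ (A1 + A2) := pow_le_pow_right₀ hDE ha
      have e5 : 0 ≤ C1 + C2 := by positivity
      apply mul_le_mul _ e1 e2.le (by positivity)
      apply mul_le_mul _ e4 (by positivity) (by positivity)
      exact mul_le_mul_of_nonneg_right hC e3.le
    rcases Nat.lt_or_ge n (finrank ℚ K) with h | h
    · exact (h2 K E T (by omega) hT hTK hall).trans
        (key C2 δ2 A2 (by linarith) (min_le_right _ _) (by omega))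
    · exact (h1 K E T h hT hTK hall).trans
        (key C1 δ1 A1 (by linarith) (min_le_left _ _) (by omega))

/-- the discriminant of a compositum of subfields -/
lemma sup_disc {K : Type} [Field K] [NumberField K] (E F : IntermediateField ℚ K) {n : ℕ}
    (hn : finrank ℚ K = n) {x y : ℝ} (hE : |(discr E : ℝ)| ≤ x) (hF : |(discr F : ℝ)| ≤ y) :
    |(discr (E ⊔ F : IntermediateField ℚ K) : ℝ)| ≤ (x * y) ^ n := by
  have hDE := one_le_absdiscr E
  have hDF := one_le_absdiscr F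
  have hD := one_le_absdiscr (E ⊔ F : IntermediateField ℚ K)
  have h1 := Pool.Agent.Lib.MP_695920_nt.Refl.comp_disc E F
  have hm : (0 : ℝ) < finrank ℚ (E ⊔ F : IntermediateField ℚ K) := by
    exact_mod_cast (finrank_pos : 0 < finrank ℚ (E ⊔ F : IntermediateField ℚ K))
  have hmn : (finrank ℚ (E ⊔ F : IntermediateField ℚ K) : ℝ) ≤ n := by
    rw [← hn]
    exact_mod_cast finrank_le_top (E ⊔ F : IntermediateField ℚ K)
  have hE1 : (1 : ℝ) ≤ finrank ℚ E := by exact_mod_cast (finrank_pos : 0 < finrank ℚ E)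
  have hF1 : (1 : ℝ) ≤ finrank ℚ F := by exact_mod_cast (finrank_pos : 0 < finrank ℚ F)
  have hlE : 0 ≤ Real.log |(discr E : ℝ)| := Real.log_nonneg hDE
  have hlF : 0 ≤ Real.log |(discr F : ℝ)| := Real.log_nonneg hDF
  have e1 : Real.log |(discr E : ℝ)| / finrank ℚ E ≤ Real.log x :=
    (div_le_self hlE hE1).trans (Real.log_le_log (by linarith) hE)
  have e2 : Real.log |(discr F : ℝ)| / finrank ℚ F ≤ Real.log y :=
    (div_le_self hlF hF1).trans (Real.log_le_log (by linarith) hF)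
  have hlx : 0 ≤ Real.log x := Real.log_nonneg (hDE.trans hE)
  have hly : 0 ≤ Real.log y := Real.log_nonneg (hDF.trans hF)
  rw [div_le_iff₀ hm] at h1
  have e4 : Real.log |(discr (E ⊔ F : IntermediateField ℚ K) : ℝ)| ≤
      n * (Real.log x + Real.log y) := by
    refine h1.trans ?_
    calc _ ≤ (Real.log x + Real.log y) * finrank ℚ (E ⊔ F : IntermediateField ℚ K) :=
        mul_le_mul_of_nonneg_right (by linarith) hm.le
      _ ≤ (Real.log x + Real.log y) * n := mul_le_mul_of_nonneg_left hmn (by linarith)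
      _ = _ := by ring
  have hx : 0 < x := by linarith
  have hy : 0 < y := by linarith
  rw [← Real.log_mul hx.ne' hy.ne', ← Real.log_pow] at e4
  exact (Real.log_le_log_iff (by linarith) (by positivity)).mp e4

/-- a gap in the discriminants of the subfields -/
lemma scale_sub {K : Type} [Field K] [NumberField K] {n : ℕ} (hn : finrank ℚ K = n) {T M : ℝ}
    (hT : 1 < T) (hTK : T ≤ |(discr K : ℝ)|) (hM : 0 ≤ M) (k : ℕ) :
    ∀ (F : IntermediateField ℚ K) (c : ℝ), 0 < c → |(discr F : ℝ)| ≤ T ^ c →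
      n ≤ finrank ℚ F + k → (n * (1 + M)) ^ k * c ≤ 1 / 2 →
      ∃ (F' : IntermediateField ℚ K) (c' : ℝ), F ≤ F' ∧ c ≤ c' ∧ |(discr F' : ℝ)| ≤ T ^ c' ∧
        c' ≤ 1 / 2 ∧ ∀ G : IntermediateField ℚ K, ¬ G ≤ F' → T ^ (M * c') ≤ |(discr G : ℝ)| := by
  have hT0 : 0 < T := by linarith
  have hn1 : 1 ≤ n := by
    rw [← hn]
    exact finrank_pos
  have hn1r : (1 : ℝ) ≤ n := by exact_mod_cast hn1
  have hR : (1 : ℝ) ≤ n * (1 + M) := by nlinarith
  induction k with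
  | zero =>
    intro F c hc hF hk hR
    exfalso
    have h1 : F = ⊤ := by
      apply IntermediateField.eq_of_le_of_finrank_le le_top
      rw [IntermediateField.finrank_top']
      omega
    rw [h1, absDiscr_top] at hF
    rw [pow_zero, one_mul] at hR
    have h2 : T ^ c < T ^ (1 : ℝ) := Real.rpow_lt_rpow_of_exponent_lt hT (by linarith)
    rw [Real.rpow_one] at h2
    linarith
  | succ k ih =>
    intro F c hc hF hk hRk
    by_cases hG : ∀ G : IntermediateField ℚ K, ¬ G ≤ F → T ^ (M * c) ≤ |(discr G : ℝ)|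
    · refine ⟨F, c, le_rfl, le_rfl, hF, ?_, hG⟩
      have h1 : 1 ≤ (n * (1 + M)) ^ (k + 1) := one_le_pow₀ hR
      nlinarith
    · push Not at hG
      obtain ⟨G, hGF, hG⟩ := hG
      have h1 := sup_disc F G hn hF hG.le
      have h2 : (T ^ c * T ^ (M * c)) ^ n = T ^ (n * (1 + M) * c) := by
        rw [← Real.rpow_add hT0, ← Real.rpow_natCast, ← Real.rpow_mul hT0.le]
        congr 1
        ring
      rw [h2] at h1
      have h3 : finrank ℚ F < finrank ℚ (F ⊔ G : IntermediateField ℚ K) := by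
        by_contra hcon
        apply hGF
        have h4 : F = F ⊔ G :=
          IntermediateField.eq_of_le_of_finrank_le le_sup_left (not_lt.mp hcon)
        rw [h4]
        exact le_sup_right
      have hc' : 0 < n * (1 + M) * c := by positivity
      obtain ⟨F', c', a1, a2, a3, a4, a5⟩ := ih (F ⊔ G) (n * (1 + M) * c) hc' h1 (by omega) (by
        rw [← mul_assoc, ← pow_succ]
        exact hRk)
      refine ⟨F', c', le_sup_left.trans a1, ?_, a3, a4, a5⟩
      refine le_trans ?_ a2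
      nlinarith

theorem local_bound {l : ℕ} (hl : l.Prime) (hl2 : l ≠ 2) (n : ℕ) :
    ∃ (δ : ℝ) (A : ℕ), 0 < δ ∧ ∀ ε : ℝ, 0 < ε → ∃ C : ℝ,
    ∀ (K : Type) [Field K] [NumberField K] (S : IntermediateField ℚ K) (T : ℝ),
      finrank ℚ K = n → 0 < T → T ≤ |(discr K : ℝ)| →
      (∀ F : IntermediateField ℚ K, S ≤ F → F ≠ ⊤ → |(discr F : ℝ)| < T →
        ∃ X : IntermediateField ℚ K, ¬ X ≤ F ∧ AllowedS l (F.comap X.val)) →
      (tl l K : ℝ) ≤ C * |(discr K : ℝ)| ^ (1 / 2 + ε) * |(discr S : ℝ)| ^ A * T ^ (-δ) := by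
  obtain ⟨δ0, A0, hδ0, hstep⟩ := step_unif hl hl2 n
  -- parameters
  set M : ℝ := (2 * A0 + δ0) / δ0 with hM
  have hM0 : 0 < M := by positivity
  have hMδ : δ0 * M = 2 * A0 + δ0 := by rw [hM]; field_simp
  set R : ℝ := n * (1 + M) with hR
  set c0 : ℝ := 1 / (2 * (R + 1) ^ n) with hc0
  have hR0 : 0 ≤ R := by positivity
  have hc00 : 0 < c0 := by positivity
  have hc0R : R ^ n * c0 ≤ 1 / 2 := by
    have h1 : R ^ n ≤ (R + 1) ^ n := pow_le_pow_left₀ hR0 (by linarith) n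
    rw [hc0, mul_one_div, div_le_div_iff₀ (by positivity) (by norm_num)]
    linarith
  refine ⟨c0 * (A0 + δ0), ⌈(A0 : ℝ) + δ0⌉₊, by positivity, fun ε hε => ?_⟩
  obtain ⟨C1, hC1, hstep⟩ := hstep (ε / 2) (by positivity)
  obtain ⟨C2, hC2, hrel⟩ := tl_rel_bound l n (ε / 2) (by positivity)
  obtain ⟨C3, hC3, hcl⟩ := class_number_le n ε hε
  refine ⟨C1 * C2 + C3, ?_⟩
  intro K _ _ S T hn hT0 hTK hcond
  have hDK := one_le_absdiscr K
  have hDS := one_le_absdiscr S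
  have hX : 0 < |(discr K : ℝ)| ^ (1 / 2 + ε) := Real.rpow_pos_of_pos (by linarith) _
  have hδ : 0 < c0 * (A0 + δ0) := by positivity
  have hSA : 1 ≤ |(discr S : ℝ)| ^ ⌈(A0 : ℝ) + δ0⌉₊ := one_le_pow₀ hDS
  have hTp : 0 < T ^ (-(c0 * (A0 + δ0))) := Real.rpow_pos_of_pos hT0 _
  have htriv : (tl l K : ℝ) ≤ C3 * |(discr K : ℝ)| ^ (1 / 2 + ε) := by
    have h1 : (tl l K : ℝ) ≤ Nat.card (ClassGroup (𝓞 K)) := by exact_mod_cast tl_le_class l K
    exact h1.trans (hcl K hn)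
  -- the trivial bound is enough when the remaining factor is at least one
  have hfin1 : 1 ≤ |(discr S : ℝ)| ^ ⌈(A0 : ℝ) + δ0⌉₊ * T ^ (-(c0 * (A0 + δ0))) →
      (tl l K : ℝ) ≤ (C1 * C2 + C3) * |(discr K : ℝ)| ^ (1 / 2 + ε) *
        |(discr S : ℝ)| ^ ⌈(A0 : ℝ) + δ0⌉₊ * T ^ (-(c0 * (A0 + δ0))) := by
    intro h
    have h1 : C3 * |(discr K : ℝ)| ^ (1 / 2 + ε) ≤
        (C1 * C2 + C3) * |(discr K : ℝ)| ^ (1 / 2 + ε) := by
      apply mul_le_mul_of_nonneg_right _ hX.le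
      have : 0 ≤ C1 * C2 := by positivity
      linarith
    rw [mul_assoc _ (|(discr S : ℝ)| ^ _)]
    refine (htriv.trans h1).trans ?_
    exact le_mul_of_one_le_right (by positivity) h
  rcases le_or_gt T 1 with hT1 | hT1
  · apply hfin1
    have h1 : 1 ≤ T ^ (-(c0 * (A0 + δ0))) :=
      Real.one_le_rpow_of_pos_of_le_one_of_nonpos hT0 hT1 (by linarith)
    nlinarith
  by_cases hS : |(discr S : ℝ)| ≤ T ^ c0
  swap
  · push Not at hS
    apply hfin1
    have h1 : T ^ (c0 * (A0 + δ0)) ≤ |(discr S : ℝ)| ^ ⌈(A0 : ℝ) + δ0⌉₊ := by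
      calc T ^ (c0 * (A0 + δ0)) = (T ^ c0) ^ ((A0 : ℝ) + δ0) := Real.rpow_mul hT0.le _ _
        _ ≤ |(discr S : ℝ)| ^ ((A0 : ℝ) + δ0) :=
          Real.rpow_le_rpow (by positivity) hS.le (by positivity)
        _ ≤ |(discr S : ℝ)| ^ ((⌈(A0 : ℝ) + δ0⌉₊ : ℕ) : ℝ) :=
          Real.rpow_le_rpow_of_exponent_le hDS (Nat.le_ceil _)
        _ = _ := Real.rpow_natCast _ _
    rw [Real.rpow_neg hT0.le, ← div_eq_mul_inv, one_le_div (Real.rpow_pos_of_pos hT0 _)]
    exact h1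
  -- the gap
  obtain ⟨F, c, hSF, hc, hF, hc2, hgap⟩ := scale_sub hn hT1 hTK hM0.le n S c0 hc00 hS (by omega)
    (by rw [← hR]; exact hc0R)
  have hFlt : |(discr F : ℝ)| < T := by
    have h2 : T ^ c < T ^ (1 : ℝ) := Real.rpow_lt_rpow_of_exponent_lt hT1 (by linarith)
    rw [Real.rpow_one] at h2
    linarith
  have hFt : F ≠ ⊤ := by
    rintro rfl
    rw [absDiscr_top] at hFlt
    linarith
  obtain ⟨X, hXF, hX'⟩ := hcond F hSF hFt hFlt
  have hc1 : 0 < c := by linarith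
  have hDX := hgap X hXF
  have hT' : 1 ≤ T ^ (M * c) := Real.one_le_rpow hT1.le (by positivity)
  have hmapdisc : ∀ G : IntermediateField ℚ X,
      |(discr (G.map X.val : IntermediateField ℚ K) : ℝ)| = |(discr G : ℝ)| :=
    fun G => (absDiscr_eq_of_equiv (IntermediateField.equivMap G X.val)).symm
  have h1 := hstep X (F.comap X.val) (T ^ (M * c)) (by rw [← hn]; exact finrank_le_top X) hT' hDX
    (by
      intro G hFG hGt hlt
      have h2 : G.map X.val ≤ F := by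
        by_contra hcon
        have h3 := hgap _ hcon
        rw [hmapdisc] at h3
        linarith
      have h3 : G = F.comap X.val := by
        apply le_antisymm _ hFG
        intro x hx
        exact h2 ⟨x, hx, rfl⟩
      rw [h3]
      exact hX'.allowed)
  have hDE : |(discr (F.comap X.val : IntermediateField ℚ X) : ℝ)| ≤ T ^ c := by
    rw [← hmapdisc]
    refine le_trans (discr_le_of_le ?_) hF
    rintro _ ⟨x, hx, rfl⟩
    exact hx
  have h2 := hrel K X hn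
  have hDX1 := one_le_absdiscr X
  have hDXK : |(discr X : ℝ)| ≤ |(discr K : ℝ)| := discr_le_of_algebra K X
  have hTc : (T ^ c) ^ A0 * (T ^ (M * c)) ^ (-δ0) ≤ T ^ (-(c0 * (A0 + δ0))) := by
    rw [← Real.rpow_natCast, ← Real.rpow_mul hT0.le, ← Real.rpow_mul hT0.le,
      ← Real.rpow_add hT0]
    apply Real.rpow_le_rpow_of_exponent_le hT1.le
    have e1 : c * A0 + M * c * -δ0 = -(c * (A0 + δ0)) := by
      have : M * c * -δ0 = -(c * (δ0 * M)) := by ring
      rw [this, hMδ]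
      ring
    rw [e1]
    have e2 : c0 * (A0 + δ0) ≤ c * (A0 + δ0) := mul_le_mul_of_nonneg_right hc (by positivity)
    linarith
  have h3 : (tl l X : ℝ) ≤ C1 * |(discr X : ℝ)| ^ (1 / 2 + ε / 2) * T ^ (-(c0 * (A0 + δ0))) := by
    calc (tl l X : ℝ) ≤ C1 * |(discr X : ℝ)| ^ (1 / 2 + ε / 2) *
          |(discr (F.comap X.val : IntermediateField ℚ X) : ℝ)| ^ A0 * (T ^ (M * c)) ^ (-δ0) := h1
      _ ≤ C1 * |(discr X : ℝ)| ^ (1 / 2 + ε / 2) * (T ^ c) ^ A0 * (T ^ (M * c)) ^ (-δ0) := by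
        apply mul_le_mul_of_nonneg_right _ (Real.rpow_nonneg (by positivity) _)
        apply mul_le_mul_of_nonneg_left _ (by positivity)
        exact pow_le_pow_left₀ (abs_nonneg _) hDE A0
      _ = C1 * |(discr X : ℝ)| ^ (1 / 2 + ε / 2) * ((T ^ c) ^ A0 * (T ^ (M * c)) ^ (-δ0)) := by
        ring
      _ ≤ _ := mul_le_mul_of_nonneg_left hTc (by positivity)
  have hs : 0 < Real.sqrt |(discr X : ℝ)| := Real.sqrt_pos.mpr (by linarith)
  have e1 : |(discr X : ℝ)| ^ (1 / 2 + ε / 2) =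
      Real.sqrt |(discr X : ℝ)| * |(discr X : ℝ)| ^ (ε / 2) := by
    rw [Real.rpow_add (by linarith), Real.sqrt_eq_rpow]
  have e2 : |(discr K : ℝ)| ^ (1 / 2 + ε) = Real.sqrt |(discr K : ℝ)| *
      (|(discr K : ℝ)| ^ (ε / 2) * |(discr K : ℝ)| ^ (ε / 2)) := by
    rw [← Real.rpow_add (by linarith), Real.sqrt_eq_rpow, ← Real.rpow_add (by linarith)]
    congr 1
    ring
  have e3 : |(discr X : ℝ)| ^ (ε / 2) ≤ |(discr K : ℝ)| ^ (ε / 2) :=
    Real.rpow_le_rpow (by linarith) hDXK (by positivity)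
  have h4 : (tl l K : ℝ) ≤ C1 * C2 * |(discr K : ℝ)| ^ (1 / 2 + ε) *
      T ^ (-(c0 * (A0 + δ0))) := by
    refine le_of_mul_le_mul_right ?_ hs
    calc (tl l K : ℝ) * Real.sqrt |(discr X : ℝ)|
        ≤ C2 * tl l X * |(discr K : ℝ)| ^ (ε / 2) * Real.sqrt |(discr K : ℝ)| := h2
      _ = (C2 * |(discr K : ℝ)| ^ (ε / 2) * Real.sqrt |(discr K : ℝ)|) * tl l X := by ring
      _ ≤ (C2 * |(discr K : ℝ)| ^ (ε / 2) * Real.sqrt |(discr K : ℝ)|) *
          (C1 * |(discr X : ℝ)| ^ (1 / 2 + ε / 2) * T ^ (-(c0 * (A0 + δ0)))) :=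
        mul_le_mul_of_nonneg_left h3 (by positivity)
      _ = (C1 * C2 * |(discr K : ℝ)| ^ (ε / 2) * Real.sqrt |(discr K : ℝ)| *
          T ^ (-(c0 * (A0 + δ0))) * Real.sqrt |(discr X : ℝ)|) * |(discr X : ℝ)| ^ (ε / 2) := by
        rw [e1]; ring
      _ ≤ (C1 * C2 * |(discr K : ℝ)| ^ (ε / 2) * Real.sqrt |(discr K : ℝ)| *
          T ^ (-(c0 * (A0 + δ0))) * Real.sqrt |(discr X : ℝ)|) * |(discr K : ℝ)| ^ (ε / 2) :=
        mul_le_mul_of_nonneg_left e3 (by positivity)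
      _ = _ := by rw [e2]; ring
  calc (tl l K : ℝ) ≤ C1 * C2 * |(discr K : ℝ)| ^ (1 / 2 + ε) * T ^ (-(c0 * (A0 + δ0))) := h4
    _ ≤ (C1 * C2 + C3) * |(discr K : ℝ)| ^ (1 / 2 + ε) * T ^ (-(c0 * (A0 + δ0))) := by
      apply mul_le_mul_of_nonneg_right _ hTp.le
      apply mul_le_mul_of_nonneg_right _ hX.le
      linarith
    _ ≤ (C1 * C2 + C3) * |(discr K : ℝ)| ^ (1 / 2 + ε) *
        |(discr S : ℝ)| ^ ⌈(A0 : ℝ) + δ0⌉₊ * T ^ (-(c0 * (A0 + δ0))) := by
      apply mul_le_mul_of_nonneg_right _ hTp.le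
      exact le_mul_of_one_le_right (by positivity) hSA

end Pool.Agent.Lib.MP_695920_nt.Gl
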