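import Mathlib
import Pool.Agent.Lib.MP_695920_nt.Gl.Defs
import Pool.Agent.Lib.MP_695920_nt.Od.Cover
import Pool.Agent.Lib.MP_695920_nt.Od.Seq

set_option autoImplicit false

open Finset NumberField Module IsDedekindDomain
open scoped nonZeroDivisors Pointwise

namespace Pool.Agent.Lib.MP_695920_nt.Gl

/-- the arithmetic part of the construction -/
lemma p4_core_l {l : ℕ} (hl : l.Prime) (hl2 : l ≠ 2) {E : Type} [Field E] [NumberField E]
    (A0 : Ideal (𝓞 E)) (A Q : ℕ) (hA : Ideal.absNorm A0 = A)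
    (hA3 : A % l = l - 1) (hQ : 0 < Q) (hQ3 : ¬ l ∣ Q) (R : ℕ)
    (hcov : ∀ x : E, ∃ β : 𝓞 E, ∀ φ : E →+* ℂ, ‖φ (x - β)‖ ≤ (R : ℝ)) :
    ∃ I : ℕ → Ideal (𝓞 E), ∀ m : ℕ,
        Ideal.absNorm (I m) % l = l - 1 ∧
        (Ideal.absNorm (I m) : ℝ) ≤ (l * Q * A * (R + (m + (R + 1)))) ^ finrank ℚ E ∧
        (∀ p : ℕ, p.Prime → p ∣ Q → ∀ q : Ideal (𝓞 E), q.IsPrime → (p : 𝓞 E) ∈ q → ¬ q ∣ I m) ∧
        ∀ m' p : ℕ, p.Prime → ∀ q : Ideal (𝓞 E), q.IsPrime → (p : 𝓞 E) ∈ q → q ∣ I m →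
          q ∣ I m' → m ≡ m' [MOD p] := by
  have hl3 : 3 ≤ l := by
    have := hl.two_le
    omega
  have hlpos : 0 < l := by omega
  have : Fact l.Prime := ⟨hl⟩
  have hApos : 0 < A := by
    rcases Nat.eq_zero_or_pos A with h | h
    · rw [h, Nat.zero_mod] at hA3
      omega
    · exact h
  have hAz : ((A : ℕ) : ZMod l) = -1 := by
    have h1 : ((A % l : ℕ) : ZMod l) = ((A : ℕ) : ZMod l) := ZMod.natCast_mod A l
    rw [← h1, hA3, Nat.cast_sub (by omega)]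
    simp
  have hA0 : A0 ≠ 0 := by
    intro h
    rw [h, Ideal.zero_eq_bot, Ideal.absNorm_bot] at hA
    omega
  have hAmem : (A : 𝓞 E) ∈ A0 := by
    rw [← hA]; exact Ideal.absNorm_mem A0
  -- (Q A) + (a1) = A0
  have hQA : ((Q : 𝓞 E) * A) ∈ A0 := Ideal.mul_mem_left _ _ hAmem
  have hQA0 : ((Q : 𝓞 E) * A) ≠ 0 := by
    apply mul_ne_zero <;> exact_mod_cast (by omega)
  obtain ⟨a1, ha1⟩ := IsDedekindDomain.exists_sup_span_eq
    (I := Ideal.span {((Q : 𝓞 E) * A)}) (J := A0)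
    ((Ideal.span_singleton_le_iff_mem _).mpr hQA) (by
      rw [Ideal.zero_eq_bot, Ne, Ideal.span_singleton_eq_bot]; exact hQA0)
  obtain ⟨e, he⟩ : ∃ e, l - 1 = e + 1 := ⟨l - 2, by omega⟩
  set a0 : 𝓞 E := a1 + ((Q : 𝓞 E) * A) * (((Q : 𝓞 E) * A) ^ e * (1 - a1)) with ha0
  have ha0mem : a0 ∈ A0 := by
    have h1 : a1 ∈ A0 := by
      rw [← ha1]; exact Ideal.mem_sup_right (Ideal.mem_span_singleton_self a1)
    apply Ideal.add_mem _ h1
    exact Ideal.mul_mem_right _ _ hQA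
  have hgen : ∀ J : Ideal (𝓞 E), ((Q : 𝓞 E) * A) ∈ J → a0 ∈ J → A0 ≤ J := by
    intro J h1 h2
    rw [← ha1, sup_le_iff, Ideal.span_singleton_le_iff_mem, Ideal.span_singleton_le_iff_mem]
    refine ⟨h1, ?_⟩
    have h3 : a1 = a0 - ((Q : 𝓞 E) * A) * (((Q : 𝓞 E) * A) ^ e * (1 - a1)) := by
      rw [ha0]; ring
    rw [h3]
    exact Ideal.sub_mem _ h2 (Ideal.mul_mem_right _ _ h1)
  -- the reduced element
  obtain ⟨β, hβ⟩ := hcov ((a0 : E) / (l * Q * A))
  set α : 𝓞 E := a0 - l * Q * A * β with hα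
  have hαbd : ∀ φ : E →+* ℂ, ‖φ (α : E)‖ ≤ l * Q * A * R := by
    intro φ
    have hD : ((l : E) * (Q : E) * A) ≠ 0 := by
      have h1 : (Q : E) ≠ 0 := by exact_mod_cast hQ.ne'
      have h2 : (A : E) ≠ 0 := by exact_mod_cast hApos.ne'
      have h3 : (l : E) ≠ 0 := by exact_mod_cast hlpos.ne'
      exact mul_ne_zero (mul_ne_zero h3 h1) h2
    have h1 : (α : E) = (l * Q * A) * ((a0 : E) / (l * Q * A) - β) := by
      have e1 : (α : E) = (a0 : E) - l * Q * A * β := by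
        rw [hα]; simp only [map_sub, map_mul, map_natCast]
      have e2 : ((l : E) * (Q : E) * A) * ((a0 : E) / (l * Q * A)) = a0 := mul_div_cancel₀ _ hD
      rw [e1, mul_sub, e2]
    rw [h1, map_mul, norm_mul]
    have h2 : ‖φ ((l : E) * (Q : E) * A)‖ = l * Q * A := by
      rw [map_mul, map_mul, map_natCast, map_natCast, map_natCast]
      simp
    rw [h2]
    exact mul_le_mul_of_nonneg_left (hβ φ) (by positivity)
  -- l divides alpha - 1
  have hQAsq : ∃ t : ℕ, (Q * A) ^ (e + 1) = 1 + l * t := by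
    have hz : (((Q * A : ℕ)) : ZMod l) ≠ 0 := by
      rw [Nat.cast_mul, hAz]
      intro h
      apply hQ3
      have h2 : ((Q : ℕ) : ZMod l) = 0 := by
        simpa using h
      exact (ZMod.natCast_eq_zero_iff Q l).mp h2
    have h1 := ZMod.pow_card_sub_one_eq_one hz
    rw [he] at h1
    have h2 : (((Q * A) ^ (e + 1) : ℕ) : ZMod l) = ((1 : ℕ) : ZMod l) := by
      rw [Nat.cast_pow, h1, Nat.cast_one]
    have h3 : 1 ≡ (Q * A) ^ (e + 1) [MOD l] := ((ZMod.natCast_eq_natCast_iff _ _ _).mp h2).symm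
    have h4 : 1 ≤ (Q * A) ^ (e + 1) := Nat.one_le_pow _ _ (Nat.mul_pos hQ hApos)
    obtain ⟨t, ht⟩ := (Nat.modEq_iff_dvd' h4).mp h3
    exact ⟨t, by omega⟩
  obtain ⟨t, ht⟩ := hQAsq
  have hα1 : α = 1 + l * ((t : 𝓞 E) * (1 - a1) - Q * A * β) := by
    have h1 : ((Q : 𝓞 E) * A) ^ (e + 1) = 1 + l * t := by
      exact_mod_cast congrArg (Nat.cast (R := 𝓞 E)) ht
    have h2 : a0 = a1 + ((Q : 𝓞 E) * A) ^ (e + 1) * (1 - a1) := by
      rw [ha0, pow_succ]; ring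
    rw [hα, h2, h1]; ring
  have hαmem : α ∈ A0 := by
    rw [hα]
    apply Ideal.sub_mem _ ha0mem
    exact Ideal.mul_mem_right _ _ (Ideal.mul_mem_left _ _ hAmem)
  -- the sequence of elements
  set al : ℕ → 𝓞 E := fun m => α + ((l * Q * A * (m + (R + 1)) : ℕ) : 𝓞 E) with hal
  have halmem : ∀ m, al m ∈ A0 := by
    intro m
    apply Ideal.add_mem _ hαmem
    have : (((l * Q * A * (m + (R + 1)) : ℕ)) : 𝓞 E) = (l * Q) * ((m + (R + 1)) : ℕ) * A := by
      push_cast; ring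
    rw [this]
    exact Ideal.mul_mem_left _ _ hAmem
  have hal1 : ∀ m, ∃ g : 𝓞 E, al m = 1 + ((l : ℕ) : 𝓞 E) * g := by
    intro m
    refine ⟨((t : 𝓞 E) * (1 - a1) - Q * A * β) + ((Q * A * (m + (R + 1)) : ℕ) : 𝓞 E), ?_⟩
    simp only [hal]
    rw [hα1]; push_cast; ring
  have hlR : (0 : ℝ) < l := by exact_mod_cast hlpos
  have hQR : (0 : ℝ) < Q := by exact_mod_cast hQ
  have hAR : (0 : ℝ) < A := by exact_mod_cast hApos
  have hpos : ∀ m, 0 < Algebra.norm ℤ (al m) := by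
    intro m
    have hM : (0:ℝ) < l * Q * A * (m + (R + 1)) := by positivity
    have h1 := Od.p4_norm_pos (α : E) (l * Q * A * (m + (R + 1))) hM
      ((l * Q * A * (m + (R + 1)) : ℕ) : ℚ) (by push_cast; ring) (by
        intro φ
        refine lt_of_le_of_lt (hαbd φ) ?_
        have : (0:ℝ) < l * Q * A := by positivity
        have h2 : (0:ℝ) ≤ (m : ℝ) := by positivity
        exact mul_lt_mul_of_pos_left (by linarith) this)
    have h2 : (α : E) + (((l * Q * A * (m + (R + 1)) : ℕ) : ℚ) : E) = ((al m : 𝓞 E) : E) := by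
      simp only [hal, map_add, map_natCast]; push_cast; ring
    rw [h2, ← Algebra.coe_norm_int] at h1
    exact_mod_cast h1
  have hmod : ∀ m, (((Algebra.norm ℤ (al m)).natAbs : ℕ) : ZMod l) = 1 := by
    intro m
    obtain ⟨g, hg⟩ := hal1 m
    have h1 := Od.p4_norm_one_add l g
    rw [← hg] at h1
    have h3 := hpos m
    have h4 : (((Algebra.norm ℤ (al m)).natAbs : ℕ) : ℤ) = Algebra.norm ℤ (al m) :=
      Int.natAbs_of_nonneg h3.le
    have h5 : (((Algebra.norm ℤ (al m)).natAbs : ℕ) : ZMod l) =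
        ((((Algebra.norm ℤ (al m)).natAbs : ℕ) : ℤ) : ZMod l) := by simp
    rw [h5, h4, h1]
  have hdiv : ∀ m, ∃ I : Ideal (𝓞 E), Ideal.span {al m} = A0 * I := by
    intro m
    exact Ideal.dvd_iff_le.mpr ((Ideal.span_singleton_le_iff_mem _).mpr (halmem m))
  choose I hI using hdiv
  have hnorm : ∀ m, A * Ideal.absNorm (I m) = (Algebra.norm ℤ (al m)).natAbs := by
    intro m
    rw [← Ideal.absNorm_span_singleton, hI m, map_mul, hA]
  have hIq : ∀ m (q : Ideal (𝓞 E)), q ∣ I m → al m ∈ A0 * q := by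
    intro m q hq
    have h1 : A0 * I m ≤ A0 * q := Ideal.mul_mono_right (Ideal.dvd_iff_le.mp hq)
    apply h1
    rw [← hI m]; exact Ideal.mem_span_singleton_self _
  have hcontra : ∀ q : Ideal (𝓞 E), q.IsPrime → ¬ A0 ≤ A0 * q := by
    intro q hq hle
    have h1 : A0 * q = A0 := le_antisymm Ideal.mul_le_left hle
    have h2 : A0 * q = A0 * 1 := by rw [h1, mul_one]
    have h3 := mul_left_cancel₀ hA0 h2
    exact hq.ne_top (by rw [h3, Ideal.one_eq_top])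
  have hkey : ∀ m (q : Ideal (𝓞 E)), ((Q : 𝓞 E) * A) ∈ A0 * q → al m ∈ A0 * q → A0 ≤ A0 * q := by
    intro m q h1 h2
    apply hgen _ h1
    have h3 : a0 = al m - ((Q : 𝓞 E) * A) * (l * ((m + (R + 1) : ℕ) : 𝓞 E) - l * β) := by
      simp only [hal]
      rw [hα]; push_cast; ring
    rw [h3]
    exact Ideal.sub_mem _ h2 (Ideal.mul_mem_right _ _ h1)
  have hc : ∀ m, ∀ p : ℕ, p.Prime → p ∣ Q → ∀ q : Ideal (𝓞 E), q.IsPrime → (p : 𝓞 E) ∈ q →
      ¬ q ∣ I m := by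
    intro m p hp hpQ q hq hpq hdvd
    apply hcontra q hq
    apply hkey m q _ (hIq m q hdvd)
    obtain ⟨r, hr⟩ := hpQ
    have h1 : (Q : 𝓞 E) * A = A * ((p : 𝓞 E) * r) := by rw [hr]; push_cast; ring
    rw [h1]
    exact Ideal.mul_mem_mul hAmem (Ideal.mul_mem_right _ _ hpq)
  refine ⟨I, fun m => ⟨?_, ?_, hc m, ?_⟩⟩
  · have h1 := hnorm m
    have h2 := hmod m
    rw [← h1, Nat.cast_mul, hAz] at h2
    have h3 : ((Ideal.absNorm (I m) : ℕ) : ZMod l) = ((l - 1 : ℕ) : ZMod l) := by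
      rw [Nat.cast_sub (by omega)]
      simp only [CharP.cast_eq_zero, Nat.cast_one, zero_sub]
      linear_combination -h2
    have h4 := (ZMod.natCast_eq_natCast_iff' _ _ _).mp h3
    rw [h4]
    exact Nat.mod_eq_of_lt (by omega)
  · have h1 := Od.p4_norm_le (al m) (l * Q * A * (R + (m + (R + 1)))) (by
      intro φ
      have h2 : ((al m : 𝓞 E) : E) = (α : E) + (((l * Q * A * (m + (R + 1)) : ℕ)) : E) := by
        simp only [hal, map_add, map_natCast]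
      rw [h2, map_add, map_natCast]
      refine (norm_add_le _ _).trans ?_
      have h3 := hαbd φ
      rw [Complex.norm_natCast]
      push_cast
      nlinarith)
    rw [← hnorm m] at h1
    refine le_trans ?_ h1
    push_cast
    have h2 : (1:ℝ) ≤ A := by exact_mod_cast hApos
    have h3 : (0:ℝ) ≤ (Ideal.absNorm (I m) : ℝ) := by positivity
    nlinarith
  · intro m' p hp q hq hpq hm hm'
    by_contra hne
    by_cases h3 : p = l
    · -- al m is 1 modulo l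
      obtain ⟨g, hg⟩ := hal1 m
      have h1 : al m ∈ q := Ideal.mul_le_right (hIq m q hm)
      have h2 : ((l : ℕ) : 𝓞 E) ∈ q := by rw [← h3]; exact hpq
      have h4 : (1 : 𝓞 E) ∈ q := by
        have : (1 : 𝓞 E) = al m - ((l : ℕ) : 𝓞 E) * g := by rw [hg]; ring
        rw [this]
        exact Ideal.sub_mem _ h1 (Ideal.mul_mem_right _ _ h2)
      exact hq.ne_top ((Ideal.eq_top_iff_one q).mpr h4)
    · by_cases hpQ : p ∣ Q
      · exact hc m p hp hpQ q hq hpq hm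
      · -- coprimality
        apply hcontra q hq
        apply hkey m q _ (hIq m q hm)
        have h5 : IsCoprime (((l : ℤ) * Q * ((m : ℤ) - m')) : ℤ) (p : ℤ) := by
          have hpZ : Prime (p : ℤ) := Nat.prime_iff_prime_int.mp hp
          rw [isCoprime_comm, hpZ.coprime_iff_not_dvd]
          intro hd
          rcases hpZ.dvd_or_dvd hd with h | h
          · rcases hpZ.dvd_or_dvd h with h' | h'
            · have : p ∣ l := by exact_mod_cast h'
              exact h3 ((Nat.prime_dvd_prime_iff_eq hp hl).mp this)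
            · exact hpQ (by exact_mod_cast h')
          · apply hne
            have : (m' : ℤ) ≡ m [ZMOD p] := (Int.modEq_iff_dvd).mpr h
            exact (Int.natCast_modEq_iff.mp this).symm
        obtain ⟨u, v, huv⟩ := h5
        have h6 : al m - al m' = (((l : ℤ) * Q * ((m : ℤ) - m') : ℤ) : 𝓞 E) * A := by
          simp only [hal]; push_cast; ring
        have h7 : (((l : ℤ) * Q * ((m : ℤ) - m') : ℤ) : 𝓞 E) * A ∈ A0 * q := by
          rw [← h6]; exact Ideal.sub_mem _ (hIq m q hm) (hIq m' q hm')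
        have h8 : (p : 𝓞 E) * A ∈ A0 * q := by
          rw [mul_comm (p : 𝓞 E)]; exact Ideal.mul_mem_mul hAmem hpq
        have h9 : (A : 𝓞 E) = (u : 𝓞 E) * ((((l : ℤ) * Q * ((m : ℤ) - m') : ℤ) : 𝓞 E) * A) +
            (v : 𝓞 E) * ((p : 𝓞 E) * A) := by
          have h10 : ((u * ((l : ℤ) * Q * ((m : ℤ) - m')) + v * p : ℤ) : 𝓞 E) = 1 := by
            rw [huv]; simp
          push_cast at h10 ⊢
          linear_combination (-(A : 𝓞 E)) * h10
        apply Ideal.mul_mem_left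
        rw [h9]
        exact Ideal.add_mem _ (Ideal.mul_mem_left _ _ h7) (Ideal.mul_mem_left _ _ h8)

theorem ideal_seq_l_aux {l : ℕ} (hl : l.Prime) (hl2 : l ≠ 2) (n : ℕ)
    (small : ∃ C : ℕ,
      ∀ (E : Type) [Field E] [NumberField E], finrank ℚ E = n → RC l E → NC l E →
      ∀ w : ℕ, 2 ≤ w → |(discr E : ℝ)| ≤ w →
        ∃ A : Ideal (𝓞 E), Ideal.absNorm A % l = l - 1 ∧ Ideal.absNorm A ≤ w ^ C) : ∃ C : ℕ,
    ∀ (E : Type) [Field E] [NumberField E], finrank ℚ E = n → RC l E → NC l E →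
    ∀ w : ℕ, 2 ≤ w → |(discr E : ℝ)| ≤ w →
      ∀ Q : ℕ, 0 < Q → ¬ l ∣ Q → ∃ I : ℕ → Ideal (𝓞 E), ∀ m : ℕ,
        Ideal.absNorm (I m) % l = l - 1 ∧ Ideal.absNorm (I m) ≤ (w ^ C * Q * (m + 1)) ^ n ∧
        (∀ p : ℕ, p.Prime → p ∣ Q → ∀ q : Ideal (𝓞 E), q.IsPrime → (p : 𝓞 E) ∈ q → ¬ q ∣ I m) ∧
        ∀ m' p : ℕ, p.Prime → ∀ q : Ideal (𝓞 E), q.IsPrime → (p : 𝓞 E) ∈ q → q ∣ I m →
          q ∣ I m' → m ≡ m' [MOD p] := by
  obtain ⟨C₁, h1⟩ := Od.cover n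
  obtain ⟨C₂, h2⟩ := small
  refine ⟨C₁ + C₂ + (l + 2), ?_⟩
  intro E _ _ hn hR hE w hw hdisc Q hQ hQ3
  obtain ⟨A0, hA3, hAle⟩ := h2 E hn hR hE w hw hdisc
  obtain ⟨I, hI⟩ := p4_core_l hl hl2 A0 (Ideal.absNorm A0) Q rfl hA3 hQ hQ3 (w ^ C₁) (by
    intro x
    obtain ⟨β, hβ⟩ := h1 E hn w hw hdisc x
    exact ⟨β, fun φ => by push_cast; exact hβ φ⟩)
  refine ⟨I, fun m => ?_⟩
  obtain ⟨e1, e2, e3, e4⟩ := hI m
  refine ⟨e1, ?_, e3, e4⟩
  rw [hn] at e2
  have e5 : (Ideal.absNorm (I m)) ≤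
      (l * Q * Ideal.absNorm A0 * (w ^ C₁ + (m + (w ^ C₁ + 1)))) ^ n := by
    exact_mod_cast e2
  refine e5.trans (Nat.pow_le_pow_left ?_ n)
  have hw1 : 1 ≤ w ^ C₁ := Nat.one_le_pow _ _ (by omega)
  have hw4 : l * 4 ≤ w ^ (l + 2) := by
    calc l * 4 ≤ 2 ^ l * 2 ^ 2 := by
          have : l < 2 ^ l := Nat.lt_two_pow_self
          omega
      _ = 2 ^ (l + 2) := by rw [pow_add]
      _ ≤ w ^ (l + 2) := Nat.pow_le_pow_left hw _
  calc l * Q * Ideal.absNorm A0 * (w ^ C₁ + (m + (w ^ C₁ + 1)))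
      ≤ l * Q * w ^ C₂ * (4 * w ^ C₁ * (m + 1)) := by
        apply Nat.mul_le_mul
        · exact Nat.mul_le_mul_left _ hAle
        · nlinarith
    _ = (l * 4) * (w ^ (C₁ + C₂) * Q * (m + 1)) := by rw [pow_add]; ring
    _ ≤ w ^ (l + 2) * (w ^ (C₁ + C₂) * Q * (m + 1)) := Nat.mul_le_mul_right _ hw4
    _ = w ^ (C₁ + C₂ + (l + 2)) * Q * (m + 1) := by rw [pow_add w (C₁ + C₂) (l + 2)]; ring

end Pool.Agent.Lib.MP_695920_nt.Gl
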